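import Pool.Agent.TH54.BU.BurnDef

set_option autoImplicit false

/-! # The free Burnside group on two generators is infinite (helper714) -/

namespace Pool.Agent.TH54.BU

theorem Burn.infinite {p : ℕ} (hp : p.Prime) (h : Burn p) :
    Infinite (FreeGroup (Fin 2) ⧸ powSub (FreeGroup (Fin 2)) p) := by
  obtain ⟨A, _, z, φ, hφ, hker, hz, hzinf, hpow, hcomm⟩ := h (Fin 2)
  by_contra hfin
  have hfin' : Finite (FreeGroup (Fin 2) ⧸ powSub (FreeGroup (Fin 2)) p) :=
    not_infinite_iff_finite.1 hfin
  -- `A` is torsion free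
  have htf : ∀ a : A, IsOfFinOrder a → a = 1 := by
    intro a ha
    by_cases hmem : a ∈ Subgroup.zpowers z
    · obtain ⟨j, rfl⟩ := Subgroup.mem_zpowers_iff.1 hmem
      by_cases hj : j = 0
      · rw [hj, zpow_zero]
      · exfalso
        apply hzinf
        rw [isOfFinOrder_iff_zpow_eq_one] at ha ⊢
        obtain ⟨n, hn, hn1⟩ := ha
        exact ⟨j * n, mul_ne_zero hj hn, by rw [zpow_mul, hn1]⟩
    · exfalso
      obtain ⟨k, hk, hpk⟩ := hpow a hmem
      have hk0 : k ≠ 0 := by
        rintro rfl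
        exact hpk (dvd_zero _)
      apply hzinf
      have h1 : IsOfFinOrder (z ^ k) := by rw [← hk]; exact ha.pow
      rw [isOfFinOrder_iff_zpow_eq_one] at h1 ⊢
      obtain ⟨n, hn, hn1⟩ := h1
      exact ⟨k * n, mul_ne_zero hk0 hn, by rw [zpow_mul, hn1]⟩
  -- the centre has finite index
  have hle : φ.ker ≤ Subgroup.center A := by
    rw [hker, Subgroup.zpowers_le, Subgroup.mem_center_iff]
    exact fun g => hz g
  have hkfin : φ.ker.FiniteIndex := by
    have : Finite φ.range := inferInstance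
    exact Subgroup.finiteIndex_ker φ
  have hcfin : (Subgroup.center A).FiniteIndex := Subgroup.finiteIndex_of_le hle
  have hab : ∀ a b : A, a * b = b * a := by
    intro a b
    have h1 : (MonoidHom.transferCenterPow A) (a * b) = (MonoidHom.transferCenterPow A) (b * a) := by
      rw [map_mul, map_mul]
      apply Subtype.ext
      exact (Subgroup.mem_center_iff.1 ((MonoidHom.transferCenterPow A) b).2 _)
    have h2 : (MonoidHom.transferCenterPow A) (a * b * (b * a)⁻¹) = 1 := by
      rw [map_mul, map_inv, h1, mul_inv_cancel]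
    have h3 : (a * b * (b * a)⁻¹) ^ (Subgroup.center A).index = 1 := by
      rw [← MonoidHom.transferCenterPow_apply, h2]
      rfl
    have h4 := htf _ (isOfFinOrder_iff_pow_eq_one.2
      ⟨_, Nat.pos_of_ne_zero hcfin.index_ne_zero, h3⟩)
    exact mul_inv_eq_one.1 h4
  apply hcomm 0 1 (by decide)
  obtain ⟨a, ha⟩ := hφ (FreeGroup.of 0 : FreeGroup (Fin 2))
  obtain ⟨b, hb⟩ := hφ (FreeGroup.of 1 : FreeGroup (Fin 2))
  rw [← ha, ← hb, ← map_mul, ← map_mul, hab]

end Pool.Agent.TH54.BU
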