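import Mathlib

set_option autoImplicit false

/-!
# The laws of the wreath products `C_p wr C_n`, `n` odd (helper714)
-/

namespace Pool.Agent.TH54.BU

/-- the base part of a word of a wreath product, at a point -/
def bval {D Q : Type*} [Group D] [Group Q] (f : ℕ → Q → D) (q : ℕ → Q) :
    List (ℕ × Bool) → Q → D
  | [], _ => 1
  | (i, true) :: L, x => f i x * bval f q L ((q i)⁻¹ * x)
  | (i, false) :: L, x => (f i (q i * x))⁻¹ * bval f q L (q i * x)

/-- the points where the functions are evaluated -/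
def wpts {Q : Type*} [Group Q] (q : ℕ → Q) : List (ℕ × Bool) → Q → List Q
  | [], _ => []
  | (i, true) :: L, x => x :: wpts q L ((q i)⁻¹ * x)
  | (i, false) :: L, x => (q i * x) :: wpts q L (q i * x)

theorem lift_left {D Q : Type*} [Group D] [Group Q] (f : ℕ → Q → D) (q : ℕ → Q)
    (L : List (ℕ × Bool)) : ∀ x : Q,
    (FreeGroup.lift (fun i => (⟨f i, q i⟩ : RegularWreathProduct D Q)) (FreeGroup.mk L)).left x
      = bval f q L x := by
  induction L with
  | nil => intro x; rfl
  | cons a L ih =>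
    intro x
    obtain ⟨i, b⟩ := a
    rw [FreeGroup.lift_mk] at ih ⊢
    cases b
    · simp only [List.map_cons, List.prod_cons, cond_false, RegularWreathProduct.mul_left,
        Pi.mul_apply, RegularWreathProduct.inv_left, RegularWreathProduct.inv_right, inv_inv,
        Pi.inv_apply, bval]
      rw [ih]
    · simp only [List.map_cons, List.prod_cons, cond_true, RegularWreathProduct.mul_left,
        Pi.mul_apply, bval]
      rw [ih]

theorem bval_map {D Q Q' : Type*} [Group D] [Group Q] [Group Q'] (α : Q →* Q')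
    (f : ℕ → Q → D) (q : ℕ → Q) (f' : ℕ → Q' → D) (L : List (ℕ × Bool)) : ∀ x : Q,
    (∀ y ∈ wpts q L x, ∀ i, f' i (α y) = f i y) →
    bval f' (fun i => α (q i)) L (α x) = bval f q L x := by
  induction L with
  | nil => intro x _; rfl
  | cons a L ih =>
    intro x hx
    obtain ⟨i, b⟩ := a
    cases b
    · simp only [bval, wpts, List.mem_cons] at hx ⊢
      rw [← map_mul, hx _ (Or.inl rfl), ih _ fun y hy => hx y (Or.inr hy)]
    · simp only [bval, wpts, List.mem_cons] at hx ⊢
      rw [hx _ (Or.inl rfl), ← map_inv, ← map_mul, ih _ fun y hy => hx y (Or.inr hy)]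

theorem bval_pull {D D' Q Q' : Type*} [Group D] [Group D'] [Group Q] [Group Q'] (α : Q →* Q')
    (χ : D →* D') (f : ℕ → Q' → D) (q : ℕ → Q) (c : Q') (L : List (ℕ × Bool)) : ∀ x : Q,
    bval (fun i y => χ (f i (α y * c))) q L x = χ (bval f (fun i => α (q i)) L (α x * c)) := by
  induction L with
  | nil => intro x; simp [bval]
  | cons a L ih =>
    intro x
    obtain ⟨i, b⟩ := a
    cases b
    · simp only [bval]
      rw [ih, map_mul χ, map_inv χ, map_mul α, mul_assoc]
    · simp only [bval]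
      rw [ih, map_mul χ, map_mul α, map_inv α, mul_assoc]

/-- the exponent sums -/
noncomputable def esum : FreeGroup ℕ →* Multiplicative (ℕ →₀ ℤ) :=
  FreeGroup.lift fun i => Multiplicative.ofAdd (Finsupp.single i 1)

/-- finitely many points can be separated by a homomorphism to a cyclic group of odd order -/
theorem exists_sep (S : Finset (ℕ →₀ ℤ)) : ∃ (n : ℕ) (ρ : (ℕ →₀ ℤ) →+ ZMod n), 1 ≤ n ∧ Odd n ∧
    ∀ x ∈ S, ∀ y ∈ S, ρ x = ρ y → x = y := by
  classical
  let P : (ℕ →₀ ℤ) → Polynomial ℤ := fun d =>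
    ∑ i ∈ d.support, Polynomial.C (d i) * Polynomial.X ^ i
  have hP : ∀ d, P d = 0 → d = 0 := by
    intro d hd
    ext i
    have h1 : (P d).coeff i = 0 := by rw [hd, Polynomial.coeff_zero]
    simp only [P, Polynomial.finsetSum_coeff, Polynomial.coeff_C_mul_X_pow] at h1
    rw [Finsupp.coe_zero, Pi.zero_apply]
    by_contra h2
    rw [Finset.sum_eq_single i] at h1
    · rw [if_pos rfl] at h1; exact h2 h1
    · intro b _ hb; rw [if_neg hb.symm]
    · intro h3; rw [if_pos rfl]; exact Finsupp.notMem_support_iff.1 h3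
  let D : Finset (ℕ →₀ ℤ) := ((S ×ˢ S).image fun a => a.1 - a.2).erase 0
  have hR : (∏ d ∈ D, P d) ≠ 0 := by
    rw [Finset.prod_ne_zero_iff]
    intro d hd h0
    exact (Finset.mem_erase.1 hd).1 (hP d h0)
  obtain ⟨M, hM⟩ : ∃ M : ℤ, (∏ d ∈ D, P d).eval M ≠ 0 := by
    by_contra hc
    push Not at hc
    apply hR
    apply Polynomial.eq_zero_of_infinite_isRoot
    have : {x : ℤ | Polynomial.IsRoot (∏ d ∈ D, P d) x} = Set.univ := by
      ext x
      simp only [Set.mem_univ, iff_true]
      exact hc x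
    rw [this]
    exact Set.infinite_univ
  let ψ : (ℕ →₀ ℤ) →+ ℤ := (Finsupp.linearCombination ℤ fun i : ℕ => M ^ i).toAddMonoidHom
  have hψ : ∀ d, ψ d = (P d).eval M := by
    intro d
    change Finsupp.linearCombination ℤ (fun i : ℕ => M ^ i) d = _
    rw [Finsupp.linearCombination_apply, Finsupp.sum, Polynomial.eval_finsetSum]
    refine Finset.sum_congr rfl fun i _ => ?_
    simp
  have hψ0 : ∀ d ∈ D, ψ d ≠ 0 := by
    intro d hd h0
    apply hM
    rw [Polynomial.eval_prod]
    apply Finset.prod_eq_zero hd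
    rw [← hψ, h0]
  let n : ℕ := 2 * (∑ d ∈ D, (ψ d).natAbs) + 1
  refine ⟨n, (Int.castAddHom (ZMod n)).comp ψ, by omega, ⟨_, rfl⟩, ?_⟩
  intro x hx y hy hxy
  by_contra hne
  have hd : x - y ∈ D := by
    rw [Finset.mem_erase]
    exact ⟨sub_ne_zero.2 hne, Finset.mem_image.2 ⟨(x, y), Finset.mem_product.2 ⟨hx, hy⟩, rfl⟩⟩
  have h1 : ((ψ (x - y) : ℤ) : ZMod n) = 0 := by
    rw [map_sub, Int.cast_sub]
    exact sub_eq_zero.2 hxy
  rw [ZMod.intCast_zmod_eq_zero_iff_dvd] at h1
  have h2 := Int.natAbs_dvd_natAbs.2 h1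
  have h3 := Nat.le_of_dvd (Int.natAbs_pos.2 (hψ0 _ hd)) h2
  have h4 : (ψ (x - y)).natAbs ≤ ∑ d ∈ D, (ψ d).natAbs :=
    Finset.single_le_sum (f := fun d => (ψ d).natAbs) (fun _ _ => Nat.zero_le _) hd
  simp only [Int.natAbs_natCast] at h3
  omega

/-- the Kaluzhnin-Krasner embedding -/
noncomputable def kk {H : Type} [Group H] (N : Subgroup H) [N.Normal] :
    H →* RegularWreathProduct N (H ⧸ N) :=
  MonoidHom.mk' (fun k => ⟨fun q => ⟨q.out⁻¹ * k * ((k : H ⧸ N)⁻¹ * q).out, by
    rw [← QuotientGroup.eq_one_iff, QuotientGroup.mk_mul, QuotientGroup.mk_mul,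
      QuotientGroup.mk_inv, QuotientGroup.out_eq', QuotientGroup.out_eq']
    group⟩, (k : H ⧸ N)⟩) (by
    intro a b
    ext q
    · simp only [RegularWreathProduct.mul_left, Pi.mul_apply, Subgroup.coe_mul,
        QuotientGroup.mk_mul, mul_inv_rev, mul_assoc, mul_inv_cancel_left]
    · rfl)

theorem kk_inj {H : Type} [Group H] (N : Subgroup H) [N.Normal] (k : H) (h : kk N k = 1) :
    k = 1 := by
  have h1 : (k : H ⧸ N) = 1 := congrArg RegularWreathProduct.right h
  have h2 : (((kk N k).left 1 : N) : H) = 1 := by rw [h]; rfl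
  have h3 : (((kk N k).left 1 : N) : H)
      = (1 : H ⧸ N).out⁻¹ * k * ((k : H ⧸ N)⁻¹ * 1).out := rfl
  rw [h3, h1, inv_one, mul_one] at h2
  have h4 := congrArg (fun t => (1 : H ⧸ N).out * t * (1 : H ⧸ N).out⁻¹) h2
  simpa [mul_assoc] using h4

theorem exists_char {p : ℕ} (hp : p.Prime) {M : Type} [CommGroup M] (h : ∀ x : M, x ^ p = 1)
    (x : M) (hx : x ≠ 1) : ∃ χ : M →* Multiplicative (ZMod p), χ x ≠ 1 := by
  have hpf : Fact p.Prime := ⟨hp⟩
  let _ : Module (ZMod p) (Additive M) := AddCommGroup.zmodModule (n := p) (fun x =>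
    congrArg Additive.ofMul (h x.toMul))
  by_contra hc
  push Not at hc
  apply hx
  have h1 := (Module.forall_dual_apply_eq_zero_iff (ZMod p) (Additive.ofMul x)).1 (by
    intro φ
    exact hc (AddMonoidHom.toMultiplicative φ.toAddMonoidHom))
  exact congrArg Additive.toMul h1

theorem law_wreath {p : ℕ} (hp : p.Prime) (w : FreeGroup ℕ)
    (hw : ∀ n : ℕ, 1 ≤ n → Odd n → ∀ f : FreeGroup ℕ →*
      RegularWreathProduct (Multiplicative (ZMod p)) (Multiplicative (ZMod n)), f w = 1)
    {H : Type} [Group H] (N : Subgroup H) [N.Normal] (h1 : ∀ x ∈ N, x ^ p = 1)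
    (h2 : ∀ x ∈ N, ∀ y ∈ N, x * y = y * x) (h3 : ∀ x y : H, x * y * x⁻¹ * y⁻¹ ∈ N)
    (f : FreeGroup ℕ →* H) : f w = 1 := by
  classical
  -- the exponent sums vanish
  have hes : esum w = 1 := by
    have key : ∀ i : ℕ, (esum w).toAdd i = 0 := by
      intro i
      by_contra hne
      set n : ℕ := 2 * ((esum w).toAdd i).natAbs + 1 with hn
      let θ : Multiplicative (ℕ →₀ ℤ) →* Multiplicative (ZMod n) :=
        AddMonoidHom.toMultiplicative ((Int.castAddHom (ZMod n)).comp (Finsupp.applyAddHom i))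
      have h4 := hw n (by omega) ⟨_, rfl⟩ ((RegularWreathProduct.inl).comp (θ.comp esum))
      have h5 : θ (esum w) = 1 := congrArg RegularWreathProduct.right h4
      have h6 : (((esum w).toAdd i : ℤ) : ZMod n) = 0 := h5
      rw [ZMod.intCast_zmod_eq_zero_iff_dvd] at h6
      have h7 := Nat.le_of_dvd (Int.natAbs_pos.2 hne) (Int.natAbs_dvd_natAbs.2 h6)
      simp only [Int.natAbs_natCast] at h7
      omega
    apply Multiplicative.toAdd.injective
    ext i
    exact key i
  -- the quotient is commutative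
  have hQ : ∀ a b : H ⧸ N, a * b = b * a := by
    intro a b
    obtain ⟨x, rfl⟩ := QuotientGroup.mk_surjective a
    obtain ⟨y, rfl⟩ := QuotientGroup.mk_surjective b
    have := (QuotientGroup.eq_one_iff _).2 (h3 x y)
    rw [QuotientGroup.mk_mul, QuotientGroup.mk_mul, QuotientGroup.mk_mul, QuotientGroup.mk_inv,
      QuotientGroup.mk_inv, mul_inv_eq_one, mul_inv_eq_iff_eq_mul] at this
    exact this
  let _ : CommGroup (H ⧸ N) := { (inferInstance : Group (H ⧸ N)) with mul_comm := hQ }
  let _ : CommGroup N := { (inferInstance : Group N) with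
    mul_comm := fun a b => Subtype.ext (h2 a a.2 b b.2) }
  let β : (ℕ →₀ ℤ) →+ Additive (H ⧸ N) :=
    Finsupp.liftAddHom fun i => zmultiplesHom (Additive (H ⧸ N))
      (Additive.ofMul ((f (FreeGroup.of i) : H) : H ⧸ N))
  let α : Multiplicative (ℕ →₀ ℤ) →* H ⧸ N :=
    { toFun := fun x => (β x.toAdd).toMul
      map_one' := by
        change (β 0).toMul = 1
        rw [map_zero]; rfl
      map_mul' := fun x y => by
        change (β (x.toAdd + y.toAdd)).toMul = _
        rw [map_add]; rfl }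
  have hα : α.comp esum = (QuotientGroup.mk' N).comp f := by
    apply FreeGroup.ext_hom
    intro i
    change (β (esum (FreeGroup.of i)).toAdd).toMul = ((f (FreeGroup.of i) : H) : H ⧸ N)
    have h4 : (esum (FreeGroup.of i)).toAdd = Finsupp.single i 1 := by
      unfold esum; rw [FreeGroup.lift_apply_of]; rfl
    rw [h4]
    simp only [β, Finsupp.liftAddHom_apply_single, zmultiplesHom_apply, one_zsmul, toMul_ofMul]
  have hα' : ∀ x, α (esum x) = ((f x : H) : H ⧸ N) := fun x => DFunLike.congr_fun hα x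
  apply kk_inj N
  ext q
  · rw [RegularWreathProduct.one_left, Pi.one_apply, OneMemClass.coe_one]
    by_contra hne
    have hne' : ((kk N) (f w)).left q ≠ 1 := fun h => hne (by rw [h]; rfl)
    obtain ⟨χ, hχ⟩ := exists_char hp (M := N)
      (fun x => Subtype.ext (h1 (x : H) x.2)) _ hne'
    let F : ℕ → H ⧸ N → N := fun i => ((kk N) (f (FreeGroup.of i))).left
    let π : ℕ → Multiplicative (ℕ →₀ ℤ) := fun i => esum (FreeGroup.of i)
    have hlift : (kk N).comp f
        = FreeGroup.lift (fun i => (⟨F i, α (π i)⟩ : RegularWreathProduct N (H ⧸ N))) := by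
      apply FreeGroup.ext_hom
      intro i
      rw [FreeGroup.lift_apply_of]
      ext x
      · rfl
      · exact (hα' (FreeGroup.of i)).symm
    have e1 : ((kk N) (f w)).left q = bval F (fun i => α (π i)) w.toWord q := by
      rw [← lift_left, FreeGroup.mk_toWord, ← hlift]
      rfl
    have e2 := bval_pull α χ F π q w.toWord 1
    rw [map_one, one_mul, ← e1] at e2
    set S := wpts π w.toWord 1 with hS
    obtain ⟨n, ρ, hn1, hodd, hsep⟩ := exists_sep (S.map Multiplicative.toAdd).toFinset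
    let ρ' : Multiplicative (ℕ →₀ ℤ) →* Multiplicative (ZMod n) := AddMonoidHom.toMultiplicative ρ
    have hinj : ∀ x ∈ S, ∀ y ∈ S, ρ' x = ρ' y → x = y := by
      intro x hx y hy hxy
      apply Multiplicative.toAdd.injective
      exact hsep _ (List.mem_toFinset.2 (List.mem_map.2 ⟨x, hx, rfl⟩)) _
        (List.mem_toFinset.2 (List.mem_map.2 ⟨y, hy, rfl⟩)) hxy
    let fl : ℕ → Multiplicative (ℕ →₀ ℤ) → Multiplicative (ZMod p) :=
      fun i y => χ (F i (α y * q))
    let f' : ℕ → Multiplicative (ZMod n) → Multiplicative (ZMod p) := fun i c =>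
      if h : ∃ y ∈ S, ρ' y = c then fl i h.choose else 1
    have hf' : ∀ y ∈ S, ∀ i, f' i (ρ' y) = fl i y := by
      intro y hy i
      have hex : ∃ z ∈ S, ρ' z = ρ' y := ⟨y, hy, rfl⟩
      simp only [f', dif_pos hex]
      rw [hinj _ hex.choose_spec.1 _ hy hex.choose_spec.2]
    have e3 := bval_map ρ' fl π f' w.toWord 1 hf'
    have e4 := hw n hn1 hodd (FreeGroup.lift (fun i =>
      (⟨f' i, ρ' (π i)⟩ : RegularWreathProduct (Multiplicative (ZMod p))
        (Multiplicative (ZMod n)))))
    have e5 := lift_left f' (fun i => ρ' (π i)) w.toWord (ρ' 1)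
    rw [FreeGroup.mk_toWord, e4] at e5
    apply hχ
    rw [← e2, ← e3, ← e5]
    rfl
  · change ((f w : H) : H ⧸ N) = 1
    rw [← hα', hes, map_one]

end Pool.Agent.TH54.BU
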