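import Mathlib

/-!
# A finitely generated torsion group with a law whose variety contains all `C_p wr C_n`

(helper544 for helper54.) `B` is an infinite finitely generated group of exponent `q`. Inside
`P wr B`, where `P = C_p wr (M wr C_2)` and `M` is a torsion abelian group containing all finite
cyclic groups, the group generated by `B` and one function with sparse support does it.
-/

set_option autoImplicit false

namespace Pool.Agent.TH54.BU.Tors

open RegularWreathProduct

section basics

variable {D Q : Type} [Group D] [Group Q]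

theorem sub_fin {G : Type} [Group G] {H : Subgroup G} (x : H) :
    IsOfFinOrder x ↔ IsOfFinOrder (x : G) := by
  rw [isOfFinOrder_iff_pow_eq_one, isOfFinOrder_iff_pow_eq_one]
  refine exists_congr fun n => and_congr_right fun _ => ?_
  rw [← Subgroup.coe_pow, OneMemClass.coe_eq_one]

/-- the base group -/
def base : (Q → D) →* RegularWreathProduct D Q where
  toFun φ := ⟨φ, 1⟩
  map_one' := rfl
  map_mul' φ ψ := by ext <;> simp

theorem base_left (φ : Q → D) : (base φ).left = φ := rfl

theorem base_right (φ : Q → D) : (base φ).right = 1 := rfl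

theorem eq_base {g : RegularWreathProduct D Q} (h : g.right = 1) : g = base g.left := by
  ext
  · rfl
  · exact h

theorem eq_base_mul_inl (g : RegularWreathProduct D Q) : g = base g.left * inl g.right := by
  ext <;> simp [base_left, base_right]

theorem pow_right (g : RegularWreathProduct D Q) (n : ℕ) : (g ^ n).right = g.right ^ n :=
  map_pow (rightHom : RegularWreathProduct D Q →* Q) g n

theorem inl_conj (b : Q) (φ : Q → D) :
    inl b * base φ * (inl b)⁻¹ = base (fun x => φ (b⁻¹ * x)) := by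
  ext <;> simp [base_left, base_right]

/-- an injective homomorphism of the top groups gives one of the wreath products -/
noncomputable def lift {Q₁ Q₂ : Type} [Group Q₁] [Group Q₂] (j : Q₁ →* Q₂)
    (hj : Function.Injective j) : RegularWreathProduct D Q₁ →* RegularWreathProduct D Q₂ where
  toFun g := ⟨Function.extend j g.left 1, j g.right⟩
  map_one' := by
    ext x
    · by_cases h : ∃ v, j v = x
      · obtain ⟨v, rfl⟩ := h
        simp [hj.extend_apply]
      · simp [Function.extend_apply' _ _ _ h]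
    · simp
  map_mul' a b := by
    ext x
    · by_cases h : ∃ v, j v = x
      · obtain ⟨v, rfl⟩ := h
        simp only [mul_left, Pi.mul_apply, hj.extend_apply]
        rw [← map_inv, ← map_mul, hj.extend_apply]
      · have h' : ¬ ∃ v, j v = (j a.right)⁻¹ * x := by
          rintro ⟨v, hv⟩
          exact h ⟨a.right * v, by rw [map_mul, hv, mul_inv_cancel_left]⟩
        simp [Function.extend_apply' _ _ _ h, Function.extend_apply' _ _ _ h']
    · simp

theorem lift_injective {Q₁ Q₂ : Type} [Group Q₁] [Group Q₂] (j : Q₁ →* Q₂)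
    (hj : Function.Injective j) : Function.Injective (lift (D := D) j hj) := by
  intro a b hab
  have h1 := congrArg RegularWreathProduct.left hab
  have h2 := congrArg RegularWreathProduct.right hab
  ext x
  · have := congrFun h1 (j x)
    simpa [lift, hj.extend_apply] using this
  · exact hj h2

end basics

section target

variable (p : ℕ)

/-- a torsion abelian group containing all finite cyclic groups -/
abbrev M : Type := CommGroup.torsion (∀ n : ℕ, Multiplicative (ZMod (n + 1)))

/-- the top group, a wreath product with a group of order two -/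
abbrev D : Type := RegularWreathProduct M ℤˣ

/-- the group of values -/
abbrev P : Type := RegularWreathProduct (Multiplicative (ZMod p)) D

theorem cp_pow (x : Multiplicative (ZMod p)) : x ^ p = 1 := by
  rw [← ofAdd_toAdd x, ← ofAdd_nsmul]
  simp

theorem torsion_D (x : D) : IsOfFinOrder x := by
  have h : (x ^ 2).right = 1 := by
    rw [pow_right]
    exact Int.units_sq _
  have h2 : IsOfFinOrder (x ^ 2) := by
    rw [eq_base h]
    apply MonoidHom.isOfFinOrder
    have h3 : ∀ c, IsOfFinOrder ((x ^ 2).left c) := by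
      intro c
      rw [sub_fin]
      exact ((x ^ 2).left c).2
    rw [isOfFinOrder_iff_pow_eq_one]
    refine ⟨∏ c, orderOf ((x ^ 2).left c), Finset.prod_pos fun c _ => (h3 c).orderOf_pos, ?_⟩
    ext1 c
    rw [Pi.pow_apply]
    exact orderOf_dvd_iff_pow_eq_one.1 (Finset.dvd_prod_of_mem _ (Finset.mem_univ c))
  rw [isOfFinOrder_iff_pow_eq_one] at h2 ⊢
  obtain ⟨n, hn, hn2⟩ := h2
  exact ⟨2 * n, by omega, by rw [pow_mul, hn2]⟩

theorem torsion_P (hp : 0 < p) (x : P p) : IsOfFinOrder x := by
  obtain ⟨n, hn, hn2⟩ := isOfFinOrder_iff_pow_eq_one.1 (torsion_D x.right)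
  have h : (x ^ n).right = 1 := by rw [pow_right, hn2]
  rw [isOfFinOrder_iff_pow_eq_one]
  refine ⟨n * p, Nat.mul_pos hn hp, ?_⟩
  rw [pow_mul, eq_base h, ← map_pow]
  have : (x ^ n).left ^ p = 1 := by
    ext1 c
    exact cp_pow p _
  rw [this, map_one]

theorem comm_D (x y : D) : x ^ 2 * y ^ 2 = y ^ 2 * x ^ 2 := by
  have h : ∀ x : D, (x ^ 2).right = 1 := by
    intro x
    rw [pow_right]
    exact Int.units_sq _
  rw [eq_base (h x), eq_base (h y), ← map_mul, ← map_mul, mul_comm]

theorem law_P (x y : P p) : (x ^ 2 * y ^ 2 * (x ^ 2)⁻¹ * (y ^ 2)⁻¹) ^ p = 1 := by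
  have h : (x ^ 2 * y ^ 2 * (x ^ 2)⁻¹ * (y ^ 2)⁻¹).right = 1 := by
    simp only [mul_right, inv_right, pow_right]
    rw [comm_D]
    group
  rw [eq_base h, ← map_pow]
  have : (x ^ 2 * y ^ 2 * (x ^ 2)⁻¹ * (y ^ 2)⁻¹).left ^ p = 1 := by
    ext1 c
    exact cp_pow p _
  rw [this, map_one]

/-- the embedding of the cyclic groups -/
noncomputable def ι (n : ℕ) : Multiplicative (ZMod (n + 1)) →* M where
  toFun u := ⟨Pi.mulSingle n u, by
    rw [CommGroup.mem_torsion, isOfFinOrder_iff_pow_eq_one]
    exact ⟨n + 1, by omega, by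
      rw [← Pi.mulSingle_pow, cp_pow, Pi.mulSingle_one]⟩⟩
  map_one' := by
    ext1
    exact Pi.mulSingle_one n
  map_mul' a b := by
    ext1
    exact (MonoidHom.mulSingle (fun n => Multiplicative (ZMod (n + 1))) n).map_mul a b

theorem ι_injective (n : ℕ) : Function.Injective (ι n) := by
  intro a b h
  have := congrArg Subtype.val h
  exact Pi.mulSingle_injective n this

/-- the embedding of the cyclic groups into `D` -/
noncomputable def jj (n : ℕ) : Multiplicative (ZMod (n + 1)) →* D where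
  toFun u := base fun k : ℤˣ => ι n u ^ (k : ℤ)
  map_one' := by
    rw [← map_one (base (D := M) (Q := ℤˣ))]
    congr 1
    ext1 k
    simp
  map_mul' a b := by
    rw [← map_mul]
    congr 1
    ext1 k
    rw [map_mul, mul_zpow, Pi.mul_apply]

theorem jj_injective (n : ℕ) : Function.Injective (jj n) := by
  intro a b h
  have := congrFun (congrArg RegularWreathProduct.left h) 1
  apply ι_injective n
  simpa [jj, base_left] using this

/-- involutions in `D` -/
noncomputable def sg (n : ℕ) (u : Multiplicative (ZMod (n + 1))) : D :=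
  ⟨fun k : ℤˣ => ι n u ^ (k : ℤ), -1⟩

theorem sg_sq (n : ℕ) (u : Multiplicative (ZMod (n + 1))) : sg n u * sg n u = 1 := by
  ext1
  · ext1 k
    simp [sg]
  · simp [sg]

theorem sg_mul (n : ℕ) (u : Multiplicative (ZMod (n + 1))) : sg n u * sg n 1 = jj n u := by
  ext1
  · ext1 k
    simp [sg, jj, base_left]
  · simp [sg, jj, base_right]

/-- the index set of the generators -/
abbrev J : Type := Σ n : ℕ, (Multiplicative (ZMod (n + 1)) → Multiplicative (ZMod p)) ⊕
  Multiplicative (ZMod (n + 1))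

/-- the generators -/
noncomputable def gen : J p → P p
  | ⟨n, Sum.inl φ⟩ => lift (jj n) (jj_injective n) (base φ)
  | ⟨n, Sum.inr u⟩ => inl (sg n u)

theorem gen_pow (x : J p) : gen p x ^ (2 * p) = 1 := by
  obtain ⟨n, φ | u⟩ := x
  · rw [gen, ← map_pow, ← map_pow]
    have : φ ^ (2 * p) = 1 := by
      ext1 c
      rw [mul_comm, pow_mul, Pi.pow_apply, Pi.pow_apply, cp_pow, one_pow, Pi.one_apply]
    rw [this, map_one, map_one]
  · rw [gen, ← map_pow, pow_mul, pow_two, sg_sq, one_pow, map_one]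

theorem lift_mem (n : ℕ) (g : RegularWreathProduct (Multiplicative (ZMod p))
    (Multiplicative (ZMod (n + 1)))) :
    lift (jj n) (jj_injective n) g ∈ Subgroup.closure (Set.range (gen p)) := by
  rw [eq_base_mul_inl g, map_mul]
  refine mul_mem (Subgroup.subset_closure ⟨⟨n, Sum.inl g.left⟩, rfl⟩) ?_
  have h : lift (D := Multiplicative (ZMod p)) (jj n) (jj_injective n) (inl g.right) =
      inl (sg n g.right) * inl (sg n 1) := by
    rw [← map_mul, sg_mul]
    refine RegularWreathProduct.ext (funext fun x => ?_) rfl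
    by_cases h : ∃ v, jj n v = x
    · obtain ⟨v, rfl⟩ := h
      simp [lift, (jj_injective n).extend_apply]
    · simp [lift, Function.extend_apply' _ _ _ h]
  rw [h]
  exact mul_mem (Subgroup.subset_closure ⟨⟨n, Sum.inr g.right⟩, rfl⟩)
    (Subgroup.subset_closure ⟨⟨n, Sum.inr 1⟩, rfl⟩)

end target

/-- a sparse sequence in a countable infinite group -/
theorem exists_sparse {B : Type} [Group B] [Countable B] [Infinite B] :
    ∃ s : ℕ → B, Function.Injective s ∧ ∀ c : B, c ≠ 1 → {i : ℕ | ∃ j, s i = c * s j}.Finite := by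
  classical
  obtain ⟨b, hb⟩ := exists_surjective_nat B
  obtain ⟨f, -, hf⟩ := exists_seq_of_forall_finset_exists (α := ℕ × B) (fun _ => True)
    (fun x y => x.1 < y.1 ∧ x.2 ≠ y.2 ∧ ∀ k ≤ y.1, y.2 ≠ b k * x.2 ∧ y.2 ≠ (b k)⁻¹ * x.2) (by
      intro T _
      set n := T.sup Prod.fst + 1 with hn
      obtain ⟨y, hy⟩ := Infinite.exists_notMem_finset
        (T.image Prod.snd ∪ ((Finset.range (n + 1)) ×ˢ T).image (fun z => b z.1 * z.2.2) ∪
          ((Finset.range (n + 1)) ×ˢ T).image (fun z => (b z.1)⁻¹ * z.2.2))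
      simp only [Finset.mem_union, Finset.mem_image, Finset.mem_product, Finset.mem_range,
        not_or, not_exists, not_and] at hy
      refine ⟨(n, y), trivial, fun x hx => ⟨?_, ?_, ?_⟩⟩
      · have : x.1 ≤ T.sup Prod.fst := Finset.le_sup (f := Prod.fst) hx
        show x.1 < n
        omega
      · exact hy.1.1 x hx
      · intro k hk
        refine ⟨fun h => hy.1.2 (k, x) ⟨?_, hx⟩ h.symm, fun h => hy.2 (k, x) ⟨?_, hx⟩ h.symm⟩
        · exact Nat.lt_succ_of_le hk
        · exact Nat.lt_succ_of_le hk)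
  have hmono : StrictMono fun i => (f i).1 := fun i j h => (hf i j h).1
  have hid : ∀ i, i ≤ (f i).1 := fun i => hmono.le_apply
  refine ⟨fun i => (f i).2, ?_, ?_⟩
  · intro i j hij
    rcases lt_trichotomy i j with h | h | h
    · exact absurd hij (hf i j h).2.1
    · exact h
    · exact absurd hij.symm (hf j i h).2.1
  · intro c hc
    obtain ⟨k, rfl⟩ := hb c
    refine (Set.finite_Iio k).subset ?_
    rintro i ⟨j, hij⟩
    rw [Set.mem_Iio]
    by_contra hk
    rw [not_lt] at hk
    rcases lt_trichotomy i j with h | h | h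
    · refine ((hf i j h).2.2 k (by have := hid j; omega)).2 ?_
      simp only at hij
      rw [hij, inv_mul_cancel_left]
    · subst h
      simp only at hij
      exact hc (mul_eq_right.1 hij.symm)
    · exact ((hf j i h).2.2 k (by have := hid i; omega)).1 hij

section construction

variable {B P0 : Type} [Group B] [Group P0] (s : ℕ → B) (a : ℕ → P0)

/-- the function with sparse support -/
noncomputable def f0 : B → P0 := Function.extend s a 1

omit [Group B] in
theorem f0_apply (hs : Function.Injective s) (i : ℕ) : f0 s a (s i) = a i :=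
  hs.extend_apply _ _ _

omit [Group B] in
theorem f0_ne {x : B} (h : f0 s a x ≠ 1) : ∃ i, s i = x := by
  by_contra h'
  exact h (Function.extend_apply' _ _ _ h')

omit [Group B] in
theorem f0_pow (hs : Function.Injective s) {N : ℕ} (ha : ∀ i, a i ^ N = 1) (x : B) :
    f0 s a x ^ N = 1 := by
  by_cases h : ∃ i, s i = x
  · obtain ⟨i, rfl⟩ := h
    rw [f0_apply s a hs, ha]
  · rw [f0, Function.extend_apply' _ _ _ h, Pi.one_apply, one_pow]

/-- the elements whose values are products of values of finitely many translates -/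
def R : Subgroup (RegularWreathProduct P0 B) where
  carrier := {g | ∃ V : Set B, V.Finite ∧
    ∀ x, g.left x ∈ Subgroup.closure ((fun b => f0 s a (b⁻¹ * x)) '' V)}
  one_mem' := ⟨∅, Set.finite_empty, fun x => by simp⟩
  mul_mem' := by
    rintro g h ⟨V, hV, hV2⟩ ⟨U, hU, hU2⟩
    refine ⟨V ∪ (fun b => g.right * b) '' U, hV.union (hU.image _), fun x => ?_⟩
    rw [mul_left, Pi.mul_apply]
    refine mul_mem (Subgroup.closure_mono ?_ (hV2 x)) (Subgroup.closure_mono ?_ (hU2 _))
    · exact Set.image_mono Set.subset_union_left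
    · rintro y ⟨b, hb, rfl⟩
      exact ⟨g.right * b, Or.inr ⟨b, hb, rfl⟩, by simp [mul_assoc]⟩
  inv_mem' := by
    rintro g ⟨V, hV, hV2⟩
    refine ⟨(fun b => g.right⁻¹ * b) '' V, hV.image _, fun x => ?_⟩
    rw [inv_left]
    refine inv_mem (Subgroup.closure_mono ?_ (hV2 _))
    rintro y ⟨b, hb, rfl⟩
    exact ⟨g.right⁻¹ * b, ⟨b, hb, rfl⟩, by simp [mul_assoc]⟩

theorem inl_mem_R (b : B) : inl b ∈ R s a := ⟨∅, Set.finite_empty, fun x => by simp⟩

theorem base_mem_R : base (f0 s a) ∈ R s a :=
  ⟨{1}, Set.finite_singleton 1, fun x => Subgroup.subset_closure ⟨1, rfl, by simp [base_left]⟩⟩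

theorem torsion_R (hs : Function.Injective s)
    (hs2 : ∀ c : B, c ≠ 1 → {i : ℕ | ∃ j, s i = c * s j}.Finite) {N : ℕ} (hN : 0 < N)
    (ha : ∀ i, a i ^ N = 1) (hP : ∀ x : P0, IsOfFinOrder x) {g : RegularWreathProduct P0 B}
    (hg : g ∈ R s a) (hg1 : g.right = 1) : IsOfFinOrder g := by
  classical
  obtain ⟨V, hV, hV2⟩ := hg
  set Z : Set B := {x | ∃ b ∈ V, ∃ b' ∈ V, b ≠ b' ∧ f0 s a (b⁻¹ * x) ≠ 1 ∧
    f0 s a (b'⁻¹ * x) ≠ 1} with hZ
  have hZfin : Z.Finite := by
    have h1 : Z ⊆ ⋃ b ∈ V, ⋃ b' ∈ V, ⋃ (_ : b ≠ b'),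
        (fun i => b * s i) '' {i : ℕ | ∃ j, s i = (b⁻¹ * b') * s j} := by
      rintro x ⟨b, hb, b', hb', hne, h1, h2⟩
      obtain ⟨i, hi⟩ := f0_ne s a h1
      obtain ⟨j, hj⟩ := f0_ne s a h2
      simp only [Set.mem_iUnion]
      refine ⟨b, hb, b', hb', hne, i, ⟨j, ?_⟩, ?_⟩
      · rw [hi, hj]
        group
      · simp only [hi]
        group
    refine Set.Finite.subset ?_ h1
    refine hV.biUnion fun b _ => hV.biUnion fun b' _ => ?_
    by_cases hne : b ≠ b'
    · have := (hs2 (b⁻¹ * b') (fun h => hne (inv_mul_eq_one.1 h))).image (fun i => b * s i)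
      simpa [hne] using this
    · simp [hne]
  have hout : ∀ x, x ∉ Z → g.left x ^ N = 1 := by
    intro x hx
    by_cases h : ∃ b ∈ V, f0 s a (b⁻¹ * x) ≠ 1
    · obtain ⟨b, hb, hb1⟩ := h
      have h2 : Subgroup.closure ((fun b => f0 s a (b⁻¹ * x)) '' V) ≤
          Subgroup.zpowers (f0 s a (b⁻¹ * x)) := by
        rw [Subgroup.closure_le]
        rintro y ⟨b', hb', rfl⟩
        by_cases h3 : b = b'
        · subst h3
          exact Subgroup.mem_zpowers _
        · have h4 : f0 s a (b'⁻¹ * x) = 1 := by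
            by_contra h4
            exact hx ⟨b, hb, b', hb', h3, hb1, h4⟩
          simp only [h4]
          exact one_mem _
      obtain ⟨k, hk⟩ := h2 (hV2 x)
      rw [← hk]
      simp only
      rw [← zpow_natCast, ← zpow_mul, mul_comm, zpow_mul, zpow_natCast, f0_pow s a hs ha, one_zpow]
    · push Not at h
      have h2 : Subgroup.closure ((fun b => f0 s a (b⁻¹ * x)) '' V) ≤ ⊥ := by
        rw [Subgroup.closure_le]
        rintro y ⟨b', hb', rfl⟩
        simp only [h b' hb']
        exact one_mem _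
      have h3 := h2 (hV2 x)
      rw [Subgroup.mem_bot] at h3
      rw [h3, one_pow]
  rw [isOfFinOrder_iff_pow_eq_one]
  refine ⟨N * ∏ x ∈ hZfin.toFinset, orderOf (g.left x), Nat.mul_pos hN
    (Finset.prod_pos fun x _ => (hP _).orderOf_pos), ?_⟩
  rw [eq_base hg1, ← map_pow]
  have : g.left ^ (N * ∏ x ∈ hZfin.toFinset, orderOf (g.left x)) = 1 := by
    ext1 x
    rw [Pi.pow_apply, Pi.one_apply]
    by_cases hx : x ∈ Z
    · refine orderOf_dvd_iff_pow_eq_one.1 (Dvd.dvd.mul_left ?_ _)
      exact Finset.dvd_prod_of_mem (fun x => orderOf (g.left x)) (hZfin.mem_toFinset.2 hx)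
    · rw [pow_mul, hout x hx, one_pow]
  rw [base_left] at *
  rw [this, map_one]

/-- the group -/
def GG (T : Set B) : Subgroup (RegularWreathProduct P0 B) :=
  Subgroup.closure (inl '' T ∪ {base (f0 s a)})

theorem GG_le_R (T : Set B) : GG s a T ≤ R s a := by
  rw [GG, Subgroup.closure_le]
  rintro g (⟨b, -, rfl⟩ | hg)
  · exact inl_mem_R s a b
  · rw [Set.mem_singleton_iff] at hg
    rw [hg]
    exact base_mem_R s a

theorem inl_mem_GG {T : Set B} (hT : Subgroup.closure T = ⊤) (b : B) : inl b ∈ GG s a T := by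
  have h1 : (Subgroup.closure T).map (inl : B →* RegularWreathProduct P0 B) ≤ GG s a T := by
    rw [MonoidHom.map_closure]
    exact Subgroup.closure_mono Set.subset_union_left
  exact h1 ⟨b, by rw [hT]; trivial, rfl⟩

theorem fg_GG {T : Set B} (hT : T.Finite) : Group.FG (GG s a T) := by
  have : Finite ↑(inl '' T ∪ {base (f0 s a)} : Set (RegularWreathProduct P0 B)) :=
    ((hT.image _).union (Set.finite_singleton _)).to_subtype
  exact Group.closure_finite_fg _

theorem torsion_GG (T : Set B) (hs : Function.Injective s)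
    (hs2 : ∀ c : B, c ≠ 1 → {i : ℕ | ∃ j, s i = c * s j}.Finite) {N : ℕ} (hN : 0 < N)
    (ha : ∀ i, a i ^ N = 1) (hP : ∀ x : P0, IsOfFinOrder x) {q : ℕ} (hq : 0 < q)
    (hexp : ∀ b : B, b ^ q = 1) (g : GG s a T) : IsOfFinOrder g := by
  rw [sub_fin]
  have h1 : ((g : RegularWreathProduct P0 B) ^ q).right = 1 := by rw [pow_right, hexp]
  have h2 := torsion_R s a hs hs2 hN ha hP (pow_mem (GG_le_R s a T g.2) q) h1
  rw [isOfFinOrder_iff_pow_eq_one] at h2 ⊢
  obtain ⟨n, hn, hn2⟩ := h2
  exact ⟨q * n, Nat.mul_pos hq hn, by rw [pow_mul, hn2]⟩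

/-- every element of the group generated by the values is a value at `1` -/
theorem exists_value {T : Set B} (hT : Subgroup.closure T = ⊤) (hs : Function.Injective s)
    {y : P0} (hy : y ∈ Subgroup.closure (Set.range a)) :
    ∃ g ∈ GG s a T, g.right = 1 ∧ g.left 1 = y := by
  induction hy using Subgroup.closure_induction with
  | mem y hy =>
    obtain ⟨i, rfl⟩ := hy
    refine ⟨inl (s i)⁻¹ * base (f0 s a) * (inl (s i)⁻¹)⁻¹, ?_, ?_, ?_⟩
    · exact mul_mem (mul_mem (inl_mem_GG s a hT _) (Subgroup.subset_closure (Or.inr rfl)))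
        (inv_mem (inl_mem_GG s a hT _))
    · rw [inl_conj]
      rfl
    · rw [inl_conj, base_left, inv_inv, mul_one, f0_apply s a hs]
  | one => exact ⟨1, one_mem _, rfl, rfl⟩
  | mul x y _ _ hx hy =>
    obtain ⟨g, hg, hg1, hg2⟩ := hx
    obtain ⟨h, hh, hh1, hh2⟩ := hy
    exact ⟨g * h, mul_mem hg hh, by rw [mul_right, hg1, hh1, one_mul], by
      simp [hg1, hg2, hh2]⟩
  | inv x _ hx =>
    obtain ⟨g, hg, hg1, hg2⟩ := hx
    exact ⟨g⁻¹, inv_mem hg, by rw [inv_right, hg1, inv_one], by simp [hg1, hg2]⟩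

/-- the laws of the group are laws of the group generated by the values -/
theorem law_values {T : Set B} (hT : Subgroup.closure T = ⊤) (hs : Function.Injective s)
    (w : FreeGroup ℕ) (hw : ∀ f : FreeGroup ℕ →* GG s a T, f w = 1) (f : FreeGroup ℕ →* P0)
    (hf : ∀ x, f x ∈ Subgroup.closure (Set.range a)) : f w = 1 := by
  choose g hg hg1 hg2 using fun i : ℕ => exists_value s a hT hs (hf (FreeGroup.of i))
  set f' : FreeGroup ℕ →* GG s a T := FreeGroup.lift fun i => ⟨g i, hg i⟩ with hf'
  have key : ∀ x : FreeGroup ℕ, (f' x : RegularWreathProduct P0 B).right = 1 ∧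
      (f' x : RegularWreathProduct P0 B).left 1 = f x := by
    intro x
    induction x using FreeGroup.induction_on with
    | C1 => exact ⟨by simp, by simp⟩
    | of i => exact ⟨by simp [hf', hg1], by simp [hf', hg2]⟩
    | inv_of i ih =>
      refine ⟨?_, ?_⟩
      · rw [map_inv, Subgroup.coe_inv, inv_right, ih.1, inv_one]
      · rw [map_inv, Subgroup.coe_inv, inv_left, map_inv]
        simp [ih.1, ih.2]
    | mul x y hx hy =>
      refine ⟨?_, ?_⟩
      · rw [map_mul, Subgroup.coe_mul, mul_right, hx.1, hy.1, one_mul]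
      · rw [map_mul, Subgroup.coe_mul, mul_left, map_mul, Pi.mul_apply]
        simp [hx.1, hx.2, hy.2]
  have h := (key w).2
  rw [hw f'] at h
  exact h.symm

end construction

/-- the word of the law -/
def ww (q p : ℕ) : FreeGroup ℕ :=
  (((FreeGroup.of 0) ^ q) ^ 2 * ((FreeGroup.of 1) ^ q) ^ 2 * (((FreeGroup.of 0) ^ q) ^ 2)⁻¹ *
    (((FreeGroup.of 1) ^ q) ^ 2)⁻¹) ^ p

theorem ww_ne {q p : ℕ} (hq : 0 < q) (hp : 0 < p) : ww q p ≠ 1 := by
  intro h
  rw [ww, pow_eq_one_iff_left (by omega), mul_inv_eq_one, mul_inv_eq_iff_eq_mul, ← pow_mul,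
    ← pow_mul] at h
  set ρ : FreeGroup ℕ →* Equiv.Perm ℚ := FreeGroup.lift fun i =>
    if i = 0 then Equiv.addRight 1 else Equiv.mulRight₀ 2 two_ne_zero with hρ
  have h0 : ∀ m : ℕ, ∀ t : ℚ, ((Equiv.addRight (1 : ℚ) : Equiv.Perm ℚ) ^ m) t = t + m := by
    intro m
    induction m with
    | zero => intro t; simp
    | succ m ih =>
      intro t
      rw [pow_succ', Equiv.Perm.mul_apply, ih, Equiv.coe_addRight]
      push_cast
      ring
  have h1 : ∀ m : ℕ, ∀ t : ℚ,
      ((Equiv.mulRight₀ (2 : ℚ) two_ne_zero : Equiv.Perm ℚ) ^ m) t = t * 2 ^ m := by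
    intro m
    induction m with
    | zero => intro t; simp
    | succ m ih =>
      intro t
      rw [pow_succ', Equiv.Perm.mul_apply, ih, Equiv.mulRight₀_apply, pow_succ]
      ring
  have h2 := congrArg ρ h
  have h3 := congrArg (fun e : Equiv.Perm ℚ => e 0) h2
  simp only [map_mul, map_pow, hρ, FreeGroup.lift_apply_of, if_true, one_ne_zero, if_false,
    Equiv.Perm.mul_apply, h0, h1, zero_mul, zero_add] at h3
  have h4 : (1 : ℚ) < 2 ^ (q * 2) := one_lt_pow₀ (by norm_num) (by omega)
  have h5 : (0 : ℚ) < ((q * 2 : ℕ) : ℚ) := by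
    have : 0 < q * 2 := by omega
    exact_mod_cast this
  nlinarith [mul_pos h5 (sub_pos.2 h4)]

theorem law_wreath_base {B : Type} [Group B] {p : ℕ} (g h : RegularWreathProduct (P p) B)
    (hg : g.right = 1) (hh : h.right = 1) : (g ^ 2 * h ^ 2 * (g ^ 2)⁻¹ * (h ^ 2)⁻¹) ^ p = 1 := by
  rw [eq_base hg, eq_base hh]
  simp only [← map_pow, ← map_inv, ← map_mul]
  have : (g.left ^ 2 * h.left ^ 2 * (g.left ^ 2)⁻¹ * (h.left ^ 2)⁻¹) ^ p = 1 := by
    ext1 x
    exact law_P p (g.left x) (h.left x)
  rw [this, map_one]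

end Pool.Agent.TH54.BU.Tors

namespace Pool.Agent.TH54.BU

open Tors RegularWreathProduct

theorem exists_torsion_group {B : Type} [Group B] (hB : Infinite B) (hfg : Group.FG B) {q : ℕ}
    (hq : Odd q) (hexp : ∀ b : B, b ^ q = 1) {p : ℕ} (hp : p.Prime) :
    ∃ (G : Type) (_ : Group G), Group.FG G ∧ (∀ g : G, IsOfFinOrder g) ∧
      (∃ w : FreeGroup ℕ, w ≠ 1 ∧ ∀ f : FreeGroup ℕ →* G, f w = 1) ∧
      ∀ w : FreeGroup ℕ, (∀ f : FreeGroup ℕ →* G, f w = 1) → ∀ n : ℕ, 1 ≤ n → Odd n →
        ∀ f : FreeGroup ℕ →* RegularWreathProduct (Multiplicative (ZMod p))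
          (Multiplicative (ZMod n)), f w = 1 := by
  have hq0 : 0 < q := hq.pos
  have hp0 : 0 < p := hp.pos
  have : NeZero p := ⟨hp0.ne'⟩
  obtain ⟨T, hT⟩ := hfg.out
  have : Countable B := by
    obtain ⟨α, hα, φ, hφ⟩ := Group.fg_iff_exists_freeGroup_hom_surjective_finite.1 hfg
    classical
    have : Countable (FreeGroup α) :=
      Function.Surjective.countable (f := fun L : List (α × Bool) => FreeGroup.mk L)
        (fun x => ⟨x.toWord, FreeGroup.mk_toWord⟩)
    exact hφ.countable
  obtain ⟨s, hs, hs2⟩ := exists_sparse (B := B)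
  have : Nonempty (J p) := ⟨⟨0, Sum.inr 1⟩⟩
  obtain ⟨e, he⟩ := exists_surjective_nat (J p)
  set a : ℕ → P p := fun i => gen p (e i) with ha
  have hrange : Set.range a = Set.range (gen p) := by
    rw [ha]
    exact he.range_comp (gen p)
  refine ⟨GG s a (T : Set B), inferInstance, fg_GG s a T.finite_toSet,
    torsion_GG s a _ hs hs2 (N := 2 * p) (by omega) (fun i => gen_pow p _) (torsion_P p hp0)
      hq0 hexp, ⟨ww q p, ww_ne hq0 hp0, ?_⟩, ?_⟩
  · intro f
    rw [ww]
    simp only [map_pow, map_mul, map_inv]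
    rw [← OneMemClass.coe_eq_one]
    simp only [Subgroup.coe_pow, Subgroup.coe_mul, Subgroup.coe_inv]
    apply law_wreath_base
    · rw [pow_right, hexp]
    · rw [pow_right, hexp]
  · intro w hw n hn _ f
    obtain ⟨m, rfl⟩ : ∃ m, n = m + 1 := ⟨n - 1, by omega⟩
    have h := law_values s a hT hs w hw ((Tors.lift (jj m) (jj_injective m)).comp f) (by
      intro x
      rw [hrange]
      exact lift_mem p m (f x))
    rw [MonoidHom.comp_apply] at h
    exact lift_injective (jj m) (jj_injective m) (by rw [h, map_one])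

end Pool.Agent.TH54.BU
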