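import Pool.Agent.TH54.BU.Step

/-!
# The iteration (helper54)
-/

set_option autoImplicit false

namespace Pool.Agent.TH54.BU

/-- transport of a length along an isomorphism -/
def GH.comapE {G G' : Type*} [Group G] [Group G'] (H : GH G) (e : G' ≃* G) : GH G' where
  len g := H.len (e g)
  D := H.D
  len_one := by rw [map_one, H.len_one]
  eq_one := by
    intro g hg
    exact (map_eq_one_iff e e.injective).1 (H.eq_one _ hg)
  len_inv := by intro g; rw [map_inv, H.len_inv]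
  len_mul := by intro g h; rw [map_mul]; exact H.len_mul _ _
  fp' := by
    intro u v w z
    simp only [map_mul, map_inv]
    exact H.fp' _ _ _ _
  step := by
    intro g k hk
    obtain ⟨h, h1, h2⟩ := H.step (e g) k hk
    refine ⟨e.symm h, ?_, ?_⟩
    · rw [e.apply_symm_apply, h1]
    · rw [map_mul, map_inv, e.apply_symm_apply, h2]

theorem isOfFinOrder_equiv {G G' : Type*} [Group G] [Group G'] (e : G' ≃* G) (g : G') :
    IsOfFinOrder (e g) ↔ IsOfFinOrder g := by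
  constructor
  · intro h
    have := (e.symm : G →* G').isOfFinOrder h
    simpa using this
  · intro h
    exact (e : G' →* G).isOfFinOrder h

theorem GH.comapE_stab {G G' : Type*} [Group G] [Group G'] (H : GH G) (e : G' ≃* G) {T : ℕ}
    (h : H.Stab T) : (H.comapE e).Stab T := by
  intro g hg m
  have := h (e g) (fun h2 => hg ((isOfFinOrder_equiv e g).1 h2)) m
  show m ≤ T * H.len (e (g ^ m))
  rwa [map_pow]

theorem GH.comapE_acy {G G' : Type*} [Group G] [Group G'] (H : GH G) (e : G' ≃* G) {K B : ℕ}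
    (h : H.Acy K B) : (H.comapE e).Acy K B := by
  intro q hq g hg
  have hsd : ∀ g, g ∈ (H.comapE e).SD K q → e g ∈ H.SD K (e q) := by
    rintro g ⟨g1, g2⟩
    refine ⟨g1, ?_⟩
    have : H.len (e (q⁻¹ * g * q)) ≤ K := g2
    simpa only [map_mul, map_inv] using this
  obtain ⟨h1, h2⟩ := h (e q) hq (e g) (hsd g hg)
  constructor
  · intro hf
    exact (map_eq_one_iff e e.injective).1 (h1 ((isOfFinOrder_equiv e g).2 hf))
  · intro k hk
    have := h2 (e k) (hsd k hk)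
    rw [← map_mul, ← map_mul] at this
    exact e.injective this

section

variable {A0 F0 : Type} [Group A0] [Group F0] (π : A0 →* F0) (z0 : A0) (p K B T : ℕ)

/-- a stage of the construction -/
structure Stg where
  N : Subgroup A0
  hN : N.Normal
  M : Subgroup F0
  hM : M.Normal
  map : N.map π = M
  inj : ∀ a ∈ N, π a = 1 → a = 1
  le : M ≤ powSub F0 p
  tz : ∀ a : A0, (∃ m : ℕ, 0 < m ∧ π a ^ m ∈ M) → π a ∉ M →
    ∃ k : ℤ, a ^ p * z0 ^ (-k) ∈ N ∧ ¬ (p : ℤ) ∣ k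
  H : GH (F0 ⧸ M)
  hD : H.D = 4
  stab : H.Stab T
  acy : H.Acy K B

variable {π z0 p K B T}

instance (s : Stg π z0 p K B T) : s.M.Normal := s.hM

instance (s : Stg π z0 p K B T) : s.N.Normal := s.hN

/-- the length of an element at a stage -/
def Stg.ln (s : Stg π z0 p K B T) (g : F0) : ℕ := s.H.len (g : F0 ⧸ s.M)

/-- the relation between successive stages -/
structure Nxt (s s' : Stg π z0 p K B T) : Prop where
  leN : s.N ≤ s'.N
  leM : s.M ≤ s'.M
  len : ∀ g, s'.ln g ≤ (s.ln g + 1) / 2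
  small : ∀ g, s.ln g ≤ 4 → g ∈ s'.M → g ∈ s.M
  kill : ∀ g, s.ln g ≤ 1 → ∃ m : ℕ, 0 < m ∧ g ^ m ∈ s'.M

theorem fin_mk {G : Type*} [Group G] (M : Subgroup G) [M.Normal] (g : G) :
    IsOfFinOrder (g : G ⧸ M) ↔ ∃ m : ℕ, 0 < m ∧ g ^ m ∈ M := by
  rw [isOfFinOrder_iff_pow_eq_one]
  constructor
  · rintro ⟨m, hm, h⟩
    refine ⟨m, hm, ?_⟩
    rwa [← QuotientGroup.mk_pow, QuotientGroup.eq_one_iff] at h
  · rintro ⟨m, hm, h⟩
    refine ⟨m, hm, ?_⟩
    rwa [← QuotientGroup.mk_pow, QuotientGroup.eq_one_iff]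

theorem exists_next (hπ : Function.Surjective π) (hz : ∀ a, a * z0 = z0 * a)
    (hker : π.ker = Subgroup.zpowers z0)
    (hstep : ∀ (A G : Type) [Group A] [Group G] (φ : A →* G), Function.Surjective φ →
    ∀ z : A, (∀ a, a * z = z * a) → φ.ker = Subgroup.zpowers z →
    (∀ a : A, IsOfFinOrder (φ a) → φ a ≠ 1 → ∃ k : ℤ, a ^ p = z ^ k ∧ ¬ (p : ℤ) ∣ k) →
    ∀ H : GH G, H.D = 4 → H.Stab T → H.Acy K B →
    ∃ (N : Subgroup A) (_ : N.Normal) (M : Subgroup G) (_ : M.Normal),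
      StepC φ z p K B T H N M) (s : Stg π z0 p K B T) : ∃ s' : Stg π z0 p K B T, Nxt s s' := by
  have hNn := s.hN
  have hMn := s.hM
  have hle : s.N ≤ s.M.comap π := by
    rw [← Subgroup.map_le_iff_le_comap, s.map]
  let φ : A0 ⧸ s.N →* F0 ⧸ s.M := QuotientGroup.map s.N s.M π hle
  have hφ : ∀ a : A0, φ (a : A0 ⧸ s.N) = ((π a : F0) : F0 ⧸ s.M) := fun a => rfl
  have hsurj : Function.Surjective φ := by
    intro g
    obtain ⟨g, rfl⟩ := QuotientGroup.mk_surjective g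
    obtain ⟨a, rfl⟩ := hπ g
    exact ⟨a, rfl⟩
  have hlift : ∀ a : A0, π a ∈ s.M → ∃ n ∈ s.N, ∃ k : ℤ, a = n * z0 ^ k := by
    intro a ha
    rw [← s.map] at ha
    obtain ⟨n, hn, hna⟩ := ha
    have h1 : n⁻¹ * a ∈ π.ker := by
      rw [MonoidHom.mem_ker, map_mul, map_inv, ← hna, inv_mul_cancel]
    rw [hker] at h1
    obtain ⟨k, hk⟩ := h1
    exact ⟨n, hn, k, by rw [show z0 ^ k = n⁻¹ * a from hk, mul_inv_cancel_left]⟩
  have hπz : π z0 = 1 := by
    have : z0 ∈ π.ker := by rw [hker]; exact Subgroup.mem_zpowers z0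
    exact this
  have hkerφ : φ.ker = Subgroup.zpowers (z0 : A0 ⧸ s.N) := by
    ext a
    obtain ⟨a, rfl⟩ := QuotientGroup.mk_surjective a
    rw [MonoidHom.mem_ker]
    constructor
    · intro h
      have h1 : π a ∈ s.M := (QuotientGroup.eq_one_iff _).1 h
      obtain ⟨n, hn, k, rfl⟩ := hlift a h1
      refine ⟨k, ?_⟩
      show ((z0 : A0) : A0 ⧸ s.N) ^ k = ((n * z0 ^ k : A0) : A0 ⧸ s.N)
      rw [QuotientGroup.mk_mul, (QuotientGroup.eq_one_iff n).2 hn, one_mul,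
        QuotientGroup.mk_zpow]
    · rintro ⟨k, hk⟩
      have hk' : ((z0 : A0) : A0 ⧸ s.N) ^ k = (a : A0 ⧸ s.N) := hk
      show φ (a : A0 ⧸ s.N) = 1
      rw [← hk', map_zpow, hφ, hπz]
      simp
  have htz : ∀ a : A0 ⧸ s.N, IsOfFinOrder (φ a) → φ a ≠ 1 →
      ∃ k : ℤ, a ^ p = (z0 : A0 ⧸ s.N) ^ k ∧ ¬ (p : ℤ) ∣ k := by
    intro a h1 h2
    obtain ⟨a, rfl⟩ := QuotientGroup.mk_surjective a
    have h3 := (fin_mk s.M (π a)).1 h1
    have h4 : π a ∉ s.M := fun h => h2 ((QuotientGroup.eq_one_iff _).2 h)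
    obtain ⟨k, hk, hk2⟩ := s.tz a h3 h4
    refine ⟨k, ?_, hk2⟩
    have h5 := (QuotientGroup.eq_one_iff (N := s.N) _).2 hk
    rw [QuotientGroup.mk_mul, QuotientGroup.mk_pow, QuotientGroup.mk_zpow, zpow_neg] at h5
    exact mul_inv_eq_one.1 h5
  have hzq : ∀ a : A0 ⧸ s.N, a * (z0 : A0 ⧸ s.N) = (z0 : A0 ⧸ s.N) * a := by
    intro a
    obtain ⟨a, rfl⟩ := QuotientGroup.mk_surjective a
    show (a : A0 ⧸ s.N) * (z0 : A0 ⧸ s.N) = (z0 : A0 ⧸ s.N) * (a : A0 ⧸ s.N)
    rw [← QuotientGroup.mk_mul, ← QuotientGroup.mk_mul, hz]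
  obtain ⟨N1, hN1, M1, hM1, S⟩ := hstep (A0 ⧸ s.N) (F0 ⧸ s.M) φ hsurj (z0 : A0 ⧸ s.N) hzq hkerφ
    htz s.H s.hD s.stab s.acy
  obtain ⟨F, hFD, hFS, hFA, hFlen⟩ := S.len
  -- the new subgroups
  let N' : Subgroup A0 := N1.comap (QuotientGroup.mk' s.N)
  let M' : Subgroup F0 := M1.comap (QuotientGroup.mk' s.M)
  have hN'n : N'.Normal := hN1.comap _
  have hM'n : M'.Normal := hM1.comap _
  have memN : ∀ a : A0, a ∈ N' ↔ (a : A0 ⧸ s.N) ∈ N1 := fun a => Iff.rfl
  have memM : ∀ g : F0, g ∈ M' ↔ (g : F0 ⧸ s.M) ∈ M1 := fun g => Iff.rfl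
  let ψ : F0 →* (F0 ⧸ s.M) ⧸ M1 := (QuotientGroup.mk' M1).comp (QuotientGroup.mk' s.M)
  have hψker : ∀ g, ψ g = 1 ↔ g ∈ M' := by
    intro g
    show (((g : F0 ⧸ s.M) : (F0 ⧸ s.M)) : (F0 ⧸ s.M) ⧸ M1) = 1 ↔ _
    rw [QuotientGroup.eq_one_iff, memM]
  let e0 : F0 ⧸ M' →* (F0 ⧸ s.M) ⧸ M1 := QuotientGroup.lift M' ψ (fun g hg => (hψker g).2 hg)
  have he0 : Function.Bijective e0 := by
    constructor
    · rw [injective_iff_map_eq_one]
      intro g hg
      obtain ⟨g, rfl⟩ := QuotientGroup.mk_surjective g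
      exact (QuotientGroup.eq_one_iff _).2 ((hψker g).1 hg)
    · intro g
      obtain ⟨g, rfl⟩ := QuotientGroup.mk_surjective g
      obtain ⟨g, rfl⟩ := QuotientGroup.mk_surjective g
      exact ⟨(g : F0 ⧸ M'), rfl⟩
  let e : F0 ⧸ M' ≃* (F0 ⧸ s.M) ⧸ M1 := MulEquiv.ofBijective e0 he0
  have finM : ∀ g : F0, (∃ m : ℕ, 0 < m ∧ g ^ m ∈ M') ↔
      IsOfFinOrder ((g : F0 ⧸ s.M) : (F0 ⧸ s.M) ⧸ M1) := by
    intro g
    rw [fin_mk]
    constructor
    · rintro ⟨m, hm, h⟩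
      exact ⟨m, hm, by rw [← QuotientGroup.mk_pow]; exact h⟩
    · rintro ⟨m, hm, h⟩
      refine ⟨m, hm, ?_⟩
      rw [memM, QuotientGroup.mk_pow]
      exact h
  refine ⟨⟨N', hN'n, M', hM'n, ?_, ?_, ?_, ?_, F.comapE e, hFD, F.comapE_stab e hFS,
    F.comapE_acy e hFA⟩, ?_⟩
  · ext g
    constructor
    · rintro ⟨a, ha, rfl⟩
      rw [memM, ← S.map]
      exact ⟨_, (memN a).1 ha, rfl⟩
    · intro hg
      rw [memM, ← S.map] at hg
      obtain ⟨n, hn, hng⟩ := hg
      obtain ⟨a, rfl⟩ := QuotientGroup.mk_surjective n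
      have h1 : ((π a : F0) : F0 ⧸ s.M) = g := hng
      have h2 := QuotientGroup.eq.1 h1
      rw [← s.map] at h2
      obtain ⟨m, hm, hmg⟩ := h2
      refine ⟨a * m, ?_, ?_⟩
      · show ((a * m : A0) : A0 ⧸ s.N) ∈ N1
        rw [QuotientGroup.mk_mul, (QuotientGroup.eq_one_iff m).2 hm, mul_one]
        exact hn
      · rw [map_mul, hmg, mul_inv_cancel_left]
  · intro a ha h1
    have h2 : (a : A0 ⧸ s.N) = 1 := by
      apply S.inj _ ((memN a).1 ha)
      rw [hφ, h1]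
      rfl
    exact s.inj a ((QuotientGroup.eq_one_iff a).1 h2) h1
  · intro g hg
    have h1 := S.le ((memM g).1 hg)
    have h2 : powSub (F0 ⧸ s.M) p ≤ (powSub F0 p).map (QuotientGroup.mk' s.M) := by
      unfold powSub
      rw [Subgroup.map_normalClosure _ _ (QuotientGroup.mk'_surjective s.M)]
      apply Subgroup.normalClosure_mono
      rintro _ ⟨x, rfl⟩
      obtain ⟨x, rfl⟩ := QuotientGroup.mk_surjective x
      exact ⟨x ^ p, ⟨x, rfl⟩, rfl⟩
    obtain ⟨w, hw, hwg⟩ := h2 h1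
    have h3 : (w : F0 ⧸ s.M) = g := hwg
    have h4 := s.le (QuotientGroup.eq.1 h3)
    have := (powSub F0 p).mul_mem hw h4
    rwa [mul_inv_cancel_left] at this
  · intro a h1 h2
    have h3 := (finM (π a)).1 h1
    obtain ⟨k, hk, hk2⟩ := S.tz (a : A0 ⧸ s.N) h3 h2
    refine ⟨k, ?_, hk2⟩
    rw [memN, QuotientGroup.mk_mul, QuotientGroup.mk_pow, QuotientGroup.mk_zpow]
    exact hk
  · refine ⟨?_, ?_, ?_, ?_, ?_⟩
    · intro a ha
      show ((a : A0) : A0 ⧸ s.N) ∈ N1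
      rw [(QuotientGroup.eq_one_iff a).2 ha]
      exact N1.one_mem
    · intro a ha
      show ((a : F0) : F0 ⧸ s.M) ∈ M1
      rw [(QuotientGroup.eq_one_iff a).2 ha]
      exact M1.one_mem
    · intro g
      exact hFlen (g : F0 ⧸ s.M)
    · intro g h1 h2
      exact (QuotientGroup.eq_one_iff g).1 (S.small (g : F0 ⧸ s.M) h1 h2)
    · intro g h1
      exact (finM g).2 (S.kill (g : F0 ⧸ s.M) h1)

end

/-- the free group of rank two or more is not abelian -/
theorem of_not_commute {I : Type} {i j : I} (hij : i ≠ j) :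
    FreeGroup.of i * FreeGroup.of j ≠ FreeGroup.of j * FreeGroup.of i := by
  classical
  intro h
  let f : FreeGroup I →* Equiv.Perm (Fin 3) :=
    FreeGroup.lift (fun k => if k = i then Equiv.swap 0 1 else Equiv.swap 1 2)
  have h1 := congrArg f h
  simp only [map_mul, f, FreeGroup.lift_apply_of, if_true, if_neg hij.symm] at h1
  exact absurd h1 (by decide)

theorem burnside : ∃ p0 : ℕ, ∀ p : ℕ, p.Prime → p0 ≤ p → Burn p := by
  obtain ⟨K, B, T, hK, hB, hT, p0, hstep⟩ := step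
  refine ⟨p0, fun p hp hpp I => ?_⟩
  have hst := hstep p hp hpp
  let A0 := FreeGroup I × Multiplicative ℤ
  let F0 := FreeGroup I
  let π : A0 →* F0 := MonoidHom.fst _ _
  let z0 : A0 := (1, Multiplicative.ofAdd 1)
  have hz0 : ∀ k : ℤ, z0 ^ k = (1, Multiplicative.ofAdd k) := by
    intro k
    apply Prod.ext
    · show (1 : FreeGroup I) ^ k = 1
      exact one_zpow k
    · show (Multiplicative.ofAdd (1 : ℤ)) ^ k = Multiplicative.ofAdd k
      rw [← ofAdd_zsmul]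
      simp
  have hπ : Function.Surjective π := fun g => ⟨(g, 1), rfl⟩
  have hz : ∀ a : A0, a * z0 = z0 * a := by
    intro a
    apply Prod.ext
    · show a.1 * 1 = 1 * a.1
      rw [mul_one, one_mul]
    · exact mul_comm _ _
  have hker : π.ker = Subgroup.zpowers z0 := by
    ext a
    constructor
    · intro h
      have h1 : a.1 = 1 := h
      refine ⟨Multiplicative.toAdd a.2, ?_⟩
      show z0 ^ (Multiplicative.toAdd a.2) = a
      rw [hz0]
      exact Prod.ext h1.symm rfl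
    · rintro ⟨k, rfl⟩
      show π (z0 ^ k) = 1
      rw [hz0]
      rfl
  obtain ⟨H0, hD0, hS0, hA0, hlen0⟩ := base I
  have htf : ∀ g : F0, ∀ m : ℕ, 0 < m → g ^ m = 1 → g = 1 := by
    intro g m hm h
    have h1 : g ^ m = 1 ^ m := by rw [h, one_pow]
    exact pow_left_injective hm.ne' h1
  -- the first stage
  let e0 : F0 ⧸ (⊥ : Subgroup F0) ≃* F0 := QuotientGroup.quotientBot
  let s0 : Stg π z0 p K B T :=
    { N := ⊥
      hN := inferInstance
      M := ⊥
      hM := inferInstance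
      map := Subgroup.map_bot π
      inj := fun a ha _ => Subgroup.mem_bot.1 ha
      le := bot_le
      tz := by
        rintro a ⟨m, hm, h1⟩ h2
        exact absurd (Subgroup.mem_bot.2 (htf _ m hm (Subgroup.mem_bot.1 h1))) h2
      H := H0.comapE e0
      hD := hD0
      stab := by
        intro g hg m
        have := H0.comapE_stab e0 hS0 g hg m
        calc m ≤ 1 * (H0.comapE e0).len (g ^ m) := this
          _ ≤ T * (H0.comapE e0).len (g ^ m) := Nat.mul_le_mul_right _ hT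
      acy := H0.comapE_acy e0 (hA0 K B hB) }
  have hnext := exists_next (K := K) (B := B) (T := T) (p := p) hπ hz hker
    (fun A G _ _ φ h1 z h2 h3 h4 H h5 h6 h7 => hst A G φ h1 z h2 h3 h4 H h5 h6 h7)
  choose nx hnx using hnext
  let s : ℕ → Stg π z0 p K B T := fun n => nx^[n] s0
  have hs : ∀ n, Nxt (s n) (s (n + 1)) := by
    intro n
    have : s (n + 1) = nx (s n) := Function.iterate_succ_apply' nx n s0
    rw [this]
    exact hnx _
  have hNmono : Monotone fun n => (s n).N := monotone_nat_of_le_succ fun n => (hs n).leN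
  have hMmono : Monotone fun n => (s n).M := monotone_nat_of_le_succ fun n => (hs n).leM
  -- lengths decrease
  have hdec : ∀ g : F0, ∀ k n : ℕ, (s n).ln g ≤ k + 1 → ∃ n', (s n').ln g ≤ 1 := by
    intro g k
    induction k with
    | zero => exact fun n h => ⟨n, h⟩
    | succ k ih =>
      intro n h
      have := (hs n).len g
      exact ih (n + 1) (by omega)
  have htors : ∀ g : F0, ∃ n, ∃ m : ℕ, 0 < m ∧ g ^ m ∈ (s n).M := by
    intro g
    obtain ⟨n, hn⟩ := hdec g ((s 0).ln g) 0 (by omega)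
    exact ⟨n + 1, (hs n).kill g hn⟩
  have hpow : ∀ g : F0, ∃ n, g ^ p ∈ (s n).M := by
    intro g
    obtain ⟨n, hn⟩ := htors g
    refine ⟨n, ?_⟩
    by_cases hg : g ∈ (s n).M
    · exact (s n).M.pow_mem hg p
    · obtain ⟨a, rfl⟩ := hπ g
      obtain ⟨k, hk, _⟩ := (s n).tz a hn hg
      rw [← (s n).map]
      refine ⟨_, hk, ?_⟩
      rw [map_mul, map_pow, hz0]
      exact mul_one _
  -- the limit
  let Ninf : Subgroup A0 := ⨆ n, (s n).N
  let Minf : Subgroup F0 := ⨆ n, (s n).M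
  have memN : ∀ a : A0, a ∈ Ninf ↔ ∃ n, a ∈ (s n).N := fun a =>
    Subgroup.mem_iSup_of_directed hNmono.directed_le
  have memM : ∀ g : F0, g ∈ Minf ↔ ∃ n, g ∈ (s n).M := fun g =>
    Subgroup.mem_iSup_of_directed hMmono.directed_le
  have hNn : Ninf.Normal := by
    constructor
    intro a ha g
    obtain ⟨n, hn⟩ := (memN a).1 ha
    exact (memN _).2 ⟨n, (s n).hN.conj_mem a hn g⟩
  have hMn : Minf.Normal := by
    constructor
    intro a ha g
    obtain ⟨n, hn⟩ := (memM a).1 ha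
    exact (memM _).2 ⟨n, (s n).hM.conj_mem a hn g⟩
  have hMinf : Minf = powSub F0 p := by
    apply le_antisymm
    · exact iSup_le fun n => (s n).le
    · unfold powSub
      apply Subgroup.normalClosure_le_normal
      rintro _ ⟨g, rfl⟩
      exact (memM _).2 (hpow g)
  have hπN : ∀ a ∈ Ninf, π a ∈ powSub F0 p := by
    intro a ha
    obtain ⟨n, hn⟩ := (memN a).1 ha
    rw [← hMinf, memM]
    refine ⟨n, ?_⟩
    rw [← (s n).map]
    exact ⟨a, hn, rfl⟩
  have hle : Ninf ≤ (powSub F0 p).comap π := hπN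
  let φ : A0 ⧸ Ninf →* F0 ⧸ powSub F0 p := QuotientGroup.map Ninf (powSub F0 p) π hle
  have hφ : ∀ a : A0, φ (a : A0 ⧸ Ninf) = ((π a : F0) : F0 ⧸ powSub F0 p) := fun a => rfl
  have hφz : ∀ k : ℤ, φ ((z0 : A0 ⧸ Ninf) ^ k) = 1 := by
    intro k
    rw [← QuotientGroup.mk_zpow, hφ, hz0]
    rfl
  have hmem : ∀ a : A0, π a ∈ powSub F0 p → ∃ k : ℤ, (a : A0 ⧸ Ninf) = (z0 : A0 ⧸ Ninf) ^ k := by
    intro a ha
    rw [← hMinf, memM] at ha
    obtain ⟨n, hn⟩ := ha
    rw [← (s n).map] at hn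
    obtain ⟨b, hb, hba⟩ := hn
    have h1 : b⁻¹ * a ∈ π.ker := by
      rw [MonoidHom.mem_ker, map_mul, map_inv, ← hba, inv_mul_cancel]
    rw [hker] at h1
    obtain ⟨k, hk⟩ := h1
    have hk' : z0 ^ k = b⁻¹ * a := hk
    refine ⟨k, ?_⟩
    rw [← QuotientGroup.mk_zpow, hk', QuotientGroup.mk_mul, QuotientGroup.mk_inv,
      (QuotientGroup.eq_one_iff b).2 ((memN b).2 ⟨n, hb⟩), inv_one, one_mul]
  refine ⟨A0 ⧸ Ninf, inferInstance, (z0 : A0 ⧸ Ninf), φ, ?_, ?_, ?_, ?_, ?_, ?_⟩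
  · intro g
    obtain ⟨g, rfl⟩ := QuotientGroup.mk_surjective g
    obtain ⟨a, rfl⟩ := hπ g
    exact ⟨a, rfl⟩
  · ext a
    obtain ⟨a, rfl⟩ := QuotientGroup.mk_surjective a
    constructor
    · intro h
      obtain ⟨k, hk⟩ := hmem a ((QuotientGroup.eq_one_iff _).1 h)
      exact ⟨k, hk.symm⟩
    · rintro ⟨k, hk⟩
      have hk' : (z0 : A0 ⧸ Ninf) ^ k = (a : A0 ⧸ Ninf) := hk
      rw [MonoidHom.mem_ker]
      show φ (a : A0 ⧸ Ninf) = 1
      rw [← hk', hφz]
  · intro a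
    obtain ⟨a, rfl⟩ := QuotientGroup.mk_surjective a
    show (a : A0 ⧸ Ninf) * (z0 : A0 ⧸ Ninf) = (z0 : A0 ⧸ Ninf) * (a : A0 ⧸ Ninf)
    rw [← QuotientGroup.mk_mul, ← QuotientGroup.mk_mul, hz]
  · rw [fin_mk]
    rintro ⟨m, hm, h⟩
    obtain ⟨n, hn⟩ := (memN _).1 h
    have h1 : π (z0 ^ m) = 1 := by
      rw [← zpow_natCast, hz0]
      rfl
    have h2 := (s n).inj _ hn h1
    rw [← zpow_natCast, hz0] at h2
    have h3 : Multiplicative.ofAdd (m : ℤ) = 1 := congrArg Prod.snd h2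
    have h4 : (m : ℤ) = 0 := h3
    omega
  · intro a ha
    obtain ⟨a, rfl⟩ := QuotientGroup.mk_surjective a
    obtain ⟨n, hn⟩ := htors (π a)
    have h1 : π a ∉ (s n).M := by
      intro h
      apply ha
      obtain ⟨k, hk⟩ := hmem a (by rw [← hMinf, memM]; exact ⟨n, h⟩)
      exact ⟨k, hk.symm⟩
    obtain ⟨k, hk, hk2⟩ := (s n).tz a hn h1
    refine ⟨k, ?_, hk2⟩
    have h5 := (QuotientGroup.eq_one_iff (N := Ninf) _).2 ((memN _).2 ⟨n, hk⟩)
    rw [QuotientGroup.mk_mul, QuotientGroup.mk_pow, QuotientGroup.mk_zpow, zpow_neg] at h5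
    exact mul_inv_eq_one.1 h5
  · intro i j hij h
    set w : F0 := (FreeGroup.of j * FreeGroup.of i)⁻¹ * (FreeGroup.of i * FreeGroup.of j) with hw
    have hw1 : w ∈ powSub F0 p := by
      rw [← QuotientGroup.eq_one_iff, hw]
      simp only [QuotientGroup.mk_mul, QuotientGroup.mk_inv]
      rw [h, inv_mul_cancel]
    rw [← hMinf, memM] at hw1
    obtain ⟨n, hn⟩ := hw1
    have hln : ∀ n, (s n).ln w ≤ 4 := by
      intro n
      induction n with
      | zero =>
        show H0.len (e0 (w : F0 ⧸ (⊥ : Subgroup F0))) ≤ 4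
        have : e0 (w : F0 ⧸ (⊥ : Subgroup F0)) = w := rfl
        rw [this, hw]
        have a1 := H0.len_mul (FreeGroup.of j * FreeGroup.of i)⁻¹ (FreeGroup.of i * FreeGroup.of j)
        have a2 := H0.len_mul (FreeGroup.of j) (FreeGroup.of i)
        have a3 := H0.len_mul (FreeGroup.of i) (FreeGroup.of j)
        rw [H0.len_inv] at a1
        rw [hlen0, hlen0] at a2 a3
        omega
      | succ n ih =>
        have := (hs n).len w
        omega
    have hall : ∀ n, w ∉ (s n).M := by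
      intro n
      induction n with
      | zero =>
        intro h0
        have h1 : w = 1 := Subgroup.mem_bot.1 h0
        rw [hw, inv_mul_eq_one] at h1
        exact of_not_commute hij h1.symm
      | succ n ih => exact fun h1 => ih ((hs n).small w (hln n) h1)
    exact hall n hn

end Pool.Agent.TH54.BU
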