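import Pool.Agent.TH54.BU.AppHM
import Pool.Agent.TH54.BU.Inf

/-!
# Torsion-free topological groups with open centre `ℤ_p` and infinite quotient of exponent `p`
(helper615)
-/

set_option autoImplicit false
set_option linter.style.haveILetI false

namespace Pool.Agent.TH54.BU

open Topology Filter Pool.Agent.TH54

/-- the centre of the group in `Burn` -/
theorem ee_center {p : ℕ} (hp : p.Prime) {A : Type} [Group A] {z : A}
    (hzo : ¬ IsOfFinOrder z) (hz : ∀ a, a * z = z * a)
    (hpow : ∀ a : A, a ∉ Subgroup.zpowers z → ∃ k : ℤ, a ^ p = z ^ k ∧ ¬ (p : ℤ) ∣ k)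
    (hna : ∃ a b : A, a * b ≠ b * a) {a : A} (ha : ∀ b, a * b = b * a) :
    a ∈ Subgroup.zpowers z := by
  by_contra hc
  obtain ⟨k, hk, hpk⟩ := hpow a hc
  have hpp : Prime (p : ℤ) := Nat.prime_iff_prime_int.1 hp
  have hcop : IsCoprime k (p : ℤ) := ((Prime.coprime_iff_not_dvd hpp).2 hpk).symm
  obtain ⟨r, s, hrs⟩ := hcop
  have haz : Commute a z := ha z
  -- `y ^ p = z`
  set y : A := a ^ r * z ^ s with hy
  have hyc : ∀ b, Commute y b := by
    intro b
    have h1 : Commute a b := ha b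
    have h2 : Commute z b := (hz b).symm
    exact (h1.zpow_left r).mul_left (h2.zpow_left s)
  have hyp : y ^ p = z := by
    have h1 : Commute (a ^ r) (z ^ s) := (haz.zpow_left r).zpow_right s
    rw [hy, h1.mul_pow]
    have h2 : (a ^ r) ^ p = z ^ (k * r) := by
      rw [← zpow_natCast, ← zpow_mul, mul_comm, zpow_mul, zpow_natCast, hk, zpow_mul]
    have h3 : (z ^ s) ^ p = z ^ (s * p) := by
      rw [zpow_mul, zpow_natCast]
    rw [h2, h3, ← zpow_add]
    have h4 : k * r + s * p = 1 := by linarith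
    rw [h4, zpow_one]
  have hzk : ∀ a : A, ∃ k : ℤ, a ^ p = z ^ k := by
    intro a
    by_cases ha : a ∈ Subgroup.zpowers z
    · obtain ⟨i, hi⟩ := ha
      exact ⟨i * p, by rw [← hi, zpow_mul, zpow_natCast]⟩
    · obtain ⟨k, hk, -⟩ := hpow a ha
      exact ⟨k, hk⟩
  have hgen : ∀ g : A, ∃ m : ℤ, g = y ^ m := by
    intro g
    obtain ⟨m, hm⟩ := hzk g
    have h1 : (g * y ^ (-m)) ^ p = 1 := by
      rw [((hyc g).symm.zpow_right (-m)).mul_pow, hm]
      have : (y ^ (-m)) ^ p = z ^ (-m) := by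
        rw [← zpow_natCast, ← zpow_mul, mul_comm, zpow_mul, zpow_natCast, hyp]
      rw [this, ← zpow_add, add_neg_cancel, zpow_zero]
    have h2 : g * y ^ (-m) ∈ Subgroup.zpowers z := by
      by_contra h2
      obtain ⟨j, hj, hpj⟩ := hpow _ h2
      rw [h1] at hj
      have h3 : j = 0 := zpow_inj_of hzo (by rw [zpow_zero, hj])
      exact hpj (h3 ▸ dvd_zero _)
    obtain ⟨i, hi⟩ := h2
    simp only at hi
    rw [← hi] at h1
    have h3 : z ^ (i * p) = z ^ (0 : ℤ) := by
      rw [zpow_mul, zpow_natCast, h1, zpow_zero]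
    have h4 := zpow_inj_of hzo h3
    have hp0 : (p : ℤ) ≠ 0 := by exact_mod_cast hp.ne_zero
    have h5 : i = 0 := by
      rcases mul_eq_zero.1 h4 with h | h
      · exact h
      · exact absurd h hp0
    rw [h5, zpow_zero] at hi
    refine ⟨m, ?_⟩
    rw [zpow_neg] at hi
    exact (mul_inv_eq_one.1 hi.symm)
  obtain ⟨u, v, huv⟩ := hna
  obtain ⟨m, rfl⟩ := hgen u
  obtain ⟨n, rfl⟩ := hgen v
  apply huv
  rw [← zpow_add, ← zpow_add, add_comm]

/-- existence of the torsion-free extensions with open centre `ℤ_p` -/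
theorem exists_ext {p : ℕ} [Fact p.Prime] (h : Burn p) :
    ∃ (M : Type) (_ : Group M) (_ : TopologicalSpace M), IsTopologicalGroup M ∧ T2Space M ∧
      (∀ x : M, IsOfFinOrder x → x = 1) ∧ IsOpen (Subgroup.center M : Set M) ∧
      Nonempty (Multiplicative ℤ_[p] ≃ₜ* Subgroup.center M) ∧
      (∀ x : M ⧸ Subgroup.center M, x ^ p = 1) ∧ Infinite (M ⧸ Subgroup.center M) := by
  have hp : p.Prime := Fact.out
  have hinf : Infinite (FreeGroup (Fin 2) ⧸ powSub (FreeGroup (Fin 2)) p) := Burn.infinite hp h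
  obtain ⟨A, hA, z, φ, hφ, hker, hz, hzo, hpow, hgen⟩ := h (Fin 2)
  letI : TopologicalSpace A := ⊥
  haveI : DiscreteTopology A := ⟨rfl⟩
  haveI hN : (hmN p z).Normal := hmN_normal hz
  haveI hcl : IsClosed (hmN p z : Set (A × Multiplicative ℤ_[p])) := hmN_closed hzo
  let M := (A × Multiplicative ℤ_[p]) ⧸ hmN p z
  let ι : Multiplicative ℤ_[p] →* M :=
    (QuotientGroup.mk' (hmN p z)).comp (MonoidHom.inr A (Multiplicative ℤ_[p]))
  have hι0 : ∀ t, ι t = ((1, t) : A × Multiplicative ℤ_[p]) := fun t => rfl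
  have hinj : Function.Injective ι := by
    intro s t hst
    rw [hι0, hι0, QuotientGroup.eq] at hst
    obtain ⟨k, h1, h2⟩ := mem_hmN.1 hst
    simp only [Prod.fst_mul, Prod.fst_inv, inv_one, mul_one, Prod.snd_mul, Prod.snd_inv] at h1 h2
    have hk : k = 0 := zpow_inj_of hzo (by rw [zpow_zero]; exact h1.symm)
    subst hk
    rw [Int.cast_zero, neg_zero] at h2
    have h3 : s⁻¹ * t = 1 := Multiplicative.toAdd.injective h2
    exact inv_mul_eq_one.1 h3
  have hcont : Continuous ι := by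
    have h1 : Continuous fun t : Multiplicative ℤ_[p] => ((1 : A), t) := by fun_prop
    exact continuous_quotient_mk'.comp h1
  have hopen : IsOpenMap ι := by
    have h1 : IsOpenMap fun t : Multiplicative ℤ_[p] => ((1 : A), t) := by
      intro U hU
      have : (fun t : Multiplicative ℤ_[p] => ((1 : A), t)) '' U = {(1 : A)} ×ˢ U := by
        ext ⟨a, t⟩
        simp only [Set.mem_image, Prod.mk.injEq, Set.mem_prod, Set.mem_singleton_iff]
        constructor
        · rintro ⟨s, hs, rfl, rfl⟩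
          exact ⟨rfl, hs⟩
        · rintro ⟨rfl, ht⟩
          exact ⟨t, ht, rfl, rfl⟩
      rw [this]
      exact (isOpen_discrete _).prod hU
    exact (QuotientGroup.isOpenMap_coe).comp h1
  have hι : IsOpenEmbedding ι := IsOpenEmbedding.of_continuous_injective_isOpenMap hcont hinj hopen
  have hc : ∀ (s : Multiplicative ℤ_[p]) (x : M), ι s * x = x * ι s := by
    intro s x
    obtain ⟨⟨a, t⟩, rfl⟩ := QuotientGroup.mk_surjective x
    rw [hι0, ← QuotientGroup.mk_mul, ← QuotientGroup.mk_mul, Prod.mk_mul_mk, Prod.mk_mul_mk,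
      one_mul, mul_one, mul_comm]
  have hzk : ∀ a : A, ∃ k : ℤ, a ^ p = z ^ k := by
    intro a
    by_cases ha : a ∈ Subgroup.zpowers z
    · obtain ⟨i, hi⟩ := ha
      exact ⟨i * p, by rw [← hi, zpow_mul, zpow_natCast]⟩
    · obtain ⟨k, hk, -⟩ := hpow a ha
      exact ⟨k, hk⟩
  have htf : ∀ x : M, IsOfFinOrder x → x = 1 := by
    intro x hx
    obtain ⟨⟨a, t⟩, rfl⟩ := QuotientGroup.mk_surjective x
    obtain ⟨m, hm, hxm⟩ := isOfFinOrder_iff_pow_eq_one.1 hx
    rw [← QuotientGroup.mk_pow, QuotientGroup.eq_one_iff] at hxm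
    obtain ⟨k, h1, h2⟩ := mem_hmN.1 hxm
    rw [Prod.pow_mk] at h1 h2
    simp only at h1 h2
    rw [toAdd_pow, nsmul_eq_mul] at h2
    rw [QuotientGroup.eq_one_iff]
    have hm0 : (m : ℤ_[p]) ≠ 0 := by exact_mod_cast hm.ne'
    by_cases ha : a ∈ Subgroup.zpowers z
    · obtain ⟨i, hi⟩ := ha
      simp only at hi
      have h3 : z ^ (i * m) = z ^ k := by
        rw [← h1, ← hi, zpow_mul, zpow_natCast]
      have h4 : i * m = k := zpow_inj_of hzo h3
      refine mem_hmN.2 ⟨i, hi.symm, ?_⟩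
      simp only
      apply mul_left_cancel₀ hm0
      rw [h2, ← h4]
      push_cast
      ring
    · exfalso
      obtain ⟨j, hj, hpj⟩ := hpow a ha
      have h3 : z ^ (j * m) = z ^ (k * p) := by
        rw [zpow_mul, ← hj, zpow_mul, ← h1, zpow_natCast, zpow_natCast, ← pow_mul, ← pow_mul,
          mul_comm]
      have h4 : j * m = k * p := zpow_inj_of hzo h3
      have hpp : Prime (p : ℤ) := Nat.prime_iff_prime_int.1 hp
      have h5 : (p : ℤ) ∣ m := by
        rcases hpp.dvd_or_dvd (show (p : ℤ) ∣ j * m from ⟨k, by rw [h4, mul_comm]⟩) with h | h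
        · exact absurd h hpj
        · exact h
      obtain ⟨m', hm'⟩ := h5
      have hp0 : (p : ℤ) ≠ 0 := by exact_mod_cast hp.ne_zero
      have h6 : k = j * m' := by
        apply mul_right_cancel₀ hp0
        rw [← h4, hm']
        ring
      have hm'0 : (m' : ℤ_[p]) ≠ 0 := by
        intro h0
        apply hm0
        have : ((m : ℤ) : ℤ_[p]) = ((p * m' : ℤ) : ℤ_[p]) := by rw [hm']
        rw [Int.cast_natCast] at this
        rw [this, Int.cast_mul, h0, mul_zero]
      have h7 : (p : ℤ_[p]) * Multiplicative.toAdd t = -(j : ℤ_[p]) := by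
        apply mul_left_cancel₀ hm'0
        have e1 : (m : ℤ_[p]) = (p : ℤ_[p]) * (m' : ℤ_[p]) := by
          have : ((m : ℤ) : ℤ_[p]) = ((p * m' : ℤ) : ℤ_[p]) := by rw [hm']
          rw [Int.cast_natCast] at this
          rw [this]
          push_cast
          ring
        rw [e1, h6] at h2
        push_cast at h2
        linear_combination h2
      apply hpj
      have h8 : ‖((j : ℤ) : ℤ_[p])‖ < 1 := by
        rw [← norm_neg, ← h7, norm_mul, PadicInt.norm_p]
        have h9 := PadicInt.norm_le_one (Multiplicative.toAdd t)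
        have h10 : ((p : ℝ))⁻¹ < 1 := inv_lt_one_of_one_lt₀ (by exact_mod_cast hp.one_lt)
        have h11 : (0 : ℝ) ≤ ((p : ℝ))⁻¹ := by positivity
        nlinarith [norm_nonneg (Multiplicative.toAdd t)]
      exact PadicInt.norm_int_lt_one_iff_dvd j |>.1 h8
  have hxp : ∀ x : M, x ^ p ∈ ι.range := by
    intro x
    obtain ⟨⟨a, t⟩, rfl⟩ := QuotientGroup.mk_surjective x
    obtain ⟨k, hk⟩ := hzk a
    refine ⟨t ^ p * Multiplicative.ofAdd (k : ℤ_[p]), ?_⟩
    rw [hι0, ← QuotientGroup.mk_pow, QuotientGroup.eq, Prod.pow_mk, hk]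
    refine mem_hmN.2 ⟨k, ?_, ?_⟩
    · simp
    · simp only [Prod.snd_mul, Prod.snd_inv]
      rw [mul_inv_rev, inv_mul_cancel_right, toAdd_inv, toAdd_ofAdd]

  have hna : ∃ a b : A, a * b ≠ b * a := by
    obtain ⟨a, ha⟩ := hφ ((FreeGroup.of (0 : Fin 2) : FreeGroup (Fin 2)) :
      FreeGroup (Fin 2) ⧸ powSub (FreeGroup (Fin 2)) p)
    obtain ⟨b, hb⟩ := hφ ((FreeGroup.of (1 : Fin 2) : FreeGroup (Fin 2)) :
      FreeGroup (Fin 2) ⧸ powSub (FreeGroup (Fin 2)) p)
    refine ⟨a, b, fun hab => hgen 0 1 (by decide) ?_⟩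
    rw [← ha, ← hb, ← map_mul, ← map_mul, hab]
  have hcen : ∀ x : M, x ∈ Subgroup.center M ↔ x ∈ ι.range := by
    intro x
    constructor
    · intro hx
      obtain ⟨⟨a, t⟩, rfl⟩ := QuotientGroup.mk_surjective x
      have ha : ∀ b, a * b = b * a := by
        intro b
        have h1 := Subgroup.mem_center_iff.1 hx (((b, 1) : A × Multiplicative ℤ_[p]) : M)
        rw [← QuotientGroup.mk_mul, ← QuotientGroup.mk_mul, QuotientGroup.eq] at h1
        obtain ⟨k, h2, h3⟩ := mem_hmN.1 h1
        simp only [Prod.mk_mul_mk, Prod.fst_mul, Prod.fst_inv, Prod.snd_mul, Prod.snd_inv, one_mul,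
          mul_one, inv_mul_cancel] at h2 h3
        rw [toAdd_one, eq_comm, neg_eq_zero] at h3
        have hk : k = 0 := by exact_mod_cast h3
        rw [hk, zpow_zero, inv_mul_eq_one] at h2
        exact h2.symm
      obtain ⟨k, hk⟩ := ee_center hp hzo hz hpow hna ha
      simp only at hk
      refine ⟨t * Multiplicative.ofAdd (k : ℤ_[p]), ?_⟩
      rw [hι0, QuotientGroup.eq]
      refine mem_hmN.2 ⟨k, ?_, ?_⟩
      · simp [hk]
      · simp only [Prod.snd_mul, Prod.snd_inv]
        rw [mul_inv_rev, inv_mul_cancel_right, toAdd_inv, toAdd_ofAdd]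
    · rintro ⟨s, rfl⟩
      rw [Subgroup.mem_center_iff]
      intro x
      exact (hc s x).symm
  have hrange : (Subgroup.center M : Set M) = Set.range ι := by
    ext x
    rw [SetLike.mem_coe, hcen]; rfl
  refine ⟨M, inferInstance, inferInstance, inferInstance, inferInstance, htf, ?_, ?_, ?_, ?_⟩
  · rw [hrange]
    exact hι.isOpen_range
  · let ι' : Multiplicative ℤ_[p] →* Subgroup.center M :=
      ι.codRestrict _ fun s => (hcen _).2 ⟨s, rfl⟩
    have h1 : Function.Bijective ι' := by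
      constructor
      · intro s t hst
        exact hinj (congrArg Subtype.val hst)
      · rintro ⟨x, hx⟩
        obtain ⟨s, hs⟩ := (hcen x).1 hx
        exact ⟨s, Subtype.ext hs⟩
    have h2 : Continuous ι' := hcont.subtype_mk _
    have h3 : IsOpenMap ι' := by
      intro U hU
      have h4 : IsOpen (ι '' U) := hopen U hU
      have h5 : ι' '' U = Subtype.val ⁻¹' (ι '' U) := by
        ext x
        constructor
        · rintro ⟨s, hs, rfl⟩
          exact ⟨s, hs, rfl⟩
        · rintro ⟨s, hs, hx⟩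
          exact ⟨s, hs, Subtype.ext hx⟩
      rw [h5]
      exact h4.preimage continuous_subtype_val
    let e : Multiplicative ℤ_[p] ≃* Subgroup.center M := MulEquiv.ofBijective ι' h1
    refine ⟨{ e with continuous_toFun := h2, continuous_invFun := ?_ }⟩
    have h6 : Continuous e.toEquiv.symm := by
      rw [continuous_def]
      intro U hU
      have h7 : e.toEquiv.symm ⁻¹' U = ι' '' U := by
        ext x
        constructor
        · intro hx
          exact ⟨e.symm x, hx, e.apply_symm_apply x⟩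
        · rintro ⟨s, hs, rfl⟩
          have : e.symm (ι' s) = s := e.symm_apply_apply s
          change e.symm (ι' s) ∈ U
          rw [this]; exact hs
      rw [h7]
      exact h3 U hU
    exact h6
  · intro x
    obtain ⟨y, rfl⟩ := QuotientGroup.mk_surjective x
    rw [← QuotientGroup.mk_pow, QuotientGroup.eq_one_iff, hcen]
    exact hxp y
  · let ψ : M →* FreeGroup (Fin 2) ⧸ powSub (FreeGroup (Fin 2)) p :=
      QuotientGroup.lift (hmN p z) (φ.comp (MonoidHom.fst A (Multiplicative ℤ_[p]))) (by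
        intro x hx
        obtain ⟨k, h1, -⟩ := mem_hmN.1 hx
        have : x.1 ∈ φ.ker := by
          rw [hker, h1]; exact ⟨k, rfl⟩
        exact this)
    let χ : M ⧸ Subgroup.center M →* FreeGroup (Fin 2) ⧸ powSub (FreeGroup (Fin 2)) p :=
      QuotientGroup.lift (Subgroup.center M) ψ (by
        intro x hx
        obtain ⟨s, rfl⟩ := (hcen x).1 hx
        change φ 1 = 1
        exact map_one φ)
    apply Infinite.of_surjective χ
    intro q
    obtain ⟨a, rfl⟩ := hφ q
    exact ⟨((((a, 1) : A × Multiplicative ℤ_[p]) : M) : M ⧸ Subgroup.center M), rfl⟩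

end Pool.Agent.TH54.BU
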