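import Pool.Agent.TH54.BU.BurnDef

/-!
# Applications of the refined Burnside statement: infinite sets and identities (helper615)
-/

set_option autoImplicit false

namespace Pool.Agent.TH54.BU

/-- see Spec4 -/
def Burn2 (p : ℕ) : Prop := ∃ (A : Type) (_ : Group A) (z : A)
    (φ : A →* FreeGroup (Fin 2) ⧸ powSub (FreeGroup (Fin 2)) p),
    Function.Surjective φ ∧ φ.ker = Subgroup.zpowers z ∧ (∀ a, a * z = z * a) ∧
    ¬ IsOfFinOrder z ∧ (∀ a : A, ∃ k : ℤ, a ^ p = z ^ k) ∧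
    (∃ (a : A) (k : ℤ), a ^ p = z ^ k ∧ ¬ (p : ℤ) ∣ k) ∧
    ∀ X : FreeGroup (Fin 2) ⧸ powSub (FreeGroup (Fin 2)) p, X ≠ 1 →
      {Y | ∃ a b : A, φ a = X ∧ φ b = Y ∧ ∀ j : ℤ, (a * b * a * b⁻¹) ^ p ≠ z ^ (p * j)}.Finite

/-- the word `(x₀ x₁ x₀ x₁⁻¹) ^ p` -/
def ap_w (p : ℕ) : FreeGroup (Fin 2) :=
  (FreeGroup.of 0 * FreeGroup.of 1 * FreeGroup.of 0 * (FreeGroup.of 1)⁻¹) ^ p

theorem ap_lift {p : ℕ} {G : Type*} [Group G] (x : Fin 2 → G) :
    FreeGroup.lift x (ap_w p) = (x 0 * x 1 * x 0 * (x 1)⁻¹) ^ p := by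
  simp [ap_w]

theorem ap_zpow_inj {A : Type} [Group A] {z : A} (hz : ¬ IsOfFinOrder z) {a b : ℤ}
    (h : z ^ a = z ^ b) : a = b :=
  injective_zpow_iff_not_isOfFinOrder.2 hz h

theorem ap_normal {A : Type} [Group A] {z : A} (hz : ∀ a, a * z = z * a) (n : ℕ) :
    (Subgroup.zpowers (z ^ n)).Normal := by
  constructor
  rintro _ ⟨k, rfl⟩ g
  refine ⟨k, ?_⟩
  have h : Commute g ((z ^ n) ^ k) := (((show Commute g z from hz g).pow_right n).zpow_right k)
  simp only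
  rw [h.eq, mul_inv_cancel_right]

/-- the group and its properties -/
theorem ap_main {p : ℕ} (hp : p.Prime) (hp3 : 3 ≤ p) (h : Burn2 p)
    (hi : Infinite (FreeGroup (Fin 2) ⧸ powSub (FreeGroup (Fin 2)) p)) :
    ∃ (G : Type) (_ : Group G) (s : G), Infinite G ∧
      (∀ S : Fin 2 → Set G, (∀ i, (S i).Infinite) →
        ∃ x : Fin 2 → G, (∀ i, x i ∈ S i) ∧ FreeGroup.lift x (ap_w p) = 1) ∧
      (s * s) ^ p ≠ 1 ∧ {x | ∃ g : G, x = g * s * g⁻¹}.Infinite := by
  obtain ⟨A, _, z, φ, hφ, hker, hz, hzo, hpow, ⟨a, k, hak, hpk⟩, hfin⟩ := h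
  have hN : (Subgroup.zpowers (z ^ p)).Normal := ap_normal hz p
  have hp0 : (p : ℤ) ≠ 0 := by exact_mod_cast hp.ne_zero
  have hpp : Prime (p : ℤ) := Nat.prime_iff_prime_int.1 hp
  have hle : Subgroup.zpowers (z ^ p) ≤ φ.ker := by
    rw [hker, Subgroup.zpowers_le]
    exact Subgroup.pow_mem _ (Subgroup.mem_zpowers z) p
  let G := A ⧸ Subgroup.zpowers (z ^ p)
  let ψ : G →* FreeGroup (Fin 2) ⧸ powSub (FreeGroup (Fin 2)) p :=
    QuotientGroup.lift _ φ hle
  have hψ : ∀ a : A, ψ (QuotientGroup.mk a) = φ a := fun a => rfl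
  have hψs : Function.Surjective ψ := by
    intro q
    obtain ⟨a, rfl⟩ := hφ q
    exact ⟨QuotientGroup.mk a, rfl⟩
  have hmk : ∀ (a : A), (QuotientGroup.mk a : G) = 1 ↔ ∃ j : ℤ, a = z ^ (p * j) := by
    intro a
    rw [QuotientGroup.eq_one_iff]
    constructor
    · rintro ⟨j, hj⟩
      exact ⟨j, by rw [← hj, zpow_mul, zpow_natCast]⟩
    · rintro ⟨j, hj⟩
      exact ⟨j, by rw [hj, zpow_mul, zpow_natCast]⟩
  -- the fibres are finite
  have hfib : ∀ q, {x : G | ψ x = q}.Finite := by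
    intro q
    obtain ⟨a, rfl⟩ := hφ q
    have h1 : {x : G | ψ x = φ a} ⊆
        (fun i : Fin p => (QuotientGroup.mk (a * z ^ (i : ℕ)) : G)) '' Set.univ := by
      intro x hx
      obtain ⟨b, rfl⟩ := QuotientGroup.mk_surjective x
      have hx' : φ b = φ a := hx
      have h2 : a⁻¹ * b ∈ Subgroup.zpowers z := by
        rw [← hker, MonoidHom.mem_ker, map_mul, map_inv, hx', inv_mul_cancel]
      obtain ⟨j, hj⟩ := h2
      simp only at hj
      have h3 : 0 ≤ j % (p : ℤ) := Int.emod_nonneg _ hp0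
      have h4 : j % (p : ℤ) < p := Int.emod_lt_of_pos _ (by exact_mod_cast hp.pos)
      refine ⟨⟨(j % (p : ℤ)).toNat, by omega⟩, trivial, ?_⟩
      simp only
      rw [QuotientGroup.eq]
      refine ⟨j / (p : ℤ), ?_⟩
      simp only
      have h5 : (a * z ^ (j % (p : ℤ)).toNat)⁻¹ * b = (z ^ (j % (p : ℤ)).toNat)⁻¹ * (a⁻¹ * b) := by
        rw [mul_inv_rev, mul_assoc]
      rw [h5, ← hj, ← zpow_natCast z (j % (p : ℤ)).toNat, ← zpow_neg, ← zpow_add,
        Int.toNat_of_nonneg h3, ← zpow_natCast, ← zpow_mul]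
      congr 1
      have := Int.emod_add_mul_ediv j p
      linarith
    exact (Set.toFinite _).subset h1
  -- infinite sets have infinite images
  have himg : ∀ S : Set G, S.Infinite → (ψ '' S).Infinite := by
    intro S hS hf
    apply hS
    have h1 : S ⊆ ⋃ q ∈ ψ '' S, {x : G | ψ x = q} := by
      intro x hx
      simp only [Set.mem_iUnion]
      exact ⟨ψ x, ⟨x, hx, rfl⟩, rfl⟩
    exact (hf.biUnion fun q _ => hfib q).subset h1
  -- elements of the bad set
  have hgood : ∀ x y : G, ψ x ≠ 1 →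
      ψ y ∉ {Y | ∃ a b : A, φ a = ψ x ∧ φ b = Y ∧ ∀ j : ℤ, (a * b * a * b⁻¹) ^ p ≠ z ^ (p * j)} →
      (x * y * x * y⁻¹) ^ p = 1 := by
    intro x y hx hy
    obtain ⟨b, rfl⟩ := QuotientGroup.mk_surjective x
    obtain ⟨c, rfl⟩ := QuotientGroup.mk_surjective y
    by_contra hc
    apply hy
    refine ⟨b, c, rfl, rfl, ?_⟩
    intro j hj
    apply hc
    have h1 : ((QuotientGroup.mk b : G) * QuotientGroup.mk c * QuotientGroup.mk b *
        (QuotientGroup.mk c)⁻¹) ^ p = QuotientGroup.mk ((b * c * b * c⁻¹) ^ p) := rfl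
    rw [h1, hmk]
    exact ⟨j, hj⟩
  have hGinf : Infinite G := Infinite.of_surjective ψ hψs
  have hs : ((QuotientGroup.mk a : G) * QuotientGroup.mk a) ^ p ≠ 1 := by
    have h1 : ((QuotientGroup.mk a : G) * QuotientGroup.mk a) ^ p =
        QuotientGroup.mk ((a * a) ^ p) := rfl
    rw [h1, Ne, hmk]
    rintro ⟨j, hj⟩
    have h2 : (a * a) ^ p = z ^ (2 * k) := by
      rw [(Commute.refl a).mul_pow, hak, ← zpow_add, two_mul]
    rw [h2] at hj
    have h3 := ap_zpow_inj hzo hj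
    have h4 : (p : ℤ) ∣ 2 * k := ⟨j, h3⟩
    rcases hpp.dvd_or_dvd h4 with h5 | h5
    · have := Int.le_of_dvd (by norm_num) h5
      have : (3 : ℤ) ≤ p := by exact_mod_cast hp3
      omega
    · exact hpk h5
  have hX : φ a ≠ 1 := by
    intro h1
    have h2 : a ∈ Subgroup.zpowers z := by rw [← hker]; exact h1
    obtain ⟨i, hi⟩ := h2
    simp only at hi
    rw [← hi, ← zpow_natCast, ← zpow_mul] at hak
    have := ap_zpow_inj hzo hak
    exact hpk ⟨i, by rw [← this, mul_comm]⟩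
  refine ⟨G, inferInstance, QuotientGroup.mk a, hGinf, ?_, hs, ?_⟩
  · intro S hS
    obtain ⟨_, ⟨x, hx, rfl⟩, hx1⟩ := (himg (S 0) (hS 0)).exists_notMem_finite
      (Set.finite_singleton 1)
    have hx1' : ψ x ≠ 1 := hx1
    obtain ⟨_, ⟨y, hy, rfl⟩, hy1⟩ := (himg (S 1) (hS 1)).exists_notMem_finite (hfin (ψ x) hx1')
    refine ⟨![x, y], ?_, ?_⟩
    · intro i
      fin_cases i
      · exact hx
      · exact hy
    · rw [ap_lift]
      exact hgood x y hx1' hy1
  · -- the centralizer of `φ a` is finite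
    have hcent : {Y | Y * φ a = φ a * Y}.Finite := by
      refine (hfin (φ a) hX).subset ?_
      intro Y hY
      obtain ⟨b, rfl⟩ := hφ Y
      refine ⟨a, b, rfl, rfl, ?_⟩
      intro j hj
      have h1 : a⁻¹ * (b * a * b⁻¹) ∈ Subgroup.zpowers z := by
        rw [← hker, MonoidHom.mem_ker, map_mul, map_mul, map_mul, map_inv, map_inv]
        have hY' : φ b * φ a = φ a * φ b := hY
        rw [hY']; group
      obtain ⟨i, hi⟩ := h1
      simp only at hi
      have h2 : a * b * a * b⁻¹ = (a * a) * z ^ i := by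
        rw [hi]; group
      have h3 : Commute (a * a) (z ^ i) := by
        have : Commute a z := hz a
        exact (this.mul_left this).zpow_right i
      rw [h2, h3.mul_pow, (Commute.refl a).mul_pow, hak, ← zpow_add, ← zpow_natCast (z ^ i),
        ← zpow_mul, ← zpow_add] at hj
      have h4 := ap_zpow_inj hzo hj
      have h5 : (p : ℤ) ∣ 2 * k := ⟨j - i, by linarith⟩
      rcases hpp.dvd_or_dvd h5 with h6 | h6
      · have := Int.le_of_dvd (by norm_num) h6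
        have : (3 : ℤ) ≤ p := by exact_mod_cast hp3
        omega
      · exact hpk h6
    -- so the conjugacy class is infinite
    have hclass : {q | ∃ g, q = g * φ a * g⁻¹}.Infinite := by
      intro hf
      have hall : (Set.univ : Set (FreeGroup (Fin 2) ⧸ powSub (FreeGroup (Fin 2)) p)).Finite := by
        have h1 : (Set.univ : Set (FreeGroup (Fin 2) ⧸ powSub (FreeGroup (Fin 2)) p)) ⊆
            ⋃ q ∈ {q | ∃ g, q = g * φ a * g⁻¹}, {g | g * φ a * g⁻¹ = q} := by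
          intro g _
          simp only [Set.mem_iUnion]
          exact ⟨g * φ a * g⁻¹, ⟨g, rfl⟩, rfl⟩
        refine (hf.biUnion fun q hq => ?_).subset h1
        obtain ⟨g0, rfl⟩ := hq
        refine (hcent.image fun Y => g0 * Y).subset ?_
        intro g hg
        have hg' : g * φ a * g⁻¹ = g0 * φ a * g0⁻¹ := hg
        refine ⟨g0⁻¹ * g, ?_, by simp⟩
        change g0⁻¹ * g * φ a = φ a * (g0⁻¹ * g)
        have h2 : g * φ a = g0 * φ a * g0⁻¹ * g := by
          rw [← hg']; group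
        calc g0⁻¹ * g * φ a = g0⁻¹ * (g * φ a) := by rw [mul_assoc]
          _ = φ a * (g0⁻¹ * g) := by rw [h2]; group
      exact Set.infinite_univ hall
    intro hf
    apply hclass
    refine (hf.image ψ).subset ?_
    rintro _ ⟨g, rfl⟩
    obtain ⟨g, rfl⟩ := hψs g
    refine ⟨g * QuotientGroup.mk a * g⁻¹, ⟨g, rfl⟩, ?_⟩
    rw [map_mul, map_mul, map_inv, hψ]

theorem app_S01206 {p : ℕ} (hp : p.Prime) (hp3 : 3 ≤ p) (h : Burn2 p)
    (hi : Infinite (FreeGroup (Fin 2) ⧸ powSub (FreeGroup (Fin 2)) p)) :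
    ¬ (∀ (n : ℕ) (w : FreeGroup (Fin n)) (G : Type) [Group G],
      (Finite G ∨ ∀ x : Fin n → G, FreeGroup.lift x w = 1) ↔
        (∀ X : Fin n → Set G, (∀ i, (X i).Infinite) →
          ∃ x : Fin n → G, (∀ i, x i ∈ X i) ∧ FreeGroup.lift x w = 1)) := by
  intro hall
  obtain ⟨G, _, s, hG, h1, h2, h3⟩ := ap_main hp hp3 h hi
  rcases (hall 2 (ap_w p) G).2 h1 with h4 | h4
  · exact hG.not_finite h4
  · apply h2
    have h5 := h4 ![s, 1]
    rw [ap_lift] at h5
    simpa using h5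

theorem app_star_sharp {p : ℕ} (hp : p.Prime) (hp3 : 3 ≤ p) (h : Burn2 p)
    (hi : Infinite (FreeGroup (Fin 2) ⧸ powSub (FreeGroup (Fin 2)) p)) :
    ∃ (w : FreeGroup (Fin 2)) (G : Type) (_ : Group G), Infinite G ∧
      (∀ S : Fin 2 → Set G, (∀ i, (S i).Infinite) →
        ∃ s : Fin 2 → G, (∀ i, s i ∈ S i) ∧ FreeGroup.lift s w = 1) ∧
      ¬ (∀ S : Fin 2 → Set G, (∀ i, (S i).Infinite) →
        ∃ s : Fin 2 → G, (∀ i, s i ∈ S i) ∧
          ∀ g : Fin 2 → Subgroup.closure (Set.range s), FreeGroup.lift g w = 1) := by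
  obtain ⟨G, _, s, hG, h1, h2, h3⟩ := ap_main hp hp3 h hi
  refine ⟨ap_w p, G, inferInstance, hG, h1, ?_⟩
  intro hsharp
  obtain ⟨x, hx, hlaw⟩ := hsharp (fun _ => {x | ∃ g : G, x = g * s * g⁻¹}) (fun _ => h3)
  obtain ⟨g, hg⟩ := hx 0
  have h4 : x 0 ∈ Subgroup.closure (Set.range x) := Subgroup.subset_closure ⟨0, rfl⟩
  have h5 := hlaw ![⟨x 0, h4⟩, 1]
  rw [ap_lift] at h5
  simp only [Matrix.cons_val_zero, Matrix.cons_val_one, mul_one, inv_one] at h5
  have h6 : (x 0 * x 0) ^ p = 1 := congrArg Subtype.val h5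
  apply h2
  rw [hg] at h6
  have h7 : g * s * g⁻¹ * (g * s * g⁻¹) = g * (s * s) * g⁻¹ := by group
  rw [h7, conj_pow] at h6
  have h8 : g * (s * s) ^ p * g⁻¹ = g * 1 * g⁻¹ := by rw [h6]; group
  exact mul_left_cancel (mul_right_cancel h8)

end Pool.Agent.TH54.BU
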