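import Pool.Agent.TH54.BU.Iter2
import Pool.Agent.TH54.BU.App2

/-!
# The second form of the large exponent Burnside theorem (helper54)
-/

set_option autoImplicit false

namespace Pool.Agent.TH54.BU

theorem base2 (I : Type) [Finite I] : ∃ H : GH (FreeGroup I), H.D = 4 ∧ H.Stab 1 ∧
    (∀ K B : ℕ, 8 * K + 20 ≤ B → H.Acy K B) ∧ (∀ i, H.len (FreeGroup.of i) = 1) ∧
    ∀ R : ℕ, {g : FreeGroup I | H.len g ≤ R}.Finite := by
  classical
  refine ⟨freeGH I 4, rfl, ?_, ?_, ?_, ?_⟩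
  · intro g hg m
    rw [one_mul]
    refine freeBase_norm_pow ?_ m
    rintro rfl
    exact hg IsOfFinOrder.one
  · intro K B hB q hq g hg
    refine ⟨?_, ?_⟩
    · intro hf
      obtain ⟨n, hn, h⟩ := isOfFinOrder_iff_pow_eq_one.1 hf
      exact (pow_eq_one_iff_left hn.ne').1 h
    · intro h hh
      have hD : (freeGH I 0).D = 0 := rfl
      have hq' : 8 * K + 20 ≤ (freeGH I 0).d 1 q := by
        rw [GH.d_one]; exact hB.trans hq
      obtain ⟨t, ht1, ht2⟩ := (freeGH I 0).between 1 q (4 * K + 10) (by omega)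
      have hd1 : ∀ w ∈ (freeGH I 4).SD K q, (freeGH I 0).d 1 (w * 1) ≤ K := by
        intro w hw
        rw [mul_one, GH.d_one]; exact hw.1
      have hd2 : ∀ w ∈ (freeGH I 4).SD K q, (freeGH I 0).d q (w * q) ≤ K := by
        intro w hw
        have := hw.2
        rw [mul_assoc] at this
        exact this
      have key := (freeGH I 0).cm (hd1 g hg) (hd2 g hg) (hd1 h hh) (hd2 h hh) (t := t)
        (by omega) (by omega) (by omega)
      rw [hD, mul_zero, Nat.le_zero] at key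
      have h1 := (freeGH I 0).eq_of_d key
      have h2 : g * h * g⁻¹ * h⁻¹ = 1 := by
        have : g * h * g⁻¹ * h⁻¹ * t = 1 * t := by rw [one_mul]; exact h1.symm
        exact mul_right_cancel this
      have h3 : g * h * (h * g)⁻¹ = 1 := by rw [mul_inv_rev, ← mul_assoc]; exact h2
      exact mul_inv_eq_one.1 h3
  · intro i
    exact FreeGroup.norm_of i
  · intro R
    refine Set.Finite.of_finite_image (f := FreeGroup.toWord) ?_ FreeGroup.toWord_injective.injOn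
    refine (List.finite_length_le (I × Bool) R).subset ?_
    rintro _ ⟨g, hg, rfl⟩
    exact hg


theorem burnside2 : ∃ p0 : ℕ, ∀ p : ℕ, p.Prime → p0 ≤ p → Burn2 p := by
  obtain ⟨K, B, T, R0, hK, hB, hT, hR0, p0, hstep⟩ := step2
  refine ⟨p0, fun p hp hpp => ?_⟩
  have hst := hstep p hp hpp
  let A0 := FreeGroup (Fin 2) × Multiplicative ℤ
  let F0 := FreeGroup (Fin 2)
  let π : A0 →* F0 := MonoidHom.fst _ _
  let z0 : A0 := (1, Multiplicative.ofAdd 1)
  have hz0 : ∀ k : ℤ, z0 ^ k = (1, Multiplicative.ofAdd k) := by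
    intro k
    apply Prod.ext
    · show (1 : FreeGroup (Fin 2)) ^ k = 1
      exact one_zpow k
    · show (Multiplicative.ofAdd (1 : ℤ)) ^ k = Multiplicative.ofAdd k
      rw [← ofAdd_zsmul]
      simp
  have hπ : Function.Surjective π := fun g => ⟨(g, 1), rfl⟩
  have hz : ∀ a : A0, a * z0 = z0 * a := by
    intro a
    apply Prod.ext
    · show a.1 * 1 = 1 * a.1
      rw [mul_one, one_mul]
    · exact mul_comm _ _
  have hker : π.ker = Subgroup.zpowers z0 := by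
    ext a
    constructor
    · intro h
      have h1 : a.1 = 1 := h
      refine ⟨Multiplicative.toAdd a.2, ?_⟩
      show z0 ^ (Multiplicative.toAdd a.2) = a
      rw [hz0]
      exact Prod.ext h1.symm rfl
    · rintro ⟨k, rfl⟩
      show π (z0 ^ k) = 1
      rw [hz0]
      rfl
  obtain ⟨H0, hD0, hS0, hA0, hlen0, hfin0⟩ := base2 (Fin 2)
  have htf : ∀ g : F0, ∀ m : ℕ, 0 < m → g ^ m = 1 → g = 1 := by
    intro g m hm h
    have h1 : g ^ m = 1 ^ m := by rw [h, one_pow]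
    exact pow_left_injective hm.ne' h1
  -- the first stage
  let e0 : F0 ⧸ (⊥ : Subgroup F0) ≃* F0 := QuotientGroup.quotientBot
  let s0 : Stg2 π z0 p K B T :=
    { N := ⊥
      hN := inferInstance
      M := ⊥
      hM := inferInstance
      map := Subgroup.map_bot π
      inj := fun a ha _ => Subgroup.mem_bot.1 ha
      le := bot_le
      tz := by
        rintro a ⟨m, hm, h1⟩
        have h2 : π a = 1 := htf _ m hm (Subgroup.mem_bot.1 h1)
        have h3 : a ∈ π.ker := h2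
        rw [hker] at h3
        obtain ⟨k, hk⟩ := h3
        have hk' : z0 ^ k = a := hk
        refine ⟨k * p, ?_⟩
        rw [← hk', ← zpow_natCast, ← zpow_mul, zpow_neg, mul_inv_cancel]
        exact Subgroup.one_mem _
      H := H0.comapE e0
      hD := hD0
      stab := by
        intro g hg m
        have := H0.comapE_stab e0 hS0 g hg m
        calc m ≤ 1 * (H0.comapE e0).len (g ^ m) := this
          _ ≤ T * (H0.comapE e0).len (g ^ m) := Nat.mul_le_mul_right _ hT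
      acy := H0.comapE_acy e0 (hA0 K B hB)
      fin := fun R => (hfin0 R).preimage e0.injective.injOn }
  have hnext := fun (ε : ℤ) => exists_next2 (K := K) (B := B) (T := T) (p := p) (R0 := R0) (ε := ε)
    hπ hz hker
    (fun A G _ _ φ h1 z h2 h3 h4 H h5 h6 h7 => hst ε A G φ h1 z h2 h3 h4 H h5 h6 h7)
  choose nx hnx using hnext
  obtain ⟨s, hs_0, hs_1⟩ : ∃ s : ℕ → Stg2 π z0 p K B T, s 0 = s0 ∧
      ∀ n, s (n + 1) = nx (if n = 0 then 1 else 0) (s n) :=
    ⟨fun n => Nat.rec s0 (fun k t => nx (if k = 0 then 1 else 0) t) n, rfl, fun n => rfl⟩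
  have hSM : ∀ n, (s n).M.Normal := fun n => (s n).hM
  have h0ln : ∀ g : F0, (s 0).ln g = H0.len g := by
    intro g
    rw [hs_0]
    rfl
  have h0M : ∀ g : F0, g ∈ (s 0).M → g = 1 := by
    intro g hg
    rw [hs_0] at hg
    exact Subgroup.mem_bot.1 hg
  have hs' : ∀ n, Nxt2 (if n = 0 then 1 else 0) R0 (s n) (s (n + 1)) := by
    intro n
    rw [hs_1]
    exact hnx _ _
  have hs1 : Nxt2 1 R0 (s 0) (s 1) := by
    have := hs' 0
    rwa [if_pos rfl] at this
  have hs2 : ∀ n, 1 ≤ n → Nxt2 0 R0 (s n) (s (n + 1)) := by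
    intro n hn
    have := hs' n
    rwa [if_neg (by omega)] at this
  have hs : ∀ n, ∃ ε, Nxt2 ε R0 (s n) (s (n + 1)) := fun n => ⟨_, hs' n⟩
  have hlen : ∀ n g, (s (n + 1)).ln g ≤ ((s n).ln g + 1) / 2 := fun n g => (hs' n).len g
  have hNmono : Monotone fun n => (s n).N := monotone_nat_of_le_succ fun n => (hs' n).leN
  have hMmono : Monotone fun n => (s n).M := monotone_nat_of_le_succ fun n => (hs' n).leM
  -- lengths decrease
  have hdec : ∀ g : F0, ∀ k n : ℕ, (s n).ln g ≤ k + 1 → ∃ n' ≥ n, (s n').ln g ≤ 1 := by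
    intro g k
    induction k with
    | zero => exact fun n h => ⟨n, le_rfl, h⟩
    | succ k ih =>
      intro n h
      have := hlen n g
      obtain ⟨n', h1, h2⟩ := ih (n + 1) (by omega)
      exact ⟨n', by omega, h2⟩
  have hstay : ∀ (g : F0) (n n' : ℕ), n ≤ n' → (s n).ln g ≤ 1 → (s n').ln g ≤ 1 := by
    intro g n n' hn h
    induction n', hn using Nat.le_induction with
    | base => exact h
    | succ n' _ ih =>
      have := hlen n' g
      omega
  have htstay : ∀ (g : F0) (n n' : ℕ), n ≤ n' → (∃ m : ℕ, 0 < m ∧ g ^ m ∈ (s n).M) →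
      ∃ m : ℕ, 0 < m ∧ g ^ m ∈ (s n').M := by
    rintro g n n' hn ⟨m, hm, h⟩
    exact ⟨m, hm, hMmono hn h⟩
  have hboth : ∀ g : F0, ∀ n0, ∃ n ≥ n0, (s n).ln g ≤ 1 ∧ ∃ m : ℕ, 0 < m ∧ g ^ m ∈ (s n).M := by
    intro g n0
    obtain ⟨n, h1, hn⟩ := hdec g ((s n0).ln g) n0 (by omega)
    exact ⟨n + 1, by omega, hstay g n (n + 1) (by omega) hn, (hs' n).kill g hn⟩
  have htors : ∀ g : F0, ∃ n, ∃ m : ℕ, 0 < m ∧ g ^ m ∈ (s n).M := by
    intro g
    obtain ⟨n, _, _, h⟩ := hboth g 0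
    exact ⟨n, h⟩
  have hpow : ∀ g : F0, ∃ n, g ^ p ∈ (s n).M := by
    intro g
    obtain ⟨n, hn⟩ := htors g
    refine ⟨n, ?_⟩
    obtain ⟨a, rfl⟩ := hπ g
    obtain ⟨k, hk⟩ := (s n).tz a hn
    rw [← (s n).map]
    refine ⟨_, hk, ?_⟩
    rw [map_mul, map_pow, hz0]
    exact mul_one _
  -- the limit
  let Ninf : Subgroup A0 := ⨆ n, (s n).N
  let Minf : Subgroup F0 := ⨆ n, (s n).M
  have memN : ∀ a : A0, a ∈ Ninf ↔ ∃ n, a ∈ (s n).N := fun a =>
    Subgroup.mem_iSup_of_directed hNmono.directed_le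
  have memM : ∀ g : F0, g ∈ Minf ↔ ∃ n, g ∈ (s n).M := fun g =>
    Subgroup.mem_iSup_of_directed hMmono.directed_le
  have hNn : Ninf.Normal := by
    constructor
    intro a ha g
    obtain ⟨n, hn⟩ := (memN a).1 ha
    exact (memN _).2 ⟨n, (s n).hN.conj_mem a hn g⟩
  have hMn : Minf.Normal := by
    constructor
    intro a ha g
    obtain ⟨n, hn⟩ := (memM a).1 ha
    exact (memM _).2 ⟨n, (s n).hM.conj_mem a hn g⟩
  have hMinf : Minf = powSub F0 p := by
    apply le_antisymm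
    · exact iSup_le fun n => (s n).le
    · unfold powSub
      apply Subgroup.normalClosure_le_normal
      rintro _ ⟨g, rfl⟩
      exact (memM _).2 (hpow g)
  have hπN : ∀ a ∈ Ninf, π a ∈ powSub F0 p := by
    intro a ha
    obtain ⟨n, hn⟩ := (memN a).1 ha
    rw [← hMinf, memM]
    refine ⟨n, ?_⟩
    rw [← (s n).map]
    exact ⟨a, hn, rfl⟩
  have hle : Ninf ≤ (powSub F0 p).comap π := hπN
  let φ : A0 ⧸ Ninf →* F0 ⧸ powSub F0 p := QuotientGroup.map Ninf (powSub F0 p) π hle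
  have hφ : ∀ a : A0, φ (a : A0 ⧸ Ninf) = ((π a : F0) : F0 ⧸ powSub F0 p) := fun a => rfl
  have hφz : ∀ k : ℤ, φ ((z0 : A0 ⧸ Ninf) ^ k) = 1 := by
    intro k
    rw [← QuotientGroup.mk_zpow, hφ, hz0]
    rfl
  have hmem0 : ∀ (n : ℕ) (a : A0), π a ∈ (s n).M → ∃ k : ℤ,
      (a : A0 ⧸ Ninf) = (z0 : A0 ⧸ Ninf) ^ k := by
    intro n a hn
    rw [← (s n).map] at hn
    obtain ⟨b, hb, hba⟩ := hn
    have h1 : b⁻¹ * a ∈ π.ker := by
      rw [MonoidHom.mem_ker, map_mul, map_inv, ← hba, inv_mul_cancel]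
    rw [hker] at h1
    obtain ⟨k, hk⟩ := h1
    have hk' : z0 ^ k = b⁻¹ * a := hk
    refine ⟨k, ?_⟩
    rw [← QuotientGroup.mk_zpow, hk', QuotientGroup.mk_mul, QuotientGroup.mk_inv,
      (QuotientGroup.eq_one_iff b).2 ((memN b).2 ⟨n, hb⟩), inv_one, one_mul]
  have hmem : ∀ a : A0, π a ∈ powSub F0 p → ∃ k : ℤ, (a : A0 ⧸ Ninf) = (z0 : A0 ⧸ Ninf) ^ k := by
    intro a ha
    rw [← hMinf, memM] at ha
    obtain ⟨n, hn⟩ := ha
    exact hmem0 n a hn
  have hkerφ : φ.ker = Subgroup.zpowers (z0 : A0 ⧸ Ninf) := by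
    ext a
    obtain ⟨a, rfl⟩ := QuotientGroup.mk_surjective a
    constructor
    · intro h
      obtain ⟨k, hk⟩ := hmem a ((QuotientGroup.eq_one_iff _).1 h)
      exact ⟨k, hk.symm⟩
    · rintro ⟨k, hk⟩
      have hk' : (z0 : A0 ⧸ Ninf) ^ k = (a : A0 ⧸ Ninf) := hk
      rw [MonoidHom.mem_ker]
      show φ (a : A0 ⧸ Ninf) = 1
      rw [← hk', hφz]
  have hzc : ∀ a : A0 ⧸ Ninf, Commute a (z0 : A0 ⧸ Ninf) := by
    intro a
    obtain ⟨a, rfl⟩ := QuotientGroup.mk_surjective a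
    show (a : A0 ⧸ Ninf) * (z0 : A0 ⧸ Ninf) = (z0 : A0 ⧸ Ninf) * (a : A0 ⧸ Ninf)
    rw [← QuotientGroup.mk_mul, ← QuotientGroup.mk_mul, hz]
  have hNpow : ∀ (n : ℕ) (a : A0) (k : ℤ), a ^ p * z0 ^ (-k) ∈ (s n).N →
      (a : A0 ⧸ Ninf) ^ p = (z0 : A0 ⧸ Ninf) ^ k := by
    intro n a k h
    have h5 := (QuotientGroup.eq_one_iff (N := Ninf) _).2 ((memN _).2 ⟨n, h⟩)
    rw [QuotientGroup.mk_mul, QuotientGroup.mk_pow, QuotientGroup.mk_zpow, zpow_neg] at h5
    exact mul_inv_eq_one.1 h5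
  -- good elements
  have hgood : ∀ (l n : ℕ) (a : A0), 1 ≤ n → (s n).ln (π a) ≤ l → (s n).ln (π a) ≤ 2 * R0 + 20 →
      ¬ (∃ m : ℕ, 0 < m ∧ π a ^ m ∈ (s n).M) →
      ∃ j : ℤ, (a : A0 ⧸ Ninf) ^ p = (z0 : A0 ⧸ Ninf) ^ (p * j) := by
    intro l
    induction l with
    | zero =>
      intro n a hn h1 h2 h3
      exfalso
      apply h3
      refine ⟨1, one_pos, ?_⟩
      rw [pow_one]
      have h4 : (s n).ln (π a) = 0 := by omega
      have h5 : ((π a : F0) : F0 ⧸ (s n).M) = 1 := (s n).H.eq_one _ h4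
      exact (QuotientGroup.eq_one_iff _).1 h5
    | succ l ih =>
      intro n a hn h1 h2 h3
      by_cases ht : ∃ m : ℕ, 0 < m ∧ π a ^ m ∈ (s (n + 1)).M
      · by_cases hM : π a ∈ (s (n + 1)).M
        · obtain ⟨k, hk⟩ := hmem0 (n + 1) a hM
          exact ⟨k, by rw [hk, ← zpow_natCast, ← zpow_mul, mul_comm]⟩
        · obtain ⟨k, j, hk, _⟩ := (hs2 n hn).tzs a h3 h2 ht hM
          refine ⟨j, ?_⟩
          rw [hNpow (n + 1) _ _ hk]
          congr 1
          ring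
      · by_cases hl1 : (s n).ln (π a) ≤ 1
        · exact absurd ((hs2 n hn).kill _ hl1) ht
        · have h4 := hlen n (π a)
          exact ih (n + 1) a (by omega) (by omega) (by omega) ht
  -- the second generator
  have hX1 : ∀ n, FreeGroup.of 0 ∉ (s n).M := by
    have hln : ∀ n, (s n).ln (FreeGroup.of 0) ≤ 1 := by
      intro n
      refine hstay _ 0 n (Nat.zero_le _) ?_
      rw [h0ln, hlen0]
    intro n
    induction n with
    | zero =>
      intro h0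
      exact FreeGroup.of_ne_one (0 : Fin 2) (h0M _ h0)
    | succ n ih => exact fun h1 => ih ((hs' n).small _ ((hln n).trans (by norm_num)) h1)
  refine ⟨A0 ⧸ Ninf, inferInstance, (z0 : A0 ⧸ Ninf), φ, ?_, hkerφ, fun a => (hzc a).eq, ?_, ?_,
    ?_, ?_⟩
  · intro g
    obtain ⟨g, rfl⟩ := QuotientGroup.mk_surjective g
    obtain ⟨a, rfl⟩ := hπ g
    exact ⟨a, rfl⟩
  · rw [fin_mk]
    rintro ⟨m, hm, h⟩
    obtain ⟨n, hn⟩ := (memN _).1 h
    have h1 : π (z0 ^ m) = 1 := by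
      rw [← zpow_natCast, hz0]
      rfl
    have h2 := (s n).inj _ hn h1
    rw [← zpow_natCast, hz0] at h2
    have h3 : Multiplicative.ofAdd (m : ℤ) = 1 := congrArg Prod.snd h2
    have h4 : (m : ℤ) = 0 := h3
    omega
  · intro a
    obtain ⟨a, rfl⟩ := QuotientGroup.mk_surjective a
    obtain ⟨n, hn⟩ := htors (π a)
    obtain ⟨k, hk⟩ := (s n).tz a hn
    exact ⟨k, hNpow n a k hk⟩
  · -- the bad element
    have h0 : (s 0).ln (π (FreeGroup.of 0, 1)) = 1 := (h0ln _).trans (hlen0 0)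
    have h1 : ¬ ∃ m : ℕ, 0 < m ∧ π (FreeGroup.of 0, 1) ^ m ∈ (s 0).M := by
      rintro ⟨m, hm, h⟩
      exact FreeGroup.of_ne_one (0 : Fin 2) (htf _ m hm (h0M _ h))
    obtain ⟨k, j, hk, hk2⟩ := hs1.tzs (FreeGroup.of 0, 1) h1 (by rw [h0]; omega)
      (hs1.kill _ (by rw [h0])) (hX1 1)
    refine ⟨_, _, hNpow 1 _ _ hk, ?_⟩
    intro hd
    apply hk2
    have := dvd_sub hd (Dvd.intro_left j rfl : (p : ℤ) ∣ j * p)
    simpa using this
  · intro X hX
    obtain ⟨x, rfl⟩ := QuotientGroup.mk_surjective X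
    have hxM : ∀ n, x ∉ (s n).M := by
      intro n h
      apply hX
      rw [QuotientGroup.eq_one_iff, ← hMinf, memM]
      exact ⟨n, h⟩
    obtain ⟨n0, hn0, hx1, hx2⟩ := hboth x 1
    -- the exceptional set
    have hMle : ∀ n, (s n).M ≤ powSub F0 p := fun n => (s n).le
    have hfin := (s n0).fin (R0)
    let ψ : F0 ⧸ (s n0).M →* F0 ⧸ powSub F0 p :=
      QuotientGroup.map (s n0).M (powSub F0 p) (MonoidHom.id F0) (hMle n0)
    refine (hfin.image ψ).subset ?_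
    rintro Y ⟨a, b, ha, hb, hab⟩
    by_contra hY
    obtain ⟨y0, rfl⟩ := QuotientGroup.mk_surjective Y
    -- all representatives of `Y` are long at the stage `n0`
    let P : ℕ → Prop := fun n => ∀ y : F0,
      (y : F0 ⧸ powSub F0 p) = (y0 : F0 ⧸ powSub F0 p) → R0 ≤ (s n).ln y
    have hP0 : P n0 := by
      intro y hy
      by_contra hcon
      apply hY
      refine ⟨(y : F0 ⧸ (s n0).M), ?_, hy⟩
      show (s n0).ln y ≤ R0
      omega
    have hPf : ∃ n, ¬ P (n0 + n) := by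
      obtain ⟨n, hn, h1, _⟩ := hboth y0 n0
      refine ⟨n - n0, fun h => ?_⟩
      rw [Nat.add_sub_cancel' hn] at h
      have := h y0 rfl
      omega
    classical
    have hspec := Nat.find_spec hPf
    obtain ⟨t, ht⟩ : ∃ t, Nat.find hPf = t + 1 := by
      rcases Nat.eq_zero_or_pos (Nat.find hPf) with h | h
      · rw [h] at hspec
        exact absurd hP0 hspec
      · exact ⟨Nat.find hPf - 1, by omega⟩
    have hPt : P (n0 + t) := by
      by_contra h
      have := Nat.find_min' hPf h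
      omega
    rw [ht] at hspec
    obtain ⟨n, hn⟩ : ∃ n, n = n0 + t := ⟨_, rfl⟩
    have hn1 : n0 + (t + 1) = n + 1 := by omega
    rw [hn1] at hspec
    rw [← hn] at hPt
    have hspec' : ∃ y : F0, (y : F0 ⧸ powSub F0 p) = (y0 : F0 ⧸ powSub F0 p) ∧
        (s (n + 1)).ln y < R0 := by
      by_contra hcon
      apply hspec
      intro y hy
      by_contra h
      exact hcon ⟨y, hy, by omega⟩
    obtain ⟨y', hy', hy'l⟩ := hspec'
    -- a shortest representative at the stage `n`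
    have hex : ∃ l, ∃ m ∈ (s (n + 1)).M, (s n).ln (m * y') = l := ⟨_, 1, Subgroup.one_mem _, rfl⟩
    obtain ⟨m, hm, hml⟩ := Nat.find_spec hex
    obtain ⟨y, hy⟩ : ∃ y, y = m * y' := ⟨_, rfl⟩
    have hmin : ∀ m' ∈ (s (n + 1)).M, (s n).ln y ≤ (s n).ln (m' * y) := by
      intro m' hm'
      rw [hy, hml]
      exact Nat.find_min' hex ⟨m' * m, Subgroup.mul_mem _ hm' hm, by rw [mul_assoc]⟩
    have hyy' : (y : F0 ⧸ (s (n + 1)).M) = (y' : F0 ⧸ (s (n + 1)).M) := by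
      rw [hy, QuotientGroup.mk_mul, (QuotientGroup.eq_one_iff m).2 hm, one_mul]
    have hyY : (y : F0 ⧸ powSub F0 p) = (y0 : F0 ⧸ powSub F0 p) := by
      rw [← hy', hy, QuotientGroup.mk_mul, (QuotientGroup.eq_one_iff m).2 (hMle (n + 1) hm),
        one_mul]
    have hyR : R0 ≤ (s n).ln y := hPt y hyY
    have hyl : (s (n + 1)).ln y < R0 := by
      have : (s (n + 1)).ln y = (s (n + 1)).ln y' := by
        unfold Stg2.ln
        rw [hyy']
      omega
    have hkey := (hs' n).key x y (htstay x n0 n (by omega) hx2) (hxM n)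
      (hstay x n0 n (by omega) hx1) hyR hmin
    have hxl : (s (n + 1)).ln x ≤ 1 := hstay x n0 (n + 1) (by omega) hx1
    have hul : (s (n + 1)).ln (x * y * x * y⁻¹) ≤ 2 * R0 + 2 := by
      have e1 := (s (n + 1)).H.len_mul ((x * y * x : F0) : F0 ⧸ (s (n + 1)).M)
        ((y⁻¹ : F0) : F0 ⧸ (s (n + 1)).M)
      have e2 := (s (n + 1)).H.len_mul ((x * y : F0) : F0 ⧸ (s (n + 1)).M)
        ((x : F0) : F0 ⧸ (s (n + 1)).M)
      have e3 := (s (n + 1)).H.len_mul ((x : F0) : F0 ⧸ (s (n + 1)).M)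
        ((y : F0) : F0 ⧸ (s (n + 1)).M)
      rw [← QuotientGroup.mk_mul] at e1 e2 e3
      rw [QuotientGroup.mk_inv, (s (n + 1)).H.len_inv] at e1
      unfold Stg2.ln at *
      omega
    obtain ⟨j, hj⟩ := hgood _ (n + 1) ((x * y * x * y⁻¹, 1) : A0) (by omega) le_rfl
      (by show (s (n + 1)).ln (x * y * x * y⁻¹) ≤ _; omega) hkey
    -- compare the lifts
    have hxa : φ a = φ (((x, 1) : A0) : A0 ⧸ Ninf) := ha
    have hyb : φ b = φ (((y, 1) : A0) : A0 ⧸ Ninf) := by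
      rw [hb, hφ]
      exact hyY.symm
    have hlift : ∀ u v : A0 ⧸ Ninf, φ u = φ v → ∃ k : ℤ, u = v * (z0 : A0 ⧸ Ninf) ^ k := by
      intro u v h
      have h1 : v⁻¹ * u ∈ φ.ker := by
        rw [MonoidHom.mem_ker, map_mul, map_inv, h, inv_mul_cancel]
      rw [hkerφ] at h1
      obtain ⟨k, hk⟩ := h1
      have hk' : (z0 : A0 ⧸ Ninf) ^ k = v⁻¹ * u := hk
      exact ⟨k, by rw [hk', mul_inv_cancel_left]⟩
    obtain ⟨k1, rfl⟩ := hlift _ _ hxa
    obtain ⟨k2, rfl⟩ := hlift _ _ hyb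
    apply hab (j + 2 * k1)
    set xx : A0 ⧸ Ninf := (((x, 1) : A0) : A0 ⧸ Ninf) with hxx
    set yy : A0 ⧸ Ninf := (((y, 1) : A0) : A0 ⧸ Ninf) with hyy
    set zz : A0 ⧸ Ninf := (z0 : A0 ⧸ Ninf) with hzz
    have hzk : ∀ (u : A0 ⧸ Ninf) (k : ℤ), u * zz ^ k = zz ^ k * u := fun u k =>
      ((hzc u).zpow_right k).eq
    have e1 : xx * zz ^ k1 * (yy * zz ^ k2) * (xx * zz ^ k1) * (yy * zz ^ k2)⁻¹ =
        xx * yy * xx * yy⁻¹ * zz ^ (2 * k1) := by
      have : (yy * zz ^ k2)⁻¹ = yy⁻¹ * zz ^ (-k2) := by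
        rw [mul_inv_rev, zpow_neg, ← zpow_neg, ← hzk]
      rw [this]
      calc xx * zz ^ k1 * (yy * zz ^ k2) * (xx * zz ^ k1) * (yy⁻¹ * zz ^ (-k2))
          = xx * (zz ^ k1 * yy) * (zz ^ k2 * xx) * (zz ^ k1 * yy⁻¹) * zz ^ (-k2) := by
            simp only [mul_assoc]
        _ = xx * (yy * zz ^ k1) * (xx * zz ^ k2) * (yy⁻¹ * zz ^ k1) * zz ^ (-k2) := by
            rw [hzk yy, hzk xx, hzk yy⁻¹]
        _ = xx * yy * (zz ^ k1 * xx) * (zz ^ k2 * yy⁻¹) * zz ^ k1 * zz ^ (-k2) := by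
            simp only [mul_assoc]
        _ = xx * yy * (xx * zz ^ k1) * (yy⁻¹ * zz ^ k2) * zz ^ k1 * zz ^ (-k2) := by
            rw [hzk xx, hzk yy⁻¹]
        _ = xx * yy * xx * (zz ^ k1 * yy⁻¹) * zz ^ k2 * zz ^ k1 * zz ^ (-k2) := by
            simp only [mul_assoc]
        _ = xx * yy * xx * (yy⁻¹ * zz ^ k1) * zz ^ k2 * zz ^ k1 * zz ^ (-k2) := by
            rw [hzk yy⁻¹]
        _ = xx * yy * xx * yy⁻¹ * (zz ^ k1 * zz ^ k2 * zz ^ k1 * zz ^ (-k2)) := by
            simp only [mul_assoc]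
        _ = xx * yy * xx * yy⁻¹ * zz ^ (2 * k1) := by
            rw [← zpow_add, ← zpow_add, ← zpow_add]
            congr 2
            ring
    rw [e1, ((hzc _).zpow_right (2 * k1)).mul_pow]
    have e2 : (xx * yy * xx * yy⁻¹) ^ p = zz ^ (p * j) := by
      have e3 : (((x * y * x * y⁻¹, 1) : A0) : A0 ⧸ Ninf) = xx * yy * xx * yy⁻¹ := by
        rw [hxx, hyy, ← QuotientGroup.mk_mul, ← QuotientGroup.mk_inv, ← QuotientGroup.mk_mul,
          ← QuotientGroup.mk_mul]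
        congr 1
      rw [← e3, hj]
    rw [e2, ← zpow_natCast, ← zpow_mul, ← zpow_add]
    congr 1
    ring

end Pool.Agent.TH54.BU
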