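import Pool.Agent.TH54.BU.Defs

set_option autoImplicit false

/-!
# BU-LOCAL (job 1290, helper54): local to global, small displacement and commutator lemmas
-/

namespace Pool.Agent.TH54.BU

variable {G : Type*} [Group G]

theorem GH.fpor (H : GH G) (u v w z : G) :
    H.d u v + H.d w z ≤ H.d u w + H.d v z + H.D ∨ H.d u v + H.d w z ≤ H.d u z + H.d v w + H.D := by
  have := H.fp u v w z
  rcases le_total (H.d u w + H.d v z) (H.d u z + H.d v w) with h | h
  · right; rwa [max_eq_right h] at this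
  · left; rwa [max_eq_left h] at this

/-- one-sided local to global estimate -/
theorem GH.lg_aux (H : GH G) (a : ℕ) (x : ℕ → G) (n : ℕ)
    (h1 : ∀ i, i + 2 ≤ n → H.d (x i) (x (i + 1)) + H.d (x (i + 1)) (x (i + 2)) ≤
      H.d (x i) (x (i + 2)) + a)
    (h2 : ∀ i, i < n → a + 2 * H.D + 1 ≤ H.d (x i) (x (i + 1))) (m : ℕ) (hm : m + 1 ≤ n) :
    H.d (x 0) (x m) + H.d (x m) (x (m + 1)) ≤ H.d (x 0) (x (m + 1)) + a + H.D := by
  induction m with
  | zero =>
    rw [H.d_self]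
    omega
  | succ m ih =>
    have i1 := ih (by omega)
    have i2 := h1 m (by omega)
    have i3 := h2 m (by omega)
    have i4 := H.fpor (x m) (x (m + 2)) (x 0) (x (m + 1))
    rw [H.d_comm (x m) (x 0), H.d_comm (x (m + 2)) (x (m + 1)), H.d_comm (x (m + 2)) (x 0)] at i4
    rw [show m + 1 + 1 = m + 2 from rfl]
    omega

theorem GH.lg (H : GH G) (a : ℕ) (x : ℕ → G) (n : ℕ)
    (h1 : ∀ i, i + 2 ≤ n → H.d (x i) (x (i + 1)) + H.d (x (i + 1)) (x (i + 2)) ≤
      H.d (x i) (x (i + 2)) + a)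
    (h2 : ∀ i, i < n → a + 2 * H.D + 1 ≤ H.d (x i) (x (i + 1))) :
    (∀ i ≤ n, H.d (x 0) (x i) + H.d (x i) (x n) ≤ H.d (x 0) (x n) + a + 2 * H.D) ∧
      n ≤ H.d (x 0) (x n) := by
  have hA := H.lg_aux a x n h1 h2
  -- the reversed chain
  have hB : ∀ i, i + 1 ≤ n →
      H.d (x i) (x (i + 1)) + H.d (x (i + 1)) (x n) ≤ H.d (x i) (x n) + a + H.D := by
    intro i hi
    have key := H.lg_aux a (fun j => x (n - j)) n (by
      intro j hj
      have := h1 (n - (j + 2)) (by omega)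
      rw [show n - (j + 2) + 1 = n - (j + 1) by omega, show n - (j + 2) + 2 = n - j by omega] at this
      rw [H.d_comm (x (n - j)) (x (n - (j + 1))), H.d_comm (x (n - (j + 1))) (x (n - (j + 2))),
        H.d_comm (x (n - j)) (x (n - (j + 2)))]
      omega) (by
      intro j hj
      have := h2 (n - (j + 1)) (by omega)
      rw [show n - (j + 1) + 1 = n - j by omega] at this
      rw [H.d_comm]
      exact this) (n - (i + 1)) (by omega)
    beta_reduce at key
    rw [show n - (n - (i + 1)) = i + 1 by omega, show n - (n - (i + 1) + 1) = i by omega,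
      show n - 0 = n from rfl, H.d_comm (x n), H.d_comm (x n), H.d_comm (x (i + 1)) (x i)] at key
    omega
  refine ⟨fun i hi => ?_, ?_⟩
  · rcases hi.eq_or_lt with rfl | hi
    · rw [H.d_self]
      omega
    · have i1 := hA i (by omega)
      have i2 := hB i (by omega)
      have i3 := h2 i hi
      have i4 := H.fpor (x 0) (x (i + 1)) (x i) (x n)
      rw [H.d_comm (x (i + 1)) (x i)] at i4
      omega
  · have key : ∀ m, m ≤ n → m ≤ H.d (x 0) (x m) := by
      intro m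
      induction m with
      | zero => intro _; exact Nat.zero_le _
      | succ m ih =>
        intro hm
        have i0 := ih (by omega)
        have i1 := hA m hm
        have i2 := h2 m (by omega)
        omega
    exact key n le_rfl

/-- transport of an almost geodesic triple -/
theorem GH.tr1 (H : GH G) {a b a' x : G} {c r : ℕ} (h : H.d a x + H.d x b ≤ H.d a b + c)
    (hr : H.d a a' ≤ r) (hl : 2 * r + c + H.D < 2 * H.d a x) :
    H.d a' x + H.d x b ≤ H.d a' b + c + H.D := by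
  have i1 := H.fpor a b a' x
  have i2 := H.d_tri a a' x
  rw [H.d_comm b x, H.d_comm b a'] at i1
  omega

/-- a translate of a point between `a` and `b` by an element which moves `a` and `b` little -/
theorem GH.tr2 (H : GH G) {a b w t : G} {r : ℕ} (ht : H.d a t + H.d t b = H.d a b)
    (ha : H.d a (w * a) ≤ r) (hb : H.d b (w * b) ≤ r) (h1 : 2 * r + 2 * H.D < 2 * H.d a t)
    (h2 : 2 * r + 2 * H.D < 2 * H.d t b) :
    H.d a (w * t) + H.d (w * t) b ≤ H.d a b + 2 * H.D := by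
  have e1 : H.d (w * a) (w * t) = H.d a t := H.d_mul _ _ _
  have e2 : H.d (w * t) (w * b) = H.d t b := H.d_mul _ _ _
  have e3 : H.d (w * a) (w * b) = H.d a b := H.d_mul _ _ _
  have i1 := H.tr1 (a := w * a) (b := w * b) (a' := a) (x := w * t) (c := 0) (r := r)
    (by omega) (by rw [H.d_comm]; exact ha) (by omega)
  have i2 := H.tr1 (a := w * b) (b := a) (a' := b) (x := w * t) (c := H.D) (r := r)
    (by rw [H.d_comm (w * b) (w * t), H.d_comm (w * t) a, H.d_comm (w * b) a]; omega)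
    (by rw [H.d_comm]; exact hb) (by rw [H.d_comm (w * b) (w * t)]; omega)
  rw [H.d_comm b (w * t), H.d_comm (w * t) a, H.d_comm b a] at i2
  omega

/-- two points close to a geodesic from `a` to `b` -/
theorem GH.nr (H : GH G) {a b x y : G} {c : ℕ} (hx : H.d a x + H.d x b ≤ H.d a b + c)
    (hy : H.d a y + H.d y b ≤ H.d a b + c) :
    H.d x y + H.d a y ≤ H.d a x + c + H.D ∨ H.d x y + H.d a x ≤ H.d a y + c + H.D := by
  have i1 := H.fpor a b x y
  rw [H.d_comm b y, H.d_comm b x] at i1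
  omega

/-- the shift lemma -/
theorem GH.sh (H : GH G) {a a' x y : G} (h1 : H.d a a' + H.d x y + H.D < H.d a x + H.d a' y)
    (h2 : H.d a a' + H.d x y + H.D < H.d a y + H.d a' x) :
    H.d a x + H.d a' y ≤ H.d a y + H.d a' x + H.D ∧
      H.d a y + H.d a' x ≤ H.d a x + H.d a' y + H.D := by
  have i1 := H.fpor a x a' y
  have i2 := H.fpor a y a' x
  rw [H.d_comm x a'] at i1
  rw [H.d_comm y x, H.d_comm y a'] at i2
  omega

theorem GH.disp_mul (H : GH G) (a u v : G) : H.d a (u * v * a) ≤ H.d a (u * a) + H.d a (v * a) := by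
  have h := H.d_tri a (u * a) (u * v * a)
  rw [mul_assoc, H.d_mul, ← mul_assoc] at h
  exact h

theorem GH.disp_inv (H : GH G) (a u : G) : H.d a (u⁻¹ * a) = H.d a (u * a) := by
  have h := H.d_mul u a (u⁻¹ * a)
  rw [mul_inv_cancel_left, H.d_comm] at h
  exact h.symm

/-- moving an element to the other side -/
theorem GH.mv (H : GH G) (a g x : G) : H.d a (g * x) = H.d (g⁻¹ * a) x := by
  have h := H.d_mul g (g⁻¹ * a) x
  rw [mul_inv_cancel_left] at h
  exact h

theorem GH.ts (H : GH G) {a b g t : G} {R : ℕ} (ha : H.d a (g * a) ≤ R) (hb : H.d b (g * b) ≤ R)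
    (ht : H.d a t + H.d t b = H.d a b) (h1 : 2 * R + 10 * H.D + 10 ≤ H.d a t)
    (h2 : 2 * R + 10 * H.D + 10 ≤ H.d t b) :
    H.d t (g * t) ≤ 10 * H.D ∨ ∀ n : ℕ, n ≤ H.d t (g ^ n * t) := by
  rcases Nat.lt_or_ge (H.d t (g * t)) (7 * H.D + 2 * H.D + 1) with h9 | h9
  · left; omega
  right
  have ha2 := H.disp_mul a g g
  have hb2 := H.disp_mul b g g
  have p0 : H.d a t + H.d t b ≤ H.d a b + 2 * H.D := by omega
  have p1 := H.tr2 (w := g) (r := 2 * R) ht (by omega) (by omega) (by omega) (by omega)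
  have p2 := H.tr2 (w := g * g) (r := 2 * R) ht (by omega) (by omega) (by omega) (by omega)
  have n01 := H.nr p0 p1
  have e1 : H.d a (g * t) = H.d (g⁻¹ * a) t := H.mv a g t
  have e2 : H.d a (g * g * t) = H.d (g⁻¹ * a) (g * t) := by rw [mul_assoc]; exact H.mv a g (g * t)
  have e3 := H.disp_inv a g
  have t1 := H.d_tri a (g⁻¹ * a) t
  have t2 := H.d_tri (g⁻¹ * a) a t
  rw [H.d_comm (g⁻¹ * a) a] at t2
  have s1 := H.sh (a := a) (a' := g⁻¹ * a) (x := t) (y := g * t) (by omega) (by omega)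
  have t3 := H.d_tri a t (g * g * t)
  have t4 := H.d_tri a (g * g * t) t
  rw [H.d_comm (g * g * t) t] at t4
  -- the chain `g ^ i * t`
  have c1 : H.d t (g * t) + H.d t (g * t) ≤ H.d t (g * g * t) + 7 * H.D := by omega
  intro n
  have key := H.lg (7 * H.D) (fun i => g ^ i * t) n (by
    intro i _
    rw [pow_succ, pow_succ, pow_succ, mul_assoc (g ^ i) g t, mul_assoc (g ^ i) g g,
      mul_assoc (g ^ i) (g * g) t, H.d_mul, H.d_mul, H.d_mul,
      mul_assoc g g t, H.d_mul, ← mul_assoc]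
    exact c1) (by
    intro i _
    rw [pow_succ, mul_assoc, H.d_mul]
    exact h9)
  simpa using key.2

theorem GH.cm (H : GH G) {a b g h t : G} {R : ℕ} (ha : H.d a (g * a) ≤ R)
    (hb : H.d b (g * b) ≤ R) (ha' : H.d a (h * a) ≤ R) (hb' : H.d b (h * b) ≤ R)
    (ht : H.d a t + H.d t b = H.d a b) (h1 : 4 * R + 10 * H.D + 10 ≤ H.d a t)
    (h2 : 4 * R + 10 * H.D + 10 ≤ H.d t b) :
    H.d t (g * h * g⁻¹ * h⁻¹ * t) ≤ 10 * H.D := by
  have iga := H.disp_inv a g
  have igb := H.disp_inv b g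
  have iha := H.disp_inv a h
  have ihb := H.disp_inv b h
  -- displacements
  have a1 := H.disp_mul a g⁻¹ h⁻¹
  have b1 := H.disp_mul b g⁻¹ h⁻¹
  have a2 := H.disp_mul a (h * g⁻¹) h⁻¹
  have b2 := H.disp_mul b (h * g⁻¹) h⁻¹
  have a3 := H.disp_mul a h g⁻¹
  have b3 := H.disp_mul b h g⁻¹
  have a4 := H.disp_mul a (g * h * g⁻¹) h⁻¹
  have b4 := H.disp_mul b (g * h * g⁻¹) h⁻¹
  have a5 := H.disp_mul a (g * h) g⁻¹
  have b5 := H.disp_mul b (g * h) g⁻¹
  have a6 := H.disp_mul a g h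
  have b6 := H.disp_mul b g h
  -- the points `x`, `gx`, `hx`, `ghx`, `hgx = t`
  have px := H.tr2 (w := g⁻¹ * h⁻¹) (r := 4 * R) ht (by omega) (by omega) (by omega) (by omega)
  have pgx := H.tr2 (w := h⁻¹) (r := 4 * R) ht (by omega) (by omega) (by omega) (by omega)
  have phx := H.tr2 (w := h * g⁻¹ * h⁻¹) (r := 4 * R) ht (by omega) (by omega) (by omega) (by omega)
  have pghx := H.tr2 (w := g * h * g⁻¹ * h⁻¹) (r := 4 * R) ht (by omega) (by omega) (by omega)
    (by omega)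
  have pt : H.d a t + H.d t b ≤ H.d a b + 2 * H.D := by omega
  have nhx := H.nr px phx
  have ngx := H.nr px pgx
  have nfin := H.nr pt pghx
  -- moving
  have m1 : H.d a (h⁻¹ * t) = H.d (g⁻¹ * a) (g⁻¹ * h⁻¹ * t) := by
    rw [mul_assoc, H.d_mul]
  have m2 : H.d a (g * h * g⁻¹ * h⁻¹ * t) = H.d (g⁻¹ * a) (h * g⁻¹ * h⁻¹ * t) := by
    rw [← H.mv]
    congr 1
    group
  have m3 : H.d a (h * g⁻¹ * h⁻¹ * t) = H.d (h⁻¹ * a) (g⁻¹ * h⁻¹ * t) := by
    rw [← H.mv]
    congr 1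
    group
  have m4 : H.d a t = H.d (h⁻¹ * a) (h⁻¹ * t) := by
    rw [H.d_mul]
  -- distances to `a`
  have l1 : H.d a t ≤ H.d a (g⁻¹ * h⁻¹ * t) + 2 * R := by
    have e := H.mv a (g⁻¹ * h⁻¹) t
    have e2 := H.disp_inv a (g⁻¹ * h⁻¹)
    have e3 := H.d_tri a ((g⁻¹ * h⁻¹)⁻¹ * a) t
    omega
  have l2 : H.d a t ≤ H.d a (h⁻¹ * t) + R := by
    have e := H.mv a h⁻¹ t
    have e2 := H.disp_inv a h⁻¹
    have e3 := H.d_tri a ((h⁻¹)⁻¹ * a) t
    omega
  have l3 : H.d a t ≤ H.d a (h * g⁻¹ * h⁻¹ * t) + 3 * R := by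
    have e := H.mv a (h * g⁻¹ * h⁻¹) t
    have e2 := H.disp_inv a (h * g⁻¹ * h⁻¹)
    have e3 := H.d_tri a ((h * g⁻¹ * h⁻¹)⁻¹ * a) t
    omega
  -- triangle inequalities for the shifts
  have t1 := H.d_tri a (h⁻¹ * a) (g⁻¹ * h⁻¹ * t)
  have t2 := H.d_tri (h⁻¹ * a) a (g⁻¹ * h⁻¹ * t)
  rw [H.d_comm (h⁻¹ * a) a] at t2
  have t3 := H.d_tri a (g⁻¹ * a) (g⁻¹ * h⁻¹ * t)
  have t4 := H.d_tri (g⁻¹ * a) a (g⁻¹ * h⁻¹ * t)
  rw [H.d_comm (g⁻¹ * a) a] at t4
  have s1 := H.sh (a := a) (a' := g⁻¹ * a) (x := g⁻¹ * h⁻¹ * t) (y := h * g⁻¹ * h⁻¹ * t)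
    (by omega) (by omega)
  have s2 := H.sh (a := a) (a' := h⁻¹ * a) (x := g⁻¹ * h⁻¹ * t) (y := h⁻¹ * t)
    (by omega) (by omega)
  omega

end Pool.Agent.TH54.BU
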