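import Pool.Agent.TH54.BU.Defs

/-!
# The cone metric of a system of lines (helper55, job BU-CONE for helper54)

Word length `wl` of a generating set, the cone length `LS.coneGH` of a system of lines, the
projection estimates `LS.cone_e2`, `LS.cone_e3` from the guessing geodesics lemma.
-/

set_option autoImplicit false

namespace Pool.Agent.TH54.BU

open scoped Pointwise

/-! ### word length -/

section WL

variable {G : Type*} [Group G]

/-- word length with respect to `S` -/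
noncomputable def wl (S : Set G) (g : G) : ℕ := sInf {n | g ∈ S ^ n}

variable {S : Set G}

theorem wl_le {g : G} {n : ℕ} (h : g ∈ S ^ n) : wl S g ≤ n := Nat.sInf_le h

theorem wl_mem (hS : ∀ g, ∃ n, g ∈ S ^ n) (g : G) : g ∈ S ^ (wl S g) :=
  Nat.sInf_mem (s := {n | g ∈ S ^ n}) (hS g)

theorem wl_one : wl S (1 : G) = 0 := by
  have : wl S (1 : G) ≤ 0 := wl_le (by simp)
  omega

theorem wl_eq_one (hS : ∀ g, ∃ n, g ∈ S ^ n) (g : G) (h : wl S g = 0) : g = 1 := by
  have := wl_mem hS g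
  rw [h] at this
  simpa using this

theorem wl_inv (hS : ∀ g, ∃ n, g ∈ S ^ n) (hi : S⁻¹ = S) (g : G) : wl S g⁻¹ = wl S g := by
  have key : ∀ g : G, wl S g⁻¹ ≤ wl S g := by
    intro g
    apply wl_le
    have h := wl_mem hS g
    have h' : (g⁻¹)⁻¹ ∈ S ^ wl S g := by simpa using h
    have h2 : g⁻¹ ∈ (S ^ wl S g)⁻¹ := Set.mem_inv.2 h'
    rwa [← inv_pow, hi] at h2
  refine le_antisymm (key g) ?_
  simpa using key g⁻¹

theorem wl_mul (hS : ∀ g, ∃ n, g ∈ S ^ n) (g h : G) : wl S (g * h) ≤ wl S g + wl S h := by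
  apply wl_le
  rw [pow_add]
  exact Set.mul_mem_mul (wl_mem hS g) (wl_mem hS h)

theorem wl_step (hS : ∀ g, ∃ n, g ∈ S ^ n) (g : G) (k : ℕ) (hk : k ≤ wl S g) :
    ∃ h, wl S h = k ∧ wl S (h⁻¹ * g) + k = wl S g := by
  have h1 := wl_mem hS g
  obtain ⟨m, hm⟩ := Nat.exists_eq_add_of_le hk
  rw [hm, pow_add] at h1
  obtain ⟨a, ha, b, hb, hab⟩ := Set.mem_mul.1 h1
  have ha' := wl_le ha
  have hb' := wl_le hb
  have h2 := wl_mul hS a b
  rw [hab] at h2
  have h3 : a⁻¹ * g = b := by rw [← hab]; group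
  refine ⟨a, by omega, ?_⟩
  rw [h3]
  omega

theorem wl_le_one (hS : ∀ g, ∃ n, g ∈ S ^ n) (h1 : (1 : G) ∈ S) (g : G) :
    wl S g ≤ 1 ↔ g ∈ S := by
  constructor
  · intro h
    have h2 := wl_mem hS g
    have h3 : S ^ (wl S g) ⊆ S ^ 1 := Set.pow_subset_pow_right h1 h
    simpa using h3 h2
  · intro h
    apply wl_le
    simpa using h

end WL

/-! ### facts on geodesic lengths -/

namespace GH

variable {G : Type*} [Group G]

theorem len_zpow_neg (H : GH G) (x : G) (k : ℤ) : H.len (x ^ (-k)) = H.len (x ^ k) := by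
  rw [zpow_neg, H.len_inv]

/-- subsegments of geodesics -/
theorem Geod.sub {E : GH G} {γ : ℕ → G} {n : ℕ} (h : E.Geod γ n) {i j : ℕ} (hij : i ≤ j)
    (hj : j ≤ n) : E.d (γ i) (γ j) = j - i := by
  have path : ∀ a b, a ≤ b → b ≤ n → E.d (γ a) (γ b) ≤ b - a := by
    intro a b hab
    induction b, hab using Nat.le_induction with
    | base => intro _; simp [E.d_self]
    | succ b hab ih =>
      intro hb
      have h1 := ih (by omega)
      have h2 := h.1 b (by omega)
      have h3 := E.d_tri (γ a) (γ b) (γ (b + 1))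
      omega
  have h1 := path 0 i (by omega) (by omega)
  have h2 := path i j hij hj
  have h3 := path j n hj le_rfl
  have h4 := E.d_tri (γ 0) (γ i) (γ n)
  have h5 := E.d_tri (γ i) (γ j) (γ n)
  have h6 := h.2
  omega

theorem Geod.init {E : GH G} {γ : ℕ → G} {n : ℕ} (h : E.Geod γ n) {j : ℕ} (hj : j ≤ n) :
    E.Geod γ j := by
  refine ⟨fun i hi => h.1 i (by omega), ?_⟩
  rw [h.sub (Nat.zero_le j) hj]
  simp

theorem Geod.tail {E : GH G} {γ : ℕ → G} {n : ℕ} (h : E.Geod γ n) {i : ℕ} (hi : i ≤ n) :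
    E.Geod (fun k => γ (i + k)) (n - i) := by
  refine ⟨fun k hk => ?_, ?_⟩
  · have := h.1 (i + k) (by omega)
    exact this
  · have h1 := h.sub hi le_rfl
    simp only [Nat.add_zero]
    rwa [Nat.add_sub_cancel' hi]

/-- existence of geodesics -/
theorem exists_geod (E : GH G) (p q : G) : ∃ γ : ℕ → G, γ 0 = p ∧ γ (E.d p q) = q ∧
    E.Geod γ (E.d p q) := by
  generalize hn : E.d p q = n
  induction n generalizing p with
  | zero =>
    refine ⟨fun _ => p, rfl, E.eq_of_d hn, fun i hi => by omega, by simp [E.d_self]⟩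
  | succ n ih =>
    obtain ⟨r, hr1, hr2⟩ := E.between p q 1 (by omega)
    obtain ⟨γ, h0, h1, h2, h3⟩ := ih r (by omega)
    refine ⟨fun k => if k = 0 then p else γ (k - 1), by simp, by simp [h1], ?_, ?_⟩
    · intro i hi
      rcases Nat.eq_zero_or_pos i with rfl | hi0
      · simp [h0, hr1]
      · obtain ⟨m, rfl⟩ : ∃ m, i = m + 1 := ⟨i - 1, by omega⟩
        simpa using h2 m (by omega)
    · simp [h1, hn]

/-- an almost geodesic point is near to a geodesic point -/
theorem near_btw (H : GH G) {c : ℕ} {p q y : G} (h : H.d p y + H.d y q ≤ H.d p q + c) :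
    ∃ t, H.d p t + H.d t q = H.d p q ∧ H.d y t ≤ c + H.D := by
  rcases le_total (H.d p y) (H.d p q) with hk | hk
  · obtain ⟨t, h1, h2⟩ := H.between p q (H.d p y) hk
    refine ⟨t, by omega, ?_⟩
    have h3 := H.fp p q y t
    have h4 := H.d_comm q t
    have h5 := H.d_comm q y
    rcases max_choice (H.d p y + H.d q t) (H.d p t + H.d q y) with h6 | h6 <;> rw [h6] at h3 <;>
      omega
  · refine ⟨q, by simp [H.d_self], by omega⟩

end GH

namespace LS

variable {G : Type*} [Group G] {H : GH G} {c θ T : ℕ} (L : LS H c θ T)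

theorem D_self (i : L.ι) (u p : G) : L.D i u p p = 0 := by
  simp [LS.D, LS.s, H.len_one]

theorem D_comm (i : L.ι) (u p q : G) : L.D i u p q = L.D i u q p := by
  unfold LS.D
  rw [← H.len_zpow_neg]
  congr 2
  unfold LS.s
  ring

theorem D_tri (i : L.ι) (u p q r : G) : L.D i u p r ≤ L.D i u p q + L.D i u q r := by
  unfold LS.D
  have h : L.s i u p r = L.s i u p q + L.s i u q r := by unfold LS.s; ring
  rw [h, zpow_add]
  exact H.len_mul _ _

/-- the projection estimate, for the projections to a general line -/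
theorem D_proj (i : L.ι) (u p q : G) (h : c < L.D i u p q) :
    H.d p (L.pr i u p) + L.D i u p q + H.d q (L.pr i u q) ≤ H.d p q + c := by
  have h1 := L.proj i (u⁻¹ * p) (u⁻¹ * q)
  have h2 : H.len (L.x i ^ (L.κ i (u⁻¹ * p) - L.κ i (u⁻¹ * q))) = L.D i u p q := by
    rw [L.D_comm]
    rfl
  rw [h2] at h1
  have h3 := h1 h
  have e1 : ∀ v : G, H.d (u⁻¹ * v) (L.x i ^ L.κ i (u⁻¹ * v)) = H.d v (L.pr i u v) := by
    intro v
    rw [← H.d_mul u (u⁻¹ * v), mul_inv_cancel_left]
    rfl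
  rw [e1, e1, H.d_mul] at h3
  exact h3

theorem d_pr_pr (i : L.ι) (u p q : G) : H.d (L.pr i u p) (L.pr i u q) = L.D i u p q := by
  unfold LS.pr LS.D LS.s GH.d
  congr 1
  have h : (u * L.x i ^ L.κ i (u⁻¹ * p))⁻¹ * (u * L.x i ^ L.κ i (u⁻¹ * q)) =
      (L.x i ^ L.κ i (u⁻¹ * p))⁻¹ * L.x i ^ L.κ i (u⁻¹ * q) := by
    rw [mul_inv_rev, mul_assoc, inv_mul_cancel_left]
  rw [h, ← zpow_neg, ← zpow_add]
  congr 1
  ring

/-- the projection of a point lies on the line -/
theorem pr_on (i : L.ι) (u p : G) : L.On i u (L.pr i u p) := by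
  unfold LS.On LS.pr
  rw [inv_mul_cancel_left]
  exact Subgroup.zpow_mem_zpowers _ _

theorem D_self_line (j : L.ι) (a b : G) (m : ℤ) (h : a⁻¹ * b = L.x j ^ m) :
    L.D j a a b = H.d a b := by
  unfold LS.D LS.s GH.d
  congr 1
  rw [h]
  have h1 := L.shift j m 1
  rw [mul_one] at h1
  rw [h1, inv_mul_cancel]
  congr 1
  ring

/-- a projection is an almost geodesic point if the projections are far apart -/
theorem pr_almost (i : L.ι) (u p q : G) (h : c < L.D i u p q) :
    H.d p (L.pr i u p) + H.d (L.pr i u p) q ≤ H.d p q + c := by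
  have h1 := L.D_proj i u p q h
  have h2 := H.d_tri (L.pr i u p) (L.pr i u q) q
  have h3 := H.d_comm (L.pr i u q) q
  rw [L.d_pr_pr] at h2
  omega

/-- the generating set of the cone metric -/
def gen : Set G := {g | H.len g ≤ 1 ∨ ∃ (i : L.ι) (k : ℤ), g = L.x i ^ k}

theorem one_mem_gen : (1 : G) ∈ L.gen := by
  left
  rw [H.len_one]
  omega

theorem gen_inv : (L.gen)⁻¹ = L.gen := by
  have key : ∀ g : G, g ∈ L.gen → g⁻¹ ∈ L.gen := by
    rintro g (h | ⟨i, k, rfl⟩)
    · left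
      rwa [H.len_inv]
    · right
      exact ⟨i, -k, by rw [zpow_neg]⟩
  ext g
  rw [Set.mem_inv]
  exact ⟨fun h => by simpa using key _ h, key g⟩

theorem mem_gen_pow (g : G) : g ∈ L.gen ^ (H.len g) := by
  generalize hn : H.len g = n
  induction n generalizing g with
  | zero =>
    have := H.eq_one g hn
    simp [this]
  | succ n ih =>
    obtain ⟨h, h1, h2⟩ := H.step g 1 (by omega)
    have h3 := ih (h⁻¹ * g) (by omega)
    rw [pow_succ']
    have h4 : g = h * (h⁻¹ * g) := by group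
    rw [h4]
    exact Set.mul_mem_mul (Or.inl (by omega)) h3

theorem gen_exists (g : G) : ∃ n, g ∈ L.gen ^ n := ⟨_, L.mem_gen_pow g⟩

/-- the cone distance -/
noncomputable def ce (u v : G) : ℕ := wl L.gen (u⁻¹ * v)

theorem ce_le (u v : G) : L.ce u v ≤ H.d u v := wl_le (L.mem_gen_pow _)

theorem ce_dm : DM L.ce where
  self := fun u => by unfold LS.ce; rw [inv_mul_cancel]; exact wl_one
  eq := fun u v h => inv_mul_eq_one.1 (wl_eq_one L.gen_exists _ h)
  comm := fun u v => by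
    unfold LS.ce
    rw [← wl_inv L.gen_exists L.gen_inv (u⁻¹ * v)]
    congr 1
    group
  tri := fun u v w => by
    unfold LS.ce
    have := wl_mul L.gen_exists (u⁻¹ * v) (v⁻¹ * w)
    rwa [show u⁻¹ * v * (v⁻¹ * w) = u⁻¹ * w by group] at this
  btw := fun u v k hk => by
    obtain ⟨h, h1, h2⟩ := wl_step L.gen_exists (u⁻¹ * v) k hk
    refine ⟨u * h, ?_, ?_⟩
    · unfold LS.ce
      rw [show u⁻¹ * (u * h) = h by group, h1]
    · unfold LS.ce
      rw [show (u * h)⁻¹ * v = h⁻¹ * (u⁻¹ * v) by group, h2]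

theorem ce_le_one (u v : G) : L.ce u v ≤ 1 ↔ u⁻¹ * v ∈ L.gen :=
  wl_le_one L.gen_exists L.one_mem_gen _

/-- the geodesics between points at cone distance one stay near to the first point -/
theorem ce_near (p q r : G) (h : L.ce p q ≤ 1) (hr : H.d p r + H.d r q = H.d p q) :
    L.ce p r ≤ c + 1 := by
  rcases (L.ce_le_one p q).1 h with h1 | ⟨i, k, hk⟩
  · have h2 : H.d p q ≤ 1 := h1
    have h3 := L.ce_le p r
    omega
  · have h0 : H.d (L.x i ^ (0 : ℤ)) (p⁻¹ * r) + H.d (p⁻¹ * r) (L.x i ^ k) =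
        H.d (L.x i ^ (0 : ℤ)) (L.x i ^ k) := by
      rw [← hk, zpow_zero, ← H.d_mul p 1, ← H.d_mul p (p⁻¹ * r), ← H.d_mul p 1,
        mul_inv_cancel_left, mul_inv_cancel_left, mul_one]
      exact hr
    obtain ⟨m, hm⟩ := L.qc i 0 k _ h0
    have h1 : L.ce p (p * L.x i ^ m) ≤ 1 := by
      rw [L.ce_le_one, inv_mul_cancel_left]
      exact Or.inr ⟨i, m, rfl⟩
    have h2 := L.ce_le (p * L.x i ^ m) r
    have h3 := L.ce_dm.tri p (p * L.x i ^ m) r
    have h4 : H.d (p * L.x i ^ m) r = H.d (p⁻¹ * r) (L.x i ^ m) := by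
      rw [← H.d_mul p (p⁻¹ * r), mul_inv_cancel_left, H.d_comm]
    omega

/-- the cone length -/
noncomputable def coneGH (De : ℕ) (h : Four L.ce De) : GH G where
  len := wl L.gen
  D := De
  len_one := wl_one
  eq_one := wl_eq_one L.gen_exists
  len_inv := wl_inv L.gen_exists L.gen_inv
  len_mul := wl_mul L.gen_exists
  fp' := h
  step := wl_step L.gen_exists

/-- one edge of the cone metric -/
theorem edge (i : L.ι) (u a b : G) (h : L.ce a b ≤ 1) :
    (L.On i u a ∧ L.On i u b) ∨ L.D i u a b ≤ c + θ + 1 := by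
  rcases (L.ce_le_one a b).1 h with h1 | ⟨j, k, hk⟩
  · right
    have h2 : H.d a b ≤ 1 := h1
    by_contra h3
    have h4 := L.D_proj i u a b (by omega)
    omega
  · by_cases hij : i = j → u⁻¹ * a ∉ Subgroup.zpowers (L.x i)
    · right
      have h1 := L.ov i j (u⁻¹ * a) hij k 0
      rw [← hk, zpow_zero, mul_one, show u⁻¹ * a * (a⁻¹ * b) = u⁻¹ * b by group] at h1
      have h2 : L.D i u a b ≤ θ := h1
      omega
    · left
      push Not at hij
      obtain ⟨rfl, h2⟩ := hij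
      refine ⟨h2, ?_⟩
      unfold LS.On
      rw [show u⁻¹ * b = (u⁻¹ * a) * (a⁻¹ * b) by group, hk]
      exact mul_mem h2 (Subgroup.zpow_mem_zpowers _ _)

/-- points of one line are at cone distance at most one -/
theorem ce_on (i : L.ι) (u a b : G) (ha : L.On i u a) (hb : L.On i u b) : L.ce a b ≤ 1 := by
  rw [L.ce_le_one]
  right
  obtain ⟨m, hm⟩ := Subgroup.mem_zpowers_iff.1 ha
  obtain ⟨n, hn⟩ := Subgroup.mem_zpowers_iff.1 hb
  refine ⟨i, -m + n, ?_⟩
  rw [zpow_add, zpow_neg, hm, hn]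
  group

/-- a path without edges on the line has small projection -/
theorem path_D (i : L.ι) (u : G) (γ : ℕ → G) (n : ℕ) (h : ∀ k, k < n → L.ce (γ k) (γ (k + 1)) ≤ 1)
    (hno : ∀ k, k < n → ¬ (L.On i u (γ k) ∧ L.On i u (γ (k + 1)))) :
    ∀ a b, a ≤ b → b ≤ n → L.D i u (γ a) (γ b) ≤ (b - a) * (c + θ + 1) := by
  intro a b hab
  induction b, hab using Nat.le_induction with
  | base => intro _; simp [L.D_self]
  | succ b hab ih =>
    intro hb
    have h1 := ih (by omega)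
    have h2 := (L.edge i u (γ b) (γ (b + 1)) (h b (by omega))).resolve_left (hno b (by omega))
    have h3 := L.D_tri i u (γ a) (γ b) (γ (b + 1))
    have h4 : b + 1 - a = (b - a) + 1 := by omega
    rw [h4, add_mul, one_mul]
    omega

/-- the first consequence of the guessing geodesics lemma: far geodesics have small projections -/
theorem farA {R D : ℕ} (hD : H.D ≤ D)
    (g1 : ∀ (γ : ℕ → G) (n : ℕ), (∀ i, i < n → L.ce (γ i) (γ (i + 1)) ≤ 1) →
      L.ce (γ 0) (γ n) = n → ∀ t, H.d (γ 0) t + H.d t (γ n) = H.d (γ 0) (γ n) →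
      ∃ i ≤ n, L.ce t (γ i) ≤ R)
    (i : L.ι) (u : G) (γ : ℕ → G) (m : ℕ) (hγ : ∀ k, k < m → L.ce (γ k) (γ (k + 1)) ≤ 1)
    (hm : L.ce (γ 0) (γ m) = m)
    (hfar : ∀ k ≤ m, ∀ y, L.On i u y → R + c + D < L.ce (γ k) y) :
    L.D i u (γ 0) (γ m) ≤ c := by
  by_contra h
  obtain ⟨t, h1, h2⟩ := H.near_btw (L.pr_almost i u (γ 0) (γ m) (by omega))
  obtain ⟨k, hk, h3⟩ := g1 γ m hγ hm t h1
  have h4 := hfar k hk _ (L.pr_on i u (γ 0))
  have h5 := L.ce_dm.tri (γ k) t (L.pr i u (γ 0))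
  have h6 := L.ce_dm.comm (γ k) t
  have h7 := L.ce_dm.comm t (L.pr i u (γ 0))
  have h8 := L.ce_le (L.pr i u (γ 0)) t
  omega

/-- a cone geodesic with a large projection to a line has an edge on the line -/
theorem cone_e2 {R D : ℕ} (hD : H.D ≤ D)
    (g1 : ∀ (γ : ℕ → G) (n : ℕ), (∀ i, i < n → L.ce (γ i) (γ (i + 1)) ≤ 1) →
      L.ce (γ 0) (γ n) = n → ∀ t, H.d (γ 0) t + H.d t (γ n) = H.d (γ 0) (γ n) →
      ∃ i ≤ n, L.ce t (γ i) ≤ R) {De : ℕ} (h4 : Four L.ce De)
    (i : L.ι) (u : G) (γ : ℕ → G) (n : ℕ) (hG : (L.coneGH De h4).Geod γ n)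
    (hΘ : 2 * (c + (c + θ + 1)) + (2 * (R + c + D) + 1) * (c + θ + 1) + 1 ≤
      L.D i u (γ 0) (γ n)) : ∃ k < n, L.On i u (γ k) ∧ L.On i u (γ (k + 1)) := by
  classical
  by_contra hno
  have hno' : ∀ k, k < n → ¬ (L.On i u (γ k) ∧ L.On i u (γ (k + 1))) :=
    fun k hk h => hno ⟨k, hk, h⟩
  have hedge : ∀ k, k < n → L.ce (γ k) (γ (k + 1)) ≤ 1 := hG.1
  have hsub : ∀ a b, a ≤ b → b ≤ n → L.ce (γ a) (γ b) = b - a := fun a b hab hb => hG.sub hab hb
  by_cases hex : ∃ k, k ≤ n ∧ ∃ y, L.On i u y ∧ L.ce (γ k) y ≤ R + c + D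
  · have hex2 : ∃ m, m ≤ n ∧ ∃ y, L.On i u y ∧ L.ce (γ (n - m)) y ≤ R + c + D := by
      obtain ⟨k, hk, y, hy, hy2⟩ := hex
      exact ⟨n - k, by omega, y, hy, by rwa [Nat.sub_sub_self hk]⟩
    obtain ⟨hi0, y1, hy1, hy1'⟩ := Nat.find_spec hex
    have hmin : ∀ k, k < Nat.find hex → ¬ (k ≤ n ∧ ∃ y, L.On i u y ∧ L.ce (γ k) y ≤ R + c + D) :=
      fun k hk => Nat.find_min hex hk
    generalize Nat.find hex = i0 at hi0 hy1' hmin
    obtain ⟨hm0, y2, hy2, hy2'⟩ := Nat.find_spec hex2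
    have hmin2 : ∀ k, k < Nat.find hex2 →
        ¬ (k ≤ n ∧ ∃ y, L.On i u y ∧ L.ce (γ (n - k)) y ≤ R + c + D) :=
      fun k hk => Nat.find_min hex2 hk
    generalize Nat.find hex2 = m0 at hm0 hy2' hmin2
    obtain ⟨j0, hj0⟩ : ∃ j0, j0 = n - m0 := ⟨_, rfl⟩
    rw [← hj0] at hy2'
    have hij : i0 ≤ j0 := by
      by_contra h
      exact hmin j0 (by omega) ⟨by omega, y2, hy2, hy2'⟩
    have c1 : L.D i u (γ 0) (γ i0) ≤ c + (c + θ + 1) := by
      rcases Nat.eq_zero_or_pos i0 with h0 | h0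
      · rw [h0, L.D_self]
        omega
      · obtain ⟨m, rfl⟩ : ∃ m, i0 = m + 1 := ⟨i0 - 1, by omega⟩
        have h1 := L.farA hD g1 i u γ m (fun k hk => hedge k (by omega))
          (by rw [hsub 0 m (by omega) (by omega)]; simp)
          (fun k hk y hy => by
            by_contra h
            exact hmin k (by omega) ⟨by omega, y, hy, by omega⟩)
        have h2 := (L.edge i u (γ m) (γ (m + 1)) (hedge m (by omega))).resolve_left
          (hno' m (by omega))
        have h3 := L.D_tri i u (γ 0) (γ m) (γ (m + 1))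
        omega
    have c2 : L.D i u (γ j0) (γ n) ≤ c + (c + θ + 1) := by
      rcases Nat.eq_zero_or_pos m0 with h0 | h0
      · have : j0 = n := by omega
        rw [this, L.D_self]
        omega
      · have h1 := L.farA hD g1 i u (fun k => γ (j0 + 1 + k)) (n - (j0 + 1))
          (fun k hk => hedge (j0 + 1 + k) (by omega))
          (by
            have := hsub (j0 + 1) n (by omega) le_rfl
            simp only [Nat.add_zero]
            rwa [Nat.add_sub_cancel' (by omega)])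
          (fun k hk y hy => by
            by_contra h
            refine hmin2 (n - (j0 + 1 + k)) (by omega) ⟨by omega, y, hy, ?_⟩
            rw [Nat.sub_sub_self (by omega)]
            exact not_lt.1 h)
        simp only [Nat.add_zero] at h1
        rw [Nat.add_sub_cancel' (show j0 + 1 ≤ n by omega)] at h1
        have h2 := (L.edge i u (γ j0) (γ (j0 + 1)) (hedge j0 (by omega))).resolve_left
          (hno' j0 (by omega))
        have h3 := L.D_tri i u (γ j0) (γ (j0 + 1)) (γ n)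
        omega
    have c3 : j0 - i0 ≤ 2 * (R + c + D) + 1 := by
      have h1 := hsub i0 j0 hij (by omega)
      have h2 := L.ce_on i u y1 y2 hy1 hy2
      have h3 := L.ce_dm.tri (γ i0) y1 (γ j0)
      have h4' := L.ce_dm.tri y1 y2 (γ j0)
      have h5 := L.ce_dm.comm y2 (γ j0)
      omega
    have c4 := L.path_D i u γ n hedge hno' i0 j0 hij (by omega)
    have c5 : (j0 - i0) * (c + θ + 1) ≤ (2 * (R + c + D) + 1) * (c + θ + 1) :=
      Nat.mul_le_mul_right _ c3
    have c6 := L.D_tri i u (γ 0) (γ i0) (γ n)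
    have c7 := L.D_tri i u (γ i0) (γ j0) (γ n)
    omega
  · have h1 := L.farA hD g1 i u γ n hedge hG.2
      (fun k hk y hy => by
        by_contra h
        exact hex ⟨k, hk, y, hy, not_lt.1 h⟩)
    have : 0 ≤ (2 * (R + c + D) + 1) * (c + θ + 1) := Nat.zero_le _
    omega

/-- the distance is bounded by the projections and the cone distance -/
theorem cone_e3 {Θ De : ℕ} (h4 : Four L.ce De)
    (e2 : ∀ (i : L.ι) (u : G) (γ : ℕ → G) (n : ℕ), (L.coneGH De h4).Geod γ n →
      Θ ≤ L.D i u (γ 0) (γ n) → ∃ k < n, L.On i u (γ k) ∧ L.On i u (γ (k + 1)))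
    (A : ℕ) (p q : G) (hA : ∀ (i : L.ι) (u : G), L.D i u p q ≤ A) :
    H.d p q ≤ (A + 2 * Θ + 1) * (L.coneGH De h4).d p q := by
  obtain ⟨γ, h0, hn, hG⟩ := (L.coneGH De h4).exists_geod p q
  generalize (L.coneGH De h4).d p q = n at hn hG ⊢
  have hedge : ∀ k, k < n → L.ce (γ k) (γ (k + 1)) ≤ 1 := hG.1
  have hsub : ∀ a b, a ≤ b → b ≤ n → L.ce (γ a) (γ b) = b - a := fun a b hab hb => hG.sub hab hb
  have key : ∀ k, k < n → H.d (γ k) (γ (k + 1)) ≤ A + 2 * Θ + 1 := by
    intro k hk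
    rcases (L.ce_le_one _ _).1 (hedge k hk) with h1 | ⟨j, m, hm⟩
    · have h2 : H.d (γ k) (γ (k + 1)) ≤ 1 := h1
      omega
    · have onA : L.On j (γ k) (γ k) := by
        unfold LS.On
        rw [inv_mul_cancel]
        exact one_mem _
      have onB : L.On j (γ k) (γ (k + 1)) := by
        unfold LS.On
        rw [hm]
        exact Subgroup.zpow_mem_zpowers _ _
      have s1 : L.D j (γ k) p (γ k) < Θ := by
        by_contra h
        obtain ⟨l, hl, hl1, hl2⟩ := e2 j (γ k) γ k (hG.init hk.le) (by rw [h0]; omega)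
        have h2 := L.ce_on j (γ k) (γ l) (γ (k + 1)) hl1 onB
        rw [hsub l (k + 1) (by omega) (by omega)] at h2
        omega
      have s2 : L.D j (γ k) (γ (k + 1)) q < Θ := by
        by_contra h
        have hG2 := hG.tail (show k + 1 ≤ n by omega)
        obtain ⟨l, hl, hl1, hl2⟩ := e2 j (γ k) (fun r => γ (k + 1 + r)) (n - (k + 1)) hG2 (by
          simp only [Nat.add_zero]
          rw [Nat.add_sub_cancel' (show k + 1 ≤ n by omega), hn]
          omega)
        have h2 := L.ce_on j (γ k) (γ k) (γ (k + 1 + (l + 1))) onA hl2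
        rw [hsub k (k + 1 + (l + 1)) (by omega) (by omega)] at h2
        omega
      have h2 := L.D_self_line j (γ k) (γ (k + 1)) m hm
      have h3 := L.D_tri j (γ k) (γ k) p (γ (k + 1))
      have h5 := L.D_tri j (γ k) p q (γ (k + 1))
      have h6 := L.D_comm j (γ k) p (γ k)
      have h7 := L.D_comm j (γ k) q (γ (k + 1))
      have h8 := hA j (γ k)
      omega
  have path : ∀ b, b ≤ n → H.d (γ 0) (γ b) ≤ (A + 2 * Θ + 1) * b := by
    intro b
    induction b with
    | zero => intro _; simp [H.d_self]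
    | succ b ih =>
      intro hb
      have h1 := ih (by omega)
      have h2 := key b (by omega)
      have h3 := H.d_tri (γ 0) (γ b) (γ (b + 1))
      rw [mul_add, mul_one]
      omega
  have := path n le_rfl
  rwa [h0, hn] at this

end LS

/-- the cone metric, from the conclusion of the guessing geodesics lemma -/
theorem cone_of_guess {D c R : ℕ} (hR : ∀ (V : Type) (d e : V → V → ℕ), DM d → DM e →
    (∀ u v, e u v ≤ d u v) → Four d D →
    (∀ p q r, e p q ≤ 1 → d p r + d r q = d p q → e p r ≤ c + 1) →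
    (∀ (γ : ℕ → V) (n : ℕ), (∀ i, i < n → e (γ i) (γ (i + 1)) ≤ 1) → e (γ 0) (γ n) = n →
      ∀ t, d (γ 0) t + d t (γ n) = d (γ 0) (γ n) → ∃ i ≤ n, e t (γ i) ≤ R) ∧
    (∀ u v g, e u g + e g v = e u v → ∃ t, d u t + d t v = d u v ∧ e g t ≤ R) ∧
    Four e R) (θ : ℕ) : ∃ Θ : ℕ, ∀ (G : Type) [Group G] (H : GH G)
    (T : ℕ) (L : LS H c θ T), H.D ≤ D → ∃ E : GH G, E.D = R ∧ L.Cone E Θ := by
  refine ⟨2 * (c + (c + θ + 1)) + (2 * (R + c + D) + 1) * (c + θ + 1) + 1, ?_⟩
  intro G _ H T L hD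
  have hF : Four H.d D := by
    intro u v w z
    have := H.fp u v w z
    omega
  obtain ⟨g1, -, g3⟩ := hR G H.d L.ce H.dm L.ce_dm L.ce_le hF L.ce_near
  refine ⟨L.coneGH R g3, rfl, ?_, ?_, ?_, ?_⟩
  · intro g
    exact wl_le_one L.gen_exists L.one_mem_gen g
  · intro g
    exact wl_le (L.mem_gen_pow g)
  · intro i u γ n hG hΘ
    exact L.cone_e2 hD g1 g3 i u γ n hG hΘ
  · intro A p q hA
    exact L.cone_e3 g3 (fun i u γ n hG hΘ => L.cone_e2 hD g1 g3 i u γ n hG hΘ) A p q hA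

end Pool.Agent.TH54.BU
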