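import Pool.Agent.TH54.BU.Defs
import Pool.Agent.TH64.Wind

/-!
# Greendlinger property for a family of lines (helper667, for helper54)

Adaptation of `Pool.Agent.TH64.Gr` (one line family) to a system of lines, with an extension.
-/

set_option autoImplicit false

namespace Pool.Agent.TH54.BU

open Relation
open Pool.Agent.TH64

variable {G : Type*} [Group G]

theorem GH.wf_conn (H : GH G) (u v : G) : ReflTransGen (fun a b => H.d a b ≤ 1) u v := by
  have key : ∀ n, ∀ u v : G, H.d u v = n → ReflTransGen (fun a b => H.d a b ≤ 1) u v := by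
    intro n
    induction n with
    | zero =>
      intro u v h
      rw [H.eq_of_d h]
    | succ n ih =>
      intro u v h
      obtain ⟨p, hp1, hp2⟩ := H.between u v n (by omega)
      exact (ih u p hp1).tail (by show H.d p v ≤ 1; omega)
  exact key _ u v rfl

namespace LS

variable {H : GH G} {c θ T : ℕ} (L : LS H c θ T)

theorem wf_s_self (i : L.ι) (u p : G) : L.s i u p p = 0 := by simp [s]

theorem wf_s_add (i : L.ι) (u p q w : G) : L.s i u p q + L.s i u q w = L.s i u p w := by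
  unfold s; ring

theorem wf_s_symm (i : L.ι) (u p q : G) : L.s i u q p = - L.s i u p q := by unfold s; ring

theorem wf_s_mul (i : L.ι) (g u p q : G) : L.s i (g * u) (g * p) (g * q) = L.s i u p q := by
  unfold s
  rw [show (g * u)⁻¹ * (g * q) = u⁻¹ * q by group, show (g * u)⁻¹ * (g * p) = u⁻¹ * p by group]

theorem wf_s_base (i : L.ι) (u : G) (j : ℤ) (p q : G) :
    L.s i (u * L.x i ^ j) p q = L.s i u p q := by
  unfold s
  have e : ∀ q, (u * L.x i ^ j)⁻¹ * q = L.x i ^ (-j) * (u⁻¹ * q) := by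
    intro q; rw [zpow_neg]; group
  rw [e, e, L.shift, L.shift]
  ring

theorem wf_s_rot (i : L.ι) (u p : G) (k : ℤ) : L.s i u p (u * L.x i ^ k * u⁻¹ * p) = k := by
  unfold s
  rw [show u⁻¹ * (u * L.x i ^ k * u⁻¹ * p) = L.x i ^ k * (u⁻¹ * p) by group, L.shift]
  ring

theorem wf_len_zpow (i : L.ι) (k : ℤ) : H.len (L.x i ^ k) = H.len (L.x i ^ k.natAbs) := by
  rcases Int.natAbs_eq k with h | h
  · conv_lhs => rw [h, zpow_natCast]
  · conv_lhs => rw [h, zpow_neg, zpow_natCast, H.len_inv]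

theorem wf_lin_z (i : L.ι) (k : ℤ) : k.natAbs ≤ T * H.len (L.x i ^ k) := by
  rw [wf_len_zpow]
  exact L.lin i _

/-- large displacement means large length -/
theorem wf_len_of (i : L.ι) (k : ℤ) (m : ℕ) (h : T * m < k.natAbs) : m < H.len (L.x i ^ k) := by
  by_contra hcon
  push Not at hcon
  have h1 := L.wf_lin_z i k
  have h2 : T * H.len (L.x i ^ k) ≤ T * m := Nat.mul_le_mul_left _ hcon
  omega

/-- the projection inequality -/
theorem wf_proj_s (i : L.ι) (u p q : G) (h : c < L.D i u p q) :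
    H.d p (L.pr i u p) + L.D i u p q + H.d q (L.pr i u q) ≤ H.d p q + c := by
  have h1 := L.proj i (u⁻¹ * q) (u⁻¹ * p) h
  have e : ∀ q, H.d (u⁻¹ * q) (L.x i ^ L.κ i (u⁻¹ * q)) = H.d q (L.pr i u q) := by
    intro q
    unfold pr
    rw [← H.d_mul u]
    congr 1
    group
  rw [e, e, H.d_mul, H.d_comm q p] at h1
  unfold D s
  omega

theorem wf_D_adj {p q : G} (h : H.d p q ≤ 1) (i : L.ι) (u : G) : L.D i u p q ≤ c + 1 := by
  by_contra hcon
  push Not at hcon
  have := L.wf_proj_s i u p q (by omega)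
  omega

theorem wf_s_adj {p q : G} (h : H.d p q ≤ 1) (i : L.ι) (u : G) :
    (L.s i u p q).natAbs ≤ L.thr := by
  have h1 := L.wf_D_adj h i u
  have h2 := L.wf_lin_z i (L.s i u p q)
  have h3 : T * H.len (L.x i ^ L.s i u p q) ≤ T * (2 * c + θ + 1) :=
    Nat.mul_le_mul_left _ (by
      have : H.len (L.x i ^ L.s i u p q) ≤ c + 1 := h1
      omega)
  unfold thr
  omega

theorem wf_D_tri (i : L.ι) (u p q w : G) : L.D i u p w ≤ L.D i u p q + L.D i u q w := by
  unfold D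
  rw [← L.wf_s_add i u p q w, zpow_add]
  exact H.len_mul _ _

theorem wf_D_symm (i : L.ι) (u p q : G) : L.D i u q p = L.D i u p q := by
  unfold D
  rw [L.wf_s_symm i u p q, zpow_neg, H.len_inv]

/-- the overlap of distinct lines -/
theorem wf_ov {i j : L.ι} {u w : G} (h : i = j → u⁻¹ * w ∉ Subgroup.zpowers (L.x i)) (a b : ℤ) :
    L.D i u (w * L.x j ^ a) (w * L.x j ^ b) ≤ θ := by
  have := L.ov i j (u⁻¹ * w) h b a
  rw [mul_assoc, mul_assoc] at this
  exact this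

/-- one half of the Behrstock inequality -/
theorem wf_half {i j : L.ι} {u w : G} (h : i = j → u⁻¹ * w ∉ Subgroup.zpowers (L.x i)) (v : G)
    (k l : ℤ) (hk : L.thr < (L.s i u v (w * L.x j ^ k)).natAbs) :
    2 * c + 1 < L.D i u v (w * L.x j ^ l) := by
  have h1 : 2 * c + θ + 1 < L.D i u v (w * L.x j ^ k) := L.wf_len_of i _ _ hk
  have h2 := L.wf_D_tri i u v (w * L.x j ^ l) (w * L.x j ^ k)
  have h3 := L.wf_ov h l k
  omega

/-- the Behrstock inequality -/
theorem wf_beh {i j : L.ι} {u w : G} (h : i = j → u⁻¹ * w ∉ Subgroup.zpowers (L.x i)) (v : G) :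
    (∀ k : ℤ, (L.s i u v (w * L.x j ^ k)).natAbs ≤ L.thr) ∨
      (∀ k : ℤ, (L.s j w v (u * L.x i ^ k)).natAbs ≤ L.thr) := by
  by_contra hcon
  push Not at hcon
  obtain ⟨⟨k, hk⟩, l, hl⟩ := hcon
  have h' : j = i → w⁻¹ * u ∉ Subgroup.zpowers (L.x j) := by
    rintro rfl h2
    apply h rfl
    have := (Subgroup.zpowers (L.x j)).inv_mem h2
    rwa [mul_inv_rev, inv_inv] at this
  have h1 : 2 * c + 1 < L.D i u v (L.pr j w v) := L.wf_half h v k _ hk
  have h2 : 2 * c + 1 < L.D j w v (L.pr i u v) := L.wf_half h' v l _ hl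
  have h3 := L.wf_proj_s i u v (L.pr j w v) (by omega)
  have h4 := L.wf_proj_s j w v (L.pr i u v) (by omega)
  omega

/-- `s` only depends on the line -/
theorem wf_s_congr (i : L.ι) {u w : G} (h : (u : G ⧸ Subgroup.zpowers (L.x i)) = w) (p q : G) :
    L.s i u p q = L.s i w p q := by
  obtain ⟨j, hj⟩ := QuotientGroup.eq.1 h
  have : w = u * L.x i ^ j := by
    have h2 : u⁻¹ * w = L.x i ^ j := hj.symm
    rw [← h2, mul_inv_cancel_left]
  rw [this, L.wf_s_base]

/-- the lines -/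
abbrev WLine : Type _ := Σ i : L.ι, G ⧸ Subgroup.zpowers (L.x i)

end LS

section

variable {A : Type*} [Group A] (φ : A →* G)

/-- the action on points -/
@[reducible] def wfActV : MulAction A G := MulAction.compHom G φ

variable {H : GH G} {c θ T : ℕ} (L : LS H c θ T)

/-- the action on lines -/
@[reducible] def wfActL : MulAction A L.WLine where
  smul g Y := ⟨Y.1, φ g • Y.2⟩
  one_smul := by
    rintro ⟨i, Y⟩
    show (⟨i, φ 1 • Y⟩ : L.WLine) = ⟨i, Y⟩
    rw [map_one, one_smul]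
  mul_smul := by
    rintro g h ⟨i, Y⟩
    show (⟨i, φ (g * h) • Y⟩ : L.WLine) = ⟨i, φ g • φ h • Y⟩
    rw [map_mul, mul_smul]

variable (hφ : Function.Surjective φ) {n : ℕ} (hn : 40 * L.thr + 1 ≤ n) (r : L.ι → A)
  (hr : ∀ i, φ (r i) = L.x i ^ n)
  (hc : ∀ i a, φ a ∈ Subgroup.zpowers (L.x i) → a * r i = r i * a)

/-- a lift of the representative of a line -/
noncomputable def wfLft (Y : L.WLine) : A := (hφ Y.2.out).choose

theorem wfLft_spec (Y : L.WLine) : φ (wfLft φ L hφ Y) = Y.2.out :=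
  (hφ Y.2.out).choose_spec

include hc in
theorem wf_conj_eq (Y : L.WLine) (u : A)
    (hu : ((φ u : G) : G ⧸ Subgroup.zpowers (L.x Y.1)) = Y.2) (k : ℤ) :
    u * r Y.1 ^ k * u⁻¹ = wfLft φ L hφ Y * r Y.1 ^ k * (wfLft φ L hφ Y)⁻¹ := by
  have h1 : φ ((wfLft φ L hφ Y)⁻¹ * u) ∈ Subgroup.zpowers (L.x Y.1) := by
    rw [map_mul, map_inv, wfLft_spec]
    have h2 : ((Y.2.out : G) : G ⧸ Subgroup.zpowers (L.x Y.1)) = (φ u : G) := by
      rw [hu]
      exact QuotientGroup.out_eq' Y.2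
    exact QuotientGroup.eq.1 h2
  have h2 : Commute ((wfLft φ L hφ Y)⁻¹ * u) (r Y.1 ^ k) := Commute.zpow_right (hc _ _ h1) k
  have h4 : (wfLft φ L hφ Y)⁻¹ * u * r Y.1 ^ k * ((wfLft φ L hφ Y)⁻¹ * u)⁻¹ = r Y.1 ^ k := by
    rw [h2.eq, mul_inv_cancel_right]
  calc u * r Y.1 ^ k * u⁻¹ =
      wfLft φ L hφ Y * ((wfLft φ L hφ Y)⁻¹ * u * r Y.1 ^ k * ((wfLft φ L hφ Y)⁻¹ * u)⁻¹)
        * (wfLft φ L hφ Y)⁻¹ := by group
    _ = _ := by rw [h4]

/-- the projection system of the lines `u⟨x i⟩` -/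
noncomputable def wfSys : @Wind.Sys A G L.WLine _ (wfActV φ) (wfActL φ L) := by
  letI := wfActV φ
  letI := wfActL φ L
  have smulV : ∀ (g : A) (v : G), g • v = φ g * v := fun _ _ => rfl
  have smulL : ∀ (g : A) (Y : L.WLine), g • Y = (⟨Y.1, φ g • Y.2⟩ : L.WLine) := fun _ _ => rfl
  have outL : ∀ Y : L.WLine, ((Y.2.out : G) : G ⧸ Subgroup.zpowers (L.x Y.1)) = Y.2 :=
    fun Y => QuotientGroup.out_eq' Y.2
  have onL : ∀ (Y : L.WLine) (v : G), (v : G ⧸ Subgroup.zpowers (L.x Y.1)) = Y.2 →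
      ∃ k : ℤ, v = Y.2.out * L.x Y.1 ^ k := by
    intro Y v hv
    have h2 : ((Y.2.out : G) : G ⧸ Subgroup.zpowers (L.x Y.1)) = v := by rw [outL, hv]
    obtain ⟨k, hk⟩ := QuotientGroup.eq.1 h2
    have h3 : L.x Y.1 ^ k = (Y.2.out)⁻¹ * v := hk
    exact ⟨k, by rw [h3, mul_inv_cancel_left]⟩
  refine
    { adj := fun u v => H.d u v ≤ 1
      on := fun Y v => (v : G ⧸ Subgroup.zpowers (L.x Y.1)) = Y.2
      d := fun Y p q => (L.s Y.1 Y.2.out p q).natAbs
      rot := fun Y => Subgroup.zpowers (wfLft φ L hφ Y * r Y.1 * (wfLft φ L hφ Y)⁻¹)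
      th := L.thr
      T := n
      adj_smul := ?_
      conn := H.wf_conn
      on_smul := ?_
      d_self := ?_
      d_comm := ?_
      d_tri := ?_
      d_smul := ?_
      d_adj := ?_
      line_ne := fun Y => ⟨Y.2.out, outL Y⟩
      hT := hn
      beh := ?_
      rot_conj := ?_
      rot_fix := ?_
      rot_big := ?_ }
  · intro g u v h
    rw [smulV, smulV, H.d_mul]
    exact h
  · intro g Y v h
    show ((φ g * v : G) : G ⧸ Subgroup.zpowers (L.x Y.1)) = φ g • Y.2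
    rw [← h]
    rfl
  · intro Y u
    rw [L.wf_s_self]
    rfl
  · intro Y u v
    rw [L.wf_s_symm, Int.natAbs_neg]
  · intro Y u v w
    rw [← L.wf_s_add _ _ u v w]
    exact Int.natAbs_add_le _ _
  · intro g Y u v
    rw [smulV, smulV]
    have h1 : (((g • Y).2.out : G) : G ⧸ Subgroup.zpowers (L.x Y.1)) = ((φ g * Y.2.out : G)) := by
      have h2 := outL (g • Y)
      have h3 : (g • Y).2 = φ g • Y.2 := rfl
      have h4 : φ g • Y.2 = ((φ g * Y.2.out : G) : G ⧸ Subgroup.zpowers (L.x Y.1)) := by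
        conv_lhs => rw [← outL Y]
        rfl
      exact (h2.trans h3).trans h4
    show (L.s Y.1 (g • Y).2.out (φ g * u) (φ g * v)).natAbs = _
    rw [L.wf_s_congr Y.1 h1, L.wf_s_mul]
  · intro Y u v h
    exact L.wf_s_adj h Y.1 Y.2.out
  · intro Y Z v hYZ
    have h1 : Y.1 = Z.1 → (Y.2.out)⁻¹ * Z.2.out ∉ Subgroup.zpowers (L.x Y.1) := by
      obtain ⟨i, Y⟩ := Y
      obtain ⟨j, Z⟩ := Z
      rintro hij h2
      dsimp only at hij h2
      subst hij
      apply hYZ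
      have h3 := QuotientGroup.eq.2 h2
      have h4 : Y = Z := by
        rw [← QuotientGroup.out_eq' Y, ← QuotientGroup.out_eq' Z]
        exact h3
      rw [h4]
    rcases L.wf_beh h1 v with h | h
    · left
      intro w hw
      obtain ⟨k, rfl⟩ := onL Z w hw
      exact h k
    · right
      intro w hw
      obtain ⟨k, rfl⟩ := onL Y w hw
      exact h k
  · intro g Y ρ hρ
    obtain ⟨k, hk⟩ := hρ
    have h1 : ρ = wfLft φ L hφ Y * r Y.1 ^ k * (wfLft φ L hφ Y)⁻¹ := by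
      rw [← conj_zpow]
      exact hk.symm
    have h2 : ((φ (g * wfLft φ L hφ Y) : G) : G ⧸ Subgroup.zpowers (L.x (g • Y).1)) =
        (g • Y).2 := by
      rw [map_mul, wfLft_spec]
      show ((φ g * Y.2.out : G) : G ⧸ Subgroup.zpowers (L.x Y.1)) = φ g • Y.2
      conv_rhs => rw [← outL Y]
      rfl
    have h3 := wf_conj_eq φ L hφ r hc (g • Y) (g * wfLft φ L hφ Y) h2 k
    refine ⟨k, ?_⟩
    show (wfLft φ L hφ (g • Y) * r Y.1 * (wfLft φ L hφ (g • Y))⁻¹) ^ k = g * ρ * g⁻¹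
    have h4 : (g * wfLft φ L hφ Y) * r Y.1 ^ k * (g * wfLft φ L hφ Y)⁻¹ =
      wfLft φ L hφ (g • Y) * r Y.1 ^ k * (wfLft φ L hφ (g • Y))⁻¹ := h3
    rw [conj_zpow, ← h4, h1]
    group
  · intro Y ρ hρ
    obtain ⟨k, hk⟩ := hρ
    have h1 : ρ = wfLft φ L hφ Y * r Y.1 ^ k * (wfLft φ L hφ Y)⁻¹ := by
      rw [← conj_zpow]
      exact hk.symm
    have h2 : φ ρ • Y.2 = Y.2 := by
      conv_lhs => rw [← outL Y]
      rw [h1, map_mul, map_mul, map_inv, map_zpow, hr, wfLft_spec]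
      show ((Y.2.out * (L.x Y.1 ^ n) ^ k * (Y.2.out)⁻¹ * Y.2.out : G) :
        G ⧸ Subgroup.zpowers (L.x Y.1)) = Y.2
      rw [inv_mul_cancel_right]
      conv_rhs => rw [← outL Y]
      apply QuotientGroup.eq.2
      refine ⟨-((n : ℤ) * k), ?_⟩
      show L.x Y.1 ^ (-((n : ℤ) * k)) = _
      rw [zpow_neg, zpow_mul, zpow_natCast]
      group
    show (⟨Y.1, φ ρ • Y.2⟩ : L.WLine) = Y
    rw [h2]
  · intro Y ρ v hρ hne
    obtain ⟨k, hk⟩ := hρ
    have h1 : ρ = wfLft φ L hφ Y * r Y.1 ^ k * (wfLft φ L hφ Y)⁻¹ := by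
      rw [← conj_zpow]
      exact hk.symm
    have hk0 : k ≠ 0 := by
      rintro rfl
      apply hne
      rw [h1, zpow_zero]
      group
    have h2 : ρ • v = Y.2.out * L.x Y.1 ^ ((n : ℤ) * k) * (Y.2.out)⁻¹ * v := by
      rw [smulV, h1, map_mul, map_mul, map_inv, map_zpow, hr, wfLft_spec, zpow_mul, zpow_natCast]
    show n ≤ (L.s Y.1 Y.2.out v (ρ • v)).natAbs
    rw [h2, L.wf_s_rot, Int.natAbs_mul, Int.natAbs_natCast]
    exact Nat.le_mul_of_pos_right _ (Int.natAbs_pos.2 hk0)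

end

theorem LS.gr_ext {G : Type*} [Group G] {H : GH G} {c θ T : ℕ} (L : LS H c θ T)
    {A : Type*} [Group A] (φ : A →* G) (hφ : Function.Surjective φ) {n : ℕ}
    (hn : 40 * L.thr + 1 ≤ n) (r : L.ι → A) (hr : ∀ i, φ (r i) = L.x i ^ n)
    (hc : ∀ i a, φ a ∈ Subgroup.zpowers (L.x i) → a * r i = r i * a)
    {a : A} (ha : a ∈ Subgroup.normalClosure (Set.range r)) (ha1 : a ≠ 1) (p : G) :
    ∃ (i : L.ι) (u : G), (n : ℤ) ≤ |L.s i u p (φ a * p)| + 12 * L.thr := by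
  letI := wfActV φ
  letI := wfActL φ L
  have h1 : a ∈ Subgroup.closure {ρ | ∃ Y, ρ ∈ (wfSys φ L hφ hn r hr hc).rot Y} := by
    unfold Subgroup.normalClosure at ha
    refine (Subgroup.closure_mono ?_) ha
    intro g hg
    rw [Group.mem_conjugatesOfSet_iff] at hg
    obtain ⟨b, ⟨i, rfl⟩, hag⟩ := hg
    obtain ⟨w, hw⟩ := isConj_iff.1 hag
    refine ⟨⟨i, ((φ w : G) : G ⧸ Subgroup.zpowers (L.x i))⟩, 1, ?_⟩
    show (wfLft φ L hφ _ * r i * (wfLft φ L hφ _)⁻¹) ^ (1 : ℤ) = g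
    have := wf_conj_eq φ L hφ r hc ⟨i, ((φ w : G) : G ⧸ Subgroup.zpowers (L.x i))⟩ w rfl 1
    dsimp only at this
    rw [conj_zpow, ← this, zpow_one, hw]
  obtain ⟨Y, hY⟩ := Wind.wind_main (wfSys φ L hφ hn r hr hc) p h1 ha1
  refine ⟨Y.1, Y.2.out, ?_⟩
  have h2 : n ≤ (L.s Y.1 Y.2.out p (φ a * p)).natAbs + 12 * L.thr := hY
  rw [Int.abs_eq_natAbs]
  exact_mod_cast h2

theorem LS.fil {G : Type*} [Group G] {H : GH G} {c θ T : ℕ} (L : LS H c θ T) {n : ℕ}
    (hn : 40 * L.thr + 1 ≤ n) :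
    L.Fil n (Subgroup.normalClosure (Set.range fun i => L.x i ^ n)) where
  normal := Subgroup.normalClosure_normal
  rot := by
    intro i u k
    unfold LS.rt
    have h1 : L.x i ^ n ∈ Subgroup.normalClosure (Set.range fun i => L.x i ^ n) :=
      Subgroup.subset_normalClosure ⟨i, rfl⟩
    have h2 : L.x i ^ ((n : ℤ) * k) ∈ Subgroup.normalClosure (Set.range fun i => L.x i ^ n) := by
      rw [zpow_mul, zpow_natCast]
      exact Subgroup.zpow_mem _ h1 k
    exact Subgroup.normalClosure_normal.conj_mem _ h2 u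
  gr := by
    intro m hm hne p
    exact L.gr_ext (MonoidHom.id G) Function.surjective_id hn (fun i => L.x i ^ n)
      (fun _ => rfl) (by
        rintro i g ⟨k, hk⟩
        have hk' : L.x i ^ k = g := hk
        rw [← hk']
        exact (Commute.refl (L.x i)).zpow_left k |>.pow_right n) hm hne p

end Pool.Agent.TH54.BU
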