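import Pool.Agent.TH54.BU.Defs
import Pool.Agent.TH54.BU.ConeA
import Pool.Agent.TH54.BU.WindF

set_option autoImplicit false

/-!
# BU-CLOSE (job 1381, helper54): rotation lemmas and closed lifts of polygons
-/

namespace Pool.Agent.TH54.BU

/-- a minimum of a natural valued function -/
theorem cl_min {α : Type*} (P : α → Prop) (f : α → ℕ) (h : ∃ a, P a) :
    ∃ a, P a ∧ ∀ b, P b → f a ≤ f b := by
  classical
  have h' : ∃ N, ∃ a, P a ∧ f a = N := by
    obtain ⟨a, ha⟩ := h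
    exact ⟨f a, a, ha, rfl⟩
  obtain ⟨a, ha, hfa⟩ := Nat.find_spec h'
  refine ⟨a, ha, fun b hb => ?_⟩
  rw [hfa]
  exact Nat.find_min' h' ⟨b, hb, rfl⟩

namespace LS

variable {G : Type*} [Group G] {H : GH G} {c θ T : ℕ} (L : LS H c θ T)

theorem cl_T (i : L.ι) : 1 ≤ T := by
  have h := L.lin i 1
  generalize H.len (L.x i ^ 1) = y at h
  rcases Nat.eq_zero_or_pos T with h0 | h0
  · rw [h0, zero_mul] at h
    omega
  · exact h0

/-- the rotation moves the coordinate -/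
theorem cl_s_rt (i : L.ι) (u p q : G) (k : ℤ) :
    L.s i u p (L.rt i u k * q) = L.s i u p q + k := by
  rw [← L.wf_s_add i u p q (L.rt i u k * q)]
  congr 1
  exact L.wf_s_rot i u q k

theorem cl_pr_rt (i : L.ι) (u p : G) (k : ℤ) :
    L.pr i u (L.rt i u k * p) = L.rt i u k * L.pr i u p := by
  unfold pr rt
  rw [show u⁻¹ * (u * L.x i ^ k * u⁻¹ * p) = L.x i ^ k * (u⁻¹ * p) by group, L.shift,
    add_comm, zpow_add]
  group

/-- the trivial upper bound through the projections -/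
theorem cl_d_le (i : L.ι) (u p q : G) :
    H.d p q ≤ H.d p (L.pr i u p) + L.D i u p q + H.d q (L.pr i u q) := by
  have t1 := H.d_tri p (L.pr i u p) q
  have t2 := H.d_tri (L.pr i u p) (L.pr i u q) q
  rw [L.d_pr_pr, H.d_comm (L.pr i u q) q] at t2
  omega

theorem cl_D_ge (i : L.ι) (u p q : G) (m : ℕ) (h : T * m ≤ (L.s i u p q).natAbs) :
    m ≤ L.D i u p q := by
  have h1 := L.wf_lin_z i (L.s i u p q)
  have h2 : T * m ≤ T * L.D i u p q := h.trans h1
  exact Nat.le_of_mul_le_mul_left h2 (L.cl_T i)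

theorem shorten (C : ℕ) {n : ℕ} {i : L.ι} {u p q : G} (hn : T * (2 * c + C + 1) ≤ n)
    (hs : (n : ℤ) + T * (2 * c + C + 1) ≤ 2 * |L.s i u p q|) :
    ∃ k : ℤ, H.d p (L.rt i u (n * k) * q) + C < H.d p q := by
  -- the new coordinate
  obtain ⟨k, hk⟩ : ∃ k : ℤ, |L.s i u p q + n * k| + T * (2 * c + C + 1) ≤ |L.s i u p q| := by
    have hn' : (T : ℤ) * (2 * c + C + 1) ≤ n := by exact_mod_cast hn
    rcases le_total 0 (L.s i u p q) with h0 | h0
    · refine ⟨-1, ?_⟩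
      rw [abs_of_nonneg h0] at hs ⊢
      rcases abs_cases (L.s i u p q + n * (-1)) with ⟨e, _⟩ | ⟨e, _⟩ <;> rw [e] <;> linarith
    · refine ⟨1, ?_⟩
      rw [abs_of_nonpos h0] at hs ⊢
      rcases abs_cases (L.s i u p q + n * 1) with ⟨e, _⟩ | ⟨e, _⟩ <;> rw [e] <;> linarith
  refine ⟨k, ?_⟩
  set s := L.s i u p q with hsdef
  set s' : ℤ := s + n * k with hs'
  have hk' : s'.natAbs + T * (2 * c + C + 1) ≤ s.natAbs := by
    rw [Int.abs_eq_natAbs, Int.abs_eq_natAbs] at hk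
    exact_mod_cast hk
  -- superadditivity
  have h1 := L.sup i s'.natAbs (s.natAbs - s'.natAbs)
  rw [Nat.add_sub_cancel' (by omega)] at h1
  have h2 := L.lin i (s.natAbs - s'.natAbs)
  have h3 : 2 * c + C + 1 ≤ H.len (L.x i ^ (s.natAbs - s'.natAbs)) := by
    refine Nat.le_of_mul_le_mul_left ?_ (L.cl_T i)
    omega
  have e1 : L.D i u p q = H.len (L.x i ^ s.natAbs) := L.wf_len_zpow i s
  have e2 : L.D i u p (L.rt i u (n * k) * q) = H.len (L.x i ^ s'.natAbs) := by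
    unfold D
    rw [L.cl_s_rt]
    exact L.wf_len_zpow i s'
  have h4 := L.D_proj i u p q (by omega)
  have h5 := L.cl_d_le i u p (L.rt i u (n * k) * q)
  rw [L.cl_pr_rt, H.d_mul] at h5
  omega

theorem rot_cone {E : GH G} {Θ : ℕ} (C : L.Cone E Θ) {n : ℕ} {i : L.ι} {u p q : G}
    (h : Θ ≤ L.D i u p q) (l : ℤ) : E.d p (L.rt i u l * q) ≤ E.d p q := by
  obtain ⟨γ, h0, h1, hG⟩ := E.exists_geod p q
  generalize E.d p q = N at h1 hG ⊢
  obtain ⟨k, hk, hk1, hk2⟩ := C.e2 i u γ N hG (by rw [h0, h1]; exact h)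
  obtain ⟨a, ha⟩ := Subgroup.mem_zpowers_iff.1 hk1
  obtain ⟨b, hb⟩ := Subgroup.mem_zpowers_iff.1 hk2
  have e1 : E.d (γ k) (L.rt i u l * γ (k + 1)) ≤ 1 := by
    unfold GH.d
    rw [C.le_one]
    right
    refine ⟨i, -a + l + b, ?_⟩
    rw [zpow_add, zpow_add, zpow_neg, ha, hb]
    unfold rt
    group
  have e2 := hG.sub (Nat.zero_le k) hk.le
  have e3 := hG.sub (show k + 1 ≤ N by omega) le_rfl
  rw [h0] at e2
  rw [h1] at e3
  have t1 := E.d_tri p (γ k) (L.rt i u l * q)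
  have t2 := E.d_tri (γ k) (L.rt i u l * γ (k + 1)) (L.rt i u l * q)
  rw [E.d_mul] at t2
  omega

theorem close {n : ℕ} {M : Subgroup G} (F : L.Fil n M) {A k : ℕ}
    (hn : k * A + 12 * L.thr ≤ n) (hn2 : 24 * L.thr + T * (2 * c + 1) ≤ n)
    (Rel : ℕ → G → G → Prop)
    (hM : ∀ j < k, ∀ m ∈ M, ∀ a b, Rel j a b → Rel j (m * a) (m * b))
    (hrot : ∀ j < k, ∀ a b, Rel j a b → ∀ (i : L.ι) (u : G), (A : ℤ) ≤ |L.s i u a b| →
      ∀ l : ℤ, Rel j a (L.rt i u (n * l) * b))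
    (P : ℕ → G) (hP : ∀ j < k, Rel j (P j) (P (j + 1))) (hend : ∃ m ∈ M, P k = m * P 0) :
    ∃ P' : ℕ → G, (∀ j < k, Rel j (P' j) (P' (j + 1))) ∧ P' k = P' 0 ∧
      ∀ j ≤ k, ∃ m ∈ M, P' j = m * P j := by
  obtain ⟨P', ⟨hP1, hP2⟩, hmin⟩ := cl_min
    (fun P' : ℕ → G => (∀ j < k, Rel j (P' j) (P' (j + 1))) ∧ ∀ j ≤ k, ∃ m ∈ M, P' j = m * P j)
    (fun P' => H.d (P' 0) (P' k)) ⟨P, hP, fun j _ => ⟨1, M.one_mem, (one_mul _).symm⟩⟩
  refine ⟨P', hP1, ?_, hP2⟩
  by_contra hne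
  -- the end points differ by an element of `M`
  obtain ⟨m0, hm0, e0⟩ := hend
  obtain ⟨m1, hm1, e1⟩ := hP2 k le_rfl
  obtain ⟨m2, hm2, e2⟩ := hP2 0 (Nat.zero_le _)
  have em : P' k = (m1 * m0 * m2⁻¹) * P' 0 := by
    rw [e1, e2, e0]
    group
  have hm : m1 * m0 * m2⁻¹ ∈ M := M.mul_mem (M.mul_mem hm1 hm0) (M.inv_mem hm2)
  have hm1' : m1 * m0 * m2⁻¹ ≠ 1 := by
    intro h
    rw [h, one_mul] at em
    exact hne em
  obtain ⟨i, u, hgr⟩ := F.gr _ hm hm1' (P' 0)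
  rw [← em] at hgr
  have hk0 : 1 ≤ k := by
    rcases Nat.eq_zero_or_pos k with h | h
    · rw [h] at hne
      exact absurd rfl hne
    · exact h
  -- a large side
  obtain ⟨j, hj, hAj⟩ : ∃ j < k, (A : ℤ) ≤ |L.s i u (P' j) (P' (j + 1))| := by
    by_contra hcon
    push Not at hcon
    have key : ∀ t ≤ k, |L.s i u (P' 0) (P' t)| + t ≤ t * (A : ℤ) := by
      intro t
      induction t with
      | zero => intro _; rw [L.wf_s_self]; simp
      | succ t ih =>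
        intro ht
        have i1 := ih (by omega)
        have i2 := hcon t (by omega)
        have i3 := abs_add_le (L.s i u (P' 0) (P' t)) (L.s i u (P' t) (P' (t + 1)))
        rw [L.wf_s_add] at i3
        push_cast
        rw [add_mul, one_mul]
        linarith
    have h1 := key k le_rfl
    have h2 : (k : ℤ) * A + 12 * L.thr ≤ n := by exact_mod_cast hn
    have h3 : (1 : ℤ) ≤ k := by exact_mod_cast hk0
    linarith
  -- shorten
  obtain ⟨l, hl⟩ := L.shorten 0 (n := n) (i := i) (u := u) (p := P' 0) (q := P' k)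
    (by rw [add_zero]; omega) (by
      have h2 : (24 : ℤ) * L.thr + T * (2 * c + 1) ≤ n := by exact_mod_cast hn2
      push_cast
      rw [add_zero]
      linarith)
  rw [add_zero] at hl
  have hrM : L.rt i u (n * l) ∈ M := F.rot i u l
  have hlt := hmin (fun e => if e ≤ j then P' e else L.rt i u (n * l) * P' e) ⟨?_, ?_⟩
  · simp only [Nat.zero_le, if_true, if_neg (show ¬ k ≤ j by omega)] at hlt
    omega
  · intro e he
    by_cases h1 : e + 1 ≤ j
    · rw [if_pos h1, if_pos (by omega)]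
      exact hP1 e he
    · by_cases h2 : e ≤ j
      · have : e = j := by omega
        subst this
        rw [if_pos le_rfl, if_neg h1]
        exact hrot e hj _ _ (hP1 e hj) i u hAj l
      · rw [if_neg h1, if_neg h2]
        exact hM e he _ hrM _ _ (hP1 e he)
  · intro e he
    obtain ⟨m, hm, e3⟩ := hP2 e he
    split_ifs
    · exact ⟨m, hm, e3⟩
    · exact ⟨_, M.mul_mem hrM hm, by rw [e3, mul_assoc]⟩

theorem cone_min {n : ℕ} {M : Subgroup G} (F : L.Fil n M) {E : GH G} {Θ : ℕ} (C : L.Cone E Θ)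
    (hn : T * (2 * c + 1) + 24 * L.thr ≤ n) {p q : G}
    (h : ∀ (i : L.ι) (u : G), |L.s i u p q| + T * Θ + 12 * L.thr < n) {m : G} (hm : m ∈ M) :
    E.d p q ≤ E.d p (m * q) := by
  by_contra hcon
  push Not at hcon
  obtain ⟨m', ⟨hm1, hm2⟩, hmin⟩ := cl_min (fun m' : G => m' ∈ M ∧ E.d p (m' * q) < E.d p q)
    (fun m' => H.d q (m' * q)) ⟨m, hm, hcon⟩
  have hne : m' ≠ 1 := by
    rintro rfl
    rw [one_mul] at hm2
    exact lt_irrefl _ hm2
  obtain ⟨i, u, hgr⟩ := F.gr m' hm1 hne q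
  have h1 := h i u
  have hD : Θ ≤ L.D i u p (m' * q) := by
    refine L.cl_D_ge i u p (m' * q) Θ ?_
    have i1 := L.wf_s_add i u p q (m' * q)
    have i2 := abs_sub_abs_le_abs_sub (L.s i u p (m' * q)) (L.s i u q (m' * q))
    have i3 := abs_sub_abs_le_abs_sub (L.s i u q (m' * q)) (L.s i u p (m' * q))
    have i4 : L.s i u q (m' * q) - L.s i u p (m' * q) = - L.s i u p q := by linarith
    rw [i4, abs_neg] at i3
    have i5 : (T * Θ : ℤ) ≤ |L.s i u p (m' * q)| := by linarith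
    rw [Int.abs_eq_natAbs] at i5
    exact_mod_cast i5
  obtain ⟨l, hl⟩ := L.shorten 0 (n := n) (i := i) (u := u) (p := q) (q := m' * q)
    (by rw [add_zero]; omega) (by
      have h2 : (T : ℤ) * (2 * c + 1) + 24 * L.thr ≤ n := by exact_mod_cast hn
      push_cast
      rw [add_zero]
      linarith)
  rw [add_zero, ← mul_assoc] at hl
  have h2 := L.rot_cone C (n := n) hD (n * l)
  rw [← mul_assoc] at h2
  have h3 := hmin (L.rt i u (n * l) * m') ⟨M.mul_mem (F.rot i u l) hm1, by omega⟩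
  omega

theorem reduced {n : ℕ} {M : Subgroup G} (F : L.Fil n M) {E : GH G} {Θ : ℕ} (C : L.Cone E Θ)
    (hn : T * (2 * c + 1) + 2 * T * Θ ≤ n) (g : G) :
    ∃ m ∈ M, (∀ m' ∈ M, E.len (m * g) ≤ E.len (m' * g)) ∧
      ∀ (i : L.ι) (u : G), 2 * |L.s i u 1 (m * g)| < n + T * (2 * c + 1) := by
  obtain ⟨m0, hm0, hmin0⟩ := cl_min (fun m : G => m ∈ M) (fun m => E.len (m * g)) ⟨1, M.one_mem⟩
  obtain ⟨m, ⟨hm, hm'⟩, hmin⟩ := cl_min
    (fun m : G => m ∈ M ∧ ∀ m' ∈ M, E.len (m * g) ≤ E.len (m' * g)) (fun m => H.len (m * g))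
    ⟨m0, hm0, hmin0⟩
  refine ⟨m, hm, hm', fun i u => ?_⟩
  by_contra hcon
  push Not at hcon
  have hn' : (T : ℤ) * (2 * c + 1) + 2 * T * Θ ≤ n := by exact_mod_cast hn
  have hT0 : (0 : ℤ) ≤ T * (2 * c + 1) := by positivity
  have hD : Θ ≤ L.D i u 1 (m * g) := by
    refine L.cl_D_ge i u 1 (m * g) Θ ?_
    have i5 : (T * Θ : ℤ) ≤ |L.s i u 1 (m * g)| := by linarith
    rw [Int.abs_eq_natAbs] at i5
    exact_mod_cast i5
  obtain ⟨l, hl⟩ := L.shorten 0 (n := n) (i := i) (u := u) (p := 1) (q := m * g)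
    (by
      rw [add_zero]
      have : T * (2 * c + 1) ≤ n := by
        have h0 : 0 ≤ 2 * T * Θ := Nat.zero_le _
        omega
      exact this) (by
      push_cast
      rw [add_zero]
      exact hcon)
  rw [add_zero, ← mul_assoc, H.d_one, H.d_one] at hl
  have h2 := L.rot_cone C (n := n) hD (n * l)
  rw [← mul_assoc, E.d_one, E.d_one] at h2
  have h3 := hmin (L.rt i u (n * l) * m) ⟨M.mul_mem (F.rot i u l) hm, fun m' hm'' =>
    h2.trans (hm' m' hm'')⟩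
  omega

end LS

end Pool.Agent.TH54.BU
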