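import Pool.Agent.TH54.BU.Axial
import Pool.Agent.TH54.BU.Local
import Pool.Agent.TH54.BU.Close

set_option autoImplicit false

/-!
# BU-OVZ (job 1386, helper429 for helper54): overlap and angle of a line with the axis of a long
element
-/

namespace Pool.Agent.TH54.BU

variable {G : Type*} [Group G]

theorem GH.az_d_pow (H : GH G) (z : G) (N : ℕ) : H.d (z ^ N) (z ^ (N + 1)) = H.len z := by
  rw [pow_succ]
  have := H.d_mul (z ^ N) 1 z
  rw [mul_one, H.d_one] at this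
  exact this

/-- translation along the axis -/
theorem GH.az_ax (H : GH G) {z y : G} {e0 e N : ℕ} (hz : H.Sup e0 z)
    (h : H.len y + H.d y (z ^ N) ≤ H.len (z ^ N) + e) :
    (H.len y + H.d y (z ^ (N + 1)) ≤ H.len (z ^ (N + 1)) + (e + e0)) ∧
    (H.len (z * y) + H.d (z * y) (z ^ (N + 1)) ≤ H.len (z ^ (N + 1)) + (e + e0)) ∧
    (H.len y + H.len z ≤ H.len (z * y) + (e + e0)) ∧ H.len (z * y) ≤ H.len z + H.len y := by
  have h1 := hz N 1
  rw [pow_one] at h1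
  have h2 := H.d_tri y (z ^ N) (z ^ (N + 1))
  rw [H.az_d_pow] at h2
  have h3 := H.len_mul z y
  have h4 : H.d (z * y) (z ^ (N + 1)) = H.d y (z ^ N) := by
    rw [pow_succ', H.d_mul]
  have h5 := H.d_tri 1 (z * y) (z ^ (N + 1))
  rw [H.d_one, H.d_one] at h5
  omega

namespace LS

variable {H : GH G} {c θ T : ℕ} (L : LS H c θ T)

theorem az_kappa_one (i : L.ι) : L.κ i 1 = 0 := by
  have h1 := L.near i 1 0
  rw [zpow_zero, H.d_self] at h1
  have h2 : H.d 1 (L.x i ^ L.κ i 1) = 0 := by omega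
  rw [H.d_one] at h2
  have h3 := L.wf_lin_z i (L.κ i 1)
  rw [h2, mul_zero] at h3
  omega

theorem az_s_line (i : L.ι) (u p : G) (k : ℤ) :
    L.s i u p (u * L.x i ^ k) = k - L.κ i (u⁻¹ * p) := by
  unfold s
  rw [inv_mul_cancel_left]
  have h := L.shift i k 1
  rw [mul_one, L.az_kappa_one] at h
  rw [h]
  ring

theorem az_s_pr (i : L.ι) (u p : G) : L.s i u p (L.pr i u p) = 0 := by
  unfold pr
  rw [L.az_s_line]
  ring

theorem az_s_pr_right (i : L.ι) (u p q : G) : L.s i u p (L.pr i u q) = L.s i u p q := by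
  rw [← L.wf_s_add i u p q (L.pr i u q), L.az_s_pr, add_zero]

theorem az_s_pr_left (i : L.ι) (u p q : G) : L.s i u (L.pr i u p) q = L.s i u p q := by
  rw [L.wf_s_symm i u q (L.pr i u p), L.az_s_pr_right, ← L.wf_s_symm]

theorem az_lip (i : L.ι) (u p q : G) : L.D i u p q ≤ H.d p q + c := by
  by_contra hc
  push Not at hc
  have := L.D_proj i u p q (by omega)
  omega

/-- a point of the line at a given distance -/
theorem az_step (i : L.ι) (k1 k2 : ℤ) (l : ℕ) (h : l ≤ H.len (L.x i ^ (k2 - k1))) :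
    ∃ k3 : ℤ, l ≤ H.len (L.x i ^ (k2 - k3)) ∧ H.len (L.x i ^ (k2 - k3)) ≤ l + c ∧
      H.len (L.x i ^ (k3 - k1)) + H.len (L.x i ^ (k2 - k3)) ≤ H.len (L.x i ^ (k2 - k1)) + c := by
  classical
  set M := (k2 - k1).natAbs with hM
  have h1 : l ≤ H.len (L.x i ^ M) := by rwa [L.wf_len_zpow] at h
  have hex : ∃ m : ℕ, l ≤ H.len (L.x i ^ m) := ⟨M, h1⟩
  set m := Nat.find hex with hm
  have hm1 : l ≤ H.len (L.x i ^ m) := Nat.find_spec hex
  have hm2 : m ≤ M := Nat.find_min' hex h1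
  have hm3 : H.len (L.x i ^ m) ≤ l + c := by
    rcases Nat.eq_zero_or_pos m with h0 | h0
    · rw [h0, pow_zero, H.len_one]
      omega
    · have h2 := Nat.find_min hex (m := m - 1) (by omega)
      push Not at h2
      have h3 := H.len_mul (L.x i ^ (m - 1)) (L.x i)
      rw [← pow_succ, show m - 1 + 1 = m by omega] at h3
      have h4 := L.xlen i
      omega
  have h5 := L.sup i (M - m) m
  rw [Nat.sub_add_cancel hm2] at h5
  rcases le_total 0 (k2 - k1) with h0 | h0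
  · refine ⟨k2 - m, ?_⟩
    rw [L.wf_len_zpow i (k2 - (k2 - m)), L.wf_len_zpow i (k2 - m - k1), L.wf_len_zpow i (k2 - k1),
      show (k2 - (k2 - (m : ℤ))).natAbs = m by omega,
      show (k2 - (m : ℤ) - k1).natAbs = M - m by omega, ← hM]
    exact ⟨hm1, hm3, h5⟩
  · refine ⟨k2 + m, ?_⟩
    rw [L.wf_len_zpow i (k2 - (k2 + m)), L.wf_len_zpow i (k2 + m - k1), L.wf_len_zpow i (k2 - k1),
      show (k2 - (k2 + (m : ℤ))).natAbs = m by omega,
      show (k2 + (m : ℤ) - k1).natAbs = M - m by omega, ← hM]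
    exact ⟨hm1, hm3, h5⟩

theorem az_core {z : G} (hz : H.Sup (2 * H.D) z) {i : L.ι} {u : G} {N : ℕ}
    (h : c < L.D i u 1 (z ^ N)) :
    (H.len (L.pr i u 1) + H.d (L.pr i u 1) (z ^ N) ≤ H.len (z ^ N) + c) ∧
    (H.len (L.pr i u (z ^ N)) + H.d (L.pr i u (z ^ N)) (z ^ N) ≤ H.len (z ^ N) + c) ∧
    (H.len (L.pr i u 1) + L.D i u 1 (z ^ N) ≤ H.len (L.pr i u (z ^ N)) + c) ∧
    (H.len (L.pr i u (z ^ N)) ≤ H.len (L.pr i u 1) + L.D i u 1 (z ^ N)) ∧
    (H.d (L.pr i u 1) (z * L.pr i u 1) ≤ H.len z + (2 * c + 5 * H.D)) := by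
  have h1 := L.D_proj i u 1 (z ^ N) h
  have h2 := L.d_pr_pr i u 1 (z ^ N)
  set q1 := L.pr i u 1 with hq1
  set q2 := L.pr i u (z ^ N) with hq2
  rw [H.d_one, H.d_one, H.d_comm (z ^ N) q2] at h1
  have t1 := H.d_tri q1 q2 (z ^ N)
  have t2 := H.d_tri 1 q1 q2
  rw [H.d_one, H.d_one] at t2
  have t3 := H.d_tri 1 q2 (z ^ N)
  rw [H.d_one, H.d_one] at t3
  have a1 : H.len q1 + H.d q1 (z ^ N) ≤ H.len (z ^ N) + c := by omega
  have a2 := H.az_ax hz a1
  have n1 := H.nr (a := 1) (b := z ^ (N + 1)) (x := q1) (y := z * q1) (c := c + 2 * H.D)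
    (by rw [H.d_one, H.d_one]; exact a2.1) (by rw [H.d_one, H.d_one]; exact a2.2.1)
  rw [H.d_one, H.d_one] at n1
  refine ⟨a1, by omega, by omega, by omega, by omega⟩

theorem az_ovz0 {z : G} (hz : H.Sup (2 * H.D) z) (hns : ¬ L.Short z)
    (i : L.ι) (u : G) (N : ℕ) :
    L.D i u 1 (z ^ N) ≤ H.len z + θ + 100 * (H.D + c + 1) := by
  by_cases h0 : L.D i u 1 (z ^ N) ≤ H.len z + c
  · omega
  push Not at h0
  obtain ⟨a1, a2, a3, a4, a5⟩ := L.az_core hz (i := i) (u := u) (N := N) (by omega)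
  have h1 := L.D_proj i u 1 (z ^ N) (by omega)
  have h2 := L.d_pr_pr i u 1 (z ^ N)
  obtain ⟨k3, b1, b2, b3⟩ := L.az_step i (L.κ i (u⁻¹ * 1)) (L.κ i (u⁻¹ * z ^ N)) (H.len z) (by
    have : L.D i u 1 (z ^ N) = H.len (L.x i ^ (L.κ i (u⁻¹ * z ^ N) - L.κ i (u⁻¹ * 1))) := rfl
    omega)
  set k1 := L.κ i (u⁻¹ * 1) with hk1
  set k2 := L.κ i (u⁻¹ * z ^ N) with hk2
  have hq1' : L.pr i u 1 = u * L.x i ^ k1 := rfl
  have hq2' : L.pr i u (z ^ N) = u * L.x i ^ k2 := rfl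
  set q1 := L.pr i u 1 with hq1
  set q2 := L.pr i u (z ^ N) with hq2
  set q3 := u * L.x i ^ k3 with hq3
  have hd : ∀ a b : ℤ, H.d (u * L.x i ^ a) (u * L.x i ^ b) = H.len (L.x i ^ (b - a)) := by
    intro a b
    rw [H.d_mul]
    unfold GH.d
    rw [← zpow_neg, ← zpow_add]
    congr 2
    ring
  have d32 : H.d q3 q2 = H.len (L.x i ^ (k2 - k3)) := by rw [hq3, hq2', hd]
  have d13 : H.d q1 q3 = H.len (L.x i ^ (k3 - k1)) := by rw [hq3, hq1', hd]
  have d12 : H.d q1 q2 = H.len (L.x i ^ (k2 - k1)) := by rw [hq1', hq2', hd]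
  rw [H.d_one, H.d_one, H.d_comm (z ^ N) q2] at h1
  have t1 := H.d_tri 1 q1 q3
  rw [H.d_one, H.d_one] at t1
  have t2 := H.d_tri q3 q2 (z ^ N)
  have t3 := H.d_tri 1 q3 q2
  rw [H.d_one, H.d_one] at t3
  have a6 : H.len q3 + H.d q3 (z ^ N) ≤ H.len (z ^ N) + 2 * c := by omega
  have c1 := H.az_ax hz a6
  have c2 := H.az_ax hz a2
  have n1 := H.nr (a := 1) (b := z ^ (N + 1)) (x := q2) (y := z * q3) (c := 2 * c + 2 * H.D)
    (by rw [H.d_one, H.d_one]; omega) (by rw [H.d_one, H.d_one]; exact c1.2.1)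
  rw [H.d_one, H.d_one] at n1
  have n2 : H.d q2 (z * q3) ≤ 10 * c + 10 * H.D := by omega
  -- the chain of projections
  have e1 : L.D i u 1 (z ^ N) = L.D i u q1 q2 := by
    unfold D
    rw [L.az_s_pr_right, L.az_s_pr_left]
  have e2 := L.D_tri i u q1 (z * q1) q2
  have e3 := L.D_tri i u (z * q1) (z * q3) q2
  have e4 := L.az_lip i u q1 (z * q1)
  have e5 := L.az_lip i u (z * q3) q2
  rw [H.d_comm (z * q3) q2] at e5
  have e6 : L.D i u (z * q1) (z * q3) ≤ θ := by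
    have := L.wf_ov (i := i) (j := i) (u := u) (w := z * u) (by
      rintro - ⟨k, hk⟩
      apply hns
      refine ⟨i, u, k, ?_⟩
      have hk' : L.x i ^ k = u⁻¹ * (z * u) := hk
      rw [hk']
      group) k1 k3
    rw [hq1', hq3, ← mul_assoc, ← mul_assoc]
    exact this
  omega

/-- reduction to a base point -/
theorem az_red (i : L.ι) (u z : G) (a b : ℤ) : ∃ (u' : G) (N : ℕ),
    (L.s i u (z ^ a) (z ^ b)).natAbs = (L.s i u' 1 (z ^ N)).natAbs ∧
    L.D i u (z ^ a) (z ^ b) = L.D i u' 1 (z ^ N) := by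
  have key : ∀ a b : ℤ, a ≤ b → ∃ (u' : G) (N : ℕ),
      L.s i u (z ^ a) (z ^ b) = L.s i u' 1 (z ^ N) := by
    intro a b hab
    obtain ⟨N, hN⟩ := Int.le.dest hab
    refine ⟨z ^ (-a) * u, N, ?_⟩
    rw [← L.wf_s_mul i (z ^ a) (z ^ (-a) * u) 1 (z ^ N), mul_one, ← mul_assoc, ← zpow_add,
      add_neg_cancel, zpow_zero, one_mul, ← hN, zpow_add, zpow_natCast]
  rcases le_total a b with h | h
  · obtain ⟨u', N, h1⟩ := key a b h
    exact ⟨u', N, by rw [h1], by unfold D; rw [h1]⟩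
  · obtain ⟨u', N, h1⟩ := key b a h
    refine ⟨u', N, ?_, ?_⟩
    · rw [L.wf_s_symm i u (z ^ b) (z ^ a), Int.natAbs_neg, h1]
    · rw [L.D_comm]
      unfold D
      rw [h1]

theorem ovz {z : G} (hz : H.CMin z) (hl : 4 * H.D + 4 ≤ H.len z) (hns : ¬ L.Short z)
    (i : L.ι) (u : G) (a b : ℤ) :
    L.D i u (z ^ a) (z ^ b) ≤ H.len z + θ + 100 * (H.D + c + 1) := by
  obtain ⟨u', N, -, h⟩ := L.az_red i u z a b
  rw [h]
  exact L.az_ovz0 (H.sup_of_cmin hz hl).1 hns i u' N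

/-- coarse monotonicity of the displacement -/
theorem az_mono {v y w : G} {e : ℕ} (i : L.ι) (u : G) (h : H.d v y + H.d y w ≤ H.d v w + e) :
    (L.s i u v y).natAbs + (L.s i u y w).natAbs ≤
      (L.s i u v w).natAbs + 2 * (T * (3 * c + e)) := by
  have hadd := L.wf_s_add i u v y w
  have l1 := L.wf_lin_z i (L.s i u v y)
  have l2 := L.wf_lin_z i (L.s i u y w)
  by_cases h1 : L.D i u v y ≤ c
  · have h3 : T * H.len (L.x i ^ L.s i u v y) ≤ T * (3 * c + e) :=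
      Nat.mul_le_mul_left _ (by unfold D at h1; omega)
    omega
  by_cases h2 : L.D i u y w ≤ c
  · have h3 : T * H.len (L.x i ^ L.s i u y w) ≤ T * (3 * c + e) :=
      Nat.mul_le_mul_left _ (by unfold D at h2; omega)
    omega
  push Not at h1 h2
  have p1 := L.D_proj i u v y h1
  have p2 := L.D_proj i u y w h2
  have p3 := L.cl_d_le i u v w
  have e1 : L.D i u v y = H.len (L.x i ^ (L.s i u v y).natAbs) := L.wf_len_zpow i _
  have e2 : L.D i u y w = H.len (L.x i ^ (L.s i u y w).natAbs) := L.wf_len_zpow i _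
  have e3 : L.D i u v w = H.len (L.x i ^ (L.s i u v w).natAbs) := L.wf_len_zpow i _
  by_cases hs : (L.s i u v w).natAbs = (L.s i u v y).natAbs + (L.s i u y w).natAbs
  · omega
  rcases le_total (L.s i u y w).natAbs (L.s i u v y).natAbs with hle | hle
  · have hs2 : (L.s i u v w).natAbs = (L.s i u v y).natAbs - (L.s i u y w).natAbs := by omega
    have hsup := L.sup i ((L.s i u v y).natAbs - (L.s i u y w).natAbs) (L.s i u y w).natAbs
    rw [Nat.sub_add_cancel hle, ← hs2] at hsup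
    have h3 : T * H.len (L.x i ^ L.s i u y w) ≤ T * (3 * c + e) :=
      Nat.mul_le_mul_left _ (by rw [L.wf_len_zpow]; omega)
    omega
  · have hs2 : (L.s i u v w).natAbs = (L.s i u y w).natAbs - (L.s i u v y).natAbs := by omega
    have hsup := L.sup i ((L.s i u y w).natAbs - (L.s i u v y).natAbs) (L.s i u v y).natAbs
    rw [Nat.sub_add_cancel hle, ← hs2] at hsup
    have h3 : T * H.len (L.x i ^ L.s i u v y) ≤ T * (3 * c + e) :=
      Nat.mul_le_mul_left _ (by rw [L.wf_len_zpow]; omega)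
    omega

/-- a maximal displacement -/
theorem az_max {z : G} {C : ℕ} (i : L.ι) (h : ∀ u N, L.D i u 1 (z ^ N) ≤ C) :
    ∃ (u : G) (N : ℕ), ∀ (u' : G) (N' : ℕ),
      (L.s i u' 1 (z ^ N')).natAbs ≤ (L.s i u 1 (z ^ N)).natAbs := by
  have hne : {n : ℕ | ∃ (u : G) (N : ℕ), (L.s i u 1 (z ^ N)).natAbs = n}.Nonempty :=
    ⟨_, 1, 0, rfl⟩
  have hb : BddAbove {n : ℕ | ∃ (u : G) (N : ℕ), (L.s i u 1 (z ^ N)).natAbs = n} := by
    refine ⟨T * C, ?_⟩
    rintro _ ⟨u, N, rfl⟩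
    exact (L.wf_lin_z i _).trans (Nat.mul_le_mul_left _ (h u N))
  obtain ⟨u, N, hm⟩ := Nat.sSup_mem hne hb
  refine ⟨u, N, fun u' N' => ?_⟩
  rw [hm]
  exact le_csSup hb ⟨u', N', rfl⟩

theorem angle {n : ℕ} {M : Subgroup G} (hrot : ∀ (i : L.ι) (u : G) (k : ℤ), L.rt i u (n * k) ∈ M)
    {z : G} (hz : ∀ m ∈ M, ∀ u : G, H.len z ≤ H.len (u⁻¹ * (m * z) * u))
    (hl : 4 * H.D + 4 ≤ H.len z) (hns : ¬ L.Short z)
    (hn : T * (1000 * (H.D + c + θ + 1)) ≤ n) (i : L.ι) (u : G) (a b : ℤ) :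
    2 * |L.s i u (z ^ a) (z ^ b)| ≤ n + T * (1000 * (H.D + c + θ + 1)) := by
  have hcm : H.CMin z := by
    intro w
    have := hz 1 M.one_mem w
    rwa [one_mul] at this
  have hsup := (H.sup_of_cmin hcm hl).1
  have hov := L.az_ovz0 hsup hns i
  obtain ⟨v, N, hmax⟩ := L.az_max i hov
  by_contra hcon
  push Not at hcon
  obtain ⟨u1, N1, h1, -⟩ := L.az_red i u z a b
  have h2 := hmax u1 N1
  set S := (L.s i v 1 (z ^ N)).natAbs with hS
  have h3 : n + T * (1000 * (H.D + c + θ + 1)) < 2 * S := by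
    rw [Int.abs_eq_natAbs, h1] at hcon
    have : n + T * (1000 * (H.D + c + θ + 1)) < 2 * (L.s i u1 1 (z ^ N1)).natAbs := by
      exact_mod_cast hcon
    omega
  have hT := L.cl_T i
  have h4 : 1000 * (H.D + c + θ + 1) ≤ L.D i v 1 (z ^ N) :=
    L.cl_D_ge i v 1 (z ^ N) _ (by omega)
  obtain ⟨a1, a2, a3, a4, a5⟩ := L.az_core hsup (i := i) (u := v) (N := N) (by omega)
  have c1 := H.az_ax hsup a1
  have c2 := H.az_ax hsup a2
  have hs1 : L.s i v 1 (L.pr i v (z ^ N)) = L.s i v 1 (z ^ N) := L.az_s_pr_right i v _ _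
  have hs2 : L.s i v (L.pr i v 1) (L.pr i v (z ^ N)) = L.s i v 1 (z ^ N) := by
    rw [L.az_s_pr_right, L.az_s_pr_left]
  have hovv := hov v N
  set q1 := L.pr i v 1 with hq1
  set q2 := L.pr i v (z ^ N) with hq2
  have n1 := H.nr (a := 1) (b := z ^ (N + 1)) (x := q2) (y := z * q1) (c := c + 2 * H.D)
    (by rw [H.d_one, H.d_one]; exact c2.1) (by rw [H.d_one, H.d_one]; exact c1.2.1)
  rw [H.d_one, H.d_one] at n1
  have key : (L.s i v q2 (z * q1)).natAbs ≤ T * (θ + 105 * (H.D + c + 1)) := by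
    rcases le_total (H.len q2) (H.len (z * q1)) with hle | hle
    · have m1 := L.az_mono (v := 1) (y := z * q1) (w := z ^ (N + 1)) (e := c + 2 * H.D) i v
        (by rw [H.d_one, H.d_one]; exact c1.2.1)
      have m2 := L.az_mono (v := 1) (y := q2) (w := z * q1) (e := 2 * c + 5 * H.D) i v
        (by rw [H.d_one, H.d_one]; omega)
      have m3 := hmax v (N + 1)
      rw [hs1] at m2
      have m4 : 2 * (T * (3 * c + (c + 2 * H.D))) + 2 * (T * (3 * c + (2 * c + 5 * H.D))) ≤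
          T * (θ + 105 * (H.D + c + 1)) := by
        have : 2 * (T * (3 * c + (c + 2 * H.D))) + 2 * (T * (3 * c + (2 * c + 5 * H.D))) =
          T * (18 * c + 14 * H.D) := by ring
        rw [this]
        exact Nat.mul_le_mul_left _ (by omega)
      omega
    · have l1 := L.az_lip i v q2 (z * q1)
      have l2 := L.wf_lin_z i (L.s i v q2 (z * q1))
      refine l2.trans (Nat.mul_le_mul_left _ ?_)
      unfold D at l1
      omega
  have hs3 := L.wf_s_add i v q1 q2 (z * q1)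
  rw [hs2] at hs3
  have e1 : T * (1000 * (H.D + c + θ + 1)) = 2 * (T * (θ + 105 * (H.D + c + 1))) +
      T * (998 * θ + 790 * (H.D + c + 1)) := by ring
  have e2 : T * (2 * c + (2 * c + 5 * H.D) + 1) ≤ T * (998 * θ + 790 * (H.D + c + 1)) :=
    Nat.mul_le_mul_left _ (by omega)
  have h5 : n + T * (2 * c + (2 * c + 5 * H.D) + 1) ≤ 2 * (L.s i v q1 (z * q1)).natAbs := by
    omega
  obtain ⟨k, hk⟩ := L.shorten (2 * c + 5 * H.D) (n := n) (i := i) (u := v) (p := q1) (q := z * q1)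
    (by omega) (by rw [Int.abs_eq_natAbs]; exact_mod_cast h5)
  have h6 := hz (L.rt i v (n * k)) (hrot i v k) q1
  have h7 : H.len (q1⁻¹ * (L.rt i v (n * k) * z) * q1) = H.d q1 (L.rt i v (n * k) * (z * q1)) := by
    unfold GH.d
    congr 1
    simp only [mul_assoc]
  omega

end LS

end Pool.Agent.TH54.BU
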