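import Pool.Agent.TH54.BU.Local
import Pool.Agent.TH54.BU.Angle

set_option autoImplicit false

/-!
# BU2-CHAIN (job 2013, helper416 for helper54): displacement of a broken geodesic along a line
-/

namespace Pool.Agent.TH54.BU

namespace LS

variable {G : Type*} [Group G] {H : GH G} {c θ T : ℕ} (L : LS H c θ T)

theorem cha_D_self (i : L.ι) (w p : G) : L.D i w p p = 0 := by
  unfold D
  rw [L.wf_s_self, zpow_zero, H.len_one]

/-- a line cannot follow both parts of a broken geodesic for a long time -/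
theorem cha_key {a E : ℕ} (v : ℕ → G) (n : ℕ)
    (h1 : ∀ i, i + 2 ≤ n → H.d (v i) (v (i + 1)) + H.d (v (i + 1)) (v (i + 2)) ≤
      H.d (v i) (v (i + 2)) + a)
    (h2 : ∀ i, i < n → 100 * (a + E + c + H.D + 1) ≤ H.d (v i) (v (i + 1)))
    (h3 : ∀ k, k + 2 ≤ n → ∀ (i : L.ι) (w : G), L.D i w (v k) (v (k + 1)) ≤ E ∨
      L.D i w (v (k + 1)) (v (k + 2)) ≤ E) (i : L.ι) (w : G) (k : ℕ) (hk : k < n) :
    L.D i w (v 0) (v k) ≤ E + c + 1 ∨ L.D i w (v k) (v n) ≤ E + c + 1 := by
  by_contra hcon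
  push Not at hcon
  obtain ⟨hA, hB⟩ := hcon
  have hk0 : k ≠ 0 := by
    rintro rfl
    rw [L.cha_D_self] at hA
    omega
  obtain ⟨k', rfl⟩ : ∃ k', k = k' + 1 := ⟨k - 1, by omega⟩
  have h2' : ∀ i, i < n → a + 2 * H.D + 1 ≤ H.d (v i) (v (i + 1)) := fun i hi => by
    have := h2 i hi
    omega
  have lg0 := (H.lg a v n h1 h2').1 (k' + 1) hk.le
  have p1 := L.wf_proj_s i w (v 0) (v (k' + 1)) (by omega)
  have p2 := L.wf_proj_s i w (v (k' + 1)) (v n) (by omega)
  have p3 := L.cl_d_le i w (v 0) (v n)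
  have p4 := L.wf_D_tri i w (v 0) (v (k' + 1)) (v n)
  have hδ : 2 * H.d (v (k' + 1)) (L.pr i w (v (k' + 1))) ≤ a + 2 * H.D + 2 * c := by omega
  have hE1 : E < L.D i w (v k') (v (k' + 1)) := by
    by_contra hle
    push Not at hle
    have q0 := L.wf_D_tri i w (v 0) (v k') (v (k' + 1))
    have q1 := L.wf_proj_s i w (v 0) (v k') (by omega)
    have q2 := L.cl_d_le i w (v k') (v (k' + 1))
    have q3 := L.cl_d_le i w (v 0) (v (k' + 1))
    have q4 := H.lg_aux a v n h1 h2' k' (by omega)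
    have q5 := h2 k' (by omega)
    omega
  have hE2 : E < L.D i w (v (k' + 1)) (v (k' + 2)) := by
    by_contra hle
    push Not at hle
    have q0 := L.wf_D_tri i w (v (k' + 1)) (v (k' + 2)) (v n)
    have q1 := L.wf_proj_s i w (v (k' + 2)) (v n) (by omega)
    have q2 := L.cl_d_le i w (v (k' + 1)) (v (k' + 2))
    have q3 := L.cl_d_le i w (v (k' + 1)) (v n)
    have q4 := (H.lg a (fun j => v (k' + 1 + j)) (n - (k' + 1))
      (fun j hj => h1 (k' + 1 + j) (by omega))
      (fun j hj => h2' (k' + 1 + j) (by omega))).1 1 (by omega)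
    beta_reduce at q4
    rw [show k' + 1 + 0 = k' + 1 from rfl, show k' + 1 + 1 = k' + 2 from rfl,
      show k' + 1 + (n - (k' + 1)) = n by omega] at q4
    have q5 := h2 (k' + 1) (by omega)
    rw [show k' + 1 + 1 = k' + 2 from rfl] at q5
    omega
  rcases h3 k' (by omega) i w with h | h <;> omega

/-- the displacement of a broken geodesic along a line, if no line follows two consecutive
pieces for a long time -/
theorem chain_ang {a E P : ℕ} (v : ℕ → G) (n : ℕ)
    (h1 : ∀ i, i + 2 ≤ n → H.d (v i) (v (i + 1)) + H.d (v (i + 1)) (v (i + 2)) ≤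
      H.d (v i) (v (i + 2)) + a)
    (h2 : ∀ i, i < n → 100 * (a + E + c + H.D + 1) ≤ H.d (v i) (v (i + 1)))
    (h3 : ∀ k, k + 2 ≤ n → ∀ (i : L.ι) (w : G), L.D i w (v k) (v (k + 1)) ≤ E ∨
      L.D i w (v (k + 1)) (v (k + 2)) ≤ E)
    (h4 : ∀ k, k < n → ∀ (i : L.ι) (w : G), |L.s i w (v k) (v (k + 1))| ≤ P)
    (i : L.ι) (w : G) :
    |L.s i w (v 0) (v n)| ≤ P + 2 * T * (100 * (a + E + c + H.D + 1)) := by
  classical
  have key := L.cha_key v n h1 h2 h3 i w
  -- small distances give small displacements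
  have hs : ∀ p q : G, L.D i w p q ≤ E + c + 1 →
      |L.s i w p q| ≤ (T : ℤ) * (100 * (a + E + c + H.D + 1)) := by
    intro p q h
    have l1 := L.wf_lin_z i (L.s i w p q)
    have l2 : T * H.len (L.x i ^ L.s i w p q) ≤ T * (100 * (a + E + c + H.D + 1)) :=
      Nat.mul_le_mul_left _ (by
        have : H.len (L.x i ^ L.s i w p q) ≤ E + c + 1 := h
        omega)
    rw [Int.abs_eq_natAbs]
    exact_mod_cast l1.trans l2
  have hT0 : (0 : ℤ) ≤ (T : ℤ) * (100 * (a + E + c + H.D + 1)) := by positivity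
  have hP0 : (0 : ℤ) ≤ P := Int.natCast_nonneg _
  by_cases hn : L.D i w (v 0) (v n) ≤ E + c + 1
  · have := hs _ _ hn
    linarith
  push Not at hn
  have hex : ∃ k, E + c + 1 < L.D i w (v 0) (v k) := ⟨n, hn⟩
  set k := Nat.find hex with hk
  have hk1 : E + c + 1 < L.D i w (v 0) (v k) := Nat.find_spec hex
  have hk2 : k ≤ n := Nat.find_min' hex hn
  have hk0 : k ≠ 0 := by
    intro h0
    rw [h0, L.cha_D_self] at hk1
    omega
  have hk3 : L.D i w (v 0) (v (k - 1)) ≤ E + c + 1 := by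
    have := Nat.find_min hex (m := k - 1) (by omega)
    push Not at this
    exact this
  have hk4 : L.D i w (v k) (v n) ≤ E + c + 1 := by
    rcases hk2.eq_or_lt with h | h
    · rw [h, L.cha_D_self]
      omega
    · rcases key k h with h' | h'
      · omega
      · exact h'
  have e1 := L.wf_s_add i w (v 0) (v (k - 1)) (v k)
  have e2 := L.wf_s_add i w (v 0) (v k) (v n)
  have b1 := hs _ _ hk3
  have b2 := hs _ _ hk4
  have b3 := h4 (k - 1) (by omega) i w
  rw [show k - 1 + 1 = k by omega] at b3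
  rw [← e2, ← e1]
  have t1 := abs_add_le (L.s i w (v 0) (v (k - 1)) + L.s i w (v (k - 1)) (v k))
    (L.s i w (v k) (v n))
  have t2 := abs_add_le (L.s i w (v 0) (v (k - 1))) (L.s i w (v (k - 1)) (v k))
  linarith

end LS

end Pool.Agent.TH54.BU
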