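import Pool.Agent.TH54.BU.Defs

set_option autoImplicit false

namespace Pool.Agent.TH54.BU

/-- a torsion element with small displacement turns every direction -/
theorem GH.kk0 {G : Type*} [Group G] (H : GH G) {K B : ℕ} (hK : 100 * H.D + 100 ≤ K)
    (hA : H.Acy K B) {x : G} (hx : IsOfFinOrder x) (hx1 : x ≠ 1) (hl : H.len x ≤ 1) (g : G) :
    2 * H.len g ≤ H.len (g⁻¹ * x * g) + 2 * B + 100 * (H.D + 1) := by
  by_contra hcon
  push Not at hcon
  have hd : H.d g (x * g) = H.len (g⁻¹ * x * g) := by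
    unfold GH.d
    rw [mul_assoc]
  rw [← hd] at hcon
  have hg1 : H.d 1 g = H.len g := H.d_one g
  obtain ⟨q, hq1, hq2⟩ := H.between 1 g B (by rw [hg1]; omega)
  rw [hg1] at hq2
  have e1 : H.d x (x * g) = H.len g := by
    have := H.d_mul x 1 g
    rw [mul_one] at this
    rw [this, hg1]
  have e2 : H.d (x * q) x = B := by
    have := H.d_mul x q 1
    rw [mul_one] at this
    rw [this, H.d_comm, hq1]
  have e3 : H.d (x * q) (x * g) = H.d q g := H.d_mul x q g
  have e4 : H.d g x ≤ H.len g + 1 := by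
    have h1 := H.d_tri g 1 x
    have h2 : H.d g 1 = H.len g := H.d_one' g
    have h3 : H.d 1 x = H.len x := H.d_one x
    omega
  have h1 := H.fp (x * q) g x (x * g)
  rw [e1, e2, e3] at h1
  have h2 : H.d (x * q) g ≤ H.d q g + 1 + H.D := by
    rcases le_total (B + H.d g (x * g)) (H.d q g + H.d g x) with h | h
    · rw [max_eq_right h] at h1
      omega
    · rw [max_eq_left h] at h1
      omega
  have e5 : H.d (x * q) 1 ≤ B + 1 := by
    have h3 := H.d_tri (x * q) x 1
    have h4 : H.d x 1 = H.len x := H.d_one' x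
    omega
  have h3 := H.fp q (x * q) 1 g
  rw [hg1, H.d_comm q 1, hq1] at h3
  have h4 : H.d q (x * q) ≤ 2 * H.D + 1 := by
    rcases le_total (B + H.d (x * q) g) (H.d q g + H.d (x * q) 1) with h | h
    · rw [max_eq_right h] at h3
      omega
    · rw [max_eq_left h] at h3
      omega
  have h5 : x ∈ H.SD K q := by
    refine ⟨by omega, ?_⟩
    have : H.d q (x * q) = H.len (q⁻¹ * x * q) := by
      unfold GH.d
      rw [mul_assoc]
    omega
  have h6 : B ≤ H.len q := by
    rw [← H.d_one, hq1]
  exact hx1 ((hA q h6 x h5).1 hx)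

end Pool.Agent.TH54.BU
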