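import Pool.Agent.TH54.BU.Local
import Pool.Agent.TH54.BU.Angle

set_option autoImplicit false

/-!
# BU2-TURN (job 2012, helper986 for helper54): a line cannot follow both `y` and `x y`
-/

namespace Pool.Agent.TH54.BU

namespace LS

variable {G : Type*} [Group G] {H : GH G} {c θ T : ℕ} (L : LS H c θ T)

theorem tn_kappa (i : L.ι) (a : ℤ) : L.κ i (L.x i ^ a) = a := by
  have h := L.shift i a 1
  rw [mul_one, L.az_kappa_one] at h
  rw [h]
  ring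

theorem tn_D_line (i : L.ι) (u : G) (a b : ℤ) :
    L.D i u (u * L.x i ^ a) (u * L.x i ^ b) = H.len (L.x i ^ (b - a)) := by
  unfold D s
  rw [inv_mul_cancel_left, inv_mul_cancel_left, L.tn_kappa, L.tn_kappa]

theorem tn_d_line (i : L.ι) (u : G) (a b : ℤ) :
    H.d (u * L.x i ^ a) (u * L.x i ^ b) = H.len (L.x i ^ (b - a)) := by
  rw [H.d_mul]
  unfold GH.d
  rw [← zpow_neg, ← zpow_add]
  congr 2
  ring

/-- a nontrivial element of finite order is not conjugate to a power of `x i` -/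
theorem tn_not_mem {x : G} (hx : IsOfFinOrder x) (hx1 : x ≠ 1) (i : L.ι) (w : G) :
    w⁻¹ * (x⁻¹ * w) ∉ Subgroup.zpowers (L.x i) := by
  rintro ⟨k, hk⟩
  have hk' : L.x i ^ k = w⁻¹ * (x⁻¹ * w) := hk
  obtain ⟨n, hn, hxn⟩ := hx.exists_pow_eq_one
  have h1 : (L.x i ^ k) ^ n = 1 := by
    have e : w⁻¹ * (x⁻¹ * w) = w⁻¹ * x⁻¹ * (w⁻¹)⁻¹ := by group
    rw [hk', e, conj_pow, inv_pow, hxn]
    group
  have h2 : L.x i ^ (k * n) = 1 := by
    rw [zpow_mul, zpow_natCast]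
    exact h1
  have h3 := L.wf_lin_z i (k * n)
  rw [h2, H.len_one, mul_zero] at h3
  have h4 : k * n = 0 := by
    have : (k * (n : ℤ)).natAbs = 0 := Nat.le_zero.1 h3
    exact Int.natAbs_eq_zero.1 this
  have h5 : k = 0 := by
    rcases mul_eq_zero.1 h4 with h | h
    · exact h
    · exfalso
      have : n = 0 := by exact_mod_cast h
      omega
  rw [h5, zpow_zero] at hk'
  apply hx1
  have h6 : x⁻¹ * w = w := by
    have := congrArg (fun g => w * g) hk'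
    simpa using this.symm
  have h7 : x⁻¹ = 1 := by
    have := congrArg (fun g => g * w⁻¹) h6
    simpa using this
  exact inv_eq_one.1 h7

/-- the points at distance about `l` from the first projection -/
theorem tn_point (i : L.ι) (u p q : G) (l : ℕ) (h : l ≤ L.D i u p q) :
    ∃ k : ℤ, l ≤ H.d (L.pr i u p) (u * L.x i ^ k) ∧ H.d (L.pr i u p) (u * L.x i ^ k) ≤ l + c ∧
      H.d (L.pr i u p) (u * L.x i ^ k) + H.d (u * L.x i ^ k) (L.pr i u q) ≤ L.D i u p q + c ∧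
      L.D i u (L.pr i u p) (u * L.x i ^ k) = H.d (L.pr i u p) (u * L.x i ^ k) := by
  have h0 : L.D i u p q = H.len (L.x i ^ (L.κ i (u⁻¹ * p) - L.κ i (u⁻¹ * q))) := by
    rw [L.D_comm]
    rfl
  rw [h0] at h ⊢
  obtain ⟨k, h1, h2, h3⟩ := L.az_step i (L.κ i (u⁻¹ * q)) (L.κ i (u⁻¹ * p)) l h
  refine ⟨k, ?_⟩
  have e1 : H.d (L.pr i u p) (u * L.x i ^ k) = H.len (L.x i ^ (L.κ i (u⁻¹ * p) - k)) := by
    rw [H.d_comm]
    exact L.tn_d_line i u k _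
  have e2 : H.d (u * L.x i ^ k) (L.pr i u q) = H.len (L.x i ^ (k - L.κ i (u⁻¹ * q))) := by
    rw [H.d_comm]
    exact L.tn_d_line i u _ k
  have e3 : L.D i u (L.pr i u p) (u * L.x i ^ k) = H.d (L.pr i u p) (u * L.x i ^ k) := by
    have e4 : L.pr i u p = u * L.x i ^ (L.κ i (u⁻¹ * p)) := rfl
    rw [e4, L.tn_D_line, L.tn_d_line]
  rw [e3, e1, e2]
  exact ⟨h1, h2, by omega, rfl⟩

/-- a line cannot follow both `[1, y]` and `[1, x y]` for a long time -/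
theorem turn {x y : G} (hx : IsOfFinOrder x) (hx1 : x ≠ 1) (hl : H.len x ≤ 1) (i : L.ι) (w : G) :
    L.D i w 1 y ≤ θ + 100 * (H.D + c + 1) ∨ L.D i w 1 (x * y) ≤ θ + 100 * (H.D + c + 1) := by
  by_contra hcon
  push Not at hcon
  obtain ⟨hD1, hD2⟩ := hcon
  set w2 : G := x⁻¹ * w with hw2
  have hD2' : L.D i w 1 (x * y) = L.D i w2 x⁻¹ y := by
    unfold D
    have e := L.wf_s_mul i x w2 x⁻¹ y
    rw [hw2, mul_inv_cancel_left, mul_inv_cancel] at e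
    rw [e]
  rw [hD2'] at hD2
  -- the projections
  have p1 := L.D_proj i w 1 y (by omega)
  have p2 := L.D_proj i w2 x⁻¹ y (by omega)
  have hP2 : L.pr i w2 x⁻¹ = x⁻¹ * L.pr i w 1 := by
    unfold pr
    rw [hw2]
    have e : (x⁻¹ * w)⁻¹ * x⁻¹ = w⁻¹ * 1 := by group
    rw [e, mul_assoc]
  have e1 : H.d x⁻¹ (L.pr i w2 x⁻¹) = H.d 1 (L.pr i w 1) := by
    rw [hP2]
    have := H.d_mul x⁻¹ 1 (L.pr i w 1)
    rwa [mul_one] at this
  have e2 : H.d 1 x⁻¹ ≤ 1 := by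
    rw [H.d_one, H.len_inv]
    exact hl
  have l1 : L.D i w 1 y = H.d (L.pr i w 1) (L.pr i w y) := (L.d_pr_pr i w 1 y).symm
  have l2 : L.D i w2 x⁻¹ y = H.d (L.pr i w2 x⁻¹) (L.pr i w2 y) := (L.d_pr_pr i w2 x⁻¹ y).symm
  obtain ⟨k1, a1, a2, a3, a4⟩ := L.tn_point i w 1 y (θ + 8 * c + 2 * H.D + 7) (by omega)
  obtain ⟨k2, b1, b2, b3, b4⟩ := L.tn_point i w2 x⁻¹ y (θ + 8 * c + 2 * H.D + 7) (by omega)
  have hP2' : L.pr i w2 x⁻¹ = w2 * L.x i ^ (L.κ i (w2⁻¹ * x⁻¹)) := rfl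
  have hov : L.D i w (L.pr i w2 x⁻¹) (w2 * L.x i ^ k2) ≤ θ := by
    rw [hP2']
    exact L.wf_ov (i := i) (j := i) (u := w) (w := w2)
      (fun _ => L.tn_not_mem hx hx1 i w) _ _
  set P1 := L.pr i w 1 with hP1
  set Q1 := L.pr i w y with hQ1
  set P2 := L.pr i w2 x⁻¹ with hP2s
  set Q2 := L.pr i w2 y with hQ2
  set R1 := w * L.x i ^ k1 with hR1
  set R2 := w2 * L.x i ^ k2 with hR2
  rw [H.d_comm y Q1] at p1
  rw [H.d_comm y Q2] at p2
  -- triangle inequalities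
  have t1 := H.d_tri 1 x⁻¹ P2
  have t1' := H.d_tri x⁻¹ 1 y
  rw [H.d_comm x⁻¹ 1] at t1'
  have t2 := H.d_tri P1 Q1 y
  have t3 := H.d_tri P2 Q2 y
  have t4 := H.d_tri 1 P1 R1
  have t5 := H.d_tri R1 Q1 y
  have t6 := H.d_tri 1 P2 R2
  have t7 := H.d_tri R2 Q2 y
  have t8 := H.d_tri 1 R1 y
  have t9 := H.d_tri 1 R2 y
  have t10 := H.d_tri 1 P2 y
  have t11 := H.d_tri x⁻¹ 1 P2
  rw [H.d_comm x⁻¹ 1] at t11
  have n1 := H.nr (a := 1) (b := y) (x := P1) (y := P2) (c := c + 2) (by omega) (by omega)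
  have n2 := H.nr (a := 1) (b := y) (x := R1) (y := R2) (c := 2 * c + 2) (by omega) (by omega)
  have z1 : H.d P1 P2 ≤ c + 3 + H.D := by omega
  have z2 : H.d R1 R2 ≤ 5 * c + H.D + 3 := by omega
  have y1 := L.az_lip i w P1 P2
  have y2 := L.az_lip i w R1 R2
  have y3 := L.D_tri i w P1 P2 R1
  have y4 := L.D_tri i w P2 R2 R1
  rw [L.D_comm i w R2 R1] at y4
  omega

end LS

end Pool.Agent.TH54.BU
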