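import Pool.Agent.TH54.BU.Surv
import Pool.Agent.TH54.BU.KK0
import Pool.Agent.TH54.BU.Turn
import Pool.Agent.TH54.BU.ChainA

set_option autoImplicit false

/-!
# BU2-KEY (job 2015, helper81 for helper54): the product of two rotations far apart has infinite
order in the quotient
-/

namespace Pool.Agent.TH54.BU

namespace LS

variable {G : Type*} [Group G] {H : GH G} {c θ T : ℕ} (L : LS H c θ T)

/-- an element whose powers have small angles survives -/
theorem surv2 {n : ℕ} {M : Subgroup G} (F : L.Fil n M) {E : GH G} {Θ : ℕ}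
    (C : L.Cone E Θ) (hn : T * (2 * c + 1) + 24 * L.thr ≤ n) {u : G}
    (hu : ∀ m : ℕ, m ≤ H.len (u ^ m))
    (hang : ∀ (i : L.ι) (w : G) (m : ℕ), |L.s i w 1 (u ^ m)| + T * Θ + 12 * L.thr < n)
    (N : ℕ) (hN : 0 < N) : u ^ N ∉ M := by
  intro hM
  have h := L.cone_min F C hn (p := 1) (q := u ^ N) (fun i w => hang i w N) (M.inv_mem hM)
  rw [inv_mul_cancel, E.d_self] at h
  have h1 : E.d 1 (u ^ N) = 0 := by omega
  have h2 := E.eq_of_d h1
  have h3 := hu N
  rw [← h2, H.len_one] at h3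
  omega

end LS

section key

variable {G : Type*} [Group G]

/-- the vertices of the broken line `1, x y, u, u x y, u ^ 2, …` with `u = x y x y⁻¹` -/
def ky_v (x y : G) (k : ℕ) : G :=
  (x * y * x * y⁻¹) ^ (k / 2) * (if k % 2 = 0 then 1 else x * y)

theorem ky_even (x y : G) (j : ℕ) : ky_v x y (2 * j) = (x * y * x * y⁻¹) ^ j := by
  unfold ky_v
  rw [if_pos (by omega), mul_one]
  congr 1
  omega

theorem ky_odd (x y : G) (j : ℕ) :
    ky_v x y (2 * j + 1) = (x * y * x * y⁻¹) ^ j * (x * y) := by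
  unfold ky_v
  rw [if_neg (by omega)]
  congr 2
  omega

/-- three consecutive vertices of the broken line -/
theorem ky_tri (x y : G) (k : ℕ) : ∃ y', (y' = y ∨ y' = y⁻¹) ∧
    ky_v x y (k + 1) = ky_v x y k * (x * y') ∧
    ky_v x y (k + 2) = ky_v x y k * (x * y') * (x * y'⁻¹) := by
  rcases Nat.even_or_odd' k with ⟨j, rfl | rfl⟩
  · refine ⟨y, Or.inl rfl, ?_, ?_⟩
    · rw [ky_odd, ky_even]
    · rw [show 2 * j + 2 = 2 * (j + 1) by ring, ky_even, ky_even, pow_succ]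
      group
  · refine ⟨y⁻¹, Or.inr rfl, ?_, ?_⟩
    · rw [show 2 * j + 1 + 1 = 2 * (j + 1) by ring, ky_even, ky_odd, pow_succ]
      group
    · rw [show 2 * j + 1 + 2 = 2 * (j + 1) + 1 by ring, ky_odd, ky_odd, pow_succ]
      group

theorem ky_len (H : GH G) {y y' : G} (h : y' = y ∨ y' = y⁻¹) : H.len y' = H.len y := by
  rcases h with rfl | rfl
  · rfl
  · exact H.len_inv y

theorem ky_d (H : GH G) (v a : G) : H.d v (v * a) = H.len a := by
  unfold GH.d
  rw [inv_mul_cancel_left]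

/-- the corners of the broken line -/
theorem ky_corner (H : GH G) {K B : ℕ} (hK : 100 * H.D + 100 ≤ K) (hA : H.Acy K B) {x : G}
    (hx : IsOfFinOrder x) (hx1 : x ≠ 1) (hl : H.len x ≤ 1) (y : G) :
    H.len (x * y) + H.len (x * y⁻¹) ≤ H.len (x * y * (x * y⁻¹)) +
      (2 * B + 100 * (H.D + 1) + 3) := by
  have h1 := H.len_mul x y
  have h2 := H.len_mul x y⁻¹
  rw [H.len_inv] at h2
  have h3 := H.kk0 hK hA hx hx1 hl y⁻¹
  rw [H.len_inv, inv_inv] at h3
  have h4 := H.len_mul x⁻¹ (x * y * (x * y⁻¹))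
  rw [H.len_inv, show x⁻¹ * (x * y * (x * y⁻¹)) = y * x * y⁻¹ by group] at h4
  omega

end key

namespace LS

variable {G : Type*} [Group G] {H : GH G} {c θ T : ℕ} (L : LS H c θ T)

theorem ky_D_mul (i : L.ι) (g w p q : G) : L.D i w (g * p) (g * q) = L.D i (g⁻¹ * w) p q := by
  unfold D
  rw [← L.wf_s_mul i g (g⁻¹ * w) p q, mul_inv_cancel_left]

theorem ky_s_mul (i : L.ι) (g w p q : G) : L.s i w (g * p) (g * q) = L.s i (g⁻¹ * w) p q := by
  rw [← L.wf_s_mul i g (g⁻¹ * w) p q, mul_inv_cancel_left]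

/-- no line follows both `[v, v x y]` and `[v x y, v x y x y⁻¹]` for a long time -/
theorem ky_turn {x : G} (hx : IsOfFinOrder x) (hx1 : x ≠ 1) (hl : H.len x ≤ 1) (y v : G)
    (i : L.ι) (w : G) :
    L.D i w v (v * (x * y)) ≤ θ + 100 * (H.D + c + 1) + c + 1 ∨
      L.D i w (v * (x * y)) (v * (x * y) * (x * y⁻¹)) ≤ θ + 100 * (H.D + c + 1) + c + 1 := by
  have e1 : L.D i w v (v * (x * y)) = L.D i ((v * (x * y))⁻¹ * w) (y⁻¹ * x⁻¹) 1 := by
    rw [← L.ky_D_mul, mul_one]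
    congr 1
    group
  have e2 : L.D i w (v * (x * y)) (v * (x * y) * (x * y⁻¹)) =
      L.D i ((v * (x * y))⁻¹ * w) 1 (x * y⁻¹) := by
    rw [← L.ky_D_mul, mul_one]
  rw [e1, e2]
  set w' := (v * (x * y))⁻¹ * w
  rcases L.turn hx hx1 hl (y := y⁻¹) i w' with h | h
  · left
    have h1 := L.D_tri i w' (y⁻¹ * x⁻¹) y⁻¹ 1
    have h2 := L.az_lip i w' (y⁻¹ * x⁻¹) y⁻¹
    rw [H.d_comm, ky_d H, H.len_inv] at h2
    rw [L.D_comm i w' y⁻¹ 1] at h1
    omega
  · right
    omega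

/-- the angle of one piece of the broken line -/
theorem ky_ang {n : ℕ} {y : G} (hy : ∀ (i : L.ι) (w : G), 2 * |L.s i w 1 y| < n + T * (2 * c + 1))
    {x y' : G} (hl : H.len x ≤ 1) (h : y' = y ∨ y' = y⁻¹) (v : G) (i : L.ι) (w : G) :
    2 * |L.s i w v (v * (x * y'))| < n + T * (2 * c + 1) + 2 * (T * (c + 1)) := by
  have e1 : L.s i w v (v * (x * y')) = L.s i (v⁻¹ * w) 1 (x * y') := by
    rw [← L.ky_s_mul, mul_one]
  rw [e1]
  set w' := v⁻¹ * w
  have e2 := L.wf_s_add i w' 1 x (x * y')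
  have e3 := L.ky_s_mul i x w' 1 y'
  rw [mul_one] at e3
  rw [e3] at e2
  have e4 : 2 * |L.s i (x⁻¹ * w') 1 y'| < n + T * (2 * c + 1) := by
    rcases h with rfl | rfl
    · exact hy i _
    · have h1 := hy i (y * (x⁻¹ * w'))
      have h2 := L.ky_s_mul i y (y * (x⁻¹ * w')) 1 y⁻¹
      rw [inv_mul_cancel_left, mul_one, mul_inv_cancel] at h2
      rw [← h2, L.wf_s_symm i _ 1 y, abs_neg]
      exact h1
  have e5 : |L.s i w' 1 x| ≤ T * (c + 1) := by
    have h1 := L.az_lip i w' 1 x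
    rw [H.d_one] at h1
    have h2 := L.wf_lin_z i (L.s i w' 1 x)
    have h3 : T * H.len (L.x i ^ L.s i w' 1 x) ≤ T * (c + 1) :=
      Nat.mul_le_mul_left _ (by unfold D at h1; omega)
    rw [Int.abs_eq_natAbs]
    exact_mod_cast h2.trans h3
  have e6 := abs_add_le (L.s i w' 1 x) (L.s i (x⁻¹ * w') 1 y')
  rw [e2] at e6
  linarith

/-- the angles of an element of minimal length in its class modulo `M` -/
theorem ky_min {n : ℕ} {M : Subgroup G} (F : L.Fil n M) (hn : T * (2 * c + 1) ≤ n) {y : G}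
    (hmin : ∀ m ∈ M, H.len y ≤ H.len (m * y)) (i : L.ι) (w : G) :
    2 * |L.s i w 1 y| < n + T * (2 * c + 1) := by
  by_contra hcon
  push Not at hcon
  obtain ⟨k, hk⟩ := L.shorten 0 (n := n) (i := i) (u := w) (p := 1) (q := y)
    (by rw [add_zero]; exact hn) (by
      push_cast
      rw [add_zero]
      exact hcon)
  rw [add_zero, H.d_one, H.d_one] at hk
  have := hmin _ (F.rot i w k)
  omega

end LS

/-- the product of two rotations far apart has infinite order in the quotient -/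
theorem Setup.key {G : Type} [Group G] {H : GH G} {c θ T : ℕ} {L : LS H c θ T}
    {K B p L1 Θ n : ℕ} {E : GH G} {M : Subgroup G} [M.Normal] {Q : GH (G ⧸ M)}
    (S : Setup L K B p L1 Θ n E M Q)
    (hn : 2 * T * Θ + 24 * L.thr + 10 * T * (2 * c + 1) +
      4 * T * (100 * (2 * B + θ + 400 * (H.D + c + 1))) + 4 ≤ n)
    {x y : G} (hx : IsOfFinOrder x) (hx1 : x ≠ 1) (hl : H.len x ≤ 1)
    (hy : 100 * (2 * B + θ + 400 * (H.D + c + 1)) + 2 ≤ H.len y)
    (hmin : ∀ m ∈ M, H.len y ≤ H.len (m * y)) :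
    ¬ IsOfFinOrder ((x * y * x * y⁻¹ : G) : G ⧸ M) := by
  -- the constants
  have e1 : 2 * T * Θ = 2 * (T * Θ) := by ring
  have e2 : 10 * T * (2 * c + 1) = 10 * (T * (2 * c + 1)) := by ring
  have e3 : 4 * T * (100 * (2 * B + θ + 400 * (H.D + c + 1))) =
      4 * (T * (100 * (2 * B + θ + 400 * (H.D + c + 1)))) := by ring
  rw [e1, e2, e3] at hn
  set a := 2 * B + 100 * (H.D + 1) + 3 with ha
  set E0 := θ + 100 * (H.D + c + 1) + c + 1 with hE0
  have hR : a + E0 + c + H.D + 1 ≤ 2 * B + θ + 400 * (H.D + c + 1) := by omega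
  have hTR : T * (100 * (a + E0 + c + H.D + 1)) ≤
      T * (100 * (2 * B + θ + 400 * (H.D + c + 1))) :=
    Nat.mul_le_mul_left _ (Nat.mul_le_mul_left _ hR)
  have hTc : T * (c + 1) ≤ T * (2 * c + 1) := Nat.mul_le_mul_left _ (by omega)
  -- the broken line
  set u : G := x * y * x * y⁻¹ with hu
  have h1 : ∀ i, H.d (ky_v x y i) (ky_v x y (i + 1)) + H.d (ky_v x y (i + 1)) (ky_v x y (i + 2)) ≤
      H.d (ky_v x y i) (ky_v x y (i + 2)) + a := by
    intro i
    obtain ⟨y', -, h2, h3⟩ := ky_tri x y i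
    rw [h3, h2, ky_d H, ky_d H, mul_assoc, ky_d H]
    exact ky_corner H S.hK S.acy hx hx1 hl y'
  have h2 : ∀ i, 100 * (a + E0 + c + H.D + 1) ≤ H.d (ky_v x y i) (ky_v x y (i + 1)) := by
    intro i
    obtain ⟨y', h0, h2, -⟩ := ky_tri x y i
    rw [h2, ky_d H]
    have h3 : H.len y' = H.len y := ky_len H h0
    have h4 := H.len_mul x⁻¹ (x * y')
    rw [inv_mul_cancel_left, H.len_inv] at h4
    omega
  have h3 : ∀ k, ∀ (i : L.ι) (w : G), L.D i w (ky_v x y k) (ky_v x y (k + 1)) ≤ E0 ∨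
      L.D i w (ky_v x y (k + 1)) (ky_v x y (k + 2)) ≤ E0 := by
    intro k i w
    obtain ⟨y', -, h2, h3⟩ := ky_tri x y k
    rw [h3, h2]
    exact L.ky_turn hx hx1 hl y' _ i w
  set P := (n + T * (2 * c + 1)) / 2 + T * (c + 1) with hP
  have h4 : ∀ k, ∀ (i : L.ι) (w : G), |L.s i w (ky_v x y k) (ky_v x y (k + 1))| ≤ P := by
    intro k i w
    obtain ⟨y', h0, h2, -⟩ := ky_tri x y k
    rw [h2]
    have h3 := L.ky_ang (L.ky_min S.fil (n := n) (by omega) hmin) hl h0 (ky_v x y k) i w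
    rw [Int.abs_eq_natAbs] at h3 ⊢
    have h4 : 2 * (L.s i w (ky_v x y k) (ky_v x y k * (x * y'))).natAbs <
        n + T * (2 * c + 1) + 2 * (T * (c + 1)) := by exact_mod_cast h3
    have h5 : (L.s i w (ky_v x y k) (ky_v x y k * (x * y'))).natAbs ≤ P := by
      rw [hP]
      omega
    exact_mod_cast h5
  have hev : ∀ m, ky_v x y (2 * m) = u ^ m := ky_even x y
  have hv0 : ky_v x y 0 = 1 := by
    have := hev 0
    rwa [mul_zero, pow_zero] at this
  intro hfin
  obtain ⟨N, hN, hN1⟩ := isOfFinOrder_iff_pow_eq_one.1 hfin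
  rw [← QuotientGroup.mk_pow, QuotientGroup.eq_one_iff] at hN1
  refine L.surv2 S.fil S.cone (n := n) (by omega) (u := u) ?_ ?_ N hN hN1
  · intro m
    have h5 := (H.lg a (ky_v x y) (2 * m) (fun i _ => h1 i) (fun i _ => by
      have := h2 i
      omega)).2
    rw [hv0, hev, H.d_one] at h5
    omega
  · intro i w m
    have h5 := L.chain_ang (a := a) (E := E0) (P := P) (ky_v x y) (2 * m) (fun i _ => h1 i)
      (fun i _ => h2 i) (fun k _ => h3 k) (fun k _ => h4 k) i w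
    rw [hv0, hev] at h5
    have h6 : P + 2 * T * (100 * (a + E0 + c + H.D + 1)) + T * Θ + 12 * L.thr < n := by
      have e4 : 2 * T * (100 * (a + E0 + c + H.D + 1)) =
        2 * (T * (100 * (a + E0 + c + H.D + 1))) := by ring
      rw [e4, hP]
      omega
    have h7 : ((P : ℤ) + 2 * T * (100 * (a + E0 + c + H.D + 1)) + T * Θ + 12 * L.thr) < n := by
      exact_mod_cast h6
    linarith

end Pool.Agent.TH54.BU
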