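import Pool.Agent.TH54.BU.Defs

set_option autoImplicit false

namespace Pool.Agent.TH54.BU

variable {G : Type*} [Group G]

/-- local to global, one-sided form -/
theorem GH.lg_ax1 (H : GH G) {a : ℕ} (x : ℕ → G) (n : ℕ)
    (h1 : ∀ i, i + 2 ≤ n →
      H.d (x i) (x (i + 1)) + H.d (x (i + 1)) (x (i + 2)) ≤ H.d (x i) (x (i + 2)) + a)
    (h2 : ∀ i, i < n → a + 2 * H.D + 1 ≤ H.d (x i) (x (i + 1))) :
    ∀ k, k < n → H.d (x 0) (x k) + H.d (x k) (x (k + 1)) ≤ H.d (x 0) (x (k + 1)) + a + H.D := by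
  intro k
  induction k with
  | zero => intro _; rw [H.d_self]; omega
  | succ k ih =>
    intro hk
    have i1 := ih (by omega)
    have a1 := h1 k (by omega)
    have a2 := h2 k (by omega)
    have f := H.fp (x k) (x (k + 2)) (x 0) (x (k + 1))
    have c1 := H.d_comm (x k) (x 0)
    have c2 := H.d_comm (x (k + 2)) (x (k + 1))
    have c3 := H.d_comm (x (k + 2)) (x 0)
    have e : k + 1 + 1 = k + 2 := rfl
    rw [e]
    rcases le_total (H.d (x k) (x 0) + H.d (x (k + 2)) (x (k + 1)))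
      (H.d (x k) (x (k + 1)) + H.d (x (k + 2)) (x 0)) with h | h
    · rw [max_eq_right h] at f
      omega
    · rw [max_eq_left h] at f
      omega

/-- local to global -/
theorem GH.lg_ax (H : GH G) {a : ℕ} (x : ℕ → G) (n : ℕ)
    (h1 : ∀ i, i + 2 ≤ n →
      H.d (x i) (x (i + 1)) + H.d (x (i + 1)) (x (i + 2)) ≤ H.d (x i) (x (i + 2)) + a)
    (h2 : ∀ i, i < n → a + 2 * H.D + 1 ≤ H.d (x i) (x (i + 1))) :
    (∀ i, i ≤ n → H.d (x 0) (x i) + H.d (x i) (x n) ≤ H.d (x 0) (x n) + a + 2 * H.D) ∧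
      n ≤ H.d (x 0) (x n) := by
  have key := H.lg_ax1 x n h1 h2
  have key2 := H.lg_ax1 (fun i => x (n - i)) n (a := a) (by
      intro i hi
      have h := h1 (n - (i + 2)) (by omega)
      have e1 : n - (i + 2) + 1 = n - (i + 1) := by omega
      have e2 : n - (i + 2) + 2 = n - i := by omega
      rw [e1, e2] at h
      have c1 := H.d_comm (x (n - (i + 2))) (x (n - (i + 1)))
      have c2 := H.d_comm (x (n - (i + 1))) (x (n - i))
      have c3 := H.d_comm (x (n - (i + 2))) (x (n - i))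
      change H.d (x (n - i)) (x (n - (i + 1))) + H.d (x (n - (i + 1))) (x (n - (i + 2))) ≤
        H.d (x (n - i)) (x (n - (i + 2))) + a
      omega) (by
      intro i hi
      have h := h2 (n - (i + 1)) (by omega)
      have e1 : n - (i + 1) + 1 = n - i := by omega
      rw [e1] at h
      have c1 := H.d_comm (x (n - (i + 1))) (x (n - i))
      change a + 2 * H.D + 1 ≤ H.d (x (n - i)) (x (n - (i + 1)))
      omega)
  constructor
  · intro i hi
    rcases Nat.eq_zero_or_pos i with rfl | hi0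
    · rw [H.d_self]; omega
    rcases Nat.lt_or_ge i n with hin | hin
    · have k1 := key i hin
      have k2 := key2 (n - (i + 1)) (by omega)
      have e1 : n - (n - (i + 1)) = i + 1 := by omega
      have e2 : n - (n - (i + 1) + 1) = i := by omega
      simp only [Nat.sub_zero] at k2
      rw [e1, e2] at k2
      have a2 := h2 i hin
      have f := H.fp (x 0) (x (i + 1)) (x n) (x i)
      have c1 := H.d_comm (x n) (x (i + 1))
      have c2 := H.d_comm (x (i + 1)) (x i)
      have c3 := H.d_comm (x n) (x i)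
      have c4 := H.d_comm (x (i + 1)) (x n)
      rcases le_total (H.d (x 0) (x n) + H.d (x (i + 1)) (x i))
        (H.d (x 0) (x i) + H.d (x (i + 1)) (x n)) with h | h
      · rw [max_eq_right h] at f
        omega
      · rw [max_eq_left h] at f
        omega
    · have : i = n := by omega
      subst this
      rw [H.d_self]; omega
  · have h3 : ∀ k, k ≤ n → k ≤ H.d (x 0) (x k) := by
      intro k
      induction k with
      | zero => intro _; omega
      | succ k ih =>
        intro hk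
        have i1 := ih (by omega)
        have k1 := key k (by omega)
        have a2 := h2 k (by omega)
        omega
    exact h3 n le_rfl

theorem GH.sup_of_cmin (H : GH G) {y : G} (hy : H.CMin y) (hl : 4 * H.D + 4 ≤ H.len y) :
    H.Sup (2 * H.D) y ∧ ¬ IsOfFinOrder y := by
  obtain ⟨m, hm1, hm2⟩ := H.between 1 y (H.len y / 2) (by rw [H.d_one]; omega)
  rw [H.d_one] at hm1 hm2
  set L := H.len y with hL
  let x : ℕ → G := fun i => y ^ (i / 2) * (if i % 2 = 0 then 1 else m)
  have hx0 : ∀ i, x (2 * i) = y ^ i := by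
    intro i
    simp only [x]
    rw [Nat.mul_div_cancel_left i (by norm_num), if_pos (by omega), mul_one]
  have hx1 : ∀ i, x (2 * i + 1) = y ^ i * m := by
    intro i
    simp only [x]
    rw [if_neg (by omega)]
    congr 2
    omega
  have e1 : ∀ i, H.d (x (2 * i)) (x (2 * i + 1)) = L / 2 := by
    intro i
    rw [hx0, hx1]
    have := H.d_mul (y ^ i) 1 m
    rw [mul_one] at this
    rw [this, H.d_one, hm1]
  have e2 : ∀ i, H.d (x (2 * i + 1)) (x (2 * i + 2)) + L / 2 = L := by
    intro i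
    have : 2 * i + 2 = 2 * (i + 1) := by ring
    rw [this, hx0, hx1, pow_succ, H.d_mul, hm2]
  have e3 : ∀ i, H.d (x (2 * i)) (x (2 * i + 2)) = L := by
    intro i
    have : 2 * i + 2 = 2 * (i + 1) := by ring
    rw [this, hx0, hx0, pow_succ]
    have := H.d_mul (y ^ i) 1 y
    rw [mul_one] at this
    rw [this, H.d_one]
  have e4 : ∀ i, L ≤ H.d (x (2 * i + 1)) (x (2 * i + 3)) := by
    intro i
    have : 2 * i + 3 = 2 * (i + 1) + 1 := by ring
    rw [this, hx1, hx1, pow_succ, mul_assoc, H.d_mul]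
    have h := hy m
    unfold GH.d
    rw [← mul_assoc]
    exact h
  have key : ∀ n, _ := fun n => H.lg_ax (a := 0) x n (by
    intro i _
    rcases Nat.even_or_odd' i with ⟨j, rfl | rfl⟩
    · have := e1 j; have := e2 j; have := e3 j
      omega
    · have h1 : 2 * (j + 1) = 2 * j + 2 := by ring
      have h2 := e1 (j + 1)
      rw [h1] at h2
      have h3 : 2 * j + 1 + 1 = 2 * j + 2 := by ring
      have h4 : 2 * j + 1 + 2 = 2 * j + 3 := by ring
      rw [h3, h4]
      have h5 := e4 j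
      have h6 := e2 j
      have h7 : 2 * j + 2 + 1 = 2 * j + 3 := by ring
      rw [h7] at h2
      omega) (by
    intro i _
    rcases Nat.even_or_odd' i with ⟨j, rfl | rfl⟩
    · have := e1 j
      omega
    · have := e2 j
      have h3 : 2 * j + 1 + 1 = 2 * j + 2 := by ring
      rw [h3]
      omega)
  constructor
  · intro a b
    have h := (key (2 * (a + b))).1 (2 * a) (by omega)
    have hz : x 0 = 1 := by
      have := hx0 0
      simpa using this
    rw [hx0, hx0, hz, H.d_one, H.d_one, pow_add] at h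
    have h2 := H.d_mul (y ^ a) 1 (y ^ b)
    rw [mul_one, H.d_one] at h2
    rw [h2, ← pow_add] at h
    omega
  · intro hf
    rw [isOfFinOrder_iff_pow_eq_one] at hf
    obtain ⟨n, hn, hn1⟩ := hf
    have h := (key (2 * n)).2
    have hz : x 0 = 1 := by
      have := hx0 0
      simpa using this
    rw [hx0, hn1, hz, H.d_self] at h
    omega

/-- linear lower bound for the powers -/
theorem GH.sup_len_mul (H : GH G) {c : ℕ} {x : G} (hx : H.Sup c x) (m k : ℕ) :
    (k + 1) * H.len (x ^ m) ≤ H.len (x ^ (m * (k + 1))) + k * c := by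
  induction k with
  | zero => simp
  | succ k ih =>
    have h := hx (m * (k + 1)) m
    have e : m * (k + 1) + m = m * (k + 1 + 1) := by ring
    rw [e] at h
    have e2 : (k + 1 + 1) * H.len (x ^ m) = (k + 1) * H.len (x ^ m) + H.len (x ^ m) := by ring
    have e3 : (k + 1) * c = k * c + c := by ring
    omega

theorem GH.len_conj_pow (H : GH G) (x t : G) (n : ℕ) :
    H.len ((t⁻¹ * x * t) ^ n) = H.d t (x ^ n * t) := by
  unfold GH.d
  congr 1
  have : t⁻¹ * x * t = t⁻¹ * x * (t⁻¹)⁻¹ := by rw [inv_inv]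
  rw [this, conj_pow]
  group

theorem GH.sup_disp (H : GH G) {c : ℕ} {x : G} (hx : H.Sup c x) (t : G) (m : ℕ) :
    H.len (x ^ m) ≤ H.d t (x ^ m * t) + c := by
  by_contra hc
  push Not at hc
  have h1 : ∀ k : ℕ, H.d t (x ^ (m * k) * t) ≤ k * H.d t (x ^ m * t) := by
    intro k
    induction k with
    | zero => simp [H.d_self]
    | succ k ih =>
      have h2 := H.d_tri t (x ^ (m * k) * t) (x ^ (m * (k + 1)) * t)
      have h3 : H.d (x ^ (m * k) * t) (x ^ (m * (k + 1)) * t) = H.d t (x ^ m * t) := by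
        have : x ^ (m * (k + 1)) * t = x ^ (m * k) * (x ^ m * t) := by
          rw [← mul_assoc, ← pow_add]
          ring_nf
        rw [this, H.d_mul]
      rw [h3] at h2
      have e : (k + 1) * H.d t (x ^ m * t) = k * H.d t (x ^ m * t) + H.d t (x ^ m * t) := by ring
      omega
  have h2 : ∀ k : ℕ, H.len (x ^ (m * k)) ≤ 2 * H.len t + k * H.d t (x ^ m * t) := by
    intro k
    have a1 := H.d_tri 1 t (x ^ (m * k))
    have a2 := H.d_tri t (x ^ (m * k) * t) (x ^ (m * k))
    have a3 : H.d (x ^ (m * k) * t) (x ^ (m * k)) = H.len t := by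
      have := H.d_mul (x ^ (m * k)) t 1
      rw [mul_one, H.d_one'] at this
      exact this
    rw [H.d_one, H.d_one] at a1
    have := h1 k
    omega
  set k := 2 * H.len t with hk
  have h3 := H.sup_len_mul hx m k
  have h4 := h2 (k + 1)
  have h5 : (k + 1) * (H.d t (x ^ m * t) + c + 1) ≤ (k + 1) * H.len (x ^ m) :=
    Nat.mul_le_mul_left _ hc
  have e : (k + 1) * (H.d t (x ^ m * t) + c + 1) =
    (k + 1) * H.d t (x ^ m * t) + k * c + c + k + 1 := by ring
  omega

/-- transport of almost betweenness -/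
theorem GH.transport (H : GH G) {a a' b x : G} {c r : ℕ}
    (h : H.d x a + H.d x b ≤ H.d a b + c) (hr : H.d a a' ≤ r)
    (hl : 2 * r + c + H.D < 2 * H.d x a) :
    H.d x a' + H.d x b ≤ H.d a' b + (c + H.D) := by
  have f := H.fp a b x a'
  have t1 := H.d_tri x a' a
  have c1 := H.d_comm a' a
  have c2 := H.d_comm a x
  have c3 := H.d_comm b x
  have c4 := H.d_comm b a'
  rcases le_total (H.d a x + H.d b a') (H.d a a' + H.d b x) with h1 | h1
  · rw [max_eq_right h1] at f
    omega
  · rw [max_eq_left h1] at f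
    omega

theorem GH.near_axis (H : GH G) {y : G} (hy : H.CMin y) (hl : 4 * H.D + 4 ≤ H.len y) {t : G}
    (ht : H.d t (y * t) ≤ H.len y) : ∃ N0 : ℕ, ∀ N ≥ N0,
      H.d (y ^ N)⁻¹ t + H.d t (y ^ N) ≤ H.len (y ^ (2 * N)) + 4 * H.D := by
  set y' := t⁻¹ * y * t with hy'
  have hlen : H.len y' = H.len y := by
    apply le_antisymm
    · unfold GH.d at ht
      rwa [← mul_assoc] at ht
    · exact hy t
  have hcm : H.CMin y' := by
    intro u
    rw [hlen]
    have := hy (t * u)
    have e : (t * u)⁻¹ * y * (t * u) = u⁻¹ * y' * u := by rw [hy']; group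
    rwa [e] at this
  obtain ⟨hsup, -⟩ := H.sup_of_cmin hcm (by omega)
  refine ⟨H.len t + 2 * H.D + 1, fun N hN => ?_⟩
  have h1 := hsup N N
  rw [H.len_conj_pow, H.len_conj_pow] at h1
  -- distances
  have d1 : H.d t ((y ^ N)⁻¹ * t) = H.d t (y ^ N * t) := by
    have := H.d_mul (y ^ N) ((y ^ N)⁻¹ * t) t
    rw [mul_inv_cancel_left] at this
    rw [H.d_comm, ← this]
  have d2 : H.d ((y ^ N)⁻¹ * t) (y ^ N * t) = H.d t (y ^ (N + N) * t) := by
    have := H.d_mul (y ^ N) ((y ^ N)⁻¹ * t) (y ^ N * t)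
    rw [mul_inv_cancel_left, ← mul_assoc, ← pow_add] at this
    exact this.symm
  have d3 : H.d ((y ^ N)⁻¹ * t) (y ^ N)⁻¹ = H.len t := by
    have := H.d_mul ((y ^ N)⁻¹) t 1
    rw [mul_one, H.d_one'] at this
    exact this
  have d4 : H.d (y ^ N * t) (y ^ N) = H.len t := by
    have := H.d_mul (y ^ N) t 1
    rw [mul_one, H.d_one'] at this
    exact this
  have d5 : H.d (y ^ N)⁻¹ (y ^ N) = H.len (y ^ (2 * N)) := by
    unfold GH.d
    rw [inv_inv, ← pow_add, two_mul]
  -- large distance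
  have h2 : 2 * N ≤ H.d t (y ^ N * t) := by
    have h3 := H.sup_len_mul hsup 1 (N - 1)
    have e : N - 1 + 1 = N := by omega
    rw [e, pow_one, one_mul, H.len_conj_pow] at h3
    rcases Nat.eq_zero_or_pos N with h0 | h0
    · omega
    obtain ⟨M, rfl⟩ : ∃ M, N = M + 1 := ⟨N - 1, by omega⟩
    have e2 : M + 1 - 1 = M := by omega
    rw [e2] at h3
    have h4 : (M + 1) * (4 * H.D + 4) ≤ (M + 1) * H.len y' := Nat.mul_le_mul_left _ (by omega)
    have h5 : (M + 1) * (4 * H.D + 4) = M * (2 * H.D) + (M * (2 * H.D) + 4 * H.D + 4 * (M + 1)) := by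
      ring
    omega
  have s1 : H.d t ((y ^ N)⁻¹ * t) + H.d t (y ^ N * t) ≤
      H.d ((y ^ N)⁻¹ * t) (y ^ N * t) + 2 * H.D := by
    rw [d1, d2]
    exact h1
  have s2 := H.transport (a' := (y ^ N)⁻¹) (r := H.len t) s1 d3.le (by rw [d1]; omega)
  have s3 : H.d t (y ^ N * t) + H.d t (y ^ N)⁻¹ ≤
      H.d (y ^ N * t) (y ^ N)⁻¹ + (2 * H.D + H.D) := by
    rw [H.d_comm (y ^ N * t) (y ^ N)⁻¹]
    omega
  have s4 := H.transport (a' := y ^ N) (r := H.len t) s3 d4.le (by omega)
  rw [H.d_comm (y ^ N) (y ^ N)⁻¹, d5] at s4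
  rw [H.d_comm (y ^ N)⁻¹ t]
  omega

open Filter Topology in
theorem GH.axial (H : GH G) {T : ℕ} (hT : H.Stab T) {g : G} (hg : ¬ IsOfFinOrder g) :
    ∃ u : G, H.Sup (20 * H.D + 20) (u⁻¹ * g * u) := by
  have hT1 : 1 ≤ T := by
    have h := hT g hg 1
    by_contra hc
    have : T = 0 := by omega
    rw [this, zero_mul] at h
    omega
  set m := T * (4 * H.D + 4) with hm
  have hm1 : 1 ≤ m := Nat.mul_pos hT1 (by omega)
  obtain ⟨_, ⟨u, rfl⟩, hu⟩ := (Nat.lt_wfRel.wf).has_min
    (Set.range fun u : G => H.len (u⁻¹ * g ^ m * u)) ⟨_, 1, rfl⟩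
  have hu' : ∀ w : G, H.len (u⁻¹ * g ^ m * u) ≤ H.len (w⁻¹ * g ^ m * w) :=
    fun w => not_lt.1 (hu _ ⟨w, rfl⟩)
  refine ⟨u, ?_⟩
  set x := u⁻¹ * g * u with hx
  have hxp : ∀ n : ℕ, x ^ n = u⁻¹ * g ^ n * u := by
    intro n
    have e : x = u⁻¹ * g * (u⁻¹)⁻¹ := by rw [inv_inv]
    rw [e, conj_pow, inv_inv]
  have hxf : ¬ IsOfFinOrder x := by
    intro hf
    rw [isOfFinOrder_iff_pow_eq_one] at hf
    obtain ⟨n, hn, hn1⟩ := hf
    apply hg
    rw [isOfFinOrder_iff_pow_eq_one]
    refine ⟨n, hn, ?_⟩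
    rw [hxp] at hn1
    have : g ^ n = u * (u⁻¹ * g ^ n * u) * u⁻¹ := by group
    rw [this, hn1]
    group
  set y := x ^ m with hy
  have hyc : H.CMin y := by
    intro w
    have h := hu' (u * w)
    rw [hy, hxp]
    have e : w⁻¹ * (u⁻¹ * g ^ m * u) * w = (u * w)⁻¹ * g ^ m * (u * w) := by group
    rw [e]
    exact h
  have hyl : 4 * H.D + 4 ≤ H.len y := by
    have h := hT x hxf m
    rw [hm] at h
    exact Nat.le_of_mul_le_mul_left h hT1
  obtain ⟨hsup, -⟩ := H.sup_of_cmin hyc hyl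
  have hyp : ∀ k : ℕ, y ^ k = x ^ (m * k) := fun k => (pow_mul x m k).symm
  -- the stable length
  set L : ℕ → ℝ := fun n => (H.len (x ^ n) : ℝ) with hL
  have hsub : Subadditive L := by
    intro a b
    have h := H.len_mul (x ^ a) (x ^ b)
    rw [← pow_add] at h
    simp only [hL]
    exact_mod_cast h
  have hbdd : BddBelow (Set.range fun n : ℕ => L n / n) := by
    refine ⟨0, ?_⟩
    rintro _ ⟨n, rfl⟩
    positivity
  set τ := hsub.lim with hτ
  have htend : Tendsto (fun n : ℕ => L n / n) atTop (𝓝 τ) := hsub.tendsto_lim hbdd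
  have hτ0 : 0 ≤ τ := ge_of_tendsto' htend fun n => by positivity
  have hτ1 : ∀ n : ℕ, n * τ ≤ L n := by
    intro n
    rcases Nat.eq_zero_or_pos n with rfl | hn
    · simp only [hL]
      simp
    · have h := hsub.lim_le_div hbdd (n := n) (by omega)
      have hn' : (0 : ℝ) < n := by exact_mod_cast hn
      rw [le_div_iff₀ hn'] at h
      rw [mul_comm]
      exact h
  have hτ2 : ∀ k : ℕ, L (m * k) ≤ (m * k : ℕ) * τ + 2 * H.D := by
    intro k
    rcases Nat.eq_zero_or_pos k with rfl | hk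
    · simp only [hL, mul_zero, pow_zero, H.len_one]
      simp
    have hmk : 0 < m * k := Nat.mul_pos hm1 hk
    have hmk' : (0 : ℝ) < (m * k : ℕ) := by exact_mod_cast hmk
    have h1 : ∀ j : ℕ, (L (m * k) - 2 * H.D) / (m * k : ℕ) ≤
        L (m * k * (j + 1)) / (m * k * (j + 1) : ℕ) := by
      intro j
      have h2 := H.sup_len_mul hsup k j
      rw [hyp, hyp, ← mul_assoc] at h2
      have h3 : ((j : ℝ) + 1) * L (m * k) ≤ L (m * k * (j + 1)) + j * (2 * H.D) := by
        simp only [hL]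
        exact_mod_cast h2
      have hj : (0 : ℝ) < (m * k * (j + 1) : ℕ) := by
        have : 0 < m * k * (j + 1) := Nat.mul_pos hmk (by omega)
        exact_mod_cast this
      rw [div_le_div_iff₀ hmk' hj]
      have e : ((m * k * (j + 1) : ℕ) : ℝ) = (m * k : ℕ) * ((j : ℝ) + 1) := by push_cast; ring
      rw [e]
      have hD : (0 : ℝ) ≤ H.D := Nat.cast_nonneg _
      have h4 : (L (m * k) - 2 * H.D) * ((j : ℝ) + 1) ≤ L (m * k * (j + 1)) := by nlinarith
      calc (L (m * k) - 2 * H.D) * ((m * k : ℕ) * ((j : ℝ) + 1))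
          = ((L (m * k) - 2 * H.D) * ((j : ℝ) + 1)) * (m * k : ℕ) := by ring
        _ ≤ L (m * k * (j + 1)) * (m * k : ℕ) := mul_le_mul_of_nonneg_right h4 hmk'.le
    have h5 : Tendsto (fun j : ℕ => L (m * k * (j + 1)) / (m * k * (j + 1) : ℕ)) atTop (𝓝 τ) := by
      refine htend.comp (f := fun j : ℕ => m * k * (j + 1)) ?_
      exact tendsto_atTop_mono (fun j => by
        have : 1 * (j + 1) ≤ m * k * (j + 1) := Nat.mul_le_mul_right _ hmk
        change j ≤ m * k * (j + 1)
        omega) tendsto_id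
    have h6 := ge_of_tendsto' h5 h1
    rw [div_le_iff₀ hmk'] at h6
    linarith
  have key : ∀ a : ℕ, L a ≤ a * τ + 9 * H.D := by
    intro a
    obtain ⟨N0, hN0⟩ := H.near_axis hyc hyl (t := x ^ a) (by
      have e : y * x ^ a = x ^ a * y := by
        rw [hy, ← pow_add, ← pow_add, add_comm]
      rw [e]
      have h := H.d_mul (x ^ a) 1 y
      rw [mul_one, H.d_one] at h
      exact h.le)
    set N := N0 + a with hN
    have h1 := hN0 N (by omega)
    have haN : a ≤ m * N := by
      have : 1 * N ≤ m * N := Nat.mul_le_mul_right _ hm1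
      omega
    have d1 : H.d (y ^ N)⁻¹ (x ^ a) = H.len (x ^ (m * N + a)) := by
      unfold GH.d
      rw [inv_inv, hyp, ← pow_add]
    have d2 : H.d (x ^ a) (y ^ N) = H.len (x ^ (m * N - a)) := by
      unfold GH.d
      congr 1
      rw [hyp, inv_mul_eq_iff_eq_mul, ← pow_add]
      congr 1
      omega
    have d3 : H.len (y ^ (2 * N)) = H.len (x ^ (m * (2 * N))) := by rw [hyp]
    have d4 : H.d 1 (y ^ N)⁻¹ = H.len (x ^ (m * N)) := by
      rw [H.d_one, H.len_inv, hyp]
    have d5 : H.d 1 (y ^ N) = H.len (x ^ (m * N)) := by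
      rw [H.d_one, hyp]
    have d6 : H.d (y ^ N)⁻¹ (y ^ N) = H.len (x ^ (m * (2 * N))) := by
      unfold GH.d
      rw [inv_inv, ← pow_add, ← two_mul, hyp]
    have d7 : H.d (x ^ a) (y ^ N)⁻¹ = H.len (x ^ (m * N + a)) := by
      rw [H.d_comm, d1]
    rw [d1, d2, d3] at h1
    have f := H.fp 1 (x ^ a) (y ^ N)⁻¹ (y ^ N)
    rw [H.d_one, d6, d4, d2, d5, d7] at f
    have h1' : L (m * N + a) + L (m * N - a) ≤ L (m * (2 * N)) + 4 * H.D := by
      simp only [hL]
      exact_mod_cast h1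
    have b1 := hτ1 (m * N + a)
    have b2 := hτ1 (m * N - a)
    have b3 := hτ2 (2 * N)
    have b4 := hτ2 N
    have b5 := hτ1 (m * (2 * N))
    have c1 : ((m * N - a : ℕ) : ℝ) = (m * N : ℕ) - a := by
      rw [Nat.cast_sub haN]
    have c2 : ((m * N + a : ℕ) : ℝ) = (m * N : ℕ) + a := by push_cast; ring
    have c3 : ((m * (2 * N) : ℕ) : ℝ) = 2 * (m * N : ℕ) := by push_cast; ring
    rw [c2] at b1
    rw [c1] at b2
    rw [c3] at b3 b5
    have haτ : 0 ≤ (a : ℝ) * τ := by positivity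
    have hD : (0 : ℝ) ≤ H.D := Nat.cast_nonneg _
    rcases le_total (H.len (x ^ (m * N)) + H.len (x ^ (m * N - a)))
      (H.len (x ^ (m * N)) + H.len (x ^ (m * N + a))) with h | h
    · rw [max_eq_right h] at f
      have f' : L a + L (m * (2 * N)) ≤ L (m * N) + L (m * N + a) + H.D := by
        simp only [hL]
        exact_mod_cast f
      linarith
    · rw [max_eq_left h] at f
      have f' : L a + L (m * (2 * N)) ≤ L (m * N) + L (m * N - a) + H.D := by
        simp only [hL]
        exact_mod_cast f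
      linarith
  intro a b
  have h1 := key a
  have h2 := key b
  have h3 := hτ1 (a + b)
  push_cast at h3
  have h4 : L a + L b ≤ L (a + b) + (20 * H.D + 20 : ℕ) := by
    have hD : (0 : ℝ) ≤ H.D := Nat.cast_nonneg _
    push_cast
    linarith
  simp only [hL] at h4
  exact_mod_cast h4

end Pool.Agent.TH54.BU
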