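import Pool.Agent.TH54.BU.Local
import Pool.Agent.Helper180.FreeMetric

/-!
# BU-BASE (job 1384, helper54): the free group as base of the induction
-/

set_option autoImplicit false

namespace Pool.Agent.TH54.BU

open Pool.Agent.Helper180

section freeBase

variable {I : Type} [DecidableEq I]

theorem freeBase_fp (u v w z : FreeGroup I) : (u⁻¹ * v).norm + (w⁻¹ * z).norm ≤
    max ((u⁻¹ * w).norm + (v⁻¹ * z).norm) ((u⁻¹ * z).norm + (v⁻¹ * w).norm) := by
  have e : ∀ a b : FreeGroup I, (u⁻¹ * a)⁻¹ * (u⁻¹ * b) = a⁻¹ * b := by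
    intro a b; group
  have h := FreeMetric.gp_hyp (u⁻¹ * w) (u⁻¹ * v) (u⁻¹ * z)
  unfold FreeMetric.gp at h
  rw [e, e, e] at h
  have e2 : (w⁻¹ * v).norm = (v⁻¹ * w).norm := by
    rw [← FreeGroup.norm_inv_eq]
    congr 1
    group
  rw [e2] at h
  omega

/-- the free group with its word length, four point inequality with error `D` -/
def freeGH (I : Type) [DecidableEq I] (D : ℕ) : GH (FreeGroup I) where
  len := FreeGroup.norm
  D := D
  len_one := FreeGroup.norm_one
  eq_one g h := FreeGroup.norm_eq_zero.1 h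
  len_inv g := FreeGroup.norm_inv_eq
  len_mul g h := FreeGroup.norm_mul_le g h
  fp' u v w z := (freeBase_fp u v w z).trans (Nat.le_add_right _ _)
  step g k hk := by
    obtain ⟨z, h1, h2⟩ := FreeMetric.exists_initial g k hk
    refine ⟨z, h1, ?_⟩
    omega

theorem freeBase_norm_pow {g : FreeGroup I} (hg : g ≠ 1) (m : ℕ) : m ≤ (g ^ m).norm := by
  have h1 : (FreeGroup.reduceCyclically g.toWord).length ≠ 0 := by
    intro h0
    have h2 := FreeGroup.reduceCyclically.conj_conjugator_reduceCyclically g.toWord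
    rw [List.length_eq_zero_iff.1 h0, List.append_nil] at h2
    apply hg
    have h3 := congrArg FreeGroup.mk h2
    rw [FreeGroup.mk_toWord, ← FreeGroup.mul_mk, ← FreeGroup.inv_mk, mul_inv_cancel] at h3
    exact h3.symm
  unfold FreeGroup.norm
  rw [FreeGroup.toWord_pow, FreeGroup.reduceCyclically.reduce_flatten_replicate
    FreeGroup.isReduced_toWord]
  split_ifs with h0
  · omega
  · rw [List.length_append, List.length_append, List.length_flatten, List.map_replicate,
      List.sum_replicate, smul_eq_mul]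
    have : m * 1 ≤ m * (FreeGroup.reduceCyclically g.toWord).length :=
      Nat.mul_le_mul_left _ (Nat.pos_of_ne_zero h1)
    omega

end freeBase

theorem base (I : Type) : ∃ H : GH (FreeGroup I), H.D = 4 ∧ H.Stab 1 ∧
    (∀ K B : ℕ, 8 * K + 20 ≤ B → H.Acy K B) ∧ ∀ i, H.len (FreeGroup.of i) = 1 := by
  classical
  refine ⟨freeGH I 4, rfl, ?_, ?_, ?_⟩
  · intro g hg m
    rw [one_mul]
    refine freeBase_norm_pow ?_ m
    rintro rfl
    exact hg IsOfFinOrder.one
  · intro K B hB q hq g hg
    refine ⟨?_, ?_⟩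
    · intro hf
      obtain ⟨n, hn, h⟩ := isOfFinOrder_iff_pow_eq_one.1 hf
      exact (pow_eq_one_iff_left hn.ne').1 h
    · intro h hh
      have hD : (freeGH I 0).D = 0 := rfl
      have hq' : 8 * K + 20 ≤ (freeGH I 0).d 1 q := by
        rw [GH.d_one]; exact hB.trans hq
      obtain ⟨t, ht1, ht2⟩ := (freeGH I 0).between 1 q (4 * K + 10) (by omega)
      have hd1 : ∀ w ∈ (freeGH I 4).SD K q, (freeGH I 0).d 1 (w * 1) ≤ K := by
        intro w hw
        rw [mul_one, GH.d_one]; exact hw.1
      have hd2 : ∀ w ∈ (freeGH I 4).SD K q, (freeGH I 0).d q (w * q) ≤ K := by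
        intro w hw
        have := hw.2
        rw [mul_assoc] at this
        exact this
      have key := (freeGH I 0).cm (hd1 g hg) (hd2 g hg) (hd1 h hh) (hd2 h hh) (t := t)
        (by omega) (by omega) (by omega)
      rw [hD, mul_zero, Nat.le_zero] at key
      have h1 := (freeGH I 0).eq_of_d key
      have h2 : g * h * g⁻¹ * h⁻¹ = 1 := by
        have : g * h * g⁻¹ * h⁻¹ * t = 1 * t := by rw [one_mul]; exact h1.symm
        exact mul_right_cancel this
      have h3 : g * h * (h * g)⁻¹ = 1 := by rw [mul_inv_rev, ← mul_assoc]; exact h2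
      exact mul_inv_eq_one.1 h3
  · intro i
    exact FreeGroup.norm_of i

end Pool.Agent.TH54.BU
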