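import Mathlib

/-!
# The statement of the large exponent Burnside theorem with central extensions (helper54)
-/

set_option autoImplicit false

namespace Pool.Agent.TH54.BU

/-- the normal subgroup generated by the `p`-th powers -/
def powSub (G : Type*) [Group G] (p : ℕ) : Subgroup G :=
  Subgroup.normalClosure (Set.range fun g : G => g ^ p)

instance powSub_normal (G : Type*) [Group G] (p : ℕ) : (powSub G p).Normal :=
  Subgroup.normalClosure_normal

/-- for every set `I` the free group of exponent `p` on `I` has a central extension by an infinite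
cyclic group `⟨z⟩` in which the `p`-th powers of the elements outside `⟨z⟩` are powers of `z` with
exponent prime to `p`, and different generators do not commute -/
def Burn (p : ℕ) : Prop := ∀ I : Type, ∃ (A : Type) (_ : Group A) (z : A)
    (φ : A →* FreeGroup I ⧸ powSub (FreeGroup I) p),
    Function.Surjective φ ∧ φ.ker = Subgroup.zpowers z ∧ (∀ a, a * z = z * a) ∧
    ¬ IsOfFinOrder z ∧
    (∀ a : A, a ∉ Subgroup.zpowers z → ∃ k : ℤ, a ^ p = z ^ k ∧ ¬ (p : ℤ) ∣ k) ∧
    ∀ i j : I, i ≠ j → (FreeGroup.of i : FreeGroup I ⧸ powSub (FreeGroup I) p) * FreeGroup.of j ≠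
      FreeGroup.of j * FreeGroup.of i

end Pool.Agent.TH54.BU
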