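import Pool.Agent.TH54.BU.Rigid

set_option autoImplicit false

namespace Pool.Agent.TH54.BU

namespace LS

variable {G : Type*} [Group G] {H : GH G} {c θ T : ℕ} (L : LS H c θ T)

/-- the lifts of an edge `(v, w)` -/
def trE (n : ℕ) (M : Subgroup G) (v w x y : G) : Prop :=
  (H.d v w ≤ 1 ∧ ∃ m ∈ M, x = m * v ∧ y = m * w) ∨
  (∃ (j : L.ι) (t : ℤ), v⁻¹ * w = L.x j ^ t ∧ ∃ m ∈ M, ∃ e1 e2 : ℤ,
    x = m * v * L.x j ^ e1 ∧ y = m * v * L.x j ^ e2 ∧ (n : ℤ) ∣ e2 - e1 - t)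

variable {L}

theorem trE_mul {n : ℕ} {M : Subgroup G} {v w x y : G} (h : L.trE n M v w x y) {m : G}
    (hm : m ∈ M) : L.trE n M v w (m * x) (m * y) := by
  rcases h with ⟨h1, m', hm', rfl, rfl⟩ | ⟨j, t, h1, m', hm', e1, e2, rfl, rfl, hd⟩
  · exact Or.inl ⟨h1, m * m', M.mul_mem hm hm', by group, by group⟩
  · exact Or.inr ⟨j, t, h1, m * m', M.mul_mem hm hm', e1, e2, by group, by group, hd⟩

theorem trE_refl {E : GH G} {Θ : ℕ} (C : L.Cone E Θ) {n : ℕ} {M : Subgroup G} {v w : G}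
    (h : E.d v w ≤ 1) : L.trE n M v w v w := by
  unfold GH.d at h
  rw [C.le_one] at h
  rcases h with h | ⟨j, t, h⟩
  · exact Or.inl ⟨h, 1, M.one_mem, by group, by group⟩
  · refine Or.inr ⟨j, t, h, 1, M.one_mem, 0, t, by group, ?_, by simp⟩
    rw [← h]; group

theorem trE_le {E : GH G} {Θ : ℕ} (C : L.Cone E Θ) {n : ℕ} {M : Subgroup G} {v w x y : G}
    (h : L.trE n M v w x y) : E.d x y ≤ 1 := by
  rcases h with ⟨h1, m', hm', rfl, rfl⟩ | ⟨j, t, h1, m', hm', e1, e2, rfl, rfl, hd⟩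
  · rw [E.d_mul]
    unfold GH.d at h1 ⊢
    rw [C.le_one]
    exact Or.inl h1
  · unfold GH.d
    rw [C.le_one]
    refine Or.inr ⟨j, -e1 + e2, ?_⟩
    rw [zpow_add, zpow_neg]
    group

/-- projections are almost nonexpanding -/
theorem tr_D_le (i : L.ι) (u p q : G) : L.D i u p q ≤ H.d p q + c := by
  by_contra h
  push Not at h
  have := L.D_proj i u p q (by omega)
  omega

theorem trE_rot {n : ℕ} {M : Subgroup G} {v w x y : G} (h : L.trE n M v w x y) {A : ℕ}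
    (hA : T * (c + θ + 1) < A) {i : L.ι} {u : G} (hs : (A : ℤ) ≤ |L.s i u x y|) (l : ℤ) :
    L.trE n M v w x (L.rt i u (n * l) * y) := by
  rcases h with ⟨h1, m', hm', rfl, rfl⟩ | ⟨j, t, h1, m', hm', e1, e2, rfl, rfl, hd⟩
  · exfalso
    have h2 := L.rg_s_le i u (m' * v) (m' * w)
    have h3 := tr_D_le (L := L) i u (m' * v) (m' * w)
    rw [H.d_mul] at h3
    have h4 : T * L.D i u (m' * v) (m' * w) ≤ T * (c + θ + 1) :=
      Nat.mul_le_mul_left _ (by omega)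
    have h5 : ((T * L.D i u (m' * v) (m' * w) : ℕ) : ℤ) < (A : ℤ) := by exact_mod_cast h4.trans_lt hA
    push_cast at h5
    linarith
  · have h3 : θ < L.D i u (m' * v * L.x j ^ e1) (m' * v * L.x j ^ e2) := by
      apply L.rg_D_gt
      have h4 : T * θ ≤ T * (c + θ + 1) := Nat.mul_le_mul_left _ (by omega)
      have h5 : ((T * θ : ℕ) : ℤ) < (A : ℤ) := by exact_mod_cast h4.trans_lt hA
      linarith
    rw [L.rg_rot_line h3]
    refine Or.inr ⟨j, t, h1, m', hm', e1, e2 + n * l, rfl, rfl, ?_⟩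
    rw [show e2 + n * l - e1 - t = (e2 - e1 - t) + n * l by ring]
    exact dvd_add hd (dvd_mul_right _ _)

/-- a geodesic of the cone metric has at most one edge on a line -/
theorem tr_left {E : GH G} {Θ : ℕ} (C : L.Cone E Θ) {γ : ℕ → G} {n : ℕ} (hγ : E.Geod γ n)
    {k : ℕ} (hk : k < n) {i : L.ι} {u : G} (h : L.On i u (γ (k + 1))) :
    L.D i u (γ 0) (γ k) < Θ := by
  by_contra hc
  push Not at hc
  obtain ⟨k0, hk0, h1, -⟩ := C.e2 i u γ k (hγ.init hk.le) hc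
  have h2 := L.rg_on_le C h1 h
  rw [hγ.sub (show k0 ≤ k + 1 by omega) (by omega)] at h2
  omega

theorem tr_right {E : GH G} {Θ : ℕ} (C : L.Cone E Θ) {γ : ℕ → G} {n : ℕ} (hγ : E.Geod γ n)
    {k : ℕ} (hk : k < n) {i : L.ι} {u : G} (h : L.On i u (γ k)) :
    L.D i u (γ (k + 1)) (γ n) < Θ := by
  by_contra hc
  push Not at hc
  have hn : k + 1 + (n - (k + 1)) = n := by omega
  obtain ⟨k0, hk0, -, h1⟩ := C.e2 i u (fun m => γ (k + 1 + m)) (n - (k + 1))
    (hγ.tail (by omega)) (by simp only [Nat.add_zero]; rw [hn]; exact hc)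
  have h2 := L.rg_on_le C h h1
  rw [hγ.sub (show k ≤ k + 1 + (k0 + 1) by omega) (by omega)] at h2
  omega

/-- the lengths of the lifts of a big edge -/
theorem tr_len {i : L.ι} {t e : ℤ} {n B Θ : ℕ} (hT : 1 ≤ T) (hB : 2 * c + θ + 10 * Θ + 10 = B)
    (h1 : B ≤ H.len (L.x i ^ t)) (h2 : 2 * |t| < n + T * (2 * c + 1) + 4 * T * Θ)
    (hn : 20 * (T * B + 1) ≤ n) (hd : (n : ℤ) ∣ e - t) : B ≤ H.len (L.x i ^ e) := by
  obtain ⟨l, hl⟩ := hd
  rcases eq_or_ne l 0 with h0 | h0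
  · have : e = t := by rw [h0] at hl; linarith
    rw [this]; exact h1
  · have h3 : 1 ≤ |l| := Int.one_le_abs h0
    have h4 : (n : ℤ) ≤ |(n : ℤ) * l| := by
      rw [abs_mul, abs_of_nonneg (Int.natCast_nonneg n)]
      nlinarith [Int.natCast_nonneg n]
    have h5 : |(n : ℤ) * l| ≤ |e| + |t| := by
      rw [← hl]
      exact abs_sub _ _
    have h6 := L.rg_lin i e
    have h7 : T * (2 * c + 1) + 4 * T * Θ ≤ T * B := by
      rw [← hB]
      nlinarith
    have h7' : ((T : ℤ) * (2 * c + 1) + 4 * T * Θ) ≤ T * B := by exact_mod_cast h7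
    have hn' : 20 * ((T : ℤ) * B + 1) ≤ n := by exact_mod_cast hn
    have h8 : (T : ℤ) * B ≤ T * H.len (L.x i ^ e) := by
      have h9 : (0 : ℤ) ≤ (T : ℤ) * B := by positivity
      linarith
    have h9 : T * B ≤ T * H.len (L.x i ^ e) := by exact_mod_cast h8
    exact Nat.le_of_mul_le_mul_left h9 hT

variable (L)

theorem transfer {n : ℕ} {M : Subgroup G} [M.Normal] (F : L.Fil n M) {E : GH G} {Θ : ℕ}
    (C : L.Cone E Θ) {Q : GH (G ⧸ M)} (hQ1 : ∀ g : G, Q.len (g : G ⧸ M) ≤ E.len g)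
    (hQ2 : ∀ q : G ⧸ M, ∃ g : G, (g : G ⧸ M) = q ∧ E.len g = Q.len q)
    {γ : ℕ → G} {l : ℕ} (hγ : E.Geod γ l) (hQγ : Q.d (γ 0 : G ⧸ M) (γ l) = l)
    (hang : ∀ (i : L.ι) (u : G), 2 * |L.s i u (γ 0) (γ l)| < n + T * (2 * c + 1))
    {K' k : ℕ} (hk1 : K' + 2 ≤ k) (hk2 : k + 1 + (K' + 2) ≤ l)
    (hbig : 2 * c + θ + 10 * Θ + 10 ≤ H.d (γ k) (γ (k + 1)))
    {i : L.ι} (hi : (γ k)⁻¹ * γ (k + 1) ∈ Subgroup.zpowers (L.x i))
    (hn : (4 * K' + 20) * (T * (2 * c + θ + 10 * Θ + 10) + 1) + 24 * L.thr ≤ n) {g : G ⧸ M}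
    (h1 : Q.d (γ (k - (K' + 2)) : G ⧸ M) (g * γ (k - (K' + 2))) ≤ K')
    (h2 : Q.d (γ (k + 1 + (K' + 2)) : G ⧸ M) (g * γ (k + 1 + (K' + 2))) ≤ K') :
    ∃ j, j ≤ k + K' + 1 ∧ k ≤ j + K' + 1 ∧ ∃ g' : G, (g' : G ⧸ M) = g ∧
      (γ k)⁻¹ * g' * γ j ∈ Subgroup.zpowers (L.x i) := by
  have hT : 1 ≤ T := L.cl_T i
  set B : ℕ := 2 * c + θ + 10 * Θ + 10 with hB
  set w : ℕ := K' + 2 with hw
  obtain ⟨a, ha⟩ : ∃ a, a + w = k := ⟨k - w, by omega⟩
  set N : ℕ := 2 * w + 1 with hN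
  have ha' : k - w = a := by omega
  have hb' : k + 1 + w = a + N := by omega
  rw [ha'] at h1
  rw [hb'] at h2
  have haN : a + N ≤ l := by omega
  -- quotient distances
  have hQd : ∀ x y : G, Q.d (x : G ⧸ M) y ≤ E.d x y := by
    intro x y
    unfold GH.d
    rw [← QuotientGroup.mk_inv, ← QuotientGroup.mk_mul]
    exact hQ1 _
  have hQab : N ≤ Q.d (γ a : G ⧸ M) (γ (a + N)) := by
    have e1 := hQd (γ 0) (γ a)
    have e2 := hQd (γ (a + N)) (γ l)
    have e3 := hγ.sub (show 0 ≤ a by omega) (by omega)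
    have e4 := hγ.sub haN le_rfl
    have e5 := Q.d_tri (γ 0 : G ⧸ M) (γ a) (γ l)
    have e6 := Q.d_tri (γ a : G ⧸ M) (γ (a + N)) (γ l)
    omega
  -- lifts
  obtain ⟨v, hv, hvE⟩ := hQ2 ((γ (a + N) : G ⧸ M)⁻¹ * (g * γ (a + N)))
  obtain ⟨v1, hv1, hv1E⟩ := hQ2 ((γ a : G ⧸ M)⁻¹ * (g * γ a))
  have hvK : E.len v ≤ K' := by rw [hvE]; exact h2
  have hv1K : E.len v1 ≤ K' := by rw [hv1E]; exact h1
  set g0 : G := γ (a + N) * v * (γ (a + N))⁻¹ with hg0
  have hg0' : (g0 : G ⧸ M) = g := by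
    rw [hg0, QuotientGroup.mk_mul, QuotientGroup.mk_mul, QuotientGroup.mk_inv, hv]
    group
  set m1 : G := g0 * γ a * v1⁻¹ * (γ a)⁻¹ with hm1
  have hm1M : m1 ∈ M := by
    have : ((m1 : G) : G ⧸ M) = 1 := by
      rw [hm1, QuotientGroup.mk_mul, QuotientGroup.mk_mul, QuotientGroup.mk_mul,
        QuotientGroup.mk_inv, QuotientGroup.mk_inv, hg0', hv1]
      group
    exact (QuotientGroup.eq_one_iff _).1 this
  -- the polygon
  let P : ℕ → G := fun j => if j ≤ N then γ (a + j) else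
    if j ≤ 2 * N + 1 then g0 * γ (a + (2 * N + 1 - j)) else m1 * γ a
  have P1 : ∀ j, j ≤ N → P j = γ (a + j) := fun j hj => if_pos hj
  have P2 : ∀ j, N < j → j ≤ 2 * N + 1 → P j = g0 * γ (a + (2 * N + 1 - j)) := by
    intro j hj hj'
    simp only [P]
    rw [if_neg (by omega), if_pos hj']
  have P3 : P (2 * N + 2) = m1 * γ a := by
    simp only [P]
    rw [if_neg (by omega), if_neg (by omega)]
  let Rel : ℕ → G → G → Prop := fun j x y =>
    (j ≠ N → j ≠ 2 * N + 1 → L.trE n M (P j) (P (j + 1)) x y) ∧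
    ((j = N ∨ j = 2 * N + 1) → E.d x y ≤ K')
  have hAlt : T * (c + θ + 1) < T * B + 1 := by
    have : T * (c + θ + 1) ≤ T * B := Nat.mul_le_mul_left _ (by omega)
    omega
  have hTB : T * (2 * c + 1) ≤ T * B := Nat.mul_le_mul_left _ (by omega)
  have hTΘ : T * Θ ≤ T * B := Nat.mul_le_mul_left _ (by omega)
  have hmul : 20 * (T * B + 1) ≤ (4 * K' + 20) * (T * B + 1) := Nat.mul_le_mul_right _ (by omega)
  have hn20 : 20 * (T * B + 1) ≤ n := by omega
  obtain ⟨P', hRel, hclosed, hcls⟩ := L.close F (A := T * B + 1) (k := 2 * N + 2)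
    (by
      have : (2 * N + 2) * (T * B + 1) ≤ (4 * K' + 20) * (T * B + 1) :=
        Nat.mul_le_mul_right _ (by omega)
      omega)
    (by omega) Rel
    (by
      rintro j - m hm x y ⟨r1, r2⟩
      refine ⟨fun e1 e2 => trE_mul (r1 e1 e2) hm, fun e1 => ?_⟩
      rw [E.d_mul]
      exact r2 e1)
    (by
      rintro j - x y ⟨r1, r2⟩ i' u' hs l'
      refine ⟨fun e1 e2 => trE_rot (r1 e1 e2) hAlt hs l', fun e1 => ?_⟩
      have h3 : Θ < L.D i' u' x y := by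
        apply L.rg_D_gt
        have h4 : ((T * Θ : ℕ) : ℤ) < ((T * B + 1 : ℕ) : ℤ) := by
          exact_mod_cast Nat.lt_succ_of_le hTΘ
        linarith
      exact (L.rot_cone C (n := n) h3.le _).trans (r2 e1))
    P
    (by
      intro j hj
      refine ⟨fun e1 e2 => trE_refl C ?_, ?_⟩
      · rcases Nat.lt_or_ge j N with h3 | h3
        · rw [P1 j h3.le, P1 (j + 1) h3]
          exact hγ.1 (a + j) (by omega)
        · rw [P2 j (by omega) (by omega), P2 (j + 1) (by omega) (by omega), E.d_mul, E.d_comm]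
          have h4 : a + (2 * N + 1 - j) = a + (2 * N + 1 - (j + 1)) + 1 := by omega
          rw [h4]
          exact hγ.1 _ (by omega)
      · rintro (rfl | rfl)
        · rw [P1 N le_rfl, P2 (N + 1) (by omega) (by omega)]
          rw [show 2 * N + 1 - (N + 1) = N by omega]
          unfold GH.d
          rw [hg0, show (γ (a + N))⁻¹ * (γ (a + N) * v * (γ (a + N))⁻¹ * γ (a + N)) = v by group]
          exact hvK
        · rw [P3, P2 (2 * N + 1) (by omega) (by omega), Nat.sub_self, Nat.add_zero, E.d_comm]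
          unfold GH.d
          rw [hm1, show (g0 * γ a * v1⁻¹ * (γ a)⁻¹ * γ a)⁻¹ * (g0 * γ a) = v1 by group]
          exact hv1K)
    ⟨m1, hm1M, by rw [P3, P1 0 (by omega), Nat.add_zero]⟩
  -- classes
  have cls1 : ∀ j, j ≤ N → ((P' j : G) : G ⧸ M) = γ (a + j) := by
    intro j hj
    obtain ⟨m, hm, h3⟩ := hcls j (by omega)
    rw [h3, P1 j hj, QuotientGroup.mk_mul, (QuotientGroup.eq_one_iff m).2 hm, one_mul]
  have cls2 : ∀ j, j ≤ N → ((P' (2 * N + 1 - j) : G) : G ⧸ M) = g * γ (a + j) := by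
    intro j hj
    obtain ⟨m, hm, h3⟩ := hcls (2 * N + 1 - j) (by omega)
    rw [h3, P2 _ (by omega) (by omega), QuotientGroup.mk_mul, (QuotientGroup.eq_one_iff m).2 hm,
      one_mul, QuotientGroup.mk_mul, hg0']
    rw [show 2 * N + 1 - (2 * N + 1 - j) = j by omega]
  -- the two geodesics
  have geo1 : E.Geod P' N := by
    have st : ∀ j, j < N → E.d (P' j) (P' (j + 1)) ≤ 1 := fun j hj =>
      trE_le C ((hRel j (by omega)).1 (by omega) (by omega))
    refine ⟨st, ?_⟩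
    have e1 := E.rg_walk P' N st 0 N (by omega) le_rfl
    have e2 := hQd (P' 0) (P' N)
    rw [cls1 0 (by omega), cls1 N le_rfl, Nat.add_zero] at e2
    omega
  have geo2 : E.Geod (fun j => P' (2 * N + 1 - j)) N := by
    have st : ∀ j, j < N → E.d (P' (2 * N + 1 - j)) (P' (2 * N + 1 - (j + 1))) ≤ 1 := by
      intro j hj
      have h3 := trE_le C ((hRel (2 * N - j) (by omega)).1 (by omega) (by omega))
      rw [show 2 * N - j + 1 = 2 * N + 1 - j by omega] at h3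
      rw [show 2 * N + 1 - (j + 1) = 2 * N - j by omega, E.d_comm]
      exact h3
    refine ⟨st, ?_⟩
    have e1 := E.rg_walk (fun j => P' (2 * N + 1 - j)) N st 0 N (by omega) le_rfl
    have e2 := hQd (P' (2 * N + 1 - 0)) (P' (2 * N + 1 - N))
    rw [cls2 0 (by omega), cls2 N le_rfl, Nat.add_zero, Q.d_mul] at e2
    simp only [] at e1 ⊢
    omega
  have sh1 : E.d (P' N) (P' (N + 1)) ≤ K' := (hRel N (by omega)).2 (Or.inl rfl)
  have sh2 : E.d (P' (2 * N + 1)) (P' 0) ≤ K' := by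
    have := (hRel (2 * N + 1) (by omega)).2 (Or.inr rfl)
    rwa [hclosed] at this
  -- the big edge
  obtain ⟨t0, ht0⟩ := hi
  have ht0' : L.x i ^ t0 = (γ k)⁻¹ * γ (k + 1) := ht0
  have hbig' : B ≤ H.len (L.x i ^ t0) := by
    rw [ht0']; exact hbig
  have edge := (hRel w (by omega)).1 (by omega) (by omega)
  rw [P1 w (by omega), P1 (w + 1) (by omega), ha, show a + (w + 1) = k + 1 by omega] at edge
  obtain ⟨t, htx, m', hm', e1, e2, q1, q2, qd⟩ : ∃ t : ℤ, L.x i ^ t = (γ k)⁻¹ * γ (k + 1) ∧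
      ∃ m ∈ M, ∃ e1 e2 : ℤ, P' w = m * γ k * L.x i ^ e1 ∧ P' (w + 1) = m * γ k * L.x i ^ e2 ∧
        (n : ℤ) ∣ e2 - e1 - t := by
    rcases edge with ⟨h3, -⟩ | ⟨j, t, h3, m', hm', e1, e2, q1, q2, qd⟩
    · omega
    · have hij : i = j := by
        have h4 : θ < L.D i 1 (1 * L.x j ^ (0 : ℤ)) (1 * L.x j ^ t) := by
          rw [← h3, ← ht0']
          have h5 := L.D_self_line i (1 * L.x j ^ (0 : ℤ)) (1 * L.x i ^ t0) t0 (by group)
          have h6 : L.D i 1 (1 * L.x j ^ (0 : ℤ)) (1 * L.x i ^ t0) =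
              L.D i (1 * L.x j ^ (0 : ℤ)) (1 * L.x j ^ (0 : ℤ)) (1 * L.x i ^ t0) := by
            rw [show (1 : G) * L.x j ^ (0 : ℤ) = 1 by group]
          rw [h6, h5]
          unfold GH.d
          rw [show (1 * L.x j ^ (0 : ℤ))⁻¹ * (1 * L.x i ^ t0) = L.x i ^ t0 by group]
          omega
        exact (L.rg_same h4).1
      subst hij
      exact ⟨t, h3.symm, m', hm', e1, e2, q1, q2, qd⟩
  -- the angle
  have hk_l : k < l := by omega
  have on0 : L.On i (γ k) (γ k) := by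
    unfold LS.On
    rw [inv_mul_cancel]
    exact Subgroup.one_mem _
  have on1 : L.On i (γ k) (γ (k + 1)) := ⟨t0, ht0⟩
  have hst : L.s i (γ k) (γ k) (γ (k + 1)) = t := by
    unfold LS.s
    rw [← htx, inv_mul_cancel]
    have := L.shift i t 1
    rw [mul_one] at this
    rw [this]; ring
  have hleft := tr_left C hγ hk_l on1
  have hright := tr_right C hγ hk_l on0
  have hang' := hang i (γ k)
  have htb : 2 * |t| < n + T * (2 * c + 1) + 4 * T * Θ := by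
    have s1 := L.rg_s_add i (γ k) (γ 0) (γ k) (γ l)
    have s2 := L.rg_s_add i (γ k) (γ k) (γ (k + 1)) (γ l)
    rw [hst] at s2
    have b1 := L.rg_s_le i (γ k) (γ 0) (γ k)
    have b2 := L.rg_s_le i (γ k) (γ (k + 1)) (γ l)
    have b3 : ((T * L.D i (γ k) (γ 0) (γ k) : ℕ) : ℤ) ≤ ((T * Θ : ℕ) : ℤ) := by
      exact_mod_cast Nat.mul_le_mul_left T hleft.le
    have b4 : ((T * L.D i (γ k) (γ (k + 1)) (γ l) : ℕ) : ℤ) ≤ ((T * Θ : ℕ) : ℤ) := by
      exact_mod_cast Nat.mul_le_mul_left T hright.le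
    push_cast at b3 b4
    have ht : t = L.s i (γ k) (γ 0) (γ l) - L.s i (γ k) (γ 0) (γ k) -
        L.s i (γ k) (γ (k + 1)) (γ l) := by linarith
    have h3 : |t| ≤ |L.s i (γ k) (γ 0) (γ l)| + |L.s i (γ k) (γ 0) (γ k)| +
        |L.s i (γ k) (γ (k + 1)) (γ l)| := by
      rw [ht]
      calc |L.s i (γ k) (γ 0) (γ l) - L.s i (γ k) (γ 0) (γ k) -
          L.s i (γ k) (γ (k + 1)) (γ l)| ≤ |L.s i (γ k) (γ 0) (γ l) - L.s i (γ k) (γ 0) (γ k)| +
          |L.s i (γ k) (γ (k + 1)) (γ l)| := abs_sub _ _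
        _ ≤ _ := by
          have := abs_sub (L.s i (γ k) (γ 0) (γ l)) (L.s i (γ k) (γ 0) (γ k))
          linarith
    linarith
  have hlen : B ≤ H.len (L.x i ^ (e2 - e1)) :=
    tr_len (L := L) hT hB.symm (by rw [htx]; exact hbig) htb hn20 qd
  -- projections to the line Y = (i, P' w)
  have onw : L.On i (P' w) (P' w) := by
    unfold LS.On
    rw [inv_mul_cancel]
    exact Subgroup.one_mem _
  have hedge : (P' w)⁻¹ * P' (w + 1) = L.x i ^ (e2 - e1) := by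
    rw [q1, q2, zpow_sub]
    rw [show (m' * γ k * L.x i ^ e1)⁻¹ * (m' * γ k * L.x i ^ e2) =
      (L.x i ^ e1)⁻¹ * L.x i ^ e2 by group]
    exact ((Commute.refl (L.x i)).zpow_zpow e1 e2).inv_left.eq
  have onw1 : L.On i (P' w) (P' (w + 1)) := by
    unfold LS.On
    rw [hedge]
    exact Subgroup.zpow_mem_zpowers _ _
  have hDw : B ≤ L.D i (P' w) (P' w) (P' (w + 1)) := by
    rw [L.D_self_line i (P' w) (P' (w + 1)) (e2 - e1) hedge]
    unfold GH.d
    rw [hedge]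
    exact hlen
  have hl1 := tr_left C geo1 (show w < N by omega) onw1
  have hr1 := tr_right C geo1 (show w < N by omega) onw
  -- the short sides
  have s0 : L.D i (P' w) (P' 0) (P' (2 * N + 1)) < Θ := by
    by_contra hc
    push Not at hc
    obtain ⟨y, hy, hy'⟩ := L.rg_enter C hc
    have k1 := L.rg_on_le C hy onw
    have k2 := E.d_tri (P' 0) y (P' w)
    have k3 := geo1.sub (show 0 ≤ w by omega) (by omega)
    rw [E.d_comm] at sh2
    omega
  have sN : L.D i (P' w) (P' N) (P' (N + 1)) < Θ := by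
    by_contra hc
    push Not at hc
    obtain ⟨y, hy, hy'⟩ := L.rg_enter C hc
    have k1 := L.rg_on_le C onw1 hy
    have k2 := E.d_tri (P' (w + 1)) y (P' N)
    have k3 := geo1.sub (show w + 1 ≤ N by omega) le_rfl
    have k4 := E.d_comm y (P' N)
    omega
  have hbig2 : Θ ≤ L.D i (P' w) (P' (2 * N + 1)) (P' (N + 1)) := by
    have d1 := L.rg_D_tri i (P' w) (P' w) (P' 0) (P' (w + 1))
    have d2 := L.rg_D_tri i (P' w) (P' 0) (P' (2 * N + 1)) (P' (w + 1))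
    have d3 := L.rg_D_tri i (P' w) (P' (2 * N + 1)) (P' (N + 1)) (P' (w + 1))
    have d4 := L.rg_D_tri i (P' w) (P' (N + 1)) (P' N) (P' (w + 1))
    have c1 := L.rg_D_symm i (P' w) (P' 0) (P' w)
    have c2 := L.rg_D_symm i (P' w) (P' N) (P' (N + 1))
    have c3 := L.rg_D_symm i (P' w) (P' (w + 1)) (P' N)
    omega
  -- the edge of the second geodesic
  obtain ⟨j, hj, onj, -⟩ := C.e2 i (P' w) (fun j => P' (2 * N + 1 - j)) N geo2 (by
    simp only [Nat.sub_zero]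
    rw [show 2 * N + 1 - N = N + 1 by omega]
    exact hbig2)
  have hd1 := L.rg_on_le C onw onj
  have g1 := geo1.sub (show 0 ≤ w by omega) (by omega)
  have g2 := geo2.sub (show 0 ≤ j by omega) hj.le
  simp only [Nat.sub_zero] at g2 hd1 onj
  have k1 := E.d_tri (P' (2 * N + 1)) (P' 0) (P' (2 * N + 1 - j))
  have k2 := E.d_tri (P' 0) (P' w) (P' (2 * N + 1 - j))
  have k3 := E.d_tri (P' 0) (P' (2 * N + 1)) (P' w)
  have k4 := E.d_tri (P' (2 * N + 1)) (P' (2 * N + 1 - j)) (P' w)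
  have k5 := E.d_comm (P' 0) (P' (2 * N + 1))
  have k6 := E.d_comm (P' (2 * N + 1 - j)) (P' w)
  refine ⟨a + j, by omega, by omega, ?_⟩
  obtain ⟨mw, hmw, hPw⟩ := hcls w (by omega)
  obtain ⟨mj, hmj, hPj⟩ := hcls (2 * N + 1 - j) (by omega)
  rw [P1 w (by omega), ha] at hPw
  rw [P2 _ (by omega) (by omega), show 2 * N + 1 - (2 * N + 1 - j) = j by omega] at hPj
  refine ⟨mw⁻¹ * mj * g0, ?_, ?_⟩
  · rw [QuotientGroup.mk_mul, QuotientGroup.mk_mul, QuotientGroup.mk_inv,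
      (QuotientGroup.eq_one_iff mw).2 hmw, (QuotientGroup.eq_one_iff mj).2 hmj, hg0']
    simp
  · unfold LS.On at onj
    rw [hPj, hPw] at onj
    rw [show (γ k)⁻¹ * (mw⁻¹ * mj * g0) * γ (a + j) =
      (mw * γ k)⁻¹ * (mj * (g0 * γ (a + j))) by group]
    exact onj

end LS

end Pool.Agent.TH54.BU
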