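import Pool.Agent.TH54.BU.Rigid
import Pool.Agent.TH54.BU.Transfer

/-!
# Two consecutive big edges bound the number of elements of small displacement (helper647)
-/

set_option autoImplicit false

namespace Pool.Agent.TH54.BU

/-- sub-paths of geodesics are geodesics: distances -/
theorem cs1_geod {G : Type*} [Group G] {E : GH G} {γ : ℕ → G} {l : ℕ} (hγ : E.Geod γ l)
    {a b : ℕ} (hab : a ≤ b) (hb : b ≤ l) : E.d (γ a) (γ b) = b - a := by
  have up : ∀ m a : ℕ, a + m ≤ l → E.d (γ a) (γ (a + m)) ≤ m := by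
    intro m
    induction m with
    | zero => intro a _; simp [E.d_self]
    | succ m ih =>
      intro a ha
      have h1 := ih a (by omega)
      have h2 := hγ.1 (a + m) (by omega)
      have h3 := E.d_tri (γ a) (γ (a + m)) (γ (a + m + 1))
      rw [← add_assoc]
      omega
  have h1 := up (b - a) a (by omega)
  have h0 := up a 0 (by omega)
  have h2 := up (l - b) b (by omega)
  rw [show a + (b - a) = b by omega] at h1
  rw [show b + (l - b) = l by omega] at h2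
  rw [zero_add] at h0
  have h3 := E.d_tri (γ 0) (γ a) (γ l)
  have h4 := E.d_tri (γ a) (γ b) (γ l)
  have h5 := hγ.2
  omega

/-- sub-paths of geodesics are geodesics -/
theorem cs1_sub {G : Type*} [Group G] {E : GH G} {γ : ℕ → G} {l : ℕ} (hγ : E.Geod γ l)
    {a b : ℕ} (hab : a ≤ b) (hb : b ≤ l) : E.Geod (fun k => γ (a + k)) (b - a) := by
  refine ⟨fun i hi => ?_, ?_⟩
  · have := hγ.1 (a + i) (by omega)
    rwa [add_assoc] at this
  · have := cs1_geod hγ hab hb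
    simp only [add_zero]
    rw [show a + (b - a) = b by omega]
    exact this

namespace LS

variable {G : Type*} [Group G] {H : GH G} {c θ T : ℕ} (L : LS H c θ T)

theorem cs1_s_add (i : L.ι) (u p q r : G) : L.s i u p r = L.s i u p q + L.s i u q r := by
  unfold s; ring

theorem cs1_D_tri (i : L.ι) (u p q r : G) : L.D i u p r ≤ L.D i u p q + L.D i u q r := by
  unfold D
  rw [L.cs1_s_add i u p q r, zpow_add]
  exact H.len_mul _ _

theorem cs1_kappa (i : L.ι) (k : ℤ) : L.κ i (L.x i ^ k) = L.κ i 1 + k := by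
  have := L.shift i k 1
  rwa [mul_one] at this

/-- two points on a line -/
theorem cs1_D_on (i : L.ι) (u p q : G) (hp : L.On i u p) (hq : L.On i u q) :
    L.D i u p q = H.d p q := by
  obtain ⟨a, ha⟩ := hp
  obtain ⟨b, hb⟩ := hq
  simp only at ha hb
  unfold D s GH.d
  rw [← ha, ← hb, cs1_kappa, cs1_kappa]
  congr 1
  have hp' : p = u * L.x i ^ a := by rw [ha]; group
  have hq' : q = u * L.x i ^ b := by rw [hb]; group
  rw [hp', hq']
  rw [show L.κ i 1 + b - (L.κ i 1 + a) = -a + b by ring, zpow_add, zpow_neg]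
  group

theorem cs1_on_E {E : GH G} {Θ : ℕ} (C : L.Cone E Θ) {i : L.ι} {p q : G}
    (h : p⁻¹ * q ∈ Subgroup.zpowers (L.x i)) : E.d p q ≤ 1 := by
  obtain ⟨a, ha⟩ := h
  exact (C.le_one _).2 (Or.inr ⟨i, a, ha.symm⟩)

theorem cs1_on_on {i : L.ι} {u p q : G} (hp : L.On i u p) (hq : L.On i u q) :
    p⁻¹ * q ∈ Subgroup.zpowers (L.x i) := by
  have := (Subgroup.zpowers (L.x i)).mul_mem ((Subgroup.zpowers (L.x i)).inv_mem hp) hq
  rwa [show (u⁻¹ * p)⁻¹ * (u⁻¹ * q) = p⁻¹ * q by group] at this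

/-- the projections of the two ends of a geodesic piece all of whose edges are small -/
theorem cs1_proj {E : GH G} {Θ : ℕ} (C : L.Cone E Θ) {γ : ℕ → G} {l : ℕ} (hγ : E.Geod γ l)
    {a b S : ℕ} (hab : a ≤ b) (hb : b ≤ l)
    (hS : ∀ k, a ≤ k → k < b → H.d (γ k) (γ (k + 1)) ≤ S) (i : L.ι) (u : G) :
    L.D i u (γ a) (γ b) ≤ S + 2 * Θ := by
  by_contra hcon
  push Not at hcon
  have key : ∀ a' b', a ≤ a' → a' ≤ b' → b' ≤ b → Θ ≤ L.D i u (γ a') (γ b') →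
      ∃ k, a' ≤ k ∧ k < b' ∧ L.On i u (γ k) ∧ L.On i u (γ (k + 1)) := by
    intro a' b' h1 h2 h3 h4
    have hg := cs1_sub hγ h2 (h3.trans hb)
    obtain ⟨k, hk, ho1, ho2⟩ := C.e2 i u (fun k => γ (a' + k)) (b' - a') hg (by
      simp only [add_zero]
      rw [show a' + (b' - a') = b' by omega]
      exact h4)
    exact ⟨a' + k, by omega, by omega, ho1, by simpa [add_assoc] using ho2⟩
  obtain ⟨k, hk1, hk2, ho1, ho2⟩ := key a b le_rfl hab le_rfl (by omega)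
  have hd : L.D i u (γ k) (γ (k + 1)) ≤ S := by
    rw [L.cs1_D_on i u _ _ ho1 ho2]
    exact hS k hk1 hk2
  have hl : L.D i u (γ a) (γ k) < Θ := by
    by_contra h
    push Not at h
    obtain ⟨j, hj1, hj2, hj3, hj4⟩ := key a k le_rfl hk1 hk2.le h
    have h5 := L.cs1_on_E C (L.cs1_on_on hj3 ho2)
    have h6 := cs1_geod hγ (show j ≤ k + 1 by omega) (by omega)
    omega
  have hr : L.D i u (γ (k + 1)) (γ b) < Θ := by
    by_contra h
    push Not at h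
    obtain ⟨j, hj1, hj2, hj3, hj4⟩ := key (k + 1) b (by omega) hk2 le_rfl h
    have h5 := L.cs1_on_E C (L.cs1_on_on ho1 hj4)
    have h6 := cs1_geod hγ (show k ≤ j + 1 by omega) (by omega)
    omega
  have t1 := L.cs1_D_tri i u (γ a) (γ k) (γ b)
  have t2 := L.cs1_D_tri i u (γ k) (γ (k + 1)) (γ b)
  omega

end LS

/-- two consecutive big edges -/
theorem Setup.case1 {G : Type} [Group G] {H : GH G} {c θ T : ℕ} {L : LS H c θ T}
    {K B p L1 Θ n : ℕ} {E : GH G} {M : Subgroup G} [M.Normal] {Q : GH (G ⧸ M)}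
    (S : Setup L K B p L1 Θ n E M Q) {γ : ℕ → G} {l : ℕ} (hγ : E.Geod γ l)
    (hQγ : Q.d (γ 0 : G ⧸ M) (γ l) = l)
    (hang : ∀ (i : L.ι) (u : G), 2 * |L.s i u (γ 0) (γ l)| < n + T * (2 * c + 1))
    {K' k1 k2 : ℕ} (hk1 : K' + 2 ≤ k1) (hk : k1 < k2) (hk2 : k2 + 1 + (K' + 2) ≤ l)
    (hbig1 : 2 * c + θ + 10 * Θ + 10 ≤ H.d (γ k1) (γ (k1 + 1)))
    (hbig2 : 2 * c + θ + 10 * Θ + 10 ≤ H.d (γ k2) (γ (k2 + 1)))
    (hsmall : ∀ k, k1 < k → k < k2 → H.d (γ k) (γ (k + 1)) ≤ 2 * c + θ + 10 * Θ + 10)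
    (hn : (4 * K' + 20) * (T * (2 * c + 2 * θ + 20 * Θ + 20) + 1) + 24 * L.thr ≤ n) :
    {g : G ⧸ M | ∀ j, k1 - (K' + 2) ≤ j → j ≤ k2 + 1 + (K' + 2) →
      Q.d (γ j : G ⧸ M) (g * γ j) ≤ K'}.Finite ∧
    {g : G ⧸ M | ∀ j, k1 - (K' + 2) ≤ j → j ≤ k2 + 1 + (K' + 2) →
      Q.d (γ j : G ⧸ M) (g * γ j) ≤ K'}.ncard ≤ (2 * K' + 3) ^ 2 := by
  classical
  set W : Set (G ⧸ M) := {g : G ⧸ M | ∀ j, k1 - (K' + 2) ≤ j → j ≤ k2 + 1 + (K' + 2) →
      Q.d (γ j : G ⧸ M) (g * γ j) ≤ K'} with hW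
  -- the big edges lie on lines
  have line : ∀ k, k < l → 2 * c + θ + 10 * Θ + 10 ≤ H.d (γ k) (γ (k + 1)) →
      ∃ (i : L.ι), (γ k)⁻¹ * γ (k + 1) ∈ Subgroup.zpowers (L.x i) := by
    intro k hkl hb
    rcases (S.cone.le_one ((γ k)⁻¹ * γ (k + 1))).1 (hγ.1 k hkl) with h | ⟨i, t, ht⟩
    · exfalso
      unfold GH.d at hb
      omega
    · exact ⟨i, t, ht.symm⟩
  obtain ⟨i1, hi1⟩ := line k1 (by omega) hbig1
  obtain ⟨i2, hi2⟩ := line k2 (by omega) hbig2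
  have hn' : (4 * K' + 20) * (T * (2 * c + θ + 10 * Θ + 10) + 1) + 24 * L.thr ≤ n := by
    refine le_trans ?_ hn
    gcongr <;> omega
  -- transfer at the two edges
  have tr1 : ∀ g ∈ W, ∃ j, (j ≤ k1 + K' + 1 ∧ k1 ≤ j + K' + 1) ∧ ∃ g' : G, (g' : G ⧸ M) = g ∧
      (γ k1)⁻¹ * g' * γ j ∈ Subgroup.zpowers (L.x i1) := by
    intro g hg
    obtain ⟨j, h1, h2, h3⟩ := L.transfer S.fil S.cone S.le S.lift hγ hQγ hang hk1
      (by omega) hbig1 hi1 hn' (hg _ le_rfl (by omega)) (hg _ (by omega) (by omega))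
    exact ⟨j, ⟨h1, h2⟩, h3⟩
  have tr2 : ∀ g ∈ W, ∃ j, (j ≤ k2 + K' + 1 ∧ k2 ≤ j + K' + 1) ∧ ∃ g' : G, (g' : G ⧸ M) = g ∧
      (γ k2)⁻¹ * g' * γ j ∈ Subgroup.zpowers (L.x i2) := by
    intro g hg
    obtain ⟨j, h1, h2, h3⟩ := L.transfer S.fil S.cone S.le S.lift hγ hQγ hang
      (show K' + 2 ≤ k2 by omega)
      (by omega) hbig2 hi2 hn' (hg _ (by omega) (by omega)) (hg _ (by omega) (by omega))
    exact ⟨j, ⟨h1, h2⟩, h3⟩
  choose! J1 hJ1 g1 hg1 hz1 using tr1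
  choose! J2 hJ2 g2 hg2 hz2 using tr2
  -- the projections of the middle piece
  have hD : ∀ (i : L.ι) (u : G), L.D i u (γ (k1 + 1)) (γ k2) ≤
      2 * c + θ + 10 * Θ + 10 + 2 * Θ := by
    intro i u
    exact L.cs1_proj S.cone hγ (show k1 + 1 ≤ k2 by omega) (by omega)
      (fun k h1 h2 => hsmall k (by omega) h2) i u
  have hne : i1 = i2 → (γ (k1 + 1))⁻¹ * γ k2 ∉ Subgroup.zpowers (L.x i1) := by
    intro h12 hmem
    subst h12
    have h3 := (Subgroup.zpowers (L.x i1)).mul_mem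
      ((Subgroup.zpowers (L.x i1)).mul_mem hi1 hmem) hi2
    rw [show (γ k1)⁻¹ * γ (k1 + 1) * ((γ (k1 + 1))⁻¹ * γ k2) * ((γ k2)⁻¹ * γ (k2 + 1)) =
      (γ k1)⁻¹ * γ (k2 + 1) by group] at h3
    have h4 := L.cs1_on_E S.cone h3
    have h5 := cs1_geod hγ (show k1 ≤ k2 + 1 by omega) (by omega)
    omega
  have hn2 : 4 * (T * (2 * c + θ + 10 * Θ + 10 + 2 * Θ + θ + 1) + 1) + 24 * L.thr +
      T * (2 * c + 1) ≤ n := by
    refine le_trans ?_ hn
    have h1 : T * (2 * c + θ + 10 * Θ + 10 + 2 * Θ + θ + 1) ≤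
        T * (2 * c + 2 * θ + 20 * Θ + 20) := Nat.mul_le_mul_left _ (by omega)
    have h2 : T * (2 * c + 1) ≤ T * (2 * c + 2 * θ + 20 * Θ + 20) :=
      Nat.mul_le_mul_left _ (by omega)
    have h3 : 20 * (T * (2 * c + 2 * θ + 20 * Θ + 20) + 1) ≤
        (4 * K' + 20) * (T * (2 * c + 2 * θ + 20 * Θ + 20) + 1) :=
      Nat.mul_le_mul_right _ (by omega)
    omega
  -- elements with the same data are equal
  have inj : Set.InjOn (fun g => (J1 g, J2 g)) W := by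
    intro g hg h hh heq
    simp only [Prod.mk.injEq] at heq
    obtain ⟨e1, e2⟩ := heq
    have a1 := hz1 g hg
    have b1 := hz1 h hh
    have a2 := hz2 g hg
    have b2 := hz2 h hh
    rw [← e1] at b1
    rw [← e2] at b2
    have m1 := (Subgroup.zpowers (L.x i1)).mul_mem b1 ((Subgroup.zpowers (L.x i1)).inv_mem a1)
    have m2 := (Subgroup.zpowers (L.x i2)).mul_mem b2 ((Subgroup.zpowers (L.x i2)).inv_mem a2)
    rw [show (γ k1)⁻¹ * g1 h * γ (J1 g) * ((γ k1)⁻¹ * g1 g * γ (J1 g))⁻¹ =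
      (γ k1)⁻¹ * (g1 h * (g1 g)⁻¹) * γ k1 by group] at m1
    rw [show (γ k2)⁻¹ * g2 h * γ (J2 g) * ((γ k2)⁻¹ * g2 g * γ (J2 g))⁻¹ =
      (γ k2)⁻¹ * (g2 h * (g2 g)⁻¹) * γ k2 by group] at m2
    obtain ⟨r1, hr1⟩ := m1
    obtain ⟨r2, hr2⟩ := m2
    obtain ⟨t, ht⟩ := hi1
    simp only at hr1 hr2 ht
    have q1 : L.rt i1 (γ (k1 + 1)) r1 = g1 h * (g1 g)⁻¹ := by
      have hγ1 : γ (k1 + 1) = γ k1 * L.x i1 ^ t := by rw [ht]; group
      have hgg : g1 h * (g1 g)⁻¹ = γ k1 * L.x i1 ^ r1 * (γ k1)⁻¹ := by rw [hr1]; group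
      rw [hgg]
      unfold LS.rt
      rw [hγ1]
      rw [show γ k1 * L.x i1 ^ t * L.x i1 ^ r1 * (γ k1 * L.x i1 ^ t)⁻¹ =
        γ k1 * (L.x i1 ^ t * L.x i1 ^ r1 * (L.x i1 ^ t)⁻¹) * (γ k1)⁻¹ by group]
      congr 2
      rw [← zpow_neg, ← zpow_add, ← zpow_add]
      congr 1
      ring
    have q2 : L.rt i2 (γ k2) r2 = g2 h * (g2 g)⁻¹ := by
      unfold LS.rt
      rw [hr2]
      group
    have hq : (L.rt i1 (γ (k1 + 1)) r1 : G ⧸ M) = L.rt i2 (γ k2) r2 := by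
      rw [q1, q2]
      rw [QuotientGroup.mk_mul, QuotientGroup.mk_mul, QuotientGroup.mk_inv,
        QuotientGroup.mk_inv, hg1 g hg, hg1 h hh, hg2 g hg, hg2 h hh]
    have hone := L.rigid S.fil hne hD hn2 hq
    rw [q1, QuotientGroup.mk_mul, QuotientGroup.mk_inv, hg1 g hg, hg1 h hh] at hone
    exact (mul_inv_eq_one.1 hone).symm
  -- count
  set F : Finset (ℕ × ℕ) := Finset.Icc (k1 - (K' + 1)) (k1 + K' + 1) ×ˢ
    Finset.Icc (k2 - (K' + 1)) (k2 + K' + 1) with hF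
  have maps : Set.MapsTo (fun g => (J1 g, J2 g)) W (F : Set (ℕ × ℕ)) := by
    intro g hg
    have h1 := hJ1 g hg
    have h2 := hJ2 g hg
    simp only [hF, Finset.coe_product, Finset.coe_Icc, Set.mem_prod, Set.mem_Icc]
    omega
  have hcard : F.card = (2 * K' + 3) ^ 2 := by
    rw [hF, Finset.card_product, Nat.card_Icc, Nat.card_Icc, sq]
    congr 1 <;> omega
  refine ⟨Set.Finite.of_injOn maps inj F.finite_toSet, ?_⟩
  calc W.ncard ≤ (F : Set (ℕ × ℕ)).ncard :=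
        Set.ncard_le_ncard_of_injOn _ maps inj F.finite_toSet
    _ = (2 * K' + 3) ^ 2 := by rw [Set.ncard_coe_finset, hcard]

end Pool.Agent.TH54.BU
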