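import Pool.Agent.TH54.BU.CentA

/-!
# Centralizers: torsion and commutators
-/

set_option autoImplicit false

namespace Pool.Agent.TH54.BU

open Filter
open scoped commutatorElement

variable {G : Type*} [Group G]

/-- a quasi-morphism comparing with the length on the centralizer of `x` -/
structure QM (H : GH G) (x : G) (E : ℕ) (f : G → ℤ) : Prop where
  le : ∀ a, |f a| ≤ H.len a
  ge : ∀ a, a * x = x * a → (H.len a : ℤ) ≤ |f a| + E
  add : ∀ a b, a * x = x * a → b * x = x * b → |f (a * b) - f a - f b| ≤ H.D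

namespace QM

variable {H : GH G} {x : G} {E : ℕ} {f : G → ℤ}

theorem cmul {a b : G} (ha : a * x = x * a) (hb : b * x = x * b) : (a * b) * x = x * (a * b) :=
  Commute.mul_left (show Commute a x from ha) hb

theorem cinv {a : G} (ha : a * x = x * a) : a⁻¹ * x = x * a⁻¹ :=
  Commute.inv_left (show Commute a x from ha)

theorem cpow {a : G} (ha : a * x = x * a) (n : ℕ) : a ^ n * x = x * a ^ n :=
  Commute.pow_left (show Commute a x from ha) n

theorem czpow {a : G} (ha : a * x = x * a) (n : ℤ) : a ^ n * x = x * a ^ n :=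
  Commute.zpow_left (show Commute a x from ha) n

theorem ccom {a b : G} (ha : a * x = x * a) (hb : b * x = x * b) : ⁅a, b⁆ * x = x * ⁅a, b⁆ := by
  rw [commutatorElement_def]
  exact cmul (cmul (cmul ha hb) (cinv ha)) (cinv hb)

theorem f_one (q : QM H x E f) : f 1 = 0 := by
  have := q.le 1
  rw [H.len_one] at this
  exact abs_nonpos_iff.1 (by exact_mod_cast this)

theorem f_pow (q : QM H x E f) {a : G} (ha : a * x = x * a) (n : ℕ) :
    |f (a ^ n) - n * f a| ≤ n * H.D := by
  induction n with
  | zero => simp [q.f_one]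
  | succ n ih =>
    have h1 := q.add (a ^ n) a (cpow ha n) ha
    rw [pow_succ]
    rw [abs_le] at *
    push_cast
    constructor <;> nlinarith

theorem f_com (q : QM H x E f) {a b : G} (ha : a * x = x * a) (hb : b * x = x * b) :
    |f ⁅a, b⁆| ≤ 3 * H.D := by
  have h1 := q.add ⁅a, b⁆ (b * a) (ccom ha hb) (cmul hb ha)
  have h2 := q.add a b ha hb
  have h3 := q.add b a hb ha
  have e : ⁅a, b⁆ * (b * a) = a * b := by rw [commutatorElement_def]; group
  rw [e] at h1
  rw [abs_le] at *
  constructor <;> omega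

theorem len_com (q : QM H x E f) {a b : G} (ha : a * x = x * a) (hb : b * x = x * b) :
    H.len ⁅a, b⁆ ≤ 3 * H.D + E := by
  have h1 := q.ge _ (ccom ha hb)
  have h2 := q.f_com ha hb
  have : (H.len ⁅a, b⁆ : ℤ) ≤ (3 * H.D + E : ℕ) := by push_cast; linarith
  exact_mod_cast this

theorem mem_SD {K : ℕ} {a : G} (ha : a * x = x * a) (hl : H.len a ≤ K) (j : ℕ) :
    a ∈ H.SD K (x ^ j) := by
  refine ⟨hl, ?_⟩
  have : (x ^ j)⁻¹ * a * x ^ j = a := by
    have h : a * x ^ j = x ^ j * a := Commute.pow_right (show Commute a x from ha) j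
    rw [mul_assoc, h]; group
  rw [this]; exact hl

variable {K B N T : ℕ}

theorem torsion (q : QM H x E f) (hK : 4 * H.D + E ≤ K) (hS : H.Stab T) (hM : H.Mix K B N)
    (hx : ¬ IsOfFinOrder x) {a : G} (ha : a * x = x * a) (hf : IsOfFinOrder a) : a = 1 := by
  obtain ⟨j, hj⟩ := (H.pow_large hS hx B).exists
  obtain ⟨m, hm, hm1⟩ := isOfFinOrder_iff_pow_eq_one.1 hf
  have h1 := q.f_pow ha m
  rw [hm1, q.f_one, zero_sub, abs_neg, abs_mul, Nat.abs_cast] at h1
  have hm' : (0 : ℤ) < m := by exact_mod_cast hm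
  have h2 : |f a| ≤ H.D := le_of_mul_le_mul_left h1 hm'
  have h3 := q.ge a ha
  have h4 : H.len a ≤ K := by
    have : (H.len a : ℤ) ≤ (H.D + E : ℕ) := by push_cast; linarith
    have : H.len a ≤ H.D + E := by exact_mod_cast this
    omega
  exact (hM _ hj).1 a (mem_SD ha h4 j) hf

theorem comm (q : QM H x E f) (hK : 4 * H.D + E ≤ K) (hS : H.Stab T) (hM : H.Mix K B N)
    (hx : ¬ IsOfFinOrder x) {a b : G} (ha : a * x = x * a) (hb : b * x = x * b) :
    a * b = b * a := by
  obtain ⟨j, hj⟩ := (H.pow_large hS hx B).exists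
  have hcomK : ∀ {c d : G}, c * x = x * c → d * x = x * d → ⁅c, d⁆ ∈ H.SD K (x ^ j) := by
    intro c d hc hd
    exact mem_SD (ccom hc hd) ((q.len_com hc hd).trans (by omega)) j
  by_contra hne
  have hw : ⁅a, b⁆ ≠ 1 := by
    intro h
    exact hne (commutatorElement_eq_one_iff_mul_comm.1 h)
  have hwinf : ¬ IsOfFinOrder ⁅a, b⁆ := fun h => hw (q.torsion hK hS hM hx (ccom ha hb) h)
  rcases (hM _ hj).2 with hA | ⟨hB, -⟩
  · -- pairwise commuting
    set w : G := ⁅a, b⁆ with hwdef
    have hwc : w * x = x * w := ccom ha hb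
    have hkey : ∀ m : ℕ, |f (w ^ m)| ≤ 7 * H.D := by
      intro m
      rcases Nat.eq_zero_or_pos m with hm | hm
      · subst hm; simp [q.f_one]
      have hstep : ∀ n : ℕ, |f (⁅a ^ n, b⁆ ^ m) - n * f (w ^ m)| ≤ n * (3 * H.D) := by
        intro n
        induction n with
        | zero => simp [q.f_one]
        | succ n ih =>
          set wn : G := a ^ n * w * (a ^ n)⁻¹ with hwn
          have hanc := cpow ha n
          have e1 : ⁅a ^ (n + 1), b⁆ = wn * ⁅a ^ n, b⁆ := by
            rw [hwn, hwdef, commutatorElement_def, commutatorElement_def, commutatorElement_def]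
            group
          have e2 : wn = ⁅a, a ^ n * b * (a ^ n)⁻¹⁆ := by
            rw [hwn, hwdef, commutatorElement_def, commutatorElement_def]
            have : a * a ^ n = a ^ n * a := (pow_mul_comm' a n).symm
            group
          have hwnc : wn * x = x * wn := cmul (cmul hanc hwc) (cinv hanc)
          have m1 : wn ∈ H.SD K (x ^ j) := by
            rw [e2]; exact hcomK ha (cmul (cmul hanc hb) (cinv hanc))
          have m2 : ⁅a ^ n, b⁆ ∈ H.SD K (x ^ j) := hcomK hanc hb
          have hc : Commute wn ⁅a ^ n, b⁆ := hA _ m1 _ m2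
          rw [e1, hc.mul_pow]
          have g1 := q.add (wn ^ m) (⁅a ^ n, b⁆ ^ m) (cpow hwnc m) (cpow (ccom hanc hb) m)
          have e3 : wn ^ m * a ^ n = a ^ n * w ^ m := by
            rw [hwn, conj_pow]; group
          have g2 := q.add (wn ^ m) (a ^ n) (cpow hwnc m) hanc
          have g3 := q.add (a ^ n) (w ^ m) hanc (cpow hwc m)
          rw [e3] at g2
          rw [abs_le] at *
          push_cast
          constructor <;> nlinarith
      have h1 := hstep m
      have h2 := q.f_pow (ccom (cpow ha m) hb) m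
      have h3 := q.f_com (cpow ha m) hb
      have hm' : (0 : ℤ) < m := by exact_mod_cast hm
      have h4 : (m : ℤ) * |f (w ^ m)| ≤ m * (7 * H.D) := by
        have e : (m : ℤ) * |f (w ^ m)| = |m * f (w ^ m)| := by rw [abs_mul, Nat.abs_cast]
        rw [e]
        have t1 : |(m : ℤ) * f ⁅a ^ m, b⁆| ≤ m * (3 * H.D) := by
          rw [abs_mul, Nat.abs_cast]
          exact mul_le_mul_of_nonneg_left h3 hm'.le
        rw [abs_le] at *
        constructor <;> nlinarith
      exact le_of_mul_le_mul_left h4 hm'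
    have h5 := hS w hwinf (T * (7 * H.D + E) + 1)
    have h6 := q.ge _ (cpow hwc (T * (7 * H.D + E) + 1))
    have h7 := hkey (T * (7 * H.D + E) + 1)
    have h8 : H.len (w ^ (T * (7 * H.D + E) + 1)) ≤ 7 * H.D + E := by
      have : (H.len (w ^ (T * (7 * H.D + E) + 1)) : ℤ) ≤ (7 * H.D + E : ℕ) := by
        push_cast; linarith
      exact_mod_cast this
    have h9 := Nat.mul_le_mul_left T h8
    omega
  · -- finitely many commutators
    set C : Subgroup G := Subgroup.centralizer {x} with hC
    have hCmem : ∀ c : C, (c : G) * x = x * c := by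
      intro c
      have := (Subgroup.mem_centralizer_iff.1 c.2) x rfl
      exact this.symm
    have hmemC : ∀ c : G, c * x = x * c → c ∈ C := by
      intro c hc
      rw [hC, Subgroup.mem_centralizer_iff]
      rintro y rfl
      exact hc.symm
    have hfin : (commutatorSet C).Finite := by
      apply Set.Finite.of_finite_image _ (Subtype.val_injective.injOn)
      apply hB.subset
      rintro _ ⟨c, ⟨c1, c2, rfl⟩, rfl⟩
      have : ((⁅c1, c2⁆ : C) : G) = ⁅(c1 : G), (c2 : G)⁆ := rfl
      rw [this]
      exact hcomK (hCmem c1) (hCmem c2)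
    have : Finite (commutatorSet C) := hfin
    have : Finite (_root_.commutator C) := inferInstance
    let a' : C := ⟨a, hmemC a ha⟩
    let b' : C := ⟨b, hmemC b hb⟩
    have hw' : ⁅a', b'⁆ ∈ _root_.commutator C :=
      Subgroup.commutator_mem_commutator (Subgroup.mem_top _) (Subgroup.mem_top _)
    have h1 : IsOfFinOrder (⟨⁅a', b'⁆, hw'⟩ : _root_.commutator C) := isOfFinOrder_of_finite _
    have h2 : IsOfFinOrder (⁅a', b'⁆ : C) := by
      have := MonoidHom.isOfFinOrder (Subgroup.subtype (_root_.commutator C)) h1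
      exact this
    have h3 : IsOfFinOrder (⁅a, b⁆ : G) := by
      have := MonoidHom.isOfFinOrder (Subgroup.subtype C) h2
      exact this
    exact hwinf h3

end QM

end Pool.Agent.TH54.BU
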