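import Pool.Agent.TH54.BU.Axial
import Pool.Agent.TH54.BU.CentB

/-!
# Centralizers of elements of infinite order are infinite cyclic
-/

set_option autoImplicit false

namespace Pool.Agent.TH54.BU

open Filter Topology

variable {G : Type*} [Group G]

namespace QM

variable {H : GH G} {x : G} {E : ℕ} {f : G → ℤ} {K B N T : ℕ}

theorem exists_hom (q : QM H x E f) (hS : H.Stab T) :
    ∃ ψ : G → ℝ, (∀ a, a * x = x * a → ¬ IsOfFinOrder a → 1 / (T : ℝ) ≤ |ψ a|) ∧
      ∀ a b, a * x = x * a → b * x = x * b → a * b = b * a → ψ (a * b) = ψ a + ψ b := by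
  have hlim : ∀ a : G, ∃ y : ℝ, Tendsto (fun m : ℕ => (f (a ^ m) : ℝ) / m)
      (hyperfilter ℕ : Filter ℕ) (𝓝 y) := by
    intro a
    have hcpt : IsCompact (Set.Icc (-(H.len a : ℝ)) (H.len a)) := isCompact_Icc
    have hmem : Set.Icc (-(H.len a : ℝ)) (H.len a) ∈
        Ultrafilter.map (fun m : ℕ => (f (a ^ m) : ℝ) / m) (hyperfilter ℕ) := by
      rw [Ultrafilter.mem_map]
      apply Filter.mem_of_superset Filter.univ_mem
      intro m _
      have h1 : ∀ n : ℕ, H.len (a ^ n) ≤ n * H.len a := by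
        intro n
        induction n with
        | zero => simp [H.len_one]
        | succ n ih =>
          rw [pow_succ, add_mul, one_mul]
          exact (H.len_mul _ _).trans (by omega)
      have h2 : |f (a ^ m)| ≤ ((m * H.len a : ℕ) : ℤ) := (q.le (a ^ m)).trans (by exact_mod_cast h1 m)
      have h3 : |(f (a ^ m) : ℝ)| ≤ m * H.len a := by exact_mod_cast h2
      show (f (a ^ m) : ℝ) / m ∈ Set.Icc (-(H.len a : ℝ)) (H.len a)
      rw [Set.mem_Icc, ← abs_le, abs_div, Nat.abs_cast]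
      rcases Nat.eq_zero_or_pos m with hm | hm
      · subst hm; simp
      · rw [div_le_iff₀ (by exact_mod_cast hm)]
        linarith
    obtain ⟨y, -, hy⟩ := hcpt.ultrafilter_le_nhds' _ hmem
    exact ⟨y, hy⟩
  choose ψ hψ using hlim
  have hD : ∀ c : ℝ, Tendsto (fun m : ℕ => c / (m : ℝ)) (hyperfilter ℕ : Filter ℕ) (𝓝 0) :=
    fun c => (tendsto_const_div_atTop_nhds_zero_nat c).mono_left Nat.hyperfilter_le_atTop
  have hpos : ∀ᶠ m : ℕ in (hyperfilter ℕ : Filter ℕ), 0 < m :=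
    (eventually_gt_atTop 0).filter_mono Nat.hyperfilter_le_atTop
  refine ⟨ψ, ?_, ?_⟩
  · intro a ha hinf
    have hT : 0 < T := by
      have h1 := hS a hinf 1
      rcases Nat.eq_zero_or_pos T with h | h
      · subst h; omega
      · exact h
    have hT' : (0 : ℝ) < T := by exact_mod_cast hT
    have h1 : Tendsto (fun m : ℕ => |(f (a ^ m) : ℝ) / m| + E / (m : ℝ))
        (hyperfilter ℕ : Filter ℕ) (𝓝 (|ψ a| + 0)) := ((hψ a).abs).add (hD E)
    rw [add_zero] at h1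
    refine ge_of_tendsto h1 ?_
    filter_upwards [hpos] with m hm
    have hm' : (0 : ℝ) < m := by exact_mod_cast hm
    rw [abs_div, Nat.abs_cast, ← add_div, div_le_div_iff₀ hT' hm', one_mul]
    have h2 := q.ge _ (cpow ha m)
    have h3 := hS a hinf m
    have h2' : (H.len (a ^ m) : ℝ) ≤ |(f (a ^ m) : ℝ)| + E := by exact_mod_cast h2
    have h3' : (m : ℝ) ≤ T * H.len (a ^ m) := by exact_mod_cast h3
    nlinarith
  · intro a b ha hb hab
    have h1 : Tendsto (fun m : ℕ => (f ((a * b) ^ m) : ℝ) / m - (f (a ^ m) : ℝ) / m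
        - (f (b ^ m) : ℝ) / m) (hyperfilter ℕ : Filter ℕ) (𝓝 (ψ (a * b) - ψ a - ψ b)) :=
      ((hψ (a * b)).sub (hψ a)).sub (hψ b)
    have h2 : Tendsto (fun m : ℕ => (f ((a * b) ^ m) : ℝ) / m - (f (a ^ m) : ℝ) / m
        - (f (b ^ m) : ℝ) / m) (hyperfilter ℕ : Filter ℕ) (𝓝 0) := by
      apply squeeze_zero_norm' _ (hD H.D)
      filter_upwards [hpos] with m hm
      have hm' : (0 : ℝ) < m := by exact_mod_cast hm
      have hc : Commute a b := hab
      rw [Real.norm_eq_abs, ← sub_div, ← sub_div, abs_div, Nat.abs_cast]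
      apply div_le_div_of_nonneg_right _ hm'.le
      rw [hc.mul_pow]
      have := q.add _ _ (cpow ha m) (cpow hb m)
      exact_mod_cast this
    have := tendsto_nhds_unique h1 h2
    linarith

end QM

theorem QM.cyc {H : GH G} {x : G} {E : ℕ} {f : G → ℤ} {K B N T : ℕ} (q : QM H x E f)
    (hK : 4 * H.D + E ≤ K) (hS : H.Stab T) (hM : H.Mix K B N) (hx : ¬ IsOfFinOrder x) :
    ∃ y : G, Prim y ∧ x ∈ Subgroup.zpowers y := by
  obtain ⟨ψ, h1, h2⟩ := q.exists_hom hS
  have hT : 0 < T := by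
    have h1 := hS x hx 1
    rcases Nat.eq_zero_or_pos T with h | h
    · subst h; omega
    · exact h
  have hT' : (0 : ℝ) < 1 / T := by positivity
  set C : Subgroup G := Subgroup.centralizer {x} with hC
  have hCmem : ∀ c : C, (c : G) * x = x * c := by
    intro c
    have := (Subgroup.mem_centralizer_iff.1 c.2) x rfl
    exact this.symm
  have hmemC : ∀ c : G, c * x = x * c → c ∈ C := by
    intro c hc
    rw [hC, Subgroup.mem_centralizer_iff]
    rintro y rfl
    exact hc.symm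
  have hcom : ∀ a b : C, (a : G) * b = b * a := fun a b =>
    q.comm hK hS hM hx (hCmem a) (hCmem b)
  let Φ : Additive C →+ ℝ := AddMonoidHom.mk' (fun c => ψ ((Additive.toMul c : C) : G))
    (fun a b => h2 _ _ (hCmem _) (hCmem _) (hcom _ _))
  have hΦ : ∀ c : C, Φ (Additive.ofMul c) = ψ c := fun c => rfl
  have hker : ∀ c : C, ψ c = 0 → c = 1 := by
    intro c hc
    by_contra hne
    have hne' : (c : G) ≠ 1 := fun h => hne (Subtype.ext h)
    have hinf : ¬ IsOfFinOrder (c : G) := fun h => hne' (q.torsion hK hS hM hx (hCmem c) h)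
    have := h1 c (hCmem c) hinf
    rw [hc, abs_zero] at this
    linarith
  have hdisj : Disjoint (Φ.range : Set ℝ) (Set.Ioo 0 (1 / (T : ℝ))) := by
    rw [Set.disjoint_left]
    rintro _ ⟨c, rfl⟩ ⟨hc0, hc1⟩
    have hcc : Φ c = ψ ((Additive.toMul c : C) : G) := rfl
    rw [hcc] at hc0 hc1
    have hinf : ¬ IsOfFinOrder ((Additive.toMul c : C) : G) := by
      intro h
      have h3 := q.torsion hK hS hM hx (hCmem _) h
      have h4 : (Additive.toMul c : C) = 1 := Subtype.ext h3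
      have h5 : Φ c = 0 := by
        have : c = 0 := h4
        rw [this, map_zero]
      rw [hcc] at h5
      linarith
    have := h1 _ (hCmem _) hinf
    rw [abs_of_pos hc0] at this
    linarith
  obtain ⟨b, hb⟩ := AddSubgroup.cyclic_of_isolated_zero hT' hdisj
  have hbmem : b ∈ Φ.range := by
    rw [hb]; exact AddSubgroup.subset_closure rfl
  obtain ⟨y0, hy0⟩ := hbmem
  set y : C := Additive.toMul y0 with hy
  have hgen : ∀ a : C, a ∈ Subgroup.zpowers y := by
    intro a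
    have h3 : Φ (Additive.ofMul a) ∈ Φ.range := ⟨_, rfl⟩
    rw [hb, AddSubgroup.mem_closure_singleton] at h3
    obtain ⟨k, hk⟩ := h3
    refine ⟨k, ?_⟩
    have h4 : Φ (Additive.ofMul (y ^ k * a⁻¹)) = 0 := by
      have e : Additive.ofMul (y ^ k * a⁻¹) = k • y0 - Additive.ofMul a := by
        rw [sub_eq_add_neg]; rfl
      rw [e, map_sub, map_zsmul, hy0, hk, sub_self]
    have h5 := hker (y ^ k * a⁻¹) h4
    exact mul_inv_eq_one.1 h5
  have hxy : x ∈ Subgroup.zpowers (y : G) := by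
    obtain ⟨k, hk⟩ := hgen ⟨x, hmemC x rfl⟩
    refine ⟨k, ?_⟩
    have := congrArg (Subtype.val) hk
    simpa using this
  refine ⟨y, ⟨?_, ?_⟩, hxy⟩
  · intro hf
    obtain ⟨k, hk⟩ := hxy
    apply hx
    rw [← hk]
    exact hf.zpow
  · intro a ha
    have hax : a * x = x * a := by
      obtain ⟨k, hk⟩ := hxy
      rw [← hk]
      exact Commute.zpow_right (show Commute a (y : G) from ha) k
    obtain ⟨k, hk⟩ := hgen ⟨a, hmemC a hax⟩
    refine ⟨k, ?_⟩
    have := congrArg (Subtype.val) hk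
    simpa using this

theorem GH.exists_QM (H : GH G) {T : ℕ} (hS : H.Stab T) {h : G} (hh : ¬ IsOfFinOrder h) :
    ∃ (u : G) (f : G → ℤ), QM H (u⁻¹ * h * u) (23 * H.D + 20) f ∧
      ¬ IsOfFinOrder (u⁻¹ * h * u) := by
  obtain ⟨u, hu⟩ := H.axial hS hh
  have hinf : ¬ IsOfFinOrder (u⁻¹ * h * u) := by
    intro hf
    apply hh
    have : IsConj (u⁻¹ * h * u) h := by
      rw [isConj_iff]; exact ⟨u, by group⟩
    obtain ⟨m, hm, hm1⟩ := isOfFinOrder_iff_pow_eq_one.1 hf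
    refine isOfFinOrder_iff_pow_eq_one.2 ⟨m, hm, ?_⟩
    have e : (u⁻¹ * h * u) ^ m = u⁻¹ * h ^ m * u := by
      have := conj_pow (i := m) (a := u⁻¹) (b := h)
      rwa [inv_inv] at this
    rw [e] at hm1
    have : h ^ m = u * (u⁻¹ * h ^ m * u) * u⁻¹ := by group
    rw [this, hm1]; group
  obtain ⟨f, f1, f2, f3⟩ := H.exists_qm hu hS hinf
  refine ⟨u, f, ⟨f1, ?_, f3⟩, hinf⟩
  intro a ha
  have := f2 a ha
  push_cast at this ⊢
  linarith

theorem GH.ct (H : GH G) {K B N T : ℕ} (hK : 100 * H.D + 100 ≤ K) (hS : H.Stab T)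
    (hM : H.Mix K B N) {h a b : G} (hh : ¬ IsOfFinOrder h) (ha : a * h = h * a)
    (hb : b * h = h * b) : a * b = b * a := by
  obtain ⟨u, f, q, hinf⟩ := H.exists_QM hS hh
  have hconj : ∀ c : G, c * h = h * c → (u⁻¹ * c * u) * (u⁻¹ * h * u) =
      (u⁻¹ * h * u) * (u⁻¹ * c * u) := by
    intro c hc
    have e1 : (u⁻¹ * c * u) * (u⁻¹ * h * u) = u⁻¹ * (c * h) * u := by group
    have e2 : (u⁻¹ * h * u) * (u⁻¹ * c * u) = u⁻¹ * (h * c) * u := by group
    rw [e1, e2, hc]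
  have h1 := q.comm (K := K) (by omega) hS hM hinf (hconj a ha) (hconj b hb)
  have e1 : a * b = u * ((u⁻¹ * a * u) * (u⁻¹ * b * u)) * u⁻¹ := by group
  have e2 : b * a = u * ((u⁻¹ * b * u) * (u⁻¹ * a * u)) * u⁻¹ := by group
  rw [e1, e2, h1]

theorem GH.cyc (H : GH G) {K B N T : ℕ} (hK : 100 * H.D + 100 ≤ K) (hS : H.Stab T)
    (hM : H.Mix K B N) {h : G} (hh : ¬ IsOfFinOrder h) :
    ∃ x : G, Prim x ∧ h ∈ Subgroup.zpowers x := by
  obtain ⟨u, f, q, hinf⟩ := H.exists_QM hS hh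
  obtain ⟨y, ⟨hy1, hy2⟩, k, hk⟩ := q.cyc (K := K) (by omega) hS hM hinf
  have hzp : ∀ n : ℤ, (u * y * u⁻¹) ^ n = u * y ^ n * u⁻¹ := fun n => conj_zpow
  refine ⟨u * y * u⁻¹, ⟨?_, ?_⟩, k, ?_⟩
  · intro hf
    apply hy1
    obtain ⟨m, hm, hm1⟩ := isOfFinOrder_iff_pow_eq_one.1 hf
    refine isOfFinOrder_iff_pow_eq_one.2 ⟨m, hm, ?_⟩
    rw [conj_pow] at hm1
    have : y ^ m = u⁻¹ * (u * y ^ m * u⁻¹) * u := by group
    rw [this, hm1]; group
  · intro a ha
    have h1 : (u⁻¹ * a * u) * y = y * (u⁻¹ * a * u) := by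
      have e1 : (u⁻¹ * a * u) * y = u⁻¹ * (a * (u * y * u⁻¹)) * u := by group
      have e2 : y * (u⁻¹ * a * u) = u⁻¹ * ((u * y * u⁻¹) * a) * u := by group
      rw [e1, e2, ha]
    obtain ⟨n, hn⟩ := hy2 _ h1
    refine ⟨n, ?_⟩
    change (u * y * u⁻¹) ^ n = a
    rw [hzp]
    change y ^ n = _ at hn
    rw [hn]; group
  · change (u * y * u⁻¹) ^ k = h
    change y ^ k = _ at hk
    rw [hzp, hk]; group

theorem GH.len_zpow (H : GH G) (x : G) (n : ℤ) : H.len (x ^ n) = H.len (x ^ n.natAbs) := by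
  rcases Int.natAbs_eq n with h | h
  · conv_lhs => rw [h]
    rw [zpow_natCast]
  · conv_lhs => rw [h]
    rw [zpow_neg, H.len_inv, zpow_natCast]

theorem GH.len_pow_le (H : GH G) (x : G) (n : ℕ) : H.len (x ^ n) ≤ n * H.len x := by
  induction n with
  | zero => simp [H.len_one]
  | succ n ih =>
    rw [pow_succ, add_mul, one_mul]
    exact (H.len_mul _ _).trans (by omega)

/-- if `u x^a u⁻¹ = x^b` then `|b| ≤ |a|` -/
theorem GH.conj_pow_le (H : GH G) {T : ℕ} (hS : H.Stab T) {x u : G} (hx : ¬ IsOfFinOrder x)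
    {a b : ℤ} (h : u * x ^ a * u⁻¹ = x ^ b) : b.natAbs ≤ a.natAbs := by
  by_contra hlt
  push Not at hlt
  have hk : ∀ k : ℕ, u ^ k * x ^ (a ^ k) * (u ^ k)⁻¹ = x ^ (b ^ k) := by
    intro k
    induction k with
    | zero => simp
    | succ k ih =>
      have e1 : u ^ (k + 1) * x ^ (a ^ (k + 1)) * (u ^ (k + 1))⁻¹ =
          u * (u ^ k * x ^ (a ^ k) * (u ^ k)⁻¹) ^ a * u⁻¹ := by
        rw [conj_zpow, ← zpow_mul, ← pow_succ]
        rw [pow_succ' u k]
        group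
      rw [e1, ih, ← zpow_mul, mul_comm, zpow_mul, ← conj_zpow, h, ← zpow_mul, ← pow_succ']
  have hlen : ∀ k : ℕ, b.natAbs ^ k ≤ T * (2 * (k * H.len u) + a.natAbs ^ k * H.len x) := by
    intro k
    have h1 := hS x hx (b.natAbs ^ k)
    have h2 : H.len (x ^ (b.natAbs ^ k)) = H.len (x ^ (b ^ k)) := by
      rw [H.len_zpow x (b ^ k), Int.natAbs_pow]
    have h3 : H.len (x ^ (a ^ k)) ≤ a.natAbs ^ k * H.len x := by
      rw [H.len_zpow x (a ^ k), Int.natAbs_pow]
      exact H.len_pow_le _ _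
    have h4 := H.len_mul (u ^ k * x ^ (a ^ k)) (u ^ k)⁻¹
    have h5 := H.len_mul (u ^ k) (x ^ (a ^ k))
    have h6 := H.len_pow_le u k
    rw [H.len_inv] at h4
    rw [hk k] at h4
    rw [h2] at h1
    refine h1.trans (Nat.mul_le_mul_left T ?_)
    omega
  -- growth
  rcases Nat.eq_zero_or_pos a.natAbs with ha | ha
  · rw [ha] at hlen hlt
    have hb1 : 1 ≤ b.natAbs := hlt
    have ha0 : a = 0 := Int.natAbs_eq_zero.1 ha
    rw [ha0, zpow_zero, mul_one, mul_inv_cancel] at h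
    have hb0 : b ≠ 0 := by
      intro hb; rw [hb] at hb1; simp at hb1
    exact hx (isOfFinOrder_iff_zpow_eq_one.2 ⟨b, hb0, h.symm⟩)
  · set α := a.natAbs with hα
    set β := b.natAbs with hβ
    have h1 : ∀ k : ℕ, (1 + 1 / (α : ℝ)) ^ k ≤ (2 * T * H.len u) * k + T * H.len x := by
      intro k
      have h2 := hlen k
      have h2' : (β : ℝ) ^ k ≤ T * (2 * (k * H.len u) + α ^ k * H.len x) := by exact_mod_cast h2
      have hα' : (1 : ℝ) ≤ α := by exact_mod_cast ha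
      have hβ' : (α : ℝ) + 1 ≤ β := by exact_mod_cast hlt
      have h3 : ((α : ℝ) + 1) ^ k ≤ (β : ℝ) ^ k := pow_le_pow_left₀ (by positivity) hβ' k
      have h4 : (1 + 1 / (α : ℝ)) ^ k = ((α : ℝ) + 1) ^ k / (α : ℝ) ^ k := by
        rw [← div_pow]; congr 1; field_simp
      have hαk : (1 : ℝ) ≤ (α : ℝ) ^ k := one_le_pow₀ hα'
      rw [h4, div_le_iff₀ (by positivity)]
      refine (h3.trans h2').trans ?_
      have h5 : (0 : ℝ) ≤ 2 * T * H.len u * k := by positivity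
      nlinarith [mul_le_mul_of_nonneg_left hαk h5]
    have hr : (1 : ℝ) < 1 + 1 / (α : ℝ) := by
      have : (0 : ℝ) < 1 / (α : ℝ) := by
        have : (0 : ℝ) < α := by exact_mod_cast ha
        positivity
      linarith
    have h6 : Tendsto (fun k : ℕ => ((2 * T * H.len u) * (k : ℝ) + T * H.len x) /
        (1 + 1 / (α : ℝ)) ^ k) atTop (𝓝 0) := by
      have t1 := (tendsto_pow_const_div_const_pow_of_one_lt 1 hr).const_mul (2 * T * H.len u : ℝ)
      have t2 := (tendsto_pow_const_div_const_pow_of_one_lt 0 hr).const_mul (T * H.len x : ℝ)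
      have t3 := t1.add t2
      simp only [mul_zero, add_zero] at t3
      refine t3.congr ?_
      intro k
      simp only [pow_one, pow_zero]
      ring
    have h7 := (h6.eventually (gt_mem_nhds (show (0 : ℝ) < 1 by norm_num))).exists
    obtain ⟨k, hk7⟩ := h7
    rw [div_lt_one (by positivity)] at hk7
    exact absurd (h1 k) (not_le.2 hk7)

theorem GH.nrm (H : GH G) {K B N T : ℕ} (hK : 100 * H.D + 100 ≤ K) (hS : H.Stab T)
    (hM : H.Mix K B N) {x u : G} (hx : Prim x) (hu : u ^ 2 = 1 → u = 1) {a b : ℤ} (ha : a ≠ 0)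
    (h : u * x ^ a * u⁻¹ = x ^ b) : u ∈ Subgroup.zpowers x := by
  obtain ⟨hx1, hx2⟩ := hx
  have h1 := H.conj_pow_le hS hx1 h
  have h' : u⁻¹ * x ^ b * u⁻¹⁻¹ = x ^ a := by rw [← h]; group
  have h2 := H.conj_pow_le hS hx1 h'
  have h3 : a.natAbs = b.natAbs := le_antisymm h2 h1
  have hinf : ∀ n : ℤ, n ≠ 0 → ¬ IsOfFinOrder (x ^ n) := by
    intro n hn hf
    obtain ⟨m, hm, hm1⟩ := isOfFinOrder_iff_zpow_eq_one.1 hf
    rw [← zpow_mul] at hm1
    exact hx1 (isOfFinOrder_iff_zpow_eq_one.2 ⟨n * m, mul_ne_zero hn hm, hm1⟩)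
  have hxn : ∀ n : ℤ, x * x ^ n = x ^ n * x := fun n => (Commute.self_zpow x n)
  rcases Int.natAbs_eq_natAbs_iff.1 h3 with hab | hab
  · -- `b = a`
    rw [← hab] at h
    have hc : u * x ^ a = x ^ a * u := by
      calc u * x ^ a = (u * x ^ a * u⁻¹) * u := by group
        _ = x ^ a * u := by rw [h]
    exact hx2 u (H.ct hK hS hM (hinf a ha) hc (hxn a))
  · -- `a = -b`
    have hc2 : u ^ 2 * x ^ a = x ^ a * u ^ 2 := by
      have hb : b = -a := by omega
      rw [hb, zpow_neg] at h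
      have e1 : u ^ 2 * x ^ a = u * (u * x ^ a * u⁻¹) * u⁻¹ * u ^ 2 := by
        rw [pow_two]; group
      have e2 : u * (x ^ a)⁻¹ * u⁻¹ = x ^ a := by
        have : u * (x ^ a)⁻¹ * u⁻¹ = (u * x ^ a * u⁻¹)⁻¹ := by group
        rw [this, h, inv_inv]
      rw [e1, h, e2]
    have hc3 := hx2 _ (H.ct hK hS hM (hinf a ha) hc2 (hxn a))
    obtain ⟨k, hk⟩ := hc3
    change x ^ k = u ^ 2 at hk
    rcases eq_or_ne k 0 with h0 | h0
    · rw [h0, zpow_zero] at hk
      rw [hu hk.symm]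
      exact Subgroup.one_mem _
    · have hc4 : u * x ^ k = x ^ k * u := by
        rw [hk, pow_two, mul_assoc]
      exact hx2 u (H.ct hK hS hM (hinf k h0) hc4 (hxn k))

end Pool.Agent.TH54.BU
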