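import Pool.Agent.TH54.BU.Local
import Pool.Agent.TH54.BU.Cent

/-! From mixed to full acylindricity. -/

set_option autoImplicit false

namespace Pool.Agent.TH54.BU

variable {G : Type*} [Group G]

/-- displacement of a power -/
theorem GH.dispB_pow (H : GH G) {g a : G} {R : ℕ} (ha : H.d a (g * a) ≤ R) (j : ℕ) :
    H.d a (g ^ j * a) ≤ j * R := by
  induction j with
  | zero => simp [H.d_self]
  | succ j ih =>
    have h1 := H.d_tri a (g ^ j * a) (g ^ (j + 1) * a)
    have h2 : H.d (g ^ j * a) (g ^ (j + 1) * a) = H.d a (g * a) := by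
      rw [pow_succ, mul_assoc, H.d_mul]
    rw [h2] at h1
    rw [Nat.succ_mul]
    omega

/-- displacement of a product -/
theorem GH.dispB_mul (H : GH G) {g h a : G} {R S : ℕ} (ha : H.d a (g * a) ≤ R)
    (hb : H.d a (h * a) ≤ S) : H.d a (g * h * a) ≤ R + S := by
  have h1 := H.d_tri a (g * a) (g * h * a)
  have h2 : H.d (g * a) (g * h * a) = H.d a (h * a) := by
    rw [mul_assoc, H.d_mul]
  omega

/-- displacement of the inverse -/
theorem GH.dispB_inv (H : GH G) {g a : G} {R : ℕ} (ha : H.d a (g * a) ≤ R) :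
    H.d a (g⁻¹ * a) ≤ R := by
  have h2 : H.d a (g⁻¹ * a) = H.d (g * a) (g * (g⁻¹ * a)) := by rw [H.d_mul]
  rw [h2, mul_inv_cancel_left, H.d_comm]
  exact ha

theorem GH.mixA (H : GH G) {K B N T : ℕ} (hK : 100 * H.D + 100 ≤ K) (hS : H.Stab T)
    (hM : H.Mix K B N) (R : ℕ) : H.Acy R (B + 8 * (N + 3) * R + 100 * H.D + 100) := by
  intro q hq
  have hfp1 : H.d 1 q = H.len q := H.d_one q
  obtain ⟨m, hm⟩ : ∃ m, m = 4 * ((N + 3) * R) + 10 * H.D + 10 := ⟨_, rfl⟩
  have hq' : B + 2 * m ≤ H.len q := by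
    rw [hm]
    have : 8 * (N + 3) * R = 2 * (4 * ((N + 3) * R)) := by ring
    omega
  obtain ⟨t1, h11, h12⟩ := H.between 1 q m (by omega)
  obtain ⟨t2, h21, h22⟩ := H.between t1 q (H.d t1 q - m) (by omega)
  have e1 : H.d 1 t1 + H.d t1 q = H.d 1 q := by omega
  have e2 : H.d 1 t2 + H.d t2 q = H.d 1 q := by
    have a1 := H.d_tri 1 t1 t2
    have a2 := H.d_tri 1 t2 q
    omega
  have f1 : m ≤ H.d 1 t1 := by omega
  have f2 : m ≤ H.d t1 q := by omega
  have f3 : m ≤ H.d 1 t2 := by omega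
  have f4 : m ≤ H.d t2 q := by omega
  have hlen : B ≤ H.len (t1⁻¹ * t2) := by
    change B ≤ H.d t1 t2
    omega
  -- transfer
  have key : ∀ w : G, H.d t1 (w * t1) ≤ 10 * H.D → H.d t2 (w * t2) ≤ 10 * H.D →
      t1⁻¹ * w * t1 ∈ H.SD K (t1⁻¹ * t2) := by
    intro w hw1 hw2
    constructor
    · have : H.d t1 (w * t1) = H.len (t1⁻¹ * w * t1) := by
        unfold GH.d; congr 1; group
      omega
    · have : H.d t2 (w * t2) = H.len ((t1⁻¹ * t2)⁻¹ * (t1⁻¹ * w * t1) * (t1⁻¹ * t2)) := by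
        unfold GH.d; congr 1; group
      omega
  have conj1 : ∀ w : G, t1⁻¹ * w * t1 = 1 → w = 1 := by
    intro w hw
    have : w = t1 * (t1⁻¹ * w * t1) * t1⁻¹ := by group
    rw [this, hw]; group
  have tors : ∀ w : G, IsOfFinOrder w → t1⁻¹ * w * t1 ∈ H.SD K (t1⁻¹ * t2) → w = 1 := by
    intro w hw hmem
    refine conj1 w ((hM _ hlen).1 _ hmem ?_)
    obtain ⟨n, hn, hn'⟩ := isOfFinOrder_iff_pow_eq_one.1 hw
    refine isOfFinOrder_iff_pow_eq_one.2 ⟨n, hn, ?_⟩
    have h3 := conj_pow (i := n) (a := t1⁻¹) (b := w)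
    rw [inv_inv] at h3
    rw [h3, hn']; group
  -- displacement at the two ends
  have dis : ∀ g ∈ H.SD R q, H.d 1 (g * 1) ≤ R ∧ H.d q (g * q) ≤ R := by
    intro g hg
    refine ⟨by rw [mul_one, H.d_one]; exact hg.1, ?_⟩
    have : H.d q (g * q) = H.len (q⁻¹ * g * q) := by unfold GH.d; congr 1; group
    rw [this]; exact hg.2
  have hNR : R ≤ (N + 3) * R := Nat.le_mul_of_pos_left _ (by omega)
  -- step 1
  have step1 : ∀ g ∈ H.SD R q, IsOfFinOrder g → g = 1 := by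
    intro g hg hfin
    obtain ⟨d1, d2⟩ := dis g hg
    have hno : ∀ t : G, ¬ ∀ n : ℕ, n ≤ H.d t (g ^ n * t) := by
      intro t ht
      obtain ⟨n, hn, hn'⟩ := isOfFinOrder_iff_pow_eq_one.1 hfin
      have := ht n
      rw [hn', one_mul, H.d_self] at this
      omega
    have g1 := (H.ts d1 d2 e1 (by omega) (by omega)).resolve_right (hno t1)
    have g2 := (H.ts d1 d2 e2 (by omega) (by omega)).resolve_right (hno t2)
    exact tors g hfin (key g g1 g2)
  intro g hg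
  refine ⟨step1 g hg, fun h hh => ?_⟩
  by_cases hg1 : g = 1
  · rw [hg1, one_mul, mul_one]
  by_cases hh1 : h = 1
  · rw [hh1, one_mul, mul_one]
  have ginf : ¬ IsOfFinOrder g := fun hc => hg1 (step1 g hg hc)
  have hinf : ¬ IsOfFinOrder h := fun hc => hh1 (step1 h hh hc)
  obtain ⟨dg1, dg2⟩ := dis g hg
  obtain ⟨dh1, dh2⟩ := dis h hh
  -- commutators of elements with small displacement
  have comm : ∀ u v : G, H.d 1 (u * 1) ≤ (N + 3) * R → H.d q (u * q) ≤ (N + 3) * R →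
      H.d 1 (v * 1) ≤ (N + 3) * R → H.d q (v * q) ≤ (N + 3) * R →
      t1⁻¹ * (u * v * u⁻¹ * v⁻¹) * t1 ∈ H.SD K (t1⁻¹ * t2) := by
    intro u v hu1 hu2 hv1 hv2
    refine key _ ?_ ?_
    · exact H.cm hu1 hu2 hv1 hv2 e1 (by omega) (by omega)
    · exact H.cm hu1 hu2 hv1 hv2 e2 (by omega) (by omega)
  rcases (hM _ hlen).2 with hcom | ⟨hfin, hcard⟩
  · -- commuting case
    by_contra hne
    have hw1 : g * h * g⁻¹ * h⁻¹ ≠ 1 := by
      intro hc
      apply hne
      calc g * h = (g * h * g⁻¹ * h⁻¹) * (h * g) := by group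
        _ = h * g := by rw [hc, one_mul]
    have hwm := comm g h (by omega) (by omega) (by omega) (by omega)
    have h3R : 3 * R ≤ (N + 3) * R := Nat.mul_le_mul_right _ (by omega)
    have c1 : H.d 1 (g * h * g⁻¹ * 1) ≤ (N + 3) * R := by
      have := H.dispB_mul (H.dispB_mul dg1 dh1) (H.dispB_inv dg1)
      omega
    have c2 : H.d q (g * h * g⁻¹ * q) ≤ (N + 3) * R := by
      have := H.dispB_mul (H.dispB_mul dg2 dh2) (H.dispB_inv dg2)
      omega
    have c3 : H.d 1 (h * g * h⁻¹ * 1) ≤ (N + 3) * R := by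
      have := H.dispB_mul (H.dispB_mul dh1 dg1) (H.dispB_inv dh1)
      omega
    have c4 : H.d q (h * g * h⁻¹ * q) ≤ (N + 3) * R := by
      have := H.dispB_mul (H.dispB_mul dh2 dg2) (H.dispB_inv dh2)
      omega
    have hm1 := comm g (g * h * g⁻¹) (by omega) (by omega) c1 c2
    have hm2 := comm (h * g * h⁻¹) h c3 c4 (by omega) (by omega)
    have i1 : g * (g * h * g⁻¹) * g⁻¹ * (g * h * g⁻¹)⁻¹ = g * (g * h * g⁻¹ * h⁻¹) * g⁻¹ := by
      group
    have i2 : (h * g * h⁻¹) * h * (h * g * h⁻¹)⁻¹ * h⁻¹ = h * (g * h * g⁻¹ * h⁻¹) * h⁻¹ := by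
      group
    rw [i1] at hm1
    rw [i2] at hm2
    generalize g * h * g⁻¹ * h⁻¹ = w at *
    have winf : ¬ IsOfFinOrder w := fun hc => hw1 (tors w hc hwm)
    have cc : ∀ v : G, t1⁻¹ * v * t1 ∈ H.SD K (t1⁻¹ * t2) → v * w = w * v := by
      intro v hv
      have h5 := hcom _ hv _ hwm
      have h6 : v * w = t1 * (t1⁻¹ * v * t1 * (t1⁻¹ * w * t1)) * t1⁻¹ := by group
      have h7 : w * v = t1 * (t1⁻¹ * w * t1 * (t1⁻¹ * v * t1)) * t1⁻¹ := by group
      rw [h6, h7, h5]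
    obtain ⟨x, hx, hwx⟩ := H.cyc hK hS hM winf
    obtain ⟨a, ha⟩ := Subgroup.mem_zpowers_iff.1 hwx
    have ha0 : a ≠ 0 := by
      rintro rfl
      rw [zpow_zero] at ha
      exact hw1 ha.symm
    have hxw : x * w = w * x := by
      rw [← ha]
      exact (Commute.refl x).zpow_right a
    have main : ∀ v : G, ¬ IsOfFinOrder v → t1⁻¹ * (v * w * v⁻¹) * t1 ∈ H.SD K (t1⁻¹ * t2) →
        v ∈ Subgroup.zpowers x := by
      intro v hv hvm
      have h8 := H.ct hK hS hM winf (cc _ hvm) hxw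
      obtain ⟨b, hb⟩ := Subgroup.mem_zpowers_iff.1 (hx.2 _ h8)
      refine H.nrm hK hS hM hx ?_ ha0 (b := b) ?_
      · intro hc
        exact absurd (isOfFinOrder_iff_pow_eq_one.2 ⟨2, by omega, hc⟩) hv
      · rw [ha, hb]
    obtain ⟨a1, ha1⟩ := Subgroup.mem_zpowers_iff.1 (main g ginf hm1)
    obtain ⟨a2, ha2⟩ := Subgroup.mem_zpowers_iff.1 (main h hinf hm2)
    apply hne
    rw [← ha1, ← ha2, ← zpow_add, ← zpow_add, add_comm]
  · -- finite case
    have hmaps : ∀ j ∈ Finset.range (N + 1),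
        t1⁻¹ * (g ^ j * h * (g ^ j)⁻¹ * h⁻¹) * t1 ∈ hfin.toFinset := by
      intro j hj
      rw [Set.Finite.mem_toFinset]
      have hj' : j ≤ N := by have := Finset.mem_range.1 hj; omega
      have hjR : j * R ≤ (N + 3) * R := Nat.mul_le_mul_right _ (by omega)
      have k1 := H.dispB_pow dg1 j
      have k2 := H.dispB_pow dg2 j
      exact comm (g ^ j) h (by omega) (by omega) (by omega) (by omega)
    have hcard' : hfin.toFinset.card < (Finset.range (N + 1)).card := by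
      rw [Finset.card_range, ← Set.ncard_eq_toFinset_card _ hfin]
      omega
    obtain ⟨i, hi, j, hj, hij, hEq⟩ :=
      Finset.exists_ne_map_eq_of_card_lt_of_maps_to hcard' hmaps
    have hE : g ^ i * h * (g ^ i)⁻¹ = g ^ j * h * (g ^ j)⁻¹ := by
      have h9 : t1 * (t1⁻¹ * (g ^ i * h * (g ^ i)⁻¹ * h⁻¹) * t1) * t1⁻¹ * h =
          t1 * (t1⁻¹ * (g ^ j * h * (g ^ j)⁻¹ * h⁻¹) * t1) * t1⁻¹ * h := by rw [hEq]
      have e3 : ∀ y : G, t1 * (t1⁻¹ * (y * h⁻¹) * t1) * t1⁻¹ * h = y := by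
        intro y; group
      rw [e3, e3] at h9
      exact h9
    -- a positive power of `g` commutes with `h`
    have fin : ∀ i j : ℕ, i < j → g ^ i * h * (g ^ i)⁻¹ = g ^ j * h * (g ^ j)⁻¹ → g * h = h * g := by
      intro i j hij hE
      obtain ⟨k, rfl⟩ := Nat.exists_eq_add_of_lt hij
      have h10 : h * g ^ (k + 1) = g ^ (k + 1) * h := by
        have h11 : g ^ (i + k + 1) = g ^ i * g ^ (k + 1) := by rw [← pow_add, add_assoc]
        rw [h11] at hE
        have h12 : g ^ i * h * (g ^ i)⁻¹ = g ^ i * (g ^ (k + 1) * h * (g ^ (k + 1))⁻¹) * (g ^ i)⁻¹ := by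
          rw [hE]; group
        have h13 : h = g ^ (k + 1) * h * (g ^ (k + 1))⁻¹ := by
          have := mul_right_cancel h12
          exact mul_left_cancel this
        calc h * g ^ (k + 1) = (g ^ (k + 1) * h * (g ^ (k + 1))⁻¹) * g ^ (k + 1) := by rw [← h13]
          _ = g ^ (k + 1) * h := by group
      have hinfp : ¬ IsOfFinOrder (g ^ (k + 1)) := by
        intro hc
        exact ginf (hc.of_pow (by omega))
      exact H.ct hK hS hM hinfp ((pow_succ' g (k + 1)).symm.trans (pow_succ g (k + 1))) h10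
    rcases Nat.lt_or_gt_of_ne hij with h14 | h14
    · exact fin i j h14 hE
    · exact fin j i h14 hE.symm

end Pool.Agent.TH54.BU
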