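import Pool.Agent.TH54.BU.Angle
import Pool.Agent.TH54.BU.Close

/-!
# Surviving elements, stable length and torsion of the quotient (job BU-SURV, helper367)
-/

set_option autoImplicit false

namespace Pool.Agent.TH54.BU

/-- powers of an element with the property `Sup` -/
theorem GH.surv_sup_pow {G : Type*} [Group G] (H : GH G) {c : ℕ} {z : G} (h : H.Sup c z)
    (m : ℕ) : m * H.len z ≤ H.len (z ^ m) + m * c := by
  induction m with
  | zero => simp
  | succ m ih =>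
    have := h m 1
    rw [pow_one] at this
    nlinarith

/-- length of powers -/
theorem GH.surv_len_pow {G : Type*} [Group G] (H : GH G) (z : G) (k : ℕ) :
    H.len (z ^ k) ≤ k * H.len z := by
  induction k with
  | zero => simp [H.len_one]
  | succ k ih =>
    have := H.len_mul (z ^ k) z
    rw [← pow_succ] at this
    nlinarith

namespace LS

variable {G : Type*} [Group G] {H : GH G} {c θ T : ℕ} (L : LS H c θ T)

theorem surv {n : ℕ} {M : Subgroup G} [M.Normal] (F : L.Fil n M) {E : GH G} {Θ : ℕ}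
    (C : L.Cone E Θ) (hn : T * (2 * c + 1) + 24 * L.thr ≤ n)
    {Q : GH (G ⧸ M)} (hQ : ∀ q : G ⧸ M, ∃ g : G, (g : G ⧸ M) = q ∧ E.len g = Q.len q)
    {z : G} (hz : H.CMin z) (hl : 4 * H.D + 4 ≤ H.len z) (hns : ¬ L.Short z)
    (hang : ∀ (i : L.ι) (u : G) (a b : ℤ),
      |L.s i u (z ^ a) (z ^ b)| + T * Θ + 12 * L.thr < n) (m : ℕ) :
    m ≤ (2 * (θ + 2 * Θ + 100 * (H.D + c + 1) + 2)) * Q.len ((z : G ⧸ M) ^ m) := by
  obtain ⟨g, hg1, hg2⟩ := hQ ((z : G ⧸ M) ^ m)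
  have hmem : g * (z ^ m)⁻¹ ∈ M := by
    have h1 : ((g * (z ^ m)⁻¹ : G) : G ⧸ M) = 1 := by
      rw [QuotientGroup.mk_mul, QuotientGroup.mk_inv, QuotientGroup.mk_pow, hg1]
      group
    exact (QuotientGroup.eq_one_iff _).1 h1
  have h1 : E.d 1 (z ^ m) ≤ Q.len ((z : G ⧸ M) ^ m) := by
    have := L.cone_min F C hn (p := 1) (q := z ^ m) (fun i u => by
      have := hang i u 0 m
      simpa using this) hmem
    rw [inv_mul_cancel_right, E.d_one g, hg2] at this
    exact this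
  set X := θ + 2 * Θ + 100 * (H.D + c + 1) with hX
  have h2 : H.d 1 (z ^ m) ≤ (H.len z + X + 1) * E.d 1 (z ^ m) := by
    have := C.e3 (H.len z + θ + 100 * (H.D + c + 1)) 1 (z ^ m) (fun i u => by
      have := L.ovz hz hl hns i u 0 m
      simpa using this)
    refine this.trans (Nat.mul_le_mul_right _ ?_)
    rw [hX]
    omega
  rw [H.d_one] at h2
  have h3 := H.surv_sup_pow (H.sup_of_cmin hz hl).1 m
  have h4 : m * (2 * H.D) * 2 ≤ m * H.len z := by
    have : 2 * H.D * 2 ≤ H.len z := by omega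
    nlinarith
  have h5 : m * H.len z ≤ 2 * ((H.len z + X + 1) * Q.len ((z : G ⧸ M) ^ m)) := by
    have : (H.len z + X + 1) * E.d 1 (z ^ m) ≤ (H.len z + X + 1) * Q.len ((z : G ⧸ M) ^ m) :=
      Nat.mul_le_mul_left _ h1
    omega
  have hz0 : 1 ≤ H.len z := by omega
  have h6 : H.len z + X + 1 ≤ H.len z * (X + 2) := by nlinarith
  have h7 : H.len z * m ≤ H.len z * ((2 * (X + 2)) * Q.len ((z : G ⧸ M) ^ m)) := by
    calc H.len z * m = m * H.len z := by ring
      _ ≤ 2 * ((H.len z + X + 1) * Q.len ((z : G ⧸ M) ^ m)) := h5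
      _ ≤ 2 * ((H.len z * (X + 2)) * Q.len ((z : G ⧸ M) ^ m)) :=
        Nat.mul_le_mul_left _ (Nat.mul_le_mul_right _ h6)
      _ = _ := by ring
  exact Nat.le_of_mul_le_mul_left h7 hz0

end LS

/-- every class of the quotient has a lift which is torsion or short, or has linear growth -/
theorem Setup.surv_cases {G : Type} [Group G] {H : GH G} {c θ T : ℕ} {L : LS H c θ T}
    {K B p L1 Θ n : ℕ} {E : GH G} {M : Subgroup G} [M.Normal] {Q : GH (G ⧸ M)}
    (S : Setup L K B p L1 Θ n E M Q)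
    (hn : 4 * T * (1000 * (H.D + c + θ + 1)) + 4 * T * Θ + 48 * L.thr + 4 ≤ n) (q : G ⧸ M) :
    (∃ g : G, (g : G ⧸ M) = q ∧ (IsOfFinOrder g ∨ L.Short g)) ∨
      ∀ m : ℕ, m ≤ (2 * (θ + 2 * Θ + 100 * (H.D + c + 1) + 2)) * Q.len (q ^ m) := by
  classical
  -- the conjugates of the lifts
  have hex : ∃ k : ℕ, ∃ g u : G, (g : G ⧸ M) = q ∧ H.len (u⁻¹ * g * u) = k := by
    obtain ⟨g, hg, -⟩ := S.lift q
    exact ⟨_, g, 1, hg, rfl⟩
  obtain ⟨g, u, hg, hk⟩ := Nat.find_spec hex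
  have hmin : ∀ g' u' : G, (g' : G ⧸ M) = q → H.len (u⁻¹ * g * u) ≤ H.len (u'⁻¹ * g' * u') := by
    intro g' u' h'
    rw [hk]
    exact Nat.find_min' hex ⟨g', u', h', rfl⟩
  set z := u⁻¹ * g * u with hz
  have hgz : g = u * z * u⁻¹ := by rw [hz]; group
  have hzM : ∀ m ∈ M, ∀ v : G, H.len z ≤ H.len (v⁻¹ * (m * z) * v) := by
    intro m hm v
    have h1 : ((u * m * u⁻¹ * g : G) : G ⧸ M) = q := by
      have h2 : ((u * m * u⁻¹ : G) : G ⧸ M) = 1 :=
        (QuotientGroup.eq_one_iff _).2 (S.fil.normal.conj_mem m hm u)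
      rw [QuotientGroup.mk_mul, h2, one_mul, hg]
    have := hmin (u * m * u⁻¹ * g) (u * v) h1
    rwa [show (u * v)⁻¹ * (u * m * u⁻¹ * g) * (u * v) = v⁻¹ * (m * z) * v by
      rw [hz]; group] at this
  have hzC : H.CMin z := by
    intro v
    have := hzM 1 M.one_mem v
    rwa [one_mul] at this
  by_cases hf : IsOfFinOrder z
  · left
    refine ⟨g, hg, Or.inl ?_⟩
    rw [hgz]
    have := (MulAut.conj u).toMonoidHom.isOfFinOrder hf
    simpa using this
  by_cases hs : L.Short z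
  · left
    refine ⟨g, hg, Or.inr ?_⟩
    obtain ⟨i, v, k, hv⟩ := hs
    refine ⟨i, u * v, k, ?_⟩
    rw [hgz, hv]
    group
  right
  have hlen : 4 * H.D + 4 ≤ H.len z := by
    by_contra hcon
    have h1 := S.hL1
    exact hs (S.short z hf (by omega))
  have hthr : L.thr = T * (2 * c + θ + 1) := rfl
  have hn1 : T * (2 * c + 1) + 24 * L.thr ≤ n := by
    have : T * (2 * c + 1) ≤ L.thr := by
      rw [hthr]
      exact Nat.mul_le_mul_left _ (by omega)
    omega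
  have e1 : 4 * T * (1000 * (H.D + c + θ + 1)) = 4 * (T * (1000 * (H.D + c + θ + 1))) := by ring
  have e2 : 4 * T * Θ = 4 * (T * Θ) := by ring
  rw [e1, e2] at hn
  have hang : ∀ (i : L.ι) (v : G) (a b : ℤ),
      |L.s i v (z ^ a) (z ^ b)| + T * Θ + 12 * L.thr < n := by
    intro i v a b
    have h1 := L.angle S.fil.rot hzM hlen hs (by omega) i v a b
    have h2 : (4 * ((T : ℤ) * (1000 * (H.D + c + θ + 1))) + 4 * ((T : ℤ) * Θ) + 48 * L.thr + 4)
        ≤ n := by exact_mod_cast hn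
    have h3 : (0 : ℤ) ≤ (T : ℤ) * (1000 * (H.D + c + θ + 1)) := by positivity
    have h4 : (0 : ℤ) ≤ (T : ℤ) * Θ := by positivity
    have h5 : (0 : ℤ) ≤ (L.thr : ℤ) := by positivity
    linarith
  intro m
  set Te := 2 * (θ + 2 * Θ + 100 * (H.D + c + 1) + 2) with hTe
  have hsurv : ∀ m : ℕ, m ≤ Te * Q.len ((z : G ⧸ M) ^ m) := fun m =>
    L.surv S.fil S.cone hn1 S.lift hzC hlen hs hang m
  have hzq : ∀ k : ℕ, (z : G ⧸ M) ^ k = (u : G ⧸ M)⁻¹ * q ^ k * (u : G ⧸ M) := by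
    intro k
    have h1 : (z : G ⧸ M) = (u : G ⧸ M)⁻¹ * q * (u : G ⧸ M)⁻¹⁻¹ := by
      rw [hz, QuotientGroup.mk_mul, QuotientGroup.mk_mul, QuotientGroup.mk_inv, hg, inv_inv]
    rw [h1, conj_pow, inv_inv]
  by_contra hcon
  push Not at hcon
  set k := Te * (2 * Q.len (u : G ⧸ M)) + 1 with hk'
  have h1 := hsurv (m * k)
  rw [hzq] at h1
  have h2 : Q.len ((u : G ⧸ M)⁻¹ * q ^ (m * k) * (u : G ⧸ M)) ≤
      k * Q.len (q ^ m) + 2 * Q.len (u : G ⧸ M) := by
    have a1 := Q.len_mul ((u : G ⧸ M)⁻¹ * q ^ (m * k)) (u : G ⧸ M)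
    have a2 := Q.len_mul ((u : G ⧸ M)⁻¹) (q ^ (m * k))
    rw [Q.len_inv] at a2
    have a3 := Q.surv_len_pow (q ^ m) k
    rw [← pow_mul] at a3
    omega
  have h3 : m * k ≤ Te * (k * Q.len (q ^ m) + 2 * Q.len (u : G ⧸ M)) :=
    h1.trans (Nat.mul_le_mul_left _ h2)
  have h4 : (Te * Q.len (q ^ m) + 1) * k ≤ m * k := Nat.mul_le_mul_right _ hcon
  have h5 : Te * (k * Q.len (q ^ m) + 2 * Q.len (u : G ⧸ M)) =
      Te * Q.len (q ^ m) * k + Te * (2 * Q.len (u : G ⧸ M)) := by ring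
  have h6 : (Te * Q.len (q ^ m) + 1) * k = Te * Q.len (q ^ m) * k + k := by ring
  omega

/-- stable lengths and torsion in the quotient -/
theorem Setup.stab_tor {G : Type} [Group G] {H : GH G} {c θ T : ℕ} {L : LS H c θ T}
    {K B p L1 Θ n : ℕ} {E : GH G} {M : Subgroup G} [M.Normal] {Q : GH (G ⧸ M)}
    (S : Setup L K B p L1 Θ n E M Q)
    (hn : 4 * T * (1000 * (H.D + c + θ + 1)) + 4 * T * Θ + 48 * L.thr + 4 ≤ n) :
    Q.Stab (2 * (θ + 2 * Θ + 100 * (H.D + c + 1) + 2)) ∧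
      ∀ q : G ⧸ M, IsOfFinOrder q → ∃ g : G, (g : G ⧸ M) = q ∧ (IsOfFinOrder g ∨ L.Short g) := by
  constructor
  · intro q hq
    rcases S.surv_cases hn q with ⟨g, hg, h | h⟩ | h
    · exfalso
      apply hq
      rw [← hg]
      exact (QuotientGroup.mk' M).isOfFinOrder h
    · exfalso
      apply hq
      obtain ⟨i, u, k, hk⟩ := h
      rw [isOfFinOrder_iff_pow_eq_one]
      refine ⟨n, by omega, ?_⟩
      have h1 : g ^ n = L.rt i u (n * k) := by
        unfold LS.rt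
        rw [hk, conj_pow, ← zpow_natCast (L.x i ^ k) n, ← zpow_mul, mul_comm k]
      rw [← hg, ← QuotientGroup.mk_pow, QuotientGroup.eq_one_iff, h1]
      exact S.fil.rot i u k
    · exact h
  · intro q hq
    rcases S.surv_cases hn q with h | h
    · exact h
    · exfalso
      obtain ⟨m, hm, h1⟩ := (isOfFinOrder_iff_pow_eq_one).1 hq
      have := h m
      rw [h1, Q.len_one] at this
      omega

end Pool.Agent.TH54.BU
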