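import Pool.Agent.TH54.BU.Axial

set_option autoImplicit false

/-!
# BU-TUBE (helper429 for helper54): points moved little by a power of `x` are logarithmically
close to the line
-/

namespace Pool.Agent.TH54.BU

variable {G : Type*} [Group G]

theorem GH.tube_k (H : GH G) {g y y' : G} {c R : ℕ} (hg : H.len g ≤ c) (hy : H.d y (g * y) ≤ R)
    (hb : H.d y y' + H.len y' = H.len y) (h : R + c ≤ 2 * H.d y y') :
    H.d y' (g * y') ≤ c + 2 * H.D := by
  have f1 := H.fp 1 y y' (g * y)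
  have f2 := H.fp 1 (g * y) y' (g * y')
  have e1 : H.d (g * y) (g * y') = H.d y y' := H.d_mul _ _ _
  have e2 : H.d (g * y) y' = H.d y' (g * y) := H.d_comm _ _
  have t1 : H.len y ≤ H.len (g * y) + H.len g := by
    have := H.len_mul g⁻¹ (g * y)
    rw [inv_mul_cancel_left, H.len_inv] at this
    omega
  have t2 : H.len (g * y') ≤ H.len g + H.len y' := H.len_mul _ _
  rw [H.d_one, H.d_one, H.d_one] at f1
  rw [H.d_one, H.d_one, H.d_one] at f2
  rw [e1, e2] at f2
  omega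

namespace LS

variable {H : GH G} {c θ T : ℕ} (L : LS H c θ T)

theorem tube_a {i : L.ι} {y : G} (hy : ∀ a : ℤ, H.len y ≤ H.d y (L.x i ^ a)) (m : ℤ)
    (hm : c < H.len (L.x i ^ m)) :
    2 * H.len y + H.len (L.x i ^ m) ≤ H.d y (L.x i ^ m * y) + c := by
  have h := L.proj i (L.x i ^ m * y) y
  rw [L.shift, show L.κ i y + m - L.κ i y = m by ring] at h
  have h2 := h hm
  have e1 : H.d (L.x i ^ m * y) (L.x i ^ (L.κ i y + m)) = H.d y (L.x i ^ L.κ i y) := by
    rw [add_comm, zpow_add, H.d_mul]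
  rw [e1, H.d_comm (L.x i ^ m * y) y] at h2
  have h3 := hy (L.κ i y)
  omega

theorem tube_near {i : L.ι} {y y' : G} (hy : ∀ a : ℤ, H.len y ≤ H.d y (L.x i ^ a))
    (hb : H.d y y' + H.len y' = H.len y) (a : ℤ) : H.len y' ≤ H.d y' (L.x i ^ a) := by
  have h1 := hy a
  have h2 := H.d_tri y y' (L.x i ^ a)
  omega

theorem tube_step {i : L.ι} (n : ℕ) : ∀ (y : G) (m : ℕ),
    (∀ a : ℤ, H.len y ≤ H.d y (L.x i ^ a)) → T * c < 2 ^ n * m →
    H.d y (L.x i ^ (m : ℤ) * y) ≤ 2 * (c + 2 * H.D) →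
    H.len y ≤ (c + 2 * H.D) + n * (2 * c + 2 * H.D) := by
  induction n with
  | zero =>
    intro y m hy hm hd
    have h1 := L.lin i m
    have h2 : c < H.len (L.x i ^ (m : ℤ)) := by
      rw [zpow_natCast]
      by_contra hc
      push Not at hc
      have := Nat.mul_le_mul_left T hc
      omega
    have h3 := L.tube_a hy m h2
    omega
  | succ n ih =>
    intro y m hy hm hd
    have e : (n + 1) * (2 * c + 2 * H.D) = n * (2 * c + 2 * H.D) + (2 * c + 2 * H.D) := by ring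
    rw [e]
    by_cases h2 : c < H.len (L.x i ^ (m : ℤ))
    · have h3 := L.tube_a hy m h2
      omega
    push Not at h2
    by_cases h4 : H.len y ≤ 2 * c + 2 * H.D
    · omega
    push Not at h4
    obtain ⟨y', hy1, hy2⟩ := H.between y 1 (2 * c + 2 * H.D) (by rw [H.d_one']; omega)
    rw [H.d_one', H.d_one'] at hy2
    have hb : H.d y y' + H.len y' = H.len y := by omega
    have h5 := H.tube_k h2 hd hb (by omega)
    have h6 := ih y' (2 * m) (L.tube_near hy hb) (by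
      have : 2 ^ (n + 1) * m = 2 ^ n * (2 * m) := by rw [pow_succ]; ring
      omega) (by
      have t1 := H.d_tri y' (L.x i ^ (m : ℤ) * y') (L.x i ^ ((2 * m : ℕ) : ℤ) * y')
      have e1 : L.x i ^ ((2 * m : ℕ) : ℤ) * y' = L.x i ^ (m : ℤ) * (L.x i ^ (m : ℤ) * y') := by
        rw [← mul_assoc, ← zpow_add]
        congr 2
        push_cast
        ring
      have e2 : H.d (L.x i ^ (m : ℤ) * y') (L.x i ^ ((2 * m : ℕ) : ℤ) * y') =
          H.d y' (L.x i ^ (m : ℤ) * y') := by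
        rw [e1, H.d_mul]
      omega)
    omega

theorem tube_one {i : L.ι} {t : G} {k : ℕ} (hk : k ≠ 0) {R : ℕ}
    (ht : ∀ a : ℤ, H.len t ≤ H.d t (L.x i ^ a)) (h : H.d t (L.x i ^ (k : ℤ) * t) ≤ R) :
    H.len t ≤ R + 10 * (H.D + c + 1) * (Nat.clog 2 T + 10 * (H.D + c + 1)) := by
  have hE : 10 * (H.D + c + 1) * (Nat.clog 2 T + 10 * (H.D + c + 1)) =
      (Nat.clog 2 T + Nat.clog 2 (c + 1)) * (2 * c + 2 * H.D) +
      ((8 * (H.D + c) + 10) * Nat.clog 2 T + (100 * (H.D + c + 1) ^ 2 -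
        Nat.clog 2 (c + 1) * (2 * c + 2 * H.D))) := by
    have h1 : Nat.clog 2 (c + 1) ≤ c + 1 := by
      have h2 : c + 1 ≤ 2 ^ (c + 1) := Nat.lt_two_pow_self.le
      exact (Nat.clog_mono_right 2 h2).trans (by rw [Nat.clog_pow 2 _ (by norm_num)])
    have h3 : Nat.clog 2 (c + 1) * (2 * c + 2 * H.D) ≤ 100 * (H.D + c + 1) ^ 2 := by
      calc Nat.clog 2 (c + 1) * (2 * c + 2 * H.D) ≤ (c + 1) * (2 * c + 2 * H.D) :=
            Nat.mul_le_mul_right _ h1
        _ ≤ 100 * (H.D + c + 1) ^ 2 := by nlinarith [Nat.zero_le H.D, Nat.zero_le c]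
    zify [h3]
    ring
  have hF : 20 * c + 20 * H.D + 10 ≤ 100 * (H.D + c + 1) ^ 2 -
        Nat.clog 2 (c + 1) * (2 * c + 2 * H.D) := by
    have h1 : Nat.clog 2 (c + 1) ≤ c + 1 := by
      have h2 : c + 1 ≤ 2 ^ (c + 1) := Nat.lt_two_pow_self.le
      exact (Nat.clog_mono_right 2 h2).trans (by rw [Nat.clog_pow 2 _ (by norm_num)])
    have h3 : Nat.clog 2 (c + 1) * (2 * c + 2 * H.D) + (20 * c + 20 * H.D + 10) ≤
        100 * (H.D + c + 1) ^ 2 := by
      calc Nat.clog 2 (c + 1) * (2 * c + 2 * H.D) + (20 * c + 20 * H.D + 10) ≤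
            (c + 1) * (2 * c + 2 * H.D) + (20 * c + 20 * H.D + 10) :=
            Nat.add_le_add_right (Nat.mul_le_mul_right _ h1) _
        _ ≤ 100 * (H.D + c + 1) ^ 2 := by nlinarith [Nat.zero_le H.D, Nat.zero_le c]
    omega
  rw [hE]
  set W := (Nat.clog 2 T + Nat.clog 2 (c + 1)) * (2 * c + 2 * H.D) with hW
  set Y := 100 * (H.D + c + 1) ^ 2 - Nat.clog 2 (c + 1) * (2 * c + 2 * H.D) with hY
  set X := (8 * (H.D + c) + 10) * Nat.clog 2 T with hX
  by_cases h2 : c < H.len (L.x i ^ (k : ℤ))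
  · have h3 := L.tube_a ht k h2
    omega
  push Not at h2
  by_cases h4 : H.len t ≤ R + c
  · omega
  push Not at h4
  obtain ⟨y', hy1, hy2⟩ := H.between t 1 (R + c) (by rw [H.d_one']; omega)
  rw [H.d_one', H.d_one'] at hy2
  have hb : H.d t y' + H.len y' = H.len t := by omega
  have h5 := H.tube_k h2 h hb (by omega)
  have hT : 1 ≤ T := by
    have h1 := L.lin i 1
    rcases Nat.eq_zero_or_pos T with h0 | h0
    · have h7 : T * H.len (L.x i ^ 1) = 0 := Nat.mul_eq_zero.2 (Or.inl h0)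
      omega
    · exact h0
  have h6 := L.tube_step (i := i) (Nat.clog 2 T + Nat.clog 2 (c + 1)) y' k (L.tube_near ht hb)
    (by
      have a1 : T ≤ 2 ^ Nat.clog 2 T := Nat.le_pow_clog (by norm_num) T
      have a2 : c + 1 ≤ 2 ^ Nat.clog 2 (c + 1) := Nat.le_pow_clog (by norm_num) (c + 1)
      have a3 : T * (c + 1) ≤ 2 ^ Nat.clog 2 T * 2 ^ Nat.clog 2 (c + 1) := Nat.mul_le_mul a1 a2
      rw [← pow_add] at a3
      have a4 : 2 ^ (Nat.clog 2 T + Nat.clog 2 (c + 1)) * 1 ≤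
          2 ^ (Nat.clog 2 T + Nat.clog 2 (c + 1)) * k := Nat.mul_le_mul_left _ (by omega)
      have a5 : T * (c + 1) = T * c + T := by ring
      omega)
    (by omega)
  omega

theorem tube {i : L.ι} {u t : G} {k : ℤ} (hk : k ≠ 0) {R : ℕ}
    (h : H.d t (L.rt i u k * t) ≤ R) :
    H.d t (L.pr i u t) ≤ R + 10 * (H.D + c + 1) * (Nat.clog 2 T + 10 * (H.D + c + 1)) := by
  -- the point `y = x^(-κ) u⁻¹ t`
  set e := L.κ i (u⁻¹ * t) with he
  set y := L.x i ^ (-e) * (u⁻¹ * t) with hy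
  have hty : t = u * (L.x i ^ e * y) := by
    rw [hy, ← mul_assoc (L.x i ^ e), ← zpow_add]
    simp
  have hd1 : H.d t (L.pr i u t) = H.len y := by
    have : L.pr i u t = u * (L.x i ^ e * 1) := by
      rw [mul_one]
      rfl
    rw [this]
    conv_lhs => rw [hty]
    rw [H.d_mul, H.d_mul, H.d_one']
  have hd2 : ∀ m : ℤ, H.d t (L.rt i u m * t) = H.d y (L.x i ^ m * y) := by
    intro m
    have : L.rt i u m * t = u * (L.x i ^ e * (L.x i ^ m * y)) := by
      unfold rt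
      rw [hty, ← mul_assoc (L.x i ^ e) (L.x i ^ m) y, ← zpow_add, add_comm e m, zpow_add]
      group
    rw [this]
    conv_lhs => rw [hty]
    rw [H.d_mul, H.d_mul]
  have hnear : ∀ a : ℤ, H.len y ≤ H.d y (L.x i ^ a) := by
    intro a
    have h1 := L.near i (u⁻¹ * t) (e + a)
    rw [← he] at h1
    have h2 : u⁻¹ * t = L.x i ^ e * y := by rw [hty]; group
    have h3 : H.d (L.x i ^ e * y) (L.x i ^ e) = H.len y := by
      have := H.d_mul (L.x i ^ e) y 1
      rw [mul_one, H.d_one'] at this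
      exact this
    rw [h2, h3, zpow_add, H.d_mul] at h1
    exact h1
  rw [hd1]
  clear_value y
  rcases le_or_gt 0 k with h0 | h0
  · obtain ⟨m, rfl⟩ := Int.eq_ofNat_of_zero_le h0
    exact L.tube_one (k := m) (by omega) hnear (by rw [← hd2]; exact h)
  · obtain ⟨m, hm⟩ := Int.eq_ofNat_of_zero_le (show 0 ≤ -k by omega)
    refine L.tube_one (k := m) (by omega) hnear ?_
    rw [← hm]
    have h1 := hd2 k
    have h2 : H.d y (L.x i ^ (-k) * y) = H.d y (L.x i ^ k * y) := by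
      have := H.d_mul (L.x i ^ k) y (L.x i ^ (-k) * y)
      rw [← mul_assoc, ← zpow_add, add_neg_cancel, zpow_zero, one_mul] at this
      rw [← this, H.d_comm]
    rw [h2, ← h1]
    exact h

end LS

end Pool.Agent.TH54.BU
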