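import Pool.Agent.TH54.BU.Rigid
import Pool.Agent.TH54.BU.MixA
import Pool.Agent.TH54.BU.Angle
import Pool.Agent.TH54.BU.Surv
import Pool.Agent.TH54.BU.Tube

/-!
# BU-CASE2 (job 1391): a long window without big edges
-/

set_option autoImplicit false

namespace Pool.Agent.TH54.BU

variable {G : Type*} [Group G]

theorem c2_len_zpow (H : GH G) (x : G) (n : ℤ) : H.len (x ^ n) = H.len (x ^ n.natAbs) := by
  rcases Int.natAbs_eq n with h | h
  · conv_lhs => rw [h]
    rw [zpow_natCast]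
  · conv_lhs => rw [h]
    rw [zpow_neg, zpow_natCast, H.len_inv]

theorem c2_abs_s {H : GH G} {c θ T : ℕ} (L : LS H c θ T) (i : L.ι) (u a b : G) :
    |L.s i u a b| ≤ ((T * L.D i u a b : ℕ) : ℤ) := by
  have h := L.lin i (L.s i u a b).natAbs
  rw [← c2_len_zpow] at h
  rw [Int.abs_eq_natAbs]
  exact_mod_cast h

theorem c2_mem_SD (H : GH G) {R : ℕ} {P1 P2 g : G} (h1 : H.d P1 (g * P1) ≤ R)
    (h2 : H.d P2 (g * P2) ≤ R) : P1⁻¹ * g * P1 ∈ H.SD R (P1⁻¹ * P2) := by
  refine ⟨?_, ?_⟩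
  · rw [show P1⁻¹ * g * P1 = P1⁻¹ * (g * P1) by group]
    exact h1
  · rw [show (P1⁻¹ * P2)⁻¹ * (P1⁻¹ * g * P1) * (P1⁻¹ * P2) = P2⁻¹ * (g * P2) by group]
    exact h2

theorem c2_finOrder_conj {g v : G} (h : IsOfFinOrder (v⁻¹ * g * v)) : IsOfFinOrder g := by
  obtain ⟨k, hk, h1⟩ := isOfFinOrder_iff_pow_eq_one.1 h
  refine isOfFinOrder_iff_pow_eq_one.2 ⟨k, hk, ?_⟩
  have h2 : (v⁻¹ * g * v⁻¹⁻¹) ^ k = 1 := by rw [inv_inv]; exact h1
  rw [conj_pow] at h2
  have h3 : v⁻¹ * g ^ k * v⁻¹⁻¹ = v⁻¹ * 1 * v⁻¹⁻¹ := by rw [h2]; group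
  exact mul_left_cancel (mul_right_cancel h3)

/-- a long window without big edges -/
theorem Setup.case2 {G : Type} [Group G] {H : GH G} {c θ T : ℕ} {L : LS H c θ T}
    {K B p L1 Θ n : ℕ} {E : GH G} {M : Subgroup G} [M.Normal] {Q : GH (G ⧸ M)}
    (S : Setup L K B p L1 Θ n E M Q) {A K' R : ℕ} (hR : R = (2 * A + 3 * Θ + 1) * K') {P1 P2 : G}
    (hD : ∀ (i : L.ι) (u : G), L.D i u P1 P2 ≤ A)
    (hfar : 2 * K' + 2 + B + 24 * R + 100 * H.D + 100 + 2 * R +
      20 * (H.D + c + 1) * (Nat.clog 2 T + 10 * (H.D + c + 1)) ≤ E.d P1 P2)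
    (hn : 4 * (T * (A + Θ + 1) + 1) + 24 * L.thr + T * (2 * c + 1) +
      4 * T * (R + θ + Θ + 1000 * (H.D + c + θ + 1)) + 48 * L.thr + 4 ≤ n) :
    (∀ g : G ⧸ M, Q.d (P1 : G ⧸ M) (g * P1) ≤ K' → Q.d (P2 : G ⧸ M) (g * P2) ≤ K' →
      IsOfFinOrder g → g = 1) ∧
    ∀ g h : G ⧸ M, Q.d (P1 : G ⧸ M) (g * P1) ≤ K' → Q.d (P2 : G ⧸ M) (g * P2) ≤ K' →
      Q.d (P1 : G ⧸ M) (h * P1) ≤ K' → Q.d (P2 : G ⧸ M) (h * P2) ≤ K' → g * h = h * g := by
  -- lifts
  have hlift : ∀ g : G ⧸ M, Q.d (P1 : G ⧸ M) (g * P1) ≤ K' → Q.d (P2 : G ⧸ M) (g * P2) ≤ K' →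
      ∃ g' : G, (g' : G ⧸ M) = g ∧ H.d P1 (g' * P1) ≤ R ∧ H.d P2 (g' * P2) ≤ R := by
    intro g h1 h2
    rw [hR]
    exact L.lift_window S.fil S.cone S.lift hD (by omega) (by omega) h1 h2
  have hmix : H.Mix K B 0 := fun q hq =>
    ⟨fun g hg => (S.acy q hq g hg).1, Or.inl fun g hg h hh => (S.acy q hq g hg).2 h hh⟩
  have hacy := H.mixA S.hK S.stab hmix R
  have hEH : E.d P1 P2 ≤ H.d P1 P2 := S.cone.le _
  have hlong : B + 8 * (0 + 3) * R + 100 * H.D + 100 ≤ H.len (P1⁻¹ * P2) := by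
    change _ ≤ H.d P1 P2
    omega
  refine ⟨?_, ?_⟩
  · intro g hg1 hg2 hfin
    obtain ⟨g', rfl, h1, h2⟩ := hlift g hg1 hg2
    have hm := c2_mem_SD H h1 h2
    have ht := (hacy _ hlong _ hm).1
    by_cases hf : IsOfFinOrder g'
    · have hf1 : IsOfFinOrder (P1⁻¹ * g' * P1) := by
        apply c2_finOrder_conj (v := P1⁻¹)
        rw [show P1⁻¹⁻¹ * (P1⁻¹ * g' * P1) * P1⁻¹ = g' by group]
        exact hf
      have h3 := ht hf1
      have h4 : g' = 1 := by
        have : P1⁻¹ * g' * P1 = P1⁻¹ * 1 * P1 := by rw [h3]; group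
        exact mul_left_cancel (mul_right_cancel this)
      rw [h4]; rfl
    · exfalso
      by_cases hs : L.Short g'
      · obtain ⟨i, u, k, hk⟩ := hs
        have hk0 : k ≠ 0 := by
          rintro rfl
          apply hf
          rw [hk, zpow_zero, mul_one, mul_inv_cancel]
          exact IsOfFinOrder.one
        have e : g' = L.rt i u k := hk
        rw [e] at h1 h2
        have t1 := L.tube hk0 h1
        have t2 := L.tube hk0 h2
        have e1 : E.d P1 (L.pr i u P1) ≤ H.d P1 (L.pr i u P1) := S.cone.le _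
        have e2 : E.d P2 (L.pr i u P2) ≤ H.d P2 (L.pr i u P2) := S.cone.le _
        have e3 : E.d (L.pr i u P1) (L.pr i u P2) ≤ 1 := by
          refine (S.cone.le_one _).2 (Or.inr ⟨i, L.κ i (u⁻¹ * P2) - L.κ i (u⁻¹ * P1), ?_⟩)
          unfold LS.pr
          rw [zpow_sub]
          have hc : L.x i ^ L.κ i (u⁻¹ * P2) * (L.x i ^ L.κ i (u⁻¹ * P1))⁻¹ =
              (L.x i ^ L.κ i (u⁻¹ * P1))⁻¹ * L.x i ^ L.κ i (u⁻¹ * P2) := by
            rw [← zpow_neg, ← zpow_add, ← zpow_add, add_comm]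
          rw [hc]
          group
        have t3 := E.d_tri P1 (L.pr i u P1) P2
        have t4 := E.d_tri (L.pr i u P1) (L.pr i u P2) P2
        rw [E.d_comm (L.pr i u P2) P2] at t4
        have e4 : 20 * (H.D + c + 1) * (Nat.clog 2 T + 10 * (H.D + c + 1)) =
            2 * (10 * (H.D + c + 1) * (Nat.clog 2 T + 10 * (H.D + c + 1))) := by ring
        omega
      · -- a conjugate of minimal length
        obtain ⟨v, hv⟩ : ∃ v : G, ∀ w : G, H.len (v⁻¹ * g' * v) ≤ H.len (w⁻¹ * g' * w) :=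
          ⟨Function.argmin (fun w : G => H.len (w⁻¹ * g' * w)),
            fun w => Function.argmin_le (fun w : G => H.len (w⁻¹ * g' * w)) w⟩
        set z : G := v⁻¹ * g' * v with hz
        have hcm : H.CMin z := by
          intro u
          have := hv (v * u)
          rwa [show (v * u)⁻¹ * g' * (v * u) = u⁻¹ * z * u by rw [hz]; group] at this
        have hns : ¬ L.Short z := by
          rintro ⟨i, u, k, hk⟩
          apply hs
          refine ⟨i, v * u, k, ?_⟩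
          have : g' = v * z * v⁻¹ := by rw [hz]; group
          rw [this, hk]
          group
        have hzf : ¬ IsOfFinOrder z := fun h => hf (c2_finOrder_conj h)
        have hzR : H.len z ≤ R := by
          have := hv P1
          rw [show P1⁻¹ * g' * P1 = P1⁻¹ * (g' * P1) by group] at this
          exact this.trans h1
        have hl : 4 * H.D + 4 ≤ H.len z := by
          by_contra hlt
          apply hns
          apply S.short z hzf
          have := S.hL1
          omega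
        have hang : ∀ (i : L.ι) (u : G) (a b : ℤ),
            |L.s i u (z ^ a) (z ^ b)| + T * Θ + 12 * L.thr < n := by
          intro i u a b
          have o1 := L.ovz hcm hl hns i u a b
          have o2 := c2_abs_s L i u (z ^ a) (z ^ b)
          have o3 : T * L.D i u (z ^ a) (z ^ b) + T * Θ ≤
              T * (R + θ + Θ + 1000 * (H.D + c + θ + 1)) := by
            rw [← Nat.mul_add]
            apply Nat.mul_le_mul_left
            omega
          have o4 : 4 * T * (R + θ + Θ + 1000 * (H.D + c + θ + 1)) =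
            4 * (T * (R + θ + Θ + 1000 * (H.D + c + θ + 1))) := by ring
          have o5 : |L.s i u (z ^ a) (z ^ b)| ≤ (T * L.D i u (z ^ a) (z ^ b) : ℕ) := o2
          have o6 : T * L.D i u (z ^ a) (z ^ b) + T * Θ + 12 * L.thr < n := by omega
          have o7 : (T * L.D i u (z ^ a) (z ^ b) : ℕ) + (T : ℤ) * Θ + 12 * L.thr < n := by
            exact_mod_cast o6
          linarith
        have hsurv := L.surv S.fil S.cone (by omega) S.lift hcm hl hns hang
        obtain ⟨k, hk, hk1⟩ := isOfFinOrder_iff_pow_eq_one.1 hfin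
        have h5 := hsurv k
        have h6 : ((z : G) : G ⧸ M) ^ k = 1 := by
          have e : ((z : G) : G ⧸ M) = ((v : G) : G ⧸ M)⁻¹ * ((g' : G) : G ⧸ M) *
              (((v : G) : G ⧸ M)⁻¹)⁻¹ := by
            rw [hz, inv_inv]
            rfl
          rw [e, conj_pow, hk1]
          group
        rw [h6, Q.len_one, mul_zero] at h5
        omega
  · intro g h hg1 hg2 hh1 hh2
    obtain ⟨g', rfl, h1, h2⟩ := hlift g hg1 hg2
    obtain ⟨h', rfl, h3, h4⟩ := hlift h hh1 hh2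
    have hm := c2_mem_SD H h1 h2
    have hm' := c2_mem_SD H h3 h4
    have hc := (hacy _ hlong _ hm).2 _ hm'
    have e1 : P1⁻¹ * g' * P1 * (P1⁻¹ * h' * P1) = P1⁻¹ * (g' * h') * P1 := by group
    have e2 : P1⁻¹ * h' * P1 * (P1⁻¹ * g' * P1) = P1⁻¹ * (h' * g') * P1 := by group
    rw [e1, e2] at hc
    have e3 : g' * h' = h' * g' := mul_left_cancel (mul_right_cancel hc)
    rw [← QuotientGroup.mk_mul, ← QuotientGroup.mk_mul, e3]

end Pool.Agent.TH54.BU
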