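import Pool.Agent.TH54.BU.Defs

/-!
# Guessing geodesics (helper986, for helper54)

A geodesic metric `e ≤ d` on a hyperbolic space `(V, d)` such that the `d`-geodesics between points
at `e`-distance at most one are `e`-bounded is hyperbolic, and its geodesics are `e`-close to the
`d`-geodesics.
-/

set_option autoImplicit false

namespace Pool.Agent.TH54.BU

namespace Guess

variable {V : Type*}

/-- a chain of `n` steps of `e`-length at most one, all of whose vertices satisfy `Q` -/
def Chain (e : V → V → ℕ) (Q : V → Prop) (n : ℕ) (u v : V) : Prop :=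
  ∃ γ : ℕ → V, γ 0 = u ∧ γ n = v ∧ (∀ i, i < n → e (γ i) (γ (i + 1)) ≤ 1) ∧ ∀ i, i ≤ n → Q (γ i)

theorem Chain.mono {e : V → V → ℕ} {Q Q' : V → Prop} {n : ℕ} {u v : V} (h : Chain e Q n u v)
    (hQ : ∀ w, Q w → Q' w) : Chain e Q' n u v := by
  obtain ⟨γ, h0, h1, h2, h3⟩ := h
  exact ⟨γ, h0, h1, h2, fun i hi => hQ _ (h3 i hi)⟩

theorem Chain.concat {e : V → V → ℕ} {Q : V → Prop} {n m : ℕ} {u v w : V}
    (h : Chain e Q n u v) (h' : Chain e Q m v w) : Chain e Q (n + m) u w := by
  obtain ⟨γ, h0, h1, h2, h3⟩ := h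
  obtain ⟨δ, k0, k1, k2, k3⟩ := h'
  refine ⟨fun i => if i ≤ n then γ i else δ (i - n), ?_, ?_, ?_, ?_⟩
  · simp [h0]
  · by_cases hm : m = 0
    · subst hm
      simp only [add_zero, le_refl, if_true]
      rw [h1, ← k0, k1]
    · have : ¬ n + m ≤ n := by omega
      simp only [if_neg this]
      rw [Nat.add_sub_cancel_left, k1]
  · intro i hi
    by_cases hin : i + 1 ≤ n
    · have : i ≤ n := by omega
      simp only [if_pos this, if_pos hin]
      exact h2 i (by omega)
    · simp only [if_neg hin]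
      by_cases hi2 : i ≤ n
      · have hi3 : i = n := by omega
        subst hi3
        simp only [le_refl, if_true, Nat.add_sub_cancel_left]
        rw [h1, ← k0]
        exact k2 0 (by omega)
      · simp only [if_neg hi2]
        have := k2 (i - n) (by omega)
        rwa [show i - n + 1 = i + 1 - n by omega] at this
  · intro i hi
    by_cases hin : i ≤ n
    · simp only [if_pos hin]
      exact h3 i hin
    · simp only [if_neg hin]
      exact k3 _ (by omega)

theorem Chain.symm {e : V → V → ℕ} (he : DM e) {Q : V → Prop} {n : ℕ} {u v : V}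
    (h : Chain e Q n u v) : Chain e Q n v u := by
  obtain ⟨γ, h0, h1, h2, h3⟩ := h
  refine ⟨fun i => γ (n - i), by simpa using h1, by simpa using h0, ?_, ?_⟩
  · intro i hi
    have := h2 (n - (i + 1)) (by omega)
    rw [show n - (i + 1) + 1 = n - i by omega] at this
    show e (γ (n - i)) (γ (n - (i + 1))) ≤ 1
    rw [he.comm]
    exact this
  · intro i hi
    exact h3 _ (by omega)

/-- a discrete geodesic -/
theorem exists_geo {d : V → V → ℕ} (hd : DM d) (u v : V) : ∃ σ : ℕ → V, σ 0 = u ∧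
    σ (d u v) = v ∧ ∀ i j, i ≤ j → j ≤ d u v → d (σ i) (σ j) = j - i := by
  have key : ∀ n, ∀ u v : V, d u v = n → ∃ σ : ℕ → V, σ 0 = u ∧ σ n = v ∧
      ∀ i j, i ≤ j → j ≤ n → d (σ i) (σ j) = j - i := by
    intro n
    induction n with
    | zero =>
      intro u v h
      have huv := hd.eq _ _ h
      subst huv
      refine ⟨fun _ => u, rfl, rfl, ?_⟩
      intro i j _ hj
      simp only [hd.self]
      omega
    | succ n ih =>
      intro u v h
      obtain ⟨p, hp1, hp2⟩ := hd.btw u v n (by omega)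
      obtain ⟨σ, h0, hn, hg⟩ := ih u p hp1
      refine ⟨fun i => if i ≤ n then σ i else v, by simp [h0], by simp, ?_⟩
      intro i j hij hj
      by_cases hjn : j ≤ n
      · have hin : i ≤ n := hij.trans hjn
        simp only [if_pos hjn, if_pos hin]
        exact hg i j hij hjn
      · have hjn' : j = n + 1 := by omega
        subst hjn'
        simp only [if_neg hjn]
        by_cases hin : i ≤ n
        · simp only [if_pos hin]
          have h1 := hg i n hin le_rfl
          have h2 := hg 0 i (Nat.zero_le _) hin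
          rw [h0] at h2
          rw [hn] at h1
          have h3 := hd.tri (σ i) p v
          have h4 := hd.tri u (σ i) v
          omega
        · have : i = n + 1 := by omega
          subst this
          simp only [if_neg hin, hd.self]
          omega
  exact key _ u v rfl

theorem geo_chain {e : V → V → ℕ} (he : DM e) (u v : V) :
    Chain e (fun w => e u w + e w v = e u v) (e u v) u v := by
  obtain ⟨σ, h0, h1, h2⟩ := exists_geo he u v
  refine ⟨σ, h0, h1, ?_, ?_⟩
  · intro i hi
    rw [h2 i (i + 1) (by omega) (by omega)]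
    omega
  · intro i hi
    have a := h2 0 i (by omega) hi
    have b := h2 i (e u v) hi le_rfl
    rw [h0] at a
    rw [h1] at b
    rw [a, b]
    omega

/-- slim triangles -/
theorem slim {d : V → V → ℕ} (hd : DM d) {D : ℕ} (h4 : Four d D) {u v p : V} (z : V)
    (h : d u p + d p v = d u v) :
    (∃ q, d u q + d q z = d u z ∧ d p q ≤ 2 * D) ∨
    (∃ q, d v q + d q z = d v z ∧ d p q ≤ 2 * D) := by
  have h1 := h4 z p u v
  rw [hd.comm z u, hd.comm z v, hd.comm p u] at h1
  have aux : ∀ u v : V, d u p + d p v = d u v → d z p + d u p ≤ d u z + D →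
      ∃ q, d u q + d q z = d u z ∧ d p q ≤ 2 * D := by
    intro u v h h1
    by_cases hk : d u p ≤ d u z
    · obtain ⟨q, hq1, hq2⟩ := hd.btw u z (d u p) hk
      refine ⟨q, by omega, ?_⟩
      have h2 := h4 p q u z
      rw [hd.comm p u, hd.comm q u] at h2
      rw [hd.comm z p] at h1
      omega
    · refine ⟨z, by rw [hd.self]; omega, ?_⟩
      rw [hd.comm]
      omega
  by_cases hc : d z p + d u v ≤ d u z + d p v + D
  · left
    exact aux u v h (by omega)
  · right
    refine aux v u ?_ ?_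
    · rw [hd.comm v p, hd.comm p u, hd.comm v u]
      omega
    · rw [hd.comm v p]
      rw [hd.comm p v] at *
      omega

/-- the four point inequality follows from the case of a point between two others -/
theorem four_of_between {X : Type*} (d : X → X → ℕ) (hc : ∀ u v, d u v = d v u)
    (ht : ∀ u v w, d u w ≤ d u v + d v w)
    (hb : ∀ u v k, k ≤ d u v → ∃ p, d u p = k ∧ d p v + k = d u v) (C : ℕ)
    (h : ∀ u v z p, d u p + d p v = d u v →
      d z p + d u v ≤ max (d z u + d p v) (d z v + d u p) + C) (u v w z : X) :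
    d u v + d w z ≤ max (d u w + d v z) (d u z + d v w) + (2 * C + 2) := by
  have t1 := ht w u v
  have t2 := ht u w v
  have t3 := ht w v u
  have c1 := hc w u
  have c2 := hc w v
  have c3 := hc v u
  obtain ⟨p, hp1, hp2⟩ := hb u v ((d w u + d u v - d w v) / 2) (by omega)
  have h1 := h u v w p (by omega)
  have h2 := h u v z p (by omega)
  have t4 := ht w p z
  have c4 := hc z p
  have c5 := hc z u
  have c6 := hc z v
  omega

/-- the logarithmic bound -/
theorem log_bound {d e : V → V → ℕ} {D h : ℕ} (hd : DM d) (he : DM e)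
    (hle : ∀ u v, e u v ≤ d u v) (h4 : Four d D)
    (hA : ∀ p q r, e p q ≤ 1 → d p r + d r q = d p q → e p r ≤ h)
    (γ : ℕ → V) (n : ℕ) (hγ : ∀ i, i < n → e (γ i) (γ (i + 1)) ≤ 1) :
    ∀ k a b t, a ≤ b → b ≤ n → b - a ≤ 2 ^ k → d (γ a) t + d t (γ b) = d (γ a) (γ b) →
      ∃ i, i ≤ n ∧ e t (γ i) ≤ 2 * D * k + h := by
  intro k
  induction k with
  | zero =>
    intro a b t hab hbn hk ht
    rw [pow_zero] at hk
    refine ⟨a, by omega, ?_⟩
    by_cases hb : b = a
    · subst hb
      rw [hd.self] at ht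
      have h1 := hle (γ b) t
      rw [he.comm]
      omega
    · have hb' : b = a + 1 := by omega
      subst hb'
      have := hA _ _ _ (hγ a (by omega)) ht
      rw [he.comm]
      omega
  | succ k ih =>
    intro a b t hab hbn hk ht
    rw [pow_succ] at hk
    by_cases hk' : b - a ≤ 2 ^ k
    · obtain ⟨i, hi, hi2⟩ := ih a b t hab hbn hk' ht
      refine ⟨i, hi, hi2.trans ?_⟩
      nlinarith
    · rcases slim hd h4 (γ (a + 2 ^ k)) ht with ⟨q, hq, hq2⟩ | ⟨q, hq, hq2⟩
      · obtain ⟨i, hi, hi2⟩ := ih a (a + 2 ^ k) q (by omega) (by omega) (by omega) hq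
        refine ⟨i, hi, ?_⟩
        have h1 := he.tri t q (γ i)
        have h2 := hle t q
        have h3 : 2 * D * (k + 1) = 2 * D * k + 2 * D := by ring
        omega
      · obtain ⟨i, hi, hi2⟩ := ih (a + 2 ^ k) b q (by omega) (by omega) (by omega) (by
          rw [hd.comm (γ (a + 2 ^ k)) q, hd.comm q (γ b), hd.comm (γ (a + 2 ^ k)) (γ b)]
          omega)
        refine ⟨i, hi, ?_⟩
        have h1 := he.tri t q (γ i)
        have h2 := hle t q
        have h3 : 2 * D * (k + 1) = 2 * D * k + 2 * D := by ring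
        omega

theorem sq_le_two_pow (k : ℕ) (hk : 4 ≤ k) : k * k ≤ 2 ^ k := by
  induction k, hk using Nat.le_induction with
  | base => norm_num
  | succ k hk ih =>
    rw [pow_succ]
    nlinarith

/-- a number bounded by its logarithm is bounded -/
theorem num (D h : ℕ) : ∃ M : ℕ, ∀ m : ℕ, m ≤ 2 * D * Nat.clog 2 (8 * m) + h → m ≤ M := by
  refine ⟨2 * D * (64 * D + 16 * h + 4) + h, fun m hm => ?_⟩
  set k := Nat.clog 2 (8 * m) with hk
  have key : k ≤ 64 * D + 16 * h + 4 := by
    by_contra hcon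
    push Not at hcon
    have hk4 : 4 ≤ k := by omega
    have h1 : 2 ^ (k - 1) < 8 * m := by
      have h8 : 1 < 8 * m := by
        by_contra h9
        have : 8 * m ≤ 1 := by omega
        have h10 : k = 0 := by
          rw [hk]
          exact Nat.clog_of_right_le_one this 2
        omega
      have := Nat.pow_pred_clog_lt_self (b := 2) (by norm_num) h8
      rwa [← hk] at this
    have h2 := sq_le_two_pow k hk4
    have h3 : 2 ^ k = 2 * 2 ^ (k - 1) := by
      rw [← pow_succ']
      congr 1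
      omega
    nlinarith
  calc m ≤ 2 * D * k + h := hm
    _ ≤ _ := by gcongr

variable {d e : V → V → ℕ} {D h : ℕ}

/-- the last point of a segment at `e`-distance at least `2 m` of its end -/
theorem exit_point (hd : DM d) (he : DM e) (hle : ∀ u v, e u v ≤ d u v) (x t : V) (m : ℕ) :
    ∃ x1, d x x1 + d x1 t = d x t ∧ e x1 t ≤ 2 * m ∧ (x1 = x ∨ e x1 t = 2 * m) := by
  classical
  obtain ⟨σ, h0, h1, h2⟩ := exists_geo hd x t
  have hbt : ∀ i, i ≤ d x t → d x (σ i) + d (σ i) t = d x t := by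
    intro i hi
    have a := h2 0 i (by omega) hi
    have b := h2 i (d x t) hi le_rfl
    rw [h0] at a
    rw [h1] at b
    rw [a, b]
    omega
  -- the first index from which on the distance is at most `2 m`
  have hex : ∃ j, j ≤ d x t ∧ e (σ j) t ≤ 2 * m := ⟨d x t, le_rfl, by rw [h1, he.self]; omega⟩
  set j := Nat.find hex with hj
  obtain ⟨hj1, hj2⟩ := Nat.find_spec hex
  rw [← hj] at hj1 hj2
  refine ⟨σ j, hbt j hj1, hj2, ?_⟩
  by_cases hj0 : j = 0
  · left
    rw [hj0, h0]
  · right
    have h3 := Nat.find_min hex (m := j - 1) (by omega)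
    have h4 : ¬ e (σ (j - 1)) t ≤ 2 * m := fun hc => h3 ⟨by omega, hc⟩
    have h5 := h2 (j - 1) j (by omega) hj1
    have h6 := hle (σ (j - 1)) (σ j)
    have h7 := he.tri (σ (j - 1)) (σ j) t
    omega

theorem geod_dist (he : DM e) {γ : ℕ → V} {n : ℕ} (hγ : ∀ i, i < n → e (γ i) (γ (i + 1)) ≤ 1)
    (hn : e (γ 0) (γ n) = n) : ∀ i j, i ≤ j → j ≤ n → e (γ i) (γ j) = j - i := by
  have up : ∀ i k, i + k ≤ n → e (γ i) (γ (i + k)) ≤ k := by
    intro i k
    induction k with
    | zero =>
      intro _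
      rw [add_zero, he.self]
    | succ k ih =>
      intro hk
      have h1 := ih (by omega)
      have h2 := he.tri (γ i) (γ (i + k)) (γ (i + k + 1))
      have h3 := hγ (i + k) (by omega)
      rw [← add_assoc]
      omega
  intro i j hij hj
  have h1 := up i (j - i) (by omega)
  rw [show i + (j - i) = j by omega] at h1
  have h2 := up 0 i (by omega)
  rw [zero_add] at h2
  have h3 := up j (n - j) (by omega)
  rw [show j + (n - j) = n by omega] at h3
  have h4 := he.tri (γ 0) (γ i) (γ n)
  have h5 := he.tri (γ i) (γ j) (γ n)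
  omega

/-- sub-chain of a path, in any direction -/
theorem sub_chain (he : DM e) {γ : ℕ → V} {n : ℕ} (hγ : ∀ i, i < n → e (γ i) (γ (i + 1)) ≤ 1)
    {a b : ℕ} (hab : a ≤ b) (hb : b ≤ n) :
    Chain e (fun w => ∃ i, i ≤ n ∧ w = γ i) (b - a) (γ a) (γ b) := by
  refine ⟨fun i => γ (a + i), by simp, by simp only; rw [show a + (b - a) = b by omega], ?_, ?_⟩
  · intro i hi
    exact hγ (a + i) (by omega)
  · intro i hi
    exact ⟨a + i, by omega, rfl⟩

theorem near_geod (hd : DM d) (he : DM e) (hle : ∀ u v, e u v ≤ d u v) (h4 : Four d D)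
    (hA : ∀ p q r, e p q ≤ 1 → d p r + d r q = d p q → e p r ≤ h) {M : ℕ}
    (hM : ∀ m : ℕ, m ≤ 2 * D * Nat.clog 2 (8 * m) + h → m ≤ M)
    (γ : ℕ → V) (n : ℕ) (hγ : ∀ i, i < n → e (γ i) (γ (i + 1)) ≤ 1)
    (hn : e (γ 0) (γ n) = n) (t : V) (ht : d (γ 0) t + d t (γ n) = d (γ 0) (γ n)) :
    ∃ i ≤ n, e t (γ i) ≤ M := by
  classical
  have hgd := geod_dist he hγ hn
  -- the largest distance from the path
  set S : ℕ → Prop := fun m => ∃ t, d (γ 0) t + d t (γ n) = d (γ 0) (γ n) ∧
    ∀ i ≤ n, m ≤ e t (γ i) with hS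
  have hbd : ∀ m, S m → m ≤ d (γ 0) (γ n) := by
    rintro m ⟨s, hs1, hs2⟩
    have h1 := hs2 0 (Nat.zero_le _)
    have h2 := hle s (γ 0)
    rw [hd.comm s (γ 0)] at h2
    omega
  have hS0 : S 0 := ⟨γ 0, by rw [hd.self]; omega, fun i _ => Nat.zero_le _⟩
  set m := Nat.findGreatest S (d (γ 0) (γ n)) with hm
  have hSm : S m := Nat.findGreatest_spec (P := S) (m := 0) (Nat.zero_le _) hS0
  have hmax : ∀ s, d (γ 0) s + d s (γ n) = d (γ 0) (γ n) → ∃ i ≤ n, e s (γ i) ≤ m := by
    intro s hs
    by_contra hcon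
    push Not at hcon
    have h1 : S (m + 1) := ⟨s, hs, fun i hi => hcon i hi⟩
    have h2 := Nat.le_findGreatest (P := S) (hbd _ h1) h1
    omega
  suffices hmM : m ≤ M by
    obtain ⟨i, hi, hi2⟩ := hmax t ht
    exact ⟨i, hi, hi2.trans hmM⟩
  obtain ⟨t0, ht0, hfar⟩ := hSm
  apply hM
  obtain ⟨x1, hx1, hx1e, hx1'⟩ := exit_point hd he hle (γ 0) t0 m
  obtain ⟨y1, hy1, hy1e, hy1'⟩ := exit_point hd he hle (γ n) t0 m
  have hcx := hd.comm t0 (γ n)
  have hcy := hd.comm t0 y1
  have hcy2 := hd.comm y1 (γ n)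
  have hbet : d x1 t0 + d t0 y1 = d x1 y1 := by
    have h1 := hd.tri (γ 0) x1 (γ n)
    have h2 := hd.tri x1 y1 (γ n)
    have h3 := hd.tri x1 t0 y1
    omega
  -- the path from `x1` to `γ a`
  have hxa : ∃ a, a ≤ n ∧ e x1 (γ a) ≤ m ∧
      Chain e (fun w => m ≤ e t0 w) (e x1 (γ a)) x1 (γ a) := by
    rcases hx1' with hx | hx
    · subst hx
      refine ⟨0, Nat.zero_le _, by rw [he.self]; omega, ?_⟩
      refine (geo_chain he (γ 0) (γ 0)).mono ?_
      intro w hw
      rw [he.self] at hw
      have : γ 0 = w := he.eq _ _ (by omega)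
      rw [← this]
      exact hfar 0 (Nat.zero_le _)
    · have hb : d (γ 0) x1 + d x1 (γ n) = d (γ 0) (γ n) := by
        have h1 := hd.tri (γ 0) x1 (γ n)
        have h2 := hd.tri x1 t0 (γ n)
        omega
      obtain ⟨a, ha, ha2⟩ := hmax x1 hb
      refine ⟨a, ha, ha2, (geo_chain he x1 (γ a)).mono ?_⟩
      intro w hw
      have h1 := he.tri x1 w t0
      have h2 := he.comm w t0
      show m ≤ e t0 w
      omega
  have hyb : ∃ b, b ≤ n ∧ e y1 (γ b) ≤ m ∧
      Chain e (fun w => m ≤ e t0 w) (e y1 (γ b)) y1 (γ b) := by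
    rcases hy1' with hy | hy
    · subst hy
      refine ⟨n, le_rfl, by rw [he.self]; omega, ?_⟩
      refine (geo_chain he (γ n) (γ n)).mono ?_
      intro w hw
      rw [he.self] at hw
      have : γ n = w := he.eq _ _ (by omega)
      rw [← this]
      exact hfar n le_rfl
    · have hb : d (γ 0) y1 + d y1 (γ n) = d (γ 0) (γ n) := by
        have h1 := hd.tri (γ 0) y1 (γ n)
        have h2 := hd.tri (γ 0) t0 y1
        omega
      obtain ⟨b, hb1, hb2⟩ := hmax y1 hb
      refine ⟨b, hb1, hb2, (geo_chain he y1 (γ b)).mono ?_⟩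
      intro w hw
      have h1 := he.tri y1 w t0
      have h2 := he.comm w t0
      show m ≤ e t0 w
      omega
  obtain ⟨a, ha, ha2, ca⟩ := hxa
  obtain ⟨b, hb, hb2, cb⟩ := hyb
  have hmid : e (γ a) (γ b) ≤ 6 * m := by
    have h1 := he.tri (γ a) x1 (γ b)
    have h2 := he.tri x1 t0 (γ b)
    have h3 := he.tri t0 y1 (γ b)
    have h4 := he.comm (γ a) x1
    have h5 := he.comm t0 y1
    omega
  have cm : Chain e (fun w => m ≤ e t0 w) (e (γ a) (γ b)) (γ a) (γ b) := by
    rcases le_total a b with hab | hab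
    · rw [hgd a b hab hb]
      refine (sub_chain he hγ hab hb).mono ?_
      rintro w ⟨i, hi, rfl⟩
      exact hfar i hi
    · rw [he.comm, hgd b a hab ha]
      refine ((sub_chain he hγ hab ha).symm he).mono ?_
      rintro w ⟨i, hi, rfl⟩
      exact hfar i hi
  obtain ⟨δ, k0, k1, k2, k3⟩ := (ca.concat cm).concat (cb.symm he)
  set L := e x1 (γ a) + e (γ a) (γ b) + e y1 (γ b) with hL
  have hL8 : L ≤ 2 ^ Nat.clog 2 (8 * m) := by
    refine le_trans ?_ (Nat.le_pow_clog (by norm_num) _)
    omega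
  obtain ⟨i, hi, hi2⟩ := log_bound hd he hle h4 hA δ L k2 (Nat.clog 2 (8 * m)) 0 L t0
    (Nat.zero_le _) le_rfl (by omega) (by rw [k0, k1]; exact hbet)
  exact (k3 i hi).trans hi2

theorem geod_near (hd : DM d) (he : DM e) (hle : ∀ u v, e u v ≤ d u v) {M : ℕ}
    (h1 : ∀ (γ : ℕ → V) (n : ℕ), (∀ i, i < n → e (γ i) (γ (i + 1)) ≤ 1) → e (γ 0) (γ n) = n →
      ∀ t, d (γ 0) t + d t (γ n) = d (γ 0) (γ n) → ∃ i ≤ n, e t (γ i) ≤ M)
    {u v g : V} (hg : e u g + e g v = e u v) : ∃ t, d u t + d t v = d u v ∧ e g t ≤ 3 * M + 1 := by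
  classical
  obtain ⟨α, a0, a1, a2⟩ := exists_geo he u g
  obtain ⟨β, b0, b1, b2⟩ := exists_geo he g v
  set a := e u g with ha
  set γ : ℕ → V := fun i => if i ≤ a then α i else β (i - a) with hγdef
  have hγa : γ a = g := by simp only [hγdef, le_refl, if_true]; exact a1
  have hγ0 : γ 0 = u := by simp only [hγdef, Nat.zero_le, if_true]; exact a0
  have hγn : γ (e u v) = v := by
    simp only [hγdef]
    by_cases hz : e u v ≤ a
    · rw [if_pos hz]
      have h5 : e g v = 0 := by omega
      have h6 : e u v = a := by omega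
      rw [h6, a1]
      exact he.eq _ _ h5
    · rw [if_neg hz, show e u v - a = e g v by omega, b1]
  have hγs : ∀ i, i < e u v → e (γ i) (γ (i + 1)) ≤ 1 := by
    intro i hi
    simp only [hγdef]
    by_cases hi1 : i + 1 ≤ a
    · rw [if_pos hi1, if_pos (by omega : i ≤ a), a2 i (i + 1) (by omega) hi1]
      omega
    · rw [if_neg hi1]
      by_cases hi2 : i ≤ a
      · have hi3 : i = a := by omega
        rw [if_pos hi2, hi3, a1, show a + 1 - a = 1 by omega]
        have := b2 0 1 (by omega) (by omega)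
        rw [b0] at this
        omega
      · rw [if_neg hi2]
        have := b2 (i - a) (i + 1 - a) (by omega) (by omega)
        omega
  have hend : e (γ 0) (γ (e u v)) = e u v := by rw [hγ0, hγn]
  have hgd := geod_dist he hγs hend
  have hbd := h1 γ (e u v) hγs hend
  rw [hγ0, hγn] at hbd
  obtain ⟨σ, s0, s1, s2⟩ := exists_geo hd u v
  have hbt : ∀ i, i ≤ d u v → d u (σ i) + d (σ i) v = d u v := by
    intro i hi
    have x1 := s2 0 i (by omega) hi
    have x2 := s2 i (d u v) hi le_rfl
    rw [s0] at x1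
    rw [s1] at x2
    rw [x1, x2]
    omega
  -- the last point of the geodesic which is close to the first half
  set P : ℕ → Prop := fun j => ∃ i, i ≤ a ∧ e (σ j) (γ i) ≤ M with hP
  have hP0 : P 0 := ⟨0, Nat.zero_le _, by rw [s0, hγ0, he.self]; omega⟩
  set j := Nat.findGreatest P (d u v) with hj
  have hPj : P j := Nat.findGreatest_spec (P := P) (m := 0) (Nat.zero_le _) hP0
  have hjle : j ≤ d u v := Nat.findGreatest_le _
  obtain ⟨i, hi, hi2⟩ := hPj
  have haN : a ≤ e u v := by omega
  refine ⟨σ j, hbt j hjle, ?_⟩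
  have e1 := hgd i a hi haN
  rw [hγa] at e1
  have tr := he.tri g (γ i) (σ j)
  have c1 := he.comm g (γ i)
  have c2 := he.comm (γ i) (σ j)
  by_cases hjN : j = d u v
  · have e2 := hgd i (e u v) (by omega) le_rfl
    rw [hγn] at e2
    rw [hjN, s1] at hi2 ⊢
    have c3 := he.comm v (γ i)
    omega
  · have hj1 : j + 1 ≤ d u v := by omega
    have hnP : ¬ P (j + 1) := by
      intro hc
      have := Nat.le_findGreatest (P := P) hj1 hc
      omega
    obtain ⟨i', hi', hi'2⟩ := hbd (σ (j + 1)) (hbt _ hj1)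
    have hi'a : a < i' := by
      by_contra hc
      exact hnP ⟨i', by omega, hi'2⟩
    have e3 := hgd i i' (by omega) hi'
    have e4 := s2 j (j + 1) (by omega) hj1
    have e5 := hle (σ j) (σ (j + 1))
    have t1 := he.tri (γ i) (σ j) (γ i')
    have t2 := he.tri (σ j) (σ (j + 1)) (γ i')
    omega

end Guess

open Guess in
theorem guess (D h : ℕ) : ∃ R : ℕ, ∀ (V : Type) (d e : V → V → ℕ), DM d → DM e →
    (∀ u v, e u v ≤ d u v) → Four d D →
    (∀ p q r, e p q ≤ 1 → d p r + d r q = d p q → e p r ≤ h) →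
    (∀ (γ : ℕ → V) (n : ℕ), (∀ i, i < n → e (γ i) (γ (i + 1)) ≤ 1) → e (γ 0) (γ n) = n →
      ∀ t, d (γ 0) t + d t (γ n) = d (γ 0) (γ n) → ∃ i ≤ n, e t (γ i) ≤ R) ∧
    (∀ u v g, e u g + e g v = e u v → ∃ t, d u t + d t v = d u v ∧ e g t ≤ R) ∧
    Four e R := by
  obtain ⟨M, hM⟩ := num D h
  refine ⟨4 * (3 * M + 1 + 2 * D + M) + 2, ?_⟩
  intro V d e hd he hle h4 hA
  have hi := near_geod hd he hle h4 hA hM
  have hii : ∀ u v g, e u g + e g v = e u v → ∃ t, d u t + d t v = d u v ∧ e g t ≤ 3 * M + 1 :=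
    fun u v g hg => geod_near hd he hle hi hg
  refine ⟨?_, ?_, ?_⟩
  · intro γ n hγ hn t ht
    obtain ⟨i, h1, h2⟩ := hi γ n hγ hn t ht
    exact ⟨i, h1, by omega⟩
  · intro u v g hg
    obtain ⟨t, h1, h2⟩ := hii u v g hg
    exact ⟨t, h1, by omega⟩
  · intro u v w z
    have := four_of_between e he.comm he.tri he.btw (2 * (3 * M + 1 + 2 * D + M)) ?_ u v w z
    · refine this.trans ?_
      omega
    · intro u v z p hp
      obtain ⟨t, ht1, ht2⟩ := hii u v p hp
      have key : ∀ u, (∃ q, d u q + d q z = d u z ∧ d t q ≤ 2 * D) →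
          e z p + e u p ≤ e z u + 2 * (3 * M + 1 + 2 * D + M) := by
        rintro u ⟨q, hq1, hq2⟩
        obtain ⟨γ, g0, g1, g2, g3⟩ := geo_chain he u z
        obtain ⟨i, hi1, hi2⟩ := hi γ (e u z) g2 (by rw [g0, g1]) q (by rw [g0, g1]; exact hq1)
        have h5 := g3 i hi1
        have t1 := he.tri p t q
        have t2 := he.tri p q (γ i)
        have t3 := hle t q
        have t4 := he.tri z (γ i) p
        have t5 := he.tri u (γ i) p
        have c1 := he.comm (γ i) p
        have c2 := he.comm (γ i) z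
        have c3 := he.comm z u
        have c4 := he.comm u p
        simp only at h5
        have t6 := he.tri u p (γ i)
        omega
      rcases slim hd h4 z ht1 with hq | hq
      · have := key u hq
        omega
      · have := key v hq
        have c1 := he.comm v p
        omega

end Pool.Agent.TH54.BU
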