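import Pool.Agent.TH54.BU.ConeA
import Pool.Agent.TH54.BU.Guess

/-!
# The cone metric of a system of lines is uniformly hyperbolic (helper55, job BU-CONE)
-/

set_option autoImplicit false

namespace Pool.Agent.TH54.BU

theorem exists_cone (D c : ℕ) : ∃ De : ℕ, ∀ θ : ℕ, ∃ Θ : ℕ, ∀ (G : Type) [Group G] (H : GH G)
    (T : ℕ) (L : LS H c θ T), H.D ≤ D → ∃ E : GH G, E.D = De ∧ L.Cone E Θ := by
  obtain ⟨R, hR⟩ := guess D (c + 1)
  exact ⟨R, fun θ => cone_of_guess hR θ⟩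

end Pool.Agent.TH54.BU
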