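import Pool.Agent.TH54.BU.Defs

/-!
# Projections to the axis of an element of infinite order (helper720 for helper54)
-/

set_option autoImplicit false

namespace Pool.Agent.TH54.BU

variable {G : Type*} [Group G]

namespace GH

variable (H : GH G)

/-- `A` is `k`-quasi-convex -/
def QConv (A : Set G) (k : ℕ) : Prop :=
  ∀ a ∈ A, ∀ b ∈ A, ∀ p, H.d a p + H.d p b = H.d a b → ∃ q ∈ A, H.d p q ≤ k

/-- `p` is a point of `A` nearest to `z` -/
def NearPt (A : Set G) (z p : G) : Prop := p ∈ A ∧ ∀ a ∈ A, H.d z p ≤ H.d z a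

theorem nearPt_exists {A : Set G} (hA : A.Nonempty) (z : G) : ∃ p, H.NearPt A z p := by
  classical
  have hne : ∃ n, ∃ a ∈ A, H.d z a = n := by
    obtain ⟨a, ha⟩ := hA
    exact ⟨_, a, ha, rfl⟩
  obtain ⟨p, hp, hpn⟩ := Nat.find_spec hne
  refine ⟨p, hp, fun a ha => ?_⟩
  rw [hpn]
  exact Nat.find_min' hne ⟨a, ha, rfl⟩

theorem nearPt_left {A : Set G} {z p a : G} {k : ℕ} (hA : H.QConv A k) (hp : H.NearPt A z p)
    (ha : a ∈ A) : H.d z p + H.d p a ≤ H.d z a + (2 * k + 2 * H.D + 1) := by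
  by_cases hk : k + H.D + 1 ≤ H.d p a
  · obtain ⟨q, hq1, hq2⟩ := H.between p a (k + H.D + 1) hk
    obtain ⟨a', ha', hqa'⟩ := hA p hp.1 a ha q (by omega)
    have h1 := H.fp z q p a
    have h2 := hp.2 a' ha'
    have h3 := H.d_tri z q a'
    rw [H.d_comm q p] at h1
    omega
  · have := hp.2 a ha
    omega

theorem nearPt_nearPt {A : Set G} {z p z' p' : G} {k : ℕ} (hA : H.QConv A k)
    (hp : H.NearPt A z p) (hp' : H.NearPt A z' p') (h : 2 * k + 3 * H.D + 1 < H.d p p') :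
    H.d z p + H.d p p' + H.d p' z' ≤ H.d z z' + (4 * k + 5 * H.D + 2) := by
  have h1 := H.nearPt_left hA hp hp'.1
  have h2 := H.nearPt_left hA hp' hp.1
  have h3 := H.fp z p' z' p
  rw [H.d_comm p' z', H.d_comm p' p] at h3
  rw [H.d_comm p' p] at h2
  rw [H.d_comm p' z']
  omega

theorem pax_d_zpow (x : G) (i j : ℤ) : H.d (x ^ i) (x ^ j) = H.len (x ^ (j - i)) := by
  unfold GH.d
  rw [← zpow_neg, ← zpow_add]
  congr 2
  ring

/-- points almost between two powers are near a power -/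
theorem pax_near_powers {x : G} {C : ℕ} (hsup : H.Sup C x)
    (i j : ℤ) (p : G) (e : ℕ) (h : H.d (x ^ i) p + H.d p (x ^ j) ≤ H.d (x ^ i) (x ^ j) + e) :
    ∃ l : ℤ, H.d p (x ^ l) ≤ C + e + H.len x + H.D := by
  -- wlog i ≤ j
  have aux : ∀ i j : ℤ, i ≤ j → H.d (x ^ i) p + H.d p (x ^ j) ≤ H.d (x ^ i) (x ^ j) + e →
      ∃ l : ℤ, H.d p (x ^ l) ≤ C + e + H.len x + H.D := by
    intro i j hij h
    by_cases hbig : H.d (x ^ i) (x ^ j) ≤ H.d (x ^ i) p
    · exact ⟨j, by omega⟩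
    push Not at hbig
    obtain ⟨n, hn⟩ := Int.le.dest hij
    have hex : ∃ l : ℕ, H.d (x ^ i) p ≤ H.d (x ^ i) (x ^ (i + l)) :=
      ⟨n, by rw [hn]; omega⟩
    classical
    set l := Nat.find hex with hl
    have hl1 := Nat.find_spec hex
    rw [← hl] at hl1
    have hln : l ≤ n := Nat.find_min' hex (by rw [hn]; omega)
    have hl2 : H.d (x ^ i) (x ^ (i + (l : ℤ))) ≤ H.d (x ^ i) p + H.len x := by
      rcases Nat.eq_zero_or_pos l with h0 | h0
      · rw [h0]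
        simp only [Nat.cast_zero, add_zero, H.d_self]
        omega
      · have h1 := Nat.find_min hex (m := l - 1) (by omega)
        push Not at h1
        have h2 := H.d_tri (x ^ i) (x ^ (i + ((l - 1 : ℕ) : ℤ))) (x ^ (i + (l : ℤ)))
        rw [H.pax_d_zpow x (i + ((l - 1 : ℕ) : ℤ))] at h2
        have e1 : i + (l : ℤ) - (i + ((l - 1 : ℕ) : ℤ)) = 1 := by omega
        rw [e1, zpow_one] at h2
        omega
    have h3 := hsup l (n - l)
    rw [Nat.add_sub_cancel' hln] at h3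
    have e2 : H.d (x ^ i) (x ^ (i + (l : ℤ))) = H.len (x ^ l) := by
      rw [H.pax_d_zpow, show i + (l : ℤ) - i = l by ring, zpow_natCast]
    have e3 : H.d (x ^ (i + (l : ℤ))) (x ^ j) = H.len (x ^ (n - l)) := by
      rw [H.pax_d_zpow, show j - (i + (l : ℤ)) = ((n - l : ℕ) : ℤ) by omega, zpow_natCast]
    have e4 : H.d (x ^ i) (x ^ j) = H.len (x ^ n) := by
      rw [H.pax_d_zpow, show j - i = (n : ℤ) by omega, zpow_natCast]
    have h4 := H.fp p (x ^ (i + (l : ℤ))) (x ^ i) (x ^ j)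
    rw [H.d_comm (x ^ (i + (l : ℤ))) (x ^ i), H.d_comm p (x ^ i)] at h4
    refine ⟨i + l, ?_⟩
    omega
  rcases le_total i j with hij | hij
  · exact aux i j hij h
  · refine aux j i hij ?_
    rw [H.d_comm (x ^ j) p, H.d_comm p (x ^ i), H.d_comm (x ^ j) (x ^ i)]
    omega

end GH

theorem GH.exists_pax (H : GH G) {x : G} {c0 L1 : ℕ} (hx : ¬ IsOfFinOrder x)
    (hs : H.Sup c0 x) (hl : H.len x ≤ L1) : ∃ κ : G → ℤ,
    (∀ (j : ℤ) (g : G), κ (x ^ j * g) = κ g + j) ∧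
    (∀ (g : G) (k : ℤ), H.d g (x ^ κ g) ≤ H.d g (x ^ k)) ∧
    (∀ (g h : G), 10 * (H.D + c0 + L1 + 1) < H.len (x ^ (κ g - κ h)) →
      H.d g (x ^ κ g) + H.len (x ^ (κ g - κ h)) + H.d h (x ^ κ h) ≤
        H.d g h + 10 * (H.D + c0 + L1 + 1)) ∧
    (∀ (a b : ℤ) (p : G), H.d (x ^ a) p + H.d p (x ^ b) = H.d (x ^ a) (x ^ b) →
      ∃ k : ℤ, H.d p (x ^ k) ≤ 10 * (H.D + c0 + L1 + 1)) := by
  classical
  have hinj : ∀ i j : ℤ, x ^ i = x ^ j → i = j := by
    intro i j h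
    exact injective_zpow_iff_not_isOfFinOrder.2 hx h
  set Z : Set G := (Subgroup.zpowers x : Set G) with hZ
  have hQC : H.QConv Z (c0 + L1 + H.D) := by
    rintro a ⟨i, rfl⟩ b ⟨j, rfl⟩ p hp
    obtain ⟨l, hl'⟩ := H.pax_near_powers hs i j p 0 (by simpa using hp.le)
    exact ⟨x ^ l, ⟨l, rfl⟩, by omega⟩
  -- exponents of nearest points
  have hk0 : ∀ g : G, ∃ k : ℤ, ∀ j : ℤ, H.d g (x ^ k) ≤ H.d g (x ^ j) := by
    intro g
    obtain ⟨p, ⟨k, rfl⟩, hp⟩ := H.nearPt_exists (A := Z) ⟨1, Subgroup.one_mem _⟩ g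
    exact ⟨k, fun j => hp _ ⟨j, rfl⟩⟩
  choose κ0 hκ0 using hk0
  let rep : G → G := fun g => Quotient.out (Quotient.mk (QuotientGroup.rightRel
    (Subgroup.zpowers x)) g)
  have hrep : ∀ g, ∃ j : ℤ, x ^ j = g * (rep g)⁻¹ := by
    intro g
    have h1 : (QuotientGroup.rightRel (Subgroup.zpowers x)) (rep g) g := by
      apply Quotient.exact
      exact Quotient.out_eq _
    rw [QuotientGroup.rightRel_apply] at h1
    obtain ⟨j, hj⟩ := h1
    exact ⟨j, hj⟩
  choose jj hjj using hrep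
  have hrep_shift : ∀ (j : ℤ) (g : G), rep (x ^ j * g) = rep g := by
    intro j g
    show Quotient.out _ = Quotient.out _
    congr 1
    apply Quotient.sound
    show (QuotientGroup.rightRel (Subgroup.zpowers x)) _ _
    rw [QuotientGroup.rightRel_apply]
    refine ⟨-j, ?_⟩
    simp only [zpow_neg, mul_inv_rev]
    group
  let κ : G → ℤ := fun g => jj g + κ0 (rep g)
  have hshift : ∀ (j : ℤ) (g : G), κ (x ^ j * g) = κ g + j := by
    intro j g
    have h1 : jj (x ^ j * g) = jj g + j := by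
      apply hinj
      rw [hjj, hrep_shift, mul_assoc, ← hjj g, ← zpow_add]
      congr 1
      ring
    show jj (x ^ j * g) + κ0 (rep (x ^ j * g)) = jj g + κ0 (rep g) + j
    rw [h1, hrep_shift]
    ring
  have hnear : ∀ (g : G) (k : ℤ), H.d g (x ^ κ g) ≤ H.d g (x ^ k) := by
    intro g k
    have h1 : g = x ^ jj g * rep g := by rw [hjj, inv_mul_cancel_right]
    have h2 := hκ0 (rep g) (k - jj g)
    have h3 : ∀ i : ℤ, H.d g (x ^ (jj g + i)) = H.d (rep g) (x ^ i) := by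
      intro i
      rw [zpow_add]
      calc H.d g (x ^ jj g * x ^ i) = H.d (x ^ jj g * rep g) (x ^ jj g * x ^ i) := by rw [← h1]
        _ = _ := H.d_mul _ _ _
    have h4 := h3 (κ0 (rep g))
    have h5 := h3 (k - jj g)
    rw [show jj g + (k - jj g) = k by ring] at h5
    show H.d g (x ^ (jj g + κ0 (rep g))) ≤ _
    rw [h4, h5]
    exact h2
  have hN : ∀ g, H.NearPt Z g (x ^ κ g) := by
    intro g
    refine ⟨⟨_, rfl⟩, ?_⟩
    rintro a ⟨k, rfl⟩
    exact hnear g k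
  refine ⟨κ, hshift, hnear, ?_, ?_⟩
  · intro g h hgh
    have h3 : H.d (x ^ κ g) (x ^ κ h) = H.len (x ^ (κ g - κ h)) := by
      rw [H.d_comm, H.pax_d_zpow]
    have h2 := H.nearPt_nearPt hQC (hN g) (hN h) (by omega)
    rw [h3, H.d_comm (x ^ κ h) h] at h2
    omega
  · intro a b p hp
    obtain ⟨l, hl'⟩ := H.pax_near_powers hs a b p 0 (by simpa using hp.le)
    exact ⟨l, by omega⟩

end Pool.Agent.TH54.BU
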