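import Pool.Agent.TH54.BU.Axial
import Pool.Agent.TH54.BU.Cent
import Pool.Agent.TH54.BU.PAx
import Pool.Agent.TH54.BU.MixA

set_option autoImplicit false

/-!
# BU-LS (job 1380, written by helper576): existence of the system of lines
-/

namespace Pool.Agent.TH54.BU

namespace Fls

/-! ### Conjugates -/

theorem conj_comm {G : Type*} [Group G] {x u a : G} (h : a * (u * x * u⁻¹) = u * x * u⁻¹ * a) :
    u⁻¹ * a * u * x = x * (u⁻¹ * a * u) := by
  have h2 : u⁻¹ * (a * (u * x * u⁻¹)) * u = u⁻¹ * (u * x * u⁻¹ * a) * u := by rw [h]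
  calc u⁻¹ * a * u * x = u⁻¹ * (a * (u * x * u⁻¹)) * u := by group
    _ = u⁻¹ * (u * x * u⁻¹ * a) * u := h2
    _ = x * (u⁻¹ * a * u) := by group

theorem prim_conj {G : Type*} [Group G] {x : G} (u : G) (hx : Prim x) : Prim (u * x * u⁻¹) := by
  refine ⟨?_, ?_⟩
  · intro h
    apply hx.1
    rw [isOfFinOrder_iff_pow_eq_one] at h ⊢
    obtain ⟨n, hn, h⟩ := h
    refine ⟨n, hn, ?_⟩
    rw [conj_pow] at h
    have : u * x ^ n * u⁻¹ = 1 := h
    calc x ^ n = u⁻¹ * (u * x ^ n * u⁻¹) * u := by group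
      _ = 1 := by rw [this]; group
  · intro a ha
    obtain ⟨k, hk⟩ := hx.2 _ (conj_comm ha)
    refine ⟨k, ?_⟩
    have hk' : x ^ k = u⁻¹ * a * u := hk
    show (u * x * u⁻¹) ^ k = a
    rw [conj_zpow, hk']
    group

theorem zpow_inj {G : Type*} [Group G] {x : G} (hx : ¬ IsOfFinOrder x) {a b : ℤ}
    (h : x ^ a = x ^ b) : a = b := by
  exact (injective_zpow_iff_not_isOfFinOrder.2 hx) h

/-- two primitive elements with commuting conjugates -/
theorem prim_comm {G : Type*} [Group G] {x y : G} (u : G) (hx : Prim x) (hy : Prim y)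
    (h : x * (u * y * u⁻¹) = u * y * u⁻¹ * x) : u * y * u⁻¹ = x ∨ u * y * u⁻¹ = x⁻¹ := by
  obtain ⟨m, hm⟩ := hx.2 _ h.symm
  have hm' : x ^ m = u * y * u⁻¹ := hm
  obtain ⟨l, hl⟩ := (prim_conj u hy).2 _ h
  have hl' : (u * y * u⁻¹) ^ l = x := hl
  rw [← hm', ← zpow_mul] at hl'
  have h1 : m * l = 1 := zpow_inj hx.1 (by rw [hl', zpow_one])
  rcases Int.eq_one_or_neg_one_of_mul_eq_one h1 with h2 | h2
  · left
    rw [← hm', h2, zpow_one]
  · right
    rw [← hm', h2, zpow_neg, zpow_one]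

variable {G : Type*} [Group G]

theorem acy_mix {H : GH G} {K B : ℕ} (hA : H.Acy K B) : H.Mix K B 0 := by
  intro q hq
  exact ⟨fun g hg => (hA q hq g hg).1, Or.inl fun g hg h hh => (hA q hq g hg).2 h hh⟩

/-- a point which is almost between two points is close to a point between them -/
theorem near_btw (H : GH G) {p q t : G} {c : ℕ} (h : H.d p t + H.d t q ≤ H.d p q + c) :
    ∃ r, H.d p r + H.d r q = H.d p q ∧ H.d t r ≤ c + H.D := by
  rcases le_total (H.d p t) (H.d p q) with h1 | h1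
  · obtain ⟨r, h2, h3⟩ := H.between p q _ h1
    refine ⟨r, by omega, ?_⟩
    have h4 := H.fp t r p q
    rw [H.d_comm r q, H.d_comm t p, H.d_comm r p, H.d_comm q r] at h4
    rcases le_total (H.d p t + H.d r q) (H.d t q + H.d p r) with h5 | h5
    · rw [max_eq_right h5] at h4
      omega
    · rw [max_eq_left h5] at h4
      omega
  · exact ⟨q, by rw [H.d_self, Nat.add_zero], by omega⟩

/-- the displacement of a point near a line -/
theorem disp (H : GH G) {q r h : G} {e l : ℕ} (h1 : H.d q r ≤ e) (h2 : H.d r (h * r) ≤ l) :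
    H.d q (h * q) ≤ l + 2 * e := by
  have h3 := H.d_tri q r (h * q)
  have h4 := H.d_tri r (h * r) (h * q)
  have h5 : H.d (h * r) (h * q) = H.d r q := H.d_mul _ _ _
  rw [h5, H.d_comm r q] at h4
  omega

theorem disp_zpow (H : GH G) (x u : G) (k : ℤ) :
    H.d (u * x ^ k) (u * x * u⁻¹ * (u * x ^ k)) = H.len x := by
  unfold GH.d
  congr 1
  group

/-- two lines with a long overlap -/
theorem ovl (H : GH G) {K B T : ℕ} (hK : 100 * H.D + 100 ≤ K) (hS : H.Stab T) (hA : H.Acy K B)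
    {x y u : G} {c L1 : ℕ} (hx : H.len x ≤ L1) (hy : H.len y ≤ L1) {κ : G → ℤ}
    (proj : ∀ (g h : G), c < H.len (x ^ (κ g - κ h)) →
      H.d g (x ^ κ g) + H.len (x ^ (κ g - κ h)) + H.d h (x ^ κ h) ≤ H.d g h + c)
    (qc : ∀ (a b : ℤ) (p : G), H.d (y ^ a) p + H.d p (y ^ b) = H.d (y ^ a) (y ^ b) →
      ∃ k : ℤ, H.d p (y ^ k) ≤ c) (a b : ℤ)
    (hθ : B + 200 * (L1 + c + H.D + 1) < H.len (x ^ (κ (u * y ^ a) - κ (u * y ^ b)))) :
    x * (u * y * u⁻¹) = u * y * u⁻¹ * x := by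
  set p1 := u * y ^ a with hp1
  set p2 := u * y ^ b with hp2
  set q1 := x ^ κ p1 with hq1
  set q2 := x ^ κ p2 with hq2
  have h1 := proj p1 p2 (by omega)
  have e1 : H.len (x ^ (κ p1 - κ p2)) = H.d q2 q1 := by
    unfold GH.d
    rw [hq1, hq2]
    congr 1
    group
  rw [← hq1, ← hq2, e1] at h1
  rw [e1] at hθ
  rw [H.d_comm q2 q1] at h1
  have key : ∀ t, H.d p1 t + H.d t p2 ≤ H.d p1 p2 + c →
      H.d t (u * y * u⁻¹ * t) ≤ L1 + 2 * (2 * c + H.D) := by
    intro t ht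
    obtain ⟨r, hr1, hr2⟩ := near_btw H ht
    obtain ⟨k, hk⟩ := qc a b (u⁻¹ * r) (by
      have f1 : H.d (y ^ a) (u⁻¹ * r) = H.d p1 r := by
        rw [← H.d_mul u, hp1]
        congr 1
        group
      have f2 : H.d (u⁻¹ * r) (y ^ b) = H.d r p2 := by
        rw [← H.d_mul u, hp2]
        congr 1
        group
      have f3 : H.d (y ^ a) (y ^ b) = H.d p1 p2 := by
        rw [← H.d_mul u, hp1, hp2]
      rw [f1, f2, f3]
      exact hr1)
    have f4 : H.d (u⁻¹ * r) (y ^ k) = H.d r (u * y ^ k) := by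
      rw [← H.d_mul u]
      congr 1
      group
    rw [f4] at hk
    have f5 := H.d_tri t r (u * y ^ k)
    exact disp H (r := u * y ^ k) (e := 2 * c + H.D) (by omega)
      (by rw [disp_zpow]; exact hy)
  have t1 := H.d_tri q1 q2 p2
  have t2 := H.d_tri p1 q1 q2
  rw [H.d_comm p2 q2] at h1
  have k1 := key q1 (by omega)
  have k2 := key q2 (by omega)
  have k3 : ∀ m : ℤ, H.d (x ^ m) (x * x ^ m) = H.len x := by
    intro m
    unfold GH.d
    congr 1
    group
  have hR := H.mixA hK hS (acy_mix hA) (L1 + 2 * (2 * c + H.D)) (q1⁻¹ * q2) (by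
    have : H.len (q1⁻¹ * q2) = H.d q2 q1 := by rw [H.d_comm]; rfl
    rw [this]
    omega)
  have hSD : ∀ g : G, H.d q1 (g * q1) ≤ L1 + 2 * (2 * c + H.D) →
      H.d q2 (g * q2) ≤ L1 + 2 * (2 * c + H.D) →
      q1⁻¹ * g * q1 ∈ H.SD (L1 + 2 * (2 * c + H.D)) (q1⁻¹ * q2) := by
    intro g hg1 hg2
    refine ⟨?_, ?_⟩
    · have : H.len (q1⁻¹ * g * q1) = H.d q1 (g * q1) := by
        unfold GH.d
        congr 1
        group
      rw [this]
      exact hg1
    · have : H.len ((q1⁻¹ * q2)⁻¹ * (q1⁻¹ * g * q1) * (q1⁻¹ * q2)) = H.d q2 (g * q2) := by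
        unfold GH.d
        congr 1
        group
      rw [this]
      exact hg2
  have c1 := (hR _ (hSD x (by rw [k3]; omega) (by rw [k3]; omega))).2 _
    (hSD (u * y * u⁻¹) k1 k2)
  calc x * (u * y * u⁻¹) = q1 * (q1⁻¹ * x * q1 * (q1⁻¹ * (u * y * u⁻¹) * q1)) * q1⁻¹ := by group
    _ = q1 * (q1⁻¹ * (u * y * u⁻¹) * q1 * (q1⁻¹ * x * q1)) * q1⁻¹ := by rw [c1]
    _ = u * y * u⁻¹ * x := by group

theorem sup_pow (H : GH G) {c : ℕ} {x : G} (hx : H.Sup c x) (n : ℕ) :
    n * H.len x ≤ H.len (x ^ n) + n * c := by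
  induction n with
  | zero => simp
  | succ n ih =>
    have h := hx n 1
    rw [pow_one] at h
    have e1 : (n + 1) * H.len x = n * H.len x + H.len x := by ring
    have e2 : (n + 1) * c = n * c + c := by ring
    omega

theorem len_pow_le' (H : GH G) (x : G) (n : ℕ) : H.len (x ^ n) ≤ n * H.len x := by
  induction n with
  | zero => simp [H.len_one]
  | succ n ih =>
    have h := H.len_mul (x ^ n) x
    rw [pow_succ]
    have e1 : (n + 1) * H.len x = n * H.len x + H.len x := by ring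
    omega

theorem natAbs_pow (z x : G) (u : G) {k : ℤ} (h : z = x ^ k) (n : ℕ) :
    (u⁻¹ * x * u) ^ (k.natAbs * n) = u⁻¹ * z ^ n * u ∨
      (u⁻¹ * x * u) ^ (k.natAbs * n) = u⁻¹ * (z ^ n)⁻¹ * u := by
  have e1 : ∀ m : ℕ, (u⁻¹ * x * u) ^ m = u⁻¹ * x ^ m * u := by
    intro m
    have := conj_pow (a := u⁻¹) (b := x) (i := m)
    rwa [inv_inv] at this
  rw [e1, h]
  rcases Int.natAbs_eq k with h1 | h1
  · left
    congr 2
    rw [pow_mul]
    congr 1
    conv_rhs => rw [h1]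
    rw [zpow_natCast]
  · right
    congr 2
    rw [pow_mul]
    conv_rhs => rw [h1]
    rw [zpow_neg, zpow_natCast, inv_pow, inv_inv]

/-- the length of an axial root of a conjugate -/
theorem len_root (H : GH G) {c : ℕ} {z x u : G} {k : ℤ} (hk : k ≠ 0) (h : z = x ^ k)
    (hs : H.Sup c (u⁻¹ * x * u)) : H.len (u⁻¹ * x * u) ≤ H.len z + c := by
  by_contra hlt
  push Not at hlt
  set y := u⁻¹ * x * u with hy
  set n := 2 * H.len u + c + 1 with hn
  have hk1 : 1 ≤ k.natAbs := Int.natAbs_pos.2 hk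
  have h1 := sup_pow H hs n
  have h2 : H.len (y ^ (k.natAbs * n)) ≤ 2 * H.len u + n * H.len z := by
    have h3 : H.len (z ^ n) ≤ n * H.len z := len_pow_le' H z n
    rcases natAbs_pow z x u h n with h4 | h4
    · rw [h4]
      have h5 := H.len_mul (u⁻¹ * z ^ n) u
      have h6 := H.len_mul u⁻¹ (z ^ n)
      rw [H.len_inv] at h6
      omega
    · rw [h4]
      have h5 := H.len_mul (u⁻¹ * (z ^ n)⁻¹) u
      have h6 := H.len_mul u⁻¹ (z ^ n)⁻¹
      rw [H.len_inv, H.len_inv] at h6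
      omega
  have h3 := hs n (k.natAbs * n - n)
  have h4 : n + (k.natAbs * n - n) = k.natAbs * n := by
    have : n ≤ k.natAbs * n := Nat.le_mul_of_pos_left _ hk1
    omega
  rw [h4] at h3
  have h5 : n * (H.len z + c + 1) ≤ n * H.len y := Nat.mul_le_mul_left _ hlt
  have h6 : n * (H.len z + c + 1) = n * H.len z + n * c + n := by ring
  omega

end Fls

open Fls in
theorem exists_LS {G : Type} [Group G] (H : GH G) {K B T p : ℕ} (hK : 100 * H.D + 100 ≤ K)
    (hS : H.Stab T) (hA : H.Acy K B) (hp : Odd p) (htor : Tor G p) (L1 : ℕ) :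
    ∃ L : LS H (10 * (21 * H.D + 21 + L1))
      (B + 200 * (L1 + 10 * (21 * H.D + 21 + L1) + H.D + 1)) T,
      (∀ i, Prim (L.x i)) ∧ (∀ i, H.len (L.x i) ≤ L1) ∧
      ∀ z, ¬ IsOfFinOrder z → H.len z + 40 * H.D + 40 ≤ L1 → L.Short z := by
  classical
  set c0 := 20 * H.D + 20 with hc0
  have hc : 10 * (H.D + c0 + L1 + 1) = 10 * (21 * H.D + 21 + L1) := by omega
  -- candidates
  let Cand : Type := {x : G // Prim x ∧ H.Sup c0 x ∧ H.len x ≤ L1}
  let S : Setoid Cand :=
    { r := fun x y => ∃ w : G, y.1 = w * x.1 * w⁻¹ ∨ y.1 = w * x.1⁻¹ * w⁻¹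
      iseqv := by
        refine ⟨fun x => ⟨1, Or.inl (by simp)⟩, ?_, ?_⟩
        · rintro x y ⟨w, h | h⟩
          · exact ⟨w⁻¹, Or.inl (by rw [h]; group)⟩
          · exact ⟨w⁻¹, Or.inr (by rw [h]; group)⟩
        · rintro x y z ⟨w, h | h⟩ ⟨v, h' | h'⟩
          · exact ⟨v * w, Or.inl (by rw [h', h]; group)⟩
          · exact ⟨v * w, Or.inr (by rw [h', h]; group)⟩
          · exact ⟨v * w, Or.inr (by rw [h', h]; group)⟩
          · exact ⟨v * w, Or.inl (by rw [h', h]; group)⟩ }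
  let ι : Type := Quotient S
  let x : ι → G := fun i => (Quotient.out i).1
  have hx : ∀ i, Prim (x i) ∧ H.Sup c0 (x i) ∧ H.len (x i) ≤ L1 := fun i => (Quotient.out i).2
  have hpax := fun i => H.exists_pax (hx i).1.1 (hx i).2.1 (hx i).2.2
  choose κ hshift hnear hproj hqc using hpax
  rw [hc] at hproj hqc
  have hM := acy_mix hA
  have h2 : ∀ u : G, u ^ 2 = 1 → u = 1 := by
    intro u hu
    have hf : IsOfFinOrder u := isOfFinOrder_iff_pow_eq_one.2 ⟨2, by norm_num, hu⟩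
    have h3 := htor u hf
    obtain ⟨m, rfl⟩ := hp
    rw [pow_add, pow_mul, hu, one_pow, one_mul, pow_one] at h3
    exact h3
  let L : LS H (10 * (21 * H.D + 21 + L1))
      (B + 200 * (L1 + 10 * (21 * H.D + 21 + L1) + H.D + 1)) T :=
    { ι := ι
      x := x
      κ := κ
      shift := hshift
      near := hnear
      proj := hproj
      sup := by
        intro i a b
        have := (hx i).2.1 a b
        omega
      xlen := by
        intro i
        have := (hx i).2.2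
        omega
      qc := hqc
      lin := fun i a => hS (x i) (hx i).1.1 a
      ov := by
        intro i j u hu a b
        by_contra hlt
        push Not at hlt
        have hcm := ovl H hK hS hA (hx i).2.2 (hx j).2.2 (hproj i) (hqc j) a b hlt
        have h3 := prim_comm u (hx i).1 (hx j).1 hcm
        have hij : i = j := by
          rw [← Quotient.out_eq i, ← Quotient.out_eq j]
          apply Quotient.sound
          show ∃ w : G, x j = w * x i * w⁻¹ ∨ x j = w * (x i)⁻¹ * w⁻¹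
          rcases h3 with h3 | h3
          · exact ⟨u⁻¹, Or.inl (by rw [← h3]; group)⟩
          · exact ⟨u⁻¹, Or.inr (by rw [← h3]; group)⟩
        refine hu hij ?_
        subst hij
        rcases h3 with h3 | h3
        · exact H.nrm hK hS hM (hx i).1 (h2 u) (a := 1) (b := 1) one_ne_zero
            (by rw [zpow_one]; exact h3)
        · exact H.nrm hK hS hM (hx i).1 (h2 u) (a := 1) (b := -1) one_ne_zero
            (by rw [zpow_one, zpow_neg, zpow_one]; exact h3) }
  refine ⟨L, fun i => (hx i).1, fun i => (hx i).2.2, ?_⟩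
  intro z hz hlz
  obtain ⟨z0, hz0, k, hk⟩ := H.cyc hK hS hM hz
  have hk' : z = z0 ^ k := hk.symm
  have hk0 : k ≠ 0 := by
    rintro rfl
    apply hz
    rw [hk', zpow_zero]
    exact IsOfFinOrder.one
  obtain ⟨u, hu⟩ := H.axial hS hz0.1
  have hlen := len_root H hk0 hk' hu
  have hprim : Prim (u⁻¹ * z0 * u) := by
    have := prim_conj u⁻¹ hz0
    rwa [inv_inv] at this
  let X : Cand := ⟨u⁻¹ * z0 * u, hprim, hu, by omega⟩
  let i : ι := Quotient.mk S X
  obtain ⟨w, hw⟩ : ∃ w : G, X.1 = w * x i * w⁻¹ ∨ X.1 = w * (x i)⁻¹ * w⁻¹ :=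
    Quotient.exact (Quotient.out_eq i)
  have hz1 : z = u * X.1 ^ k * u⁻¹ := by
    rw [hk', show z0 = u * X.1 * u⁻¹ by show z0 = u * (u⁻¹ * z0 * u) * u⁻¹; group, conj_zpow]
  rcases hw with hw | hw
  · refine ⟨i, u * w, k, ?_⟩
    rw [hz1, hw, conj_zpow]
    show _ = u * w * x i ^ k * (u * w)⁻¹
    group
  · refine ⟨i, u * w, -k, ?_⟩
    rw [hz1, hw, conj_zpow]
    show _ = u * w * x i ^ (-k) * (u * w)⁻¹
    rw [inv_zpow', mul_inv_rev]
    group

end Pool.Agent.TH54.BU
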