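import Pool.Agent.TH54.BU.QuoEA
import Pool.Agent.TH54.BU.Close

/-!
# The quotient of the cone metric is hyperbolic (job BU-QUO)
-/

set_option autoImplicit false
set_option linter.unusedVariables false

namespace Pool.Agent.TH54.BU

namespace LS

variable {G : Type*} [Group G] {H : GH G} {c θ T : ℕ} (L : LS H c θ T)

theorem exists_quo {n : ℕ} {M : Subgroup G} [M.Normal] (F : L.Fil n M) {E : GH G} {Θ : ℕ}
    (C : L.Cone E Θ) (hT : 1 ≤ T)
    (hn : 24 * L.thr + T * (2 * c + 1) + 4 * (T * Θ + 1) ≤ n) :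
    ∃ Q : GH (G ⧸ M), Q.D = 2 * E.D + 2 ∧ (∀ g : G, Q.len (g : G ⧸ M) ≤ E.len g) ∧
      ∀ q : G ⧸ M, ∃ g : G, (g : G ⧸ M) = q ∧ E.len g = Q.len q :=
  L.qo_exists (fun _ _ h1 h2 Rel h3 h4 P h5 h6 => L.close F h1 h2 Rel h3 h4 P h5 h6) C hn

end LS

end Pool.Agent.TH54.BU
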