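import Pool.Agent.TH54.BU.Defs

set_option autoImplicit false

/-!
# BU-RESCALE (job 1383, helper54): rescaling a hyperbolic length
-/

namespace Pool.Agent.TH54.BU

/-- rounding up division -/
theorem rescale_le {κ : ℕ} (h1 : 1 ≤ κ) (n : ℕ) : n ≤ κ * ((n + κ - 1) / κ) := by
  have h2 := Nat.div_add_mod (n + κ - 1) κ
  have h3 := Nat.mod_lt (n + κ - 1) (show 0 < κ by omega)
  omega

theorem rescale_ge {κ : ℕ} (n : ℕ) : κ * ((n + κ - 1) / κ) ≤ n + κ - 1 := Nat.mul_div_le _ _

theorem rescale {G : Type*} [Group G] (E : GH G) {κ : ℕ} (h1 : 1 ≤ κ) (hκ : E.D ≤ κ) :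
    ∃ F : GH G, F.D = 4 ∧ ∀ g, F.len g = (E.len g + κ - 1) / κ := by
  refine ⟨{ len := fun g => (E.len g + κ - 1) / κ
            D := 4
            len_one := ?_
            eq_one := ?_
            len_inv := ?_
            len_mul := ?_
            fp' := ?_
            step := ?_ }, rfl, fun g => rfl⟩
  · show (E.len 1 + κ - 1) / κ = 0
    rw [E.len_one]
    exact Nat.div_eq_of_lt (by omega)
  · intro g hg
    have h2 := rescale_le h1 (E.len g)
    rw [show (E.len g + κ - 1) / κ = 0 from hg, mul_zero] at h2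
    exact E.eq_one g (by omega)
  · intro g
    show (E.len g⁻¹ + κ - 1) / κ = (E.len g + κ - 1) / κ
    rw [E.len_inv]
  · intro g h
    show (E.len (g * h) + κ - 1) / κ ≤ (E.len g + κ - 1) / κ + (E.len h + κ - 1) / κ
    have i1 := rescale_ge (κ := κ) (E.len (g * h))
    have i2 := rescale_le h1 (E.len g)
    have i3 := rescale_le h1 (E.len h)
    have i4 := E.len_mul g h
    have i5 : κ * ((E.len (g * h) + κ - 1) / κ) <
        κ * ((E.len g + κ - 1) / κ + (E.len h + κ - 1) / κ + 1) := by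
      rw [mul_add, mul_add]
      omega
    have i6 := Nat.lt_of_mul_lt_mul_left i5
    omega
  · intro u v w z
    have e := E.fp' u v w z
    have a1 := rescale_ge (κ := κ) (E.len (u⁻¹ * v))
    have a2 := rescale_ge (κ := κ) (E.len (w⁻¹ * z))
    have b1 := rescale_le h1 (E.len (u⁻¹ * w))
    have b2 := rescale_le h1 (E.len (v⁻¹ * z))
    have b3 := rescale_le h1 (E.len (u⁻¹ * z))
    have b4 := rescale_le h1 (E.len (v⁻¹ * w))
    show (E.len (u⁻¹ * v) + κ - 1) / κ + (E.len (w⁻¹ * z) + κ - 1) / κ ≤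
      max ((E.len (u⁻¹ * w) + κ - 1) / κ + (E.len (v⁻¹ * z) + κ - 1) / κ)
        ((E.len (u⁻¹ * z) + κ - 1) / κ + (E.len (v⁻¹ * w) + κ - 1) / κ) + 4
    generalize (E.len (u⁻¹ * v) + κ - 1) / κ = f1 at *
    generalize (E.len (w⁻¹ * z) + κ - 1) / κ = f2 at *
    generalize (E.len (u⁻¹ * w) + κ - 1) / κ = f3 at *
    generalize (E.len (v⁻¹ * z) + κ - 1) / κ = f4 at *
    generalize (E.len (u⁻¹ * z) + κ - 1) / κ = f5 at *
    generalize (E.len (v⁻¹ * w) + κ - 1) / κ = f6 at *
    rcases le_total (E.len (u⁻¹ * w) + E.len (v⁻¹ * z)) (E.len (u⁻¹ * z) + E.len (v⁻¹ * w)) with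
      h | h
    · rw [max_eq_right h] at e
      have i5 : κ * (f1 + f2) < κ * (f5 + f6 + 3) := by
        rw [mul_add, mul_add, mul_add]
        omega
      have i6 := Nat.lt_of_mul_lt_mul_left i5
      have i7 := le_max_right (f3 + f4) (f5 + f6)
      omega
    · rw [max_eq_left h] at e
      have i5 : κ * (f1 + f2) < κ * (f3 + f4 + 3) := by
        rw [mul_add, mul_add, mul_add]
        omega
      have i6 := Nat.lt_of_mul_lt_mul_left i5
      have i7 := le_max_left (f3 + f4) (f5 + f6)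
      omega
  · intro g k hk
    have hk' : k ≤ (E.len g + κ - 1) / κ := hk
    rcases hk'.eq_or_lt with hk2 | hk2
    · refine ⟨g, hk2.symm, ?_⟩
      show (E.len (g⁻¹ * g) + κ - 1) / κ + k = (E.len g + κ - 1) / κ
      rw [inv_mul_cancel, E.len_one, Nat.div_eq_of_lt (by omega)]
      omega
    · have i1 := rescale_ge (κ := κ) (E.len g)
      have i2 : κ * (k + 1) ≤ κ * ((E.len g + κ - 1) / κ) := Nat.mul_le_mul_left _ hk2
      rw [mul_add] at i2
      obtain ⟨h, hh1, hh2⟩ := E.step g (κ * k) (by omega)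
      refine ⟨h, ?_, ?_⟩
      · show (E.len h + κ - 1) / κ = k
        rw [hh1, Nat.add_sub_assoc h1, Nat.mul_add_div (by omega), Nat.div_eq_of_lt (by omega)]
        rfl
      · show (E.len (h⁻¹ * g) + κ - 1) / κ + k = (E.len g + κ - 1) / κ
        rw [← hh2, show E.len (h⁻¹ * g) + κ * k + κ - 1 = κ * k + (E.len (h⁻¹ * g) + κ - 1) by omega,
          Nat.mul_add_div (by omega), add_comm]

end Pool.Agent.TH54.BU
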