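import Pool.Agent.TH54.BU.Close

set_option autoImplicit false

namespace Pool.Agent.TH54.BU

/-! ### geodesic paths -/

theorem GH.rg_path {G : Type*} [Group G] (E : GH G) : ∀ (n : ℕ) (p q : G), E.d p q = n →
    ∃ γ : ℕ → G, γ 0 = p ∧ γ n = q ∧ ∀ i, i < n → E.d (γ i) (γ (i + 1)) ≤ 1 := by
  intro n
  induction n with
  | zero =>
    intro p q h
    exact ⟨fun _ => p, rfl, E.eq_of_d h, fun i hi => absurd hi (Nat.not_lt_zero _)⟩
  | succ n ih =>
    intro p q h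
    obtain ⟨r, hr1, hr2⟩ := E.between p q n (by omega)
    obtain ⟨γ, h0, hn, hs⟩ := ih p r hr1
    refine ⟨fun i => if i ≤ n then γ i else q, ?_, ?_, ?_⟩
    · simp [h0]
    · simp
    · intro i hi
      rcases Nat.lt_or_ge i n with h1 | h1
      · simp only [h1.le, if_true, Nat.succ_le_of_lt h1]
        exact hs i h1
      · have h2 : i = n := by omega
        subst h2
        simp only [le_refl, if_true, Nat.not_succ_le_self, if_false]
        rw [hn]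
        omega

theorem GH.rg_geod {G : Type*} [Group G] (E : GH G) (p q : G) :
    ∃ γ : ℕ → G, γ 0 = p ∧ γ (E.d p q) = q ∧ E.Geod γ (E.d p q) := by
  obtain ⟨γ, h0, hn, hs⟩ := E.rg_path (E.d p q) p q rfl
  exact ⟨γ, h0, hn, hs, by rw [h0, hn]⟩

theorem GH.rg_walk {G : Type*} [Group G] (E : GH G) (γ : ℕ → G) (n : ℕ)
    (h : ∀ i, i < n → E.d (γ i) (γ (i + 1)) ≤ 1) : ∀ a b, a ≤ b → b ≤ n →
    E.d (γ a) (γ b) ≤ b - a := by
  intro a b hab hbn
  induction b, hab using Nat.le_induction with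
  | base => simp [E.d_self]
  | succ b hab ih =>
    have h1 := ih (by omega)
    have h2 := h b (by omega)
    have h3 := E.d_tri (γ a) (γ b) (γ (b + 1))
    omega

theorem GH.rg_geod_sub {G : Type*} [Group G] (E : GH G) {γ : ℕ → G} {n : ℕ} (h : E.Geod γ n)
    {a b : ℕ} (hab : a ≤ b) (hbn : b ≤ n) : E.d (γ a) (γ b) = b - a := by
  have h1 := E.rg_walk γ n h.1 0 a (by omega) (by omega)
  have h2 := E.rg_walk γ n h.1 a b hab hbn
  have h3 := E.rg_walk γ n h.1 b n (by omega) le_rfl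
  have h4 := E.d_tri (γ 0) (γ a) (γ n)
  have h5 := E.d_tri (γ a) (γ b) (γ n)
  have h6 := h.2
  omega

theorem rg_zz {G : Type*} [Group G] (a x : G) (e f : ℤ) :
    a * x ^ e * x ^ (f - e) = a * x ^ f := by
  rw [mul_assoc, ← zpow_add]
  congr 2
  ring

namespace LS

variable {G : Type*} [Group G] {H : GH G} {c θ T : ℕ} (L : LS H c θ T)

/-! ### elementary properties of lines -/

theorem rg_s_self (i : L.ι) (u p : G) : L.s i u p p = 0 := by simp [LS.s]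

theorem rg_s_add (i : L.ι) (u p q r : G) : L.s i u p q + L.s i u q r = L.s i u p r := by
  unfold LS.s; ring

theorem rg_s_symm (i : L.ι) (u p q : G) : L.s i u q p = - L.s i u p q := by
  unfold LS.s; ring

theorem rg_s_mul (i : L.ι) (u g p q : G) : L.s i u (g * p) (g * q) = L.s i (g⁻¹ * u) p q := by
  unfold LS.s
  rw [show u⁻¹ * (g * q) = (g⁻¹ * u)⁻¹ * q by group,
    show u⁻¹ * (g * p) = (g⁻¹ * u)⁻¹ * p by group]

theorem rg_D_mul (i : L.ι) (u g p q : G) : L.D i u (g * p) (g * q) = L.D i (g⁻¹ * u) p q := by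
  unfold LS.D
  rw [rg_s_mul]

theorem rg_D_symm (i : L.ι) (u p q : G) : L.D i u q p = L.D i u p q := by
  unfold LS.D
  rw [rg_s_symm, zpow_neg, H.len_inv]

theorem rg_D_tri (i : L.ι) (u p q r : G) : L.D i u p r ≤ L.D i u p q + L.D i u q r := by
  unfold LS.D
  rw [← L.rg_s_add i u p q r, zpow_add]
  exact H.len_mul _ _

/-- linear growth -/
theorem rg_lin (i : L.ι) (a : ℤ) : |a| ≤ T * H.len (L.x i ^ a) := by
  have h := L.lin i a.natAbs
  have h1 : H.len (L.x i ^ a.natAbs) = H.len (L.x i ^ a) := by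
    rcases Int.natAbs_eq a with h2 | h2
    · conv_rhs => rw [h2]
      rw [zpow_natCast]
    · conv_rhs => rw [h2]
      rw [zpow_neg, zpow_natCast, H.len_inv]
  rw [h1] at h
  rw [Int.abs_eq_natAbs]
  exact_mod_cast h

theorem rg_s_le (i : L.ι) (u p q : G) : |L.s i u p q| ≤ T * L.D i u p q := L.rg_lin i _

theorem rg_D_gt {i : L.ι} {u p q : G} {B : ℕ} (h : (T * B : ℕ) < |L.s i u p q|) :
    B < L.D i u p q := by
  by_contra hB
  push Not at hB
  have h1 := L.rg_s_le i u p q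
  have h2 : T * L.D i u p q ≤ T * B := Nat.mul_le_mul_left _ hB
  have h3 : ((T * L.D i u p q : ℕ) : ℤ) ≤ ((T * B : ℕ) : ℤ) := by exact_mod_cast h2
  push_cast at h3 h
  linarith

/-- two points on one line with a large displacement along a second line: the lines agree -/
theorem rg_same {i j : L.ι} {u v : G} {a b : ℤ}
    (h : θ < L.D i u (v * L.x j ^ a) (v * L.x j ^ b)) :
    i = j ∧ u⁻¹ * v ∈ Subgroup.zpowers (L.x i) := by
  by_contra hc
  have h1 : i = j → u⁻¹ * v ∉ Subgroup.zpowers (L.x i) := by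
    intro hij hmem
    exact hc ⟨hij, hmem⟩
  have h2 := L.ov i j (u⁻¹ * v) h1 b a
  unfold LS.D LS.s at h
  rw [show u⁻¹ * (v * L.x j ^ b) = u⁻¹ * v * L.x j ^ b by group,
    show u⁻¹ * (v * L.x j ^ a) = u⁻¹ * v * L.x j ^ a by group] at h
  omega

/-- rotating an edge on a line -/
theorem rg_rot_line {i j : L.ι} {u v : G} {a b : ℤ}
    (h : θ < L.D i u (v * L.x j ^ a) (v * L.x j ^ b)) (k : ℤ) :
    L.rt i u k * (v * L.x j ^ b) = v * L.x j ^ (b + k) := by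
  obtain ⟨rfl, t, ht⟩ := L.rg_same h
  have hv : v = u * L.x i ^ t := by
    have : (L.x i ^ t : G) = u⁻¹ * v := ht
    rw [this]; group
  subst hv
  unfold LS.rt
  rw [show u * L.x i ^ k * u⁻¹ * (u * L.x i ^ t * L.x i ^ b) =
    u * (L.x i ^ k * L.x i ^ t * L.x i ^ b) by group]
  rw [show u * L.x i ^ t * L.x i ^ (b + k) = u * (L.x i ^ t * L.x i ^ (b + k)) by group]
  rw [← zpow_add, ← zpow_add, ← zpow_add]
  congr 2
  ring

/-- a common element of two different lines is trivial -/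
theorem rg_common {i1 i2 : L.ι} {P1 P2 : G}
    (hne : i1 = i2 → P1⁻¹ * P2 ∉ Subgroup.zpowers (L.x i1)) {k1 k2 : ℤ}
    (h : L.rt i1 P1 k1 = L.rt i2 P2 k2) : k1 = 0 := by
  by_contra hk
  have hpow : ∀ j : ℤ, L.rt i1 P1 (j * k1) = L.rt i2 P2 (j * k2) := by
    intro j
    have e1 : L.rt i1 P1 (j * k1) = (L.rt i1 P1 k1) ^ j := by
      unfold LS.rt
      rw [mul_comm j k1, zpow_mul]
      exact (conj_zpow).symm
    have e2 : L.rt i2 P2 (j * k2) = (L.rt i2 P2 k2) ^ j := by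
      unfold LS.rt
      rw [mul_comm j k2, zpow_mul]
      exact (conj_zpow).symm
    rw [e1, e2, h]
  have key : ∀ j : ℤ, |j * k1| ≤ T * θ := by
    intro j
    have h1 := L.ov i1 i2 (P1⁻¹ * P2) hne (j * k2) 0
    have h2 : P1⁻¹ * P2 * L.x i2 ^ (j * k2) = L.x i1 ^ (j * k1) * (P1⁻¹ * P2) := by
      have h3 := hpow j
      unfold LS.rt at h3
      have h4 : P2 * L.x i2 ^ (j * k2) = P1 * L.x i1 ^ (j * k1) * P1⁻¹ * P2 := by
        rw [h3]; group
      rw [mul_assoc, h4]; group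
    rw [h2, L.shift, zpow_zero, mul_one] at h1
    rw [show L.κ i1 (P1⁻¹ * P2) + j * k1 - L.κ i1 (P1⁻¹ * P2) = j * k1 by ring] at h1
    have h5 := L.rg_lin i1 (j * k1)
    have h6 : ((T * H.len (L.x i1 ^ (j * k1)) : ℕ) : ℤ) ≤ ((T * θ : ℕ) : ℤ) := by
      exact_mod_cast Nat.mul_le_mul_left T h1
    push_cast at h6
    linarith
  have h1 := key (T * θ + 1)
  rw [abs_mul] at h1
  have h2 : 1 ≤ |k1| := Int.one_le_abs hk
  have h3 : |(T : ℤ) * θ + 1| = (T : ℤ) * θ + 1 := abs_of_nonneg (by positivity)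
  rw [h3] at h1
  nlinarith [show (0 : ℤ) ≤ (T : ℤ) * θ by positivity]

/-- rigid pairs have small displacements -/
theorem rg_rigid_small {P P' m : G} {A : ℕ} (hD : ∀ (i : L.ι) (u : G), L.D i u P P' ≤ A)
    (i : L.ι) (u : G) : |L.s i u (m * P) (m * P')| ≤ T * A := by
  rw [rg_s_mul]
  have h1 := L.rg_s_le i (m⁻¹ * u) P P'
  have h2 : ((T * L.D i (m⁻¹ * u) P P' : ℕ) : ℤ) ≤ ((T * A : ℕ) : ℤ) := by
    exact_mod_cast Nat.mul_le_mul_left T (hD i (m⁻¹ * u))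
  push_cast at h2
  linarith

theorem rigid {n : ℕ} {M : Subgroup G} [M.Normal] (F : L.Fil n M) {i1 i2 : L.ι} {P1 P2 : G}
    (hne : i1 = i2 → P1⁻¹ * P2 ∉ Subgroup.zpowers (L.x i1)) {A : ℕ}
    (hD : ∀ (i : L.ι) (u : G), L.D i u P1 P2 ≤ A)
    (hn : 4 * (T * (A + θ + 1) + 1) + 24 * L.thr + T * (2 * c + 1) ≤ n) {k1 k2 : ℤ}
    (h : (L.rt i1 P1 k1 : G ⧸ M) = L.rt i2 P2 k2) : (L.rt i1 P1 k1 : G ⧸ M) = 1 := by
  -- the relations
  have hA1 : T * A < T * (A + θ + 1) + 1 := by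
    have : T * A ≤ T * (A + θ + 1) := Nat.mul_le_mul_left _ (by omega)
    omega
  have hA2 : T * θ < T * (A + θ + 1) + 1 := by
    have : T * θ ≤ T * (A + θ + 1) := Nat.mul_le_mul_left _ (by omega)
    omega
  have hD' : ∀ (i : L.ι) (u : G), L.D i u P2 P1 ≤ A := fun i u => by
    rw [rg_D_symm]; exact hD i u
  set w2 := L.rt i2 P2 k2 with hw2
  set w1 := L.rt i1 P1 k1 with hw1
  -- w2 = m0 w1
  have hm0 : w2 * w1⁻¹ ∈ M := by
    have h1 : ((w2 * w1⁻¹ : G) : G ⧸ M) = 1 := by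
      rw [QuotientGroup.mk_mul, QuotientGroup.mk_inv, h, mul_inv_cancel]
    exact (QuotientGroup.eq_one_iff _).1 h1
  let Rel : ℕ → G → G → Prop := fun j a b =>
    (j = 0 ∧ ∃ m ∈ M, a = m * P1 ∧ b = m * P2) ∨
    (j = 1 ∧ ∃ m ∈ M, ∃ e1 e2 : ℤ, a = m * P2 * L.x i2 ^ e1 ∧ b = m * P2 * L.x i2 ^ e2 ∧
      (n : ℤ) ∣ e2 - e1 - k2) ∨
    (j = 2 ∧ ∃ m ∈ M, a = m * w2 * P2 ∧ b = m * w2 * P1) ∨
    (j = 3 ∧ ∃ m ∈ M, ∃ e1 e2 : ℤ, a = m * P1 * L.x i1 ^ e1 ∧ b = m * P1 * L.x i1 ^ e2 ∧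
      (n : ℤ) ∣ e2 - e1 + k1)
  let P : ℕ → G := fun j => match j with
    | 0 => P1
    | 1 => P2
    | 2 => w2 * P2
    | 3 => w2 * P1
    | _ => w2 * w1⁻¹ * P1
  obtain ⟨P', hRel, hclosed, -⟩ := L.close F (A := T * (A + θ + 1) + 1) (k := 4)
    (by omega) (by omega) Rel
    (by
      rintro j - m hm a b (⟨hj, m', hm', rfl, rfl⟩ | ⟨hj, m', hm', e1, e2, rfl, rfl, hd⟩ |
        ⟨hj, m', hm', rfl, rfl⟩ | ⟨hj, m', hm', e1, e2, rfl, rfl, hd⟩)
      · exact Or.inl ⟨hj, m * m', M.mul_mem hm hm', by group, by group⟩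
      · exact Or.inr (Or.inl ⟨hj, m * m', M.mul_mem hm hm', e1, e2, by group, by group, hd⟩)
      · exact Or.inr (Or.inr (Or.inl ⟨hj, m * m', M.mul_mem hm hm', by group, by group⟩))
      · exact Or.inr (Or.inr (Or.inr ⟨hj, m * m', M.mul_mem hm hm', e1, e2, by group, by group,
          hd⟩)))
    (by
      rintro j - a b (⟨hj, m', hm', rfl, rfl⟩ | ⟨hj, m', hm', e1, e2, rfl, rfl, hd⟩ |
        ⟨hj, m', hm', rfl, rfl⟩ | ⟨hj, m', hm', e1, e2, rfl, rfl, hd⟩) i u hs l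
      · exfalso
        have h1 := L.rg_rigid_small (m := m') hD i u
        have h2 : ((T * A : ℕ) : ℤ) < ((T * (A + θ + 1) + 1 : ℕ) : ℤ) := by exact_mod_cast hA1
        push_cast at h2 hs
        linarith
      · have h3 : θ < L.D i u (m' * P2 * L.x i2 ^ e1) (m' * P2 * L.x i2 ^ e2) := by
          apply L.rg_D_gt
          have h2 : ((T * θ : ℕ) : ℤ) < ((T * (A + θ + 1) + 1 : ℕ) : ℤ) := by exact_mod_cast hA2
          linarith
        rw [L.rg_rot_line h3]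
        refine Or.inr (Or.inl ⟨hj, m', hm', e1, e2 + n * l, rfl, rfl, ?_⟩)
        rw [show e2 + n * l - e1 - k2 = (e2 - e1 - k2) + n * l by ring]
        exact dvd_add hd (dvd_mul_right _ _)
      · exfalso
        have h1 := L.rg_rigid_small (m := m' * w2) hD' i u
        have h2 : ((T * A : ℕ) : ℤ) < ((T * (A + θ + 1) + 1 : ℕ) : ℤ) := by exact_mod_cast hA1
        push_cast at h2 hs
        linarith
      · have h3 : θ < L.D i u (m' * P1 * L.x i1 ^ e1) (m' * P1 * L.x i1 ^ e2) := by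
          apply L.rg_D_gt
          have h2 : ((T * θ : ℕ) : ℤ) < ((T * (A + θ + 1) + 1 : ℕ) : ℤ) := by exact_mod_cast hA2
          linarith
        rw [L.rg_rot_line h3]
        refine Or.inr (Or.inr (Or.inr ⟨hj, m', hm', e1, e2 + n * l, rfl, rfl, ?_⟩))
        rw [show e2 + n * l - e1 + k1 = (e2 - e1 + k1) + n * l by ring]
        exact dvd_add hd (dvd_mul_right _ _))
    P
    (by
      intro j hj
      interval_cases j
      · exact Or.inl ⟨rfl, 1, M.one_mem, by simp [P], by simp [P]⟩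
      · refine Or.inr (Or.inl ⟨rfl, 1, M.one_mem, 0, k2, by simp [P], ?_, by simp⟩)
        simp only [P, hw2, LS.rt]
        group
      · exact Or.inr (Or.inr (Or.inl ⟨rfl, 1, M.one_mem, by simp [P], by simp [P]⟩))
      · refine Or.inr (Or.inr (Or.inr ⟨rfl, w2 * w1⁻¹, hm0, k1, 0, ?_, by simp [P], by simp⟩))
        simp only [P]
        rw [hw1]
        simp only [LS.rt]
        group)
    ⟨w2 * w1⁻¹, hm0, rfl⟩
  -- reading off the closed polygon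
  have r0 : ∃ m ∈ M, P' 0 = m * P1 ∧ P' 1 = m * P2 := by
    rcases hRel 0 (by norm_num) with ⟨-, hh⟩ | ⟨hh, -⟩ | ⟨hh, -⟩ | ⟨hh, -⟩
    · exact hh
    all_goals exact absurd hh (by norm_num)
  have r1 : ∃ m ∈ M, ∃ e1 e2 : ℤ, P' 1 = m * P2 * L.x i2 ^ e1 ∧ P' 2 = m * P2 * L.x i2 ^ e2 ∧
      (n : ℤ) ∣ e2 - e1 - k2 := by
    rcases hRel 1 (by norm_num) with ⟨hh, -⟩ | ⟨-, hh⟩ | ⟨hh, -⟩ | ⟨hh, -⟩
    · exact absurd hh (by norm_num)
    · exact hh
    all_goals exact absurd hh (by norm_num)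
  have r2 : ∃ m ∈ M, P' 2 = m * w2 * P2 ∧ P' 3 = m * w2 * P1 := by
    rcases hRel 2 (by norm_num) with ⟨hh, -⟩ | ⟨hh, -⟩ | ⟨-, hh⟩ | ⟨hh, -⟩
    · exact absurd hh (by norm_num)
    · exact absurd hh (by norm_num)
    · exact hh
    · exact absurd hh (by norm_num)
  have r3 : ∃ m ∈ M, ∃ e1 e2 : ℤ, P' 3 = m * P1 * L.x i1 ^ e1 ∧ P' 4 = m * P1 * L.x i1 ^ e2 ∧
      (n : ℤ) ∣ e2 - e1 + k1 := by
    rcases hRel 3 (by norm_num) with ⟨hh, -⟩ | ⟨hh, -⟩ | ⟨hh, -⟩ | ⟨-, hh⟩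
    · exact absurd hh (by norm_num)
    · exact absurd hh (by norm_num)
    · exact absurd hh (by norm_num)
    · exact hh
  obtain ⟨m, hm, a0, b0⟩ := r0
  obtain ⟨m1, hm1, e1, e2, a1, b1, d1⟩ := r1
  obtain ⟨m2, hm2, a2, b2⟩ := r2
  obtain ⟨m3, hm3, f1, f2, a3, b3, d3⟩ := r3
  -- P'_2 = m P2 x^(e2 - e1)
  have q2 : P' 2 = m * P2 * L.x i2 ^ (e2 - e1) := by
    rw [b1]
    rw [b0] at a1
    rw [a1, rg_zz]
  have q3 : P' 3 = m * P1 * L.x i1 ^ (f1 - f2) := by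
    rw [hclosed, a0] at b3
    rw [a3, b3, rg_zz]
  have q4 : L.rt i1 P1 (f1 - f2) = L.rt i2 P2 (e2 - e1) := by
    have g1 : m2 * w2 = m * P2 * L.x i2 ^ (e2 - e1) * P2⁻¹ := by
      rw [← q2, a2]; group
    have g2 : m2 * w2 = m * P1 * L.x i1 ^ (f1 - f2) * P1⁻¹ := by
      rw [← q3, b2]; group
    unfold LS.rt
    have g3 : m * (P1 * L.x i1 ^ (f1 - f2) * P1⁻¹) = m * (P2 * L.x i2 ^ (e2 - e1) * P2⁻¹) := by
      rw [show m * (P1 * L.x i1 ^ (f1 - f2) * P1⁻¹) = m * P1 * L.x i1 ^ (f1 - f2) * P1⁻¹ by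
        group, ← g2, g1]
      group
    exact mul_left_cancel g3
  have hK := L.rg_common hne q4
  have hk1 : ∃ l : ℤ, k1 = n * l := by
    obtain ⟨l, hl⟩ := d3
    exact ⟨l, by linarith⟩
  obtain ⟨l, hl⟩ := hk1
  have : w1 ∈ M := by
    rw [hw1, hl]
    exact F.rot i1 P1 l
  exact (QuotientGroup.eq_one_iff _).2 this

/-- two points on one line have cone distance at most one -/
theorem rg_on_le {E : GH G} {Θ : ℕ} (C : L.Cone E Θ) {i : L.ι} {u p q : G} (hp : L.On i u p)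
    (hq : L.On i u q) : E.d p q ≤ 1 := by
  obtain ⟨a, ha⟩ := hp
  obtain ⟨b, hb⟩ := hq
  have ha' : L.x i ^ a = u⁻¹ * p := ha
  have hb' : L.x i ^ b = u⁻¹ * q := hb
  unfold GH.d
  rw [C.le_one]
  right
  refine ⟨i, -a + b, ?_⟩
  rw [zpow_add, zpow_neg, ha', hb']
  group

/-- a large projection on a line gives a point of the line near the first end -/
theorem rg_enter {E : GH G} {Θ : ℕ} (C : L.Cone E Θ) {i : L.ι} {u p q : G}
    (h : Θ ≤ L.D i u p q) : ∃ y, L.On i u y ∧ E.d p y + 1 ≤ E.d p q := by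
  obtain ⟨γ, h0, h1, hg⟩ := E.rg_geod p q
  obtain ⟨k, hk, hk1, -⟩ := C.e2 i u γ _ hg (by rw [h0, h1]; exact h)
  refine ⟨γ k, hk1, ?_⟩
  have h2 := E.rg_walk γ _ hg.1 0 k (by omega) (by omega)
  rw [h0] at h2
  omega

theorem lift_window {n : ℕ} {M : Subgroup G} [M.Normal] (F : L.Fil n M) {E : GH G} {Θ : ℕ}
    (C : L.Cone E Θ) {Q : GH (G ⧸ M)}
    (hQ : ∀ q : G ⧸ M, ∃ g : G, (g : G ⧸ M) = q ∧ E.len g = Q.len q) {A K' : ℕ} {P1 P2 : G}
    (hD : ∀ (i : L.ι) (u : G), L.D i u P1 P2 ≤ A) (hfar : 2 * K' + 1 < E.d P1 P2)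
    (hn : 4 * (T * (A + Θ + 1) + 1) + 24 * L.thr + T * (2 * c + 1) ≤ n) {g : G ⧸ M}
    (h1 : Q.d (P1 : G ⧸ M) (g * P1) ≤ K') (h2 : Q.d (P2 : G ⧸ M) (g * P2) ≤ K') :
    ∃ g' : G, (g' : G ⧸ M) = g ∧ H.d P1 (g' * P1) ≤ (2 * A + 3 * Θ + 1) * K' ∧
      H.d P2 (g' * P2) ≤ (2 * A + 3 * Θ + 1) * K' := by
  have hA1 : T * A < T * (A + Θ + 1) + 1 := by
    have : T * A ≤ T * (A + Θ + 1) := Nat.mul_le_mul_left _ (by omega)
    omega
  have hA2 : T * Θ < T * (A + Θ + 1) + 1 := by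
    have : T * Θ ≤ T * (A + Θ + 1) := Nat.mul_le_mul_left _ (by omega)
    omega
  have hD' : ∀ (i : L.ι) (u : G), L.D i u P2 P1 ≤ A := fun i u => by
    rw [rg_D_symm]; exact hD i u
  -- lifts
  obtain ⟨v, hv, hvE⟩ := hQ ((P2 : G ⧸ M)⁻¹ * (g * P2))
  obtain ⟨v1, hv1, hv1E⟩ := hQ ((P1 : G ⧸ M)⁻¹ * (g * P1))
  unfold GH.d at h1 h2
  have hvK : E.len v ≤ K' := by rw [hvE]; exact h2
  have hv1K : E.len v1 ≤ K' := by rw [hv1E]; exact h1
  set g0 : G := P2 * v * P2⁻¹ with hg0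
  have hg0' : (g0 : G ⧸ M) = g := by
    rw [hg0, QuotientGroup.mk_mul, QuotientGroup.mk_mul, QuotientGroup.mk_inv, hv]
    group
  -- g0 P1 = m1 P1 v1
  set m1 : G := g0 * P1 * v1⁻¹ * P1⁻¹ with hm1
  have hm1M : m1 ∈ M := by
    have : ((m1 : G) : G ⧸ M) = 1 := by
      rw [hm1, QuotientGroup.mk_mul, QuotientGroup.mk_mul, QuotientGroup.mk_mul,
        QuotientGroup.mk_inv, QuotientGroup.mk_inv, hg0', hv1]
      group
    exact (QuotientGroup.eq_one_iff _).1 this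
  let Rel : ℕ → G → G → Prop := fun j a b =>
    (j = 0 ∧ ∃ m ∈ M, a = m * P1 ∧ b = m * P2) ∨
    (j = 1 ∧ E.d a b ≤ K') ∨
    (j = 2 ∧ ∃ m ∈ M, a = m * g0 * P2 ∧ b = m * g0 * P1) ∨
    (j = 3 ∧ E.d a b ≤ K')
  let P : ℕ → G := fun j => match j with
    | 0 => P1
    | 1 => P2
    | 2 => g0 * P2
    | 3 => g0 * P1
    | _ => m1 * P1
  obtain ⟨P', hRel, hclosed, -⟩ := L.close F (A := T * (A + Θ + 1) + 1) (k := 4)
    (by omega) (by omega) Rel
    (by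
      rintro j - m hm a b (⟨hj, m', hm', rfl, rfl⟩ | ⟨hj, hd⟩ | ⟨hj, m', hm', rfl, rfl⟩ |
        ⟨hj, hd⟩)
      · exact Or.inl ⟨hj, m * m', M.mul_mem hm hm', by group, by group⟩
      · exact Or.inr (Or.inl ⟨hj, by rw [E.d_mul]; exact hd⟩)
      · exact Or.inr (Or.inr (Or.inl ⟨hj, m * m', M.mul_mem hm hm', by group, by group⟩))
      · exact Or.inr (Or.inr (Or.inr ⟨hj, by rw [E.d_mul]; exact hd⟩)))
    (by
      rintro j - a b (⟨hj, m', hm', rfl, rfl⟩ | ⟨hj, hd⟩ | ⟨hj, m', hm', rfl, rfl⟩ |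
        ⟨hj, hd⟩) i u hs l
      · exfalso
        have h1 := L.rg_rigid_small (m := m') hD i u
        have h2 : ((T * A : ℕ) : ℤ) < ((T * (A + Θ + 1) + 1 : ℕ) : ℤ) := by exact_mod_cast hA1
        push_cast at h2 hs
        linarith
      · have h3 : Θ < L.D i u a b := by
          apply L.rg_D_gt
          have h2 : ((T * Θ : ℕ) : ℤ) < ((T * (A + Θ + 1) + 1 : ℕ) : ℤ) := by exact_mod_cast hA2
          linarith
        exact Or.inr (Or.inl ⟨hj, (L.rot_cone C (n := n) h3.le _).trans hd⟩)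
      · exfalso
        have h1 := L.rg_rigid_small (m := m' * g0) hD' i u
        have h2 : ((T * A : ℕ) : ℤ) < ((T * (A + Θ + 1) + 1 : ℕ) : ℤ) := by exact_mod_cast hA1
        push_cast at h2 hs
        linarith
      · have h3 : Θ < L.D i u a b := by
          apply L.rg_D_gt
          have h2 : ((T * Θ : ℕ) : ℤ) < ((T * (A + Θ + 1) + 1 : ℕ) : ℤ) := by exact_mod_cast hA2
          linarith
        exact Or.inr (Or.inr (Or.inr ⟨hj, (L.rot_cone C (n := n) h3.le _).trans hd⟩)))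
    P
    (by
      intro j hj
      interval_cases j
      · exact Or.inl ⟨rfl, 1, M.one_mem, by simp [P], by simp [P]⟩
      · refine Or.inr (Or.inl ⟨rfl, ?_⟩)
        simp only [P, hg0]
        unfold GH.d
        rw [show P2⁻¹ * (P2 * v * P2⁻¹ * P2) = v by group]
        exact hvK
      · exact Or.inr (Or.inr (Or.inl ⟨rfl, 1, M.one_mem, by simp [P], by simp [P]⟩))
      · refine Or.inr (Or.inr (Or.inr ⟨rfl, ?_⟩))
        simp only [P, hm1]
        rw [E.d_comm]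
        unfold GH.d
        rw [show (g0 * P1 * v1⁻¹ * P1⁻¹ * P1)⁻¹ * (g0 * P1) = v1 by group]
        exact hv1K)
    ⟨m1, hm1M, rfl⟩
  have r0 : ∃ m ∈ M, P' 0 = m * P1 ∧ P' 1 = m * P2 := by
    rcases hRel 0 (by norm_num) with ⟨-, hh⟩ | ⟨hh, -⟩ | ⟨hh, -⟩ | ⟨hh, -⟩
    · exact hh
    all_goals exact absurd hh (by norm_num)
  have r1 : E.d (P' 1) (P' 2) ≤ K' := by
    rcases hRel 1 (by norm_num) with ⟨hh, -⟩ | ⟨-, hh⟩ | ⟨hh, -⟩ | ⟨hh, -⟩
    · exact absurd hh (by norm_num)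
    · exact hh
    all_goals exact absurd hh (by norm_num)
  have r2 : ∃ m ∈ M, P' 2 = m * g0 * P2 ∧ P' 3 = m * g0 * P1 := by
    rcases hRel 2 (by norm_num) with ⟨hh, -⟩ | ⟨hh, -⟩ | ⟨-, hh⟩ | ⟨hh, -⟩
    · exact absurd hh (by norm_num)
    · exact absurd hh (by norm_num)
    · exact hh
    · exact absurd hh (by norm_num)
  have r3 : E.d (P' 3) (P' 4) ≤ K' := by
    rcases hRel 3 (by norm_num) with ⟨hh, -⟩ | ⟨hh, -⟩ | ⟨hh, -⟩ | ⟨-, hh⟩
    · exact absurd hh (by norm_num)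
    · exact absurd hh (by norm_num)
    · exact absurd hh (by norm_num)
    · exact hh
  obtain ⟨m, hm, a0, b0⟩ := r0
  obtain ⟨m2, hm2, a2, b2⟩ := r2
  rw [hclosed] at r3
  rw [b0, a2] at r1
  rw [b2, a0] at r3
  refine ⟨m⁻¹ * m2 * g0, ?_, ?_⟩
  · have e1 : ((m : G) : G ⧸ M) = 1 := (QuotientGroup.eq_one_iff _).2 hm
    have e2 : ((m2 : G) : G ⧸ M) = 1 := (QuotientGroup.eq_one_iff _).2 hm2
    rw [QuotientGroup.mk_mul, QuotientGroup.mk_mul, QuotientGroup.mk_inv, e1, e2, hg0']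
    simp
  · set g' : G := m⁻¹ * m2 * g0 with hg'
    have f2 : E.d P2 (g' * P2) ≤ K' := by
      rw [← E.d_mul m, hg', show m * (m⁻¹ * m2 * g0 * P2) = m2 * g0 * P2 by group]
      exact r1
    have f1 : E.d P1 (g' * P1) ≤ K' := by
      rw [← E.d_mul m, hg', show m * (m⁻¹ * m2 * g0 * P1) = m2 * g0 * P1 by group, E.d_comm]
      exact r3
    have dd : ∀ (i : L.ι) (u : G), L.D i u (g' * P1) (g' * P2) ≤ A := fun i u => by
      rw [rg_D_mul]; exact hD i _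
    -- both displacements cannot be large on a line
    have both : ∀ (i : L.ι) (u : G), Θ ≤ L.D i u P1 (g' * P1) → Θ ≤ L.D i u P2 (g' * P2) →
        False := by
      intro i u k1 k2
      obtain ⟨y1, hy1, hy1'⟩ := L.rg_enter C k1
      obtain ⟨y2, hy2, hy2'⟩ := L.rg_enter C k2
      have k3 := L.rg_on_le C hy1 hy2
      have k4 := E.d_tri P1 y1 P2
      have k5 := E.d_tri y1 y2 P2
      have k6 := E.d_comm y2 P2
      omega
    have t1 : ∀ (i : L.ι) (u : G), L.D i u P1 (g' * P1) ≤ 2 * A + Θ := by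
      intro i u
      by_contra hc
      push Not at hc
      refine both i u (by omega) ?_
      have k1 := L.rg_D_tri i u P1 P2 (g' * P1)
      have k2 := L.rg_D_tri i u P2 (g' * P2) (g' * P1)
      have k3 := hD i u
      have k4 := dd i u
      rw [rg_D_symm] at k4
      omega
    have t2 : ∀ (i : L.ι) (u : G), L.D i u P2 (g' * P2) ≤ 2 * A + Θ := by
      intro i u
      by_contra hc
      push Not at hc
      refine both i u ?_ (by omega)
      have k1 := L.rg_D_tri i u P2 P1 (g' * P2)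
      have k2 := L.rg_D_tri i u P1 (g' * P1) (g' * P2)
      have k3 := hD' i u
      have k4 := dd i u
      omega
    constructor
    · calc H.d P1 (g' * P1) ≤ (2 * A + Θ + 2 * Θ + 1) * E.d P1 (g' * P1) := C.e3 _ _ _ t1
        _ ≤ (2 * A + Θ + 2 * Θ + 1) * K' := Nat.mul_le_mul_left _ f1
        _ = (2 * A + 3 * Θ + 1) * K' := by ring
    · calc H.d P2 (g' * P2) ≤ (2 * A + Θ + 2 * Θ + 1) * E.d P2 (g' * P2) := C.e3 _ _ _ t2
        _ ≤ (2 * A + Θ + 2 * Θ + 1) * K' := Nat.mul_le_mul_left _ f2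
        _ = (2 * A + 3 * Θ + 1) * K' := by ring

end LS

end Pool.Agent.TH54.BU
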