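import Pool.Agent.TH54.BU.BurnDef

set_option autoImplicit false

/-!
# A group all of whose subgroups carry only the discrete Hausdorff group topology, but with a
quotient which carries a nondiscrete one (helper714)
-/

open Filter Topology

namespace Pool.Agent.TH54.BU

/-- the retraction of the free group of exponent `p` onto the subgroup of the first `n`
generators -/
noncomputable def retr (p n : ℕ) :
    FreeGroup ℕ ⧸ powSub (FreeGroup ℕ) p →* FreeGroup ℕ ⧸ powSub (FreeGroup ℕ) p :=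
  QuotientGroup.lift (powSub (FreeGroup ℕ) p)
    ((QuotientGroup.mk' (powSub (FreeGroup ℕ) p)).comp
      (FreeGroup.lift fun i : ℕ => if i < n then FreeGroup.of i else 1)) (by
    intro x hx
    have h1 : powSub (FreeGroup ℕ) p ≤ ((QuotientGroup.mk' (powSub (FreeGroup ℕ) p)).comp
      (FreeGroup.lift fun i : ℕ => if i < n then FreeGroup.of i else 1)).ker := by
      unfold powSub
      apply Subgroup.normalClosure_le_normal
      rintro _ ⟨g, rfl⟩
      rw [SetLike.mem_coe, MonoidHom.mem_ker, map_pow, MonoidHom.comp_apply, ← map_pow]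
      exact (QuotientGroup.eq_one_iff _).2 (Subgroup.subset_normalClosure ⟨_, rfl⟩)
    exact h1 hx)

theorem retr_mk (p n : ℕ) (w : FreeGroup ℕ) :
    retr p n (w : FreeGroup ℕ ⧸ powSub (FreeGroup ℕ) p)
      = ((FreeGroup.lift fun i : ℕ => if i < n then FreeGroup.of i else 1) w : FreeGroup ℕ) := rfl

theorem retr_of_le (p n m : ℕ) (h : n ≤ m) :
    retr p n (FreeGroup.of m : FreeGroup ℕ) = 1 := by
  rw [retr_mk, FreeGroup.lift_apply_of, if_neg (by omega)]
  rfl

theorem exists_fix (w : FreeGroup ℕ) : ∃ N, ∀ n, N ≤ n →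
    (FreeGroup.lift fun i : ℕ => if i < n then FreeGroup.of i else 1) w = w := by
  induction w using FreeGroup.induction_on with
  | C1 => exact ⟨0, fun n _ => map_one _⟩
  | of i =>
    refine ⟨i + 1, fun n hn => ?_⟩
    rw [FreeGroup.lift_apply_of, if_pos (by omega)]
  | inv_of i _ =>
    refine ⟨i + 1, fun n hn => ?_⟩
    rw [map_inv, FreeGroup.lift_apply_of, if_pos (by omega)]
  | mul u v hu hv =>
    obtain ⟨N1, h1⟩ := hu
    obtain ⟨N2, h2⟩ := hv
    refine ⟨max N1 N2, fun n hn => ?_⟩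
    rw [map_mul, h1 n (le_trans (le_max_left _ _) hn), h2 n (le_trans (le_max_right _ _) hn)]

/-- the embedding into the product of discrete groups -/
noncomputable def emb (p : ℕ) : FreeGroup ℕ ⧸ powSub (FreeGroup ℕ) p →*
    (ℕ → FreeGroup ℕ ⧸ powSub (FreeGroup ℕ) p) :=
  MonoidHom.mk' (fun x n => retr p n x) (fun _ _ => funext fun _ => map_mul _ _ _)

theorem emb_inj (p : ℕ) : Function.Injective (emb p) := by
  intro x y hxy
  obtain ⟨u, rfl⟩ := QuotientGroup.mk_surjective x
  obtain ⟨v, rfl⟩ := QuotientGroup.mk_surjective y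
  obtain ⟨N1, h1⟩ := exists_fix u
  obtain ⟨N2, h2⟩ := exists_fix v
  have h3 := congrFun hxy (max N1 N2)
  change retr p _ (u : FreeGroup ℕ ⧸ powSub (FreeGroup ℕ) p) = retr p _ (v : FreeGroup ℕ ⧸ _) at h3
  rw [retr_mk, retr_mk, h1 _ (le_max_left _ _), h2 _ (le_max_right _ _)] at h3
  exact h3

theorem app_S01476 {p : ℕ} (hp : p.Prime) (h : Burn p) :
    ¬ (∀ (G : Type) [Group G],
      (∀ (H : Subgroup G) (t : TopologicalSpace ↥H),
          @IsTopologicalGroup ↥H t _ → @T2Space ↥H t → t = ⊥) →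
      ∀ (H : Subgroup G) (N : Subgroup ↥H) [N.Normal] (t : TopologicalSpace (↥H ⧸ N)),
        @IsTopologicalGroup (↥H ⧸ N) t _ → @T2Space (↥H ⧸ N) t → t = ⊥) := by
  intro hall
  obtain ⟨A, _, z, φ, hφ, hker, hz, hzinf, hpow, hcomm⟩ := h ℕ
  have hzc : z ∈ Subgroup.center A := Subgroup.mem_center_iff.2 fun g => hz g
  have hPn : (Subgroup.zpowers (z ^ p)).Normal := by
    refine ⟨fun n hn g => ?_⟩
    have hnc : n ∈ Subgroup.center A := by
      have : Subgroup.zpowers (z ^ p) ≤ Subgroup.center A := by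
        rw [Subgroup.zpowers_le]
        exact pow_mem hzc p
      exact this hn
    rw [Subgroup.mem_center_iff.1 hnc g, mul_inv_cancel_right]
    exact hn
  set P : Subgroup A := Subgroup.zpowers (z ^ p) with hP
  -- powers of `z` in the quotient
  have hzk : ∀ k : ℤ, ((z ^ k : A) : A ⧸ P) = 1 ↔ (p : ℤ) ∣ k := by
    intro k
    rw [QuotientGroup.eq_one_iff, hP, Subgroup.mem_zpowers_iff]
    constructor
    · rintro ⟨j, hj⟩
      rw [← zpow_natCast, ← zpow_mul] at hj
      have hinj : Function.Injective fun n : ℤ => z ^ n := by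
        rw [injective_zpow_iff_not_isOfFinOrder]
        exact hzinf
      exact ⟨j, (hinj hj).symm⟩
    · rintro ⟨j, rfl⟩
      exact ⟨j, by rw [← zpow_natCast, ← zpow_mul]⟩
  -- powers in the quotient
  have hpw : ∀ x : A ⧸ P, x ∈ Subgroup.zpowers ((z : A) : A ⧸ P) ∨
      (x ^ p ∈ Subgroup.zpowers ((z : A) : A ⧸ P) ∧ x ^ p ≠ 1) := by
    intro x
    obtain ⟨a, rfl⟩ := QuotientGroup.mk_surjective x
    by_cases ha : a ∈ Subgroup.zpowers z
    · left
      obtain ⟨j, rfl⟩ := Subgroup.mem_zpowers_iff.1 ha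
      exact ⟨j, by simp⟩
    · right
      obtain ⟨k, hk, hpk⟩ := hpow a ha
      have h1 : ((a : A ⧸ P)) ^ p = ((z ^ k : A) : A ⧸ P) := by
        rw [← hk]; rfl
      rw [h1]
      exact ⟨⟨k, by simp⟩, fun h2 => hpk ((hzk k).1 h2)⟩
  have hCp : ∀ x ∈ Subgroup.zpowers ((z : A) : A ⧸ P), x ^ p = 1 := by
    rintro _ ⟨j, rfl⟩
    have h1 : ((z : A) : A ⧸ P) ^ p = 1 := by
      have := (hzk p).2 (dvd_refl _)
      rw [zpow_natCast] at this
      exact this
    change (((z : A) : A ⧸ P) ^ j) ^ p = 1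
    rw [← zpow_natCast, ← zpow_mul, mul_comm, zpow_mul, zpow_natCast, h1, one_zpow]
  have hCfin : (Subgroup.zpowers ((z : A) : A ⧸ P) : Set (A ⧸ P)).Finite := by
    apply finite_zpowers.2
    exact isOfFinOrder_iff_pow_eq_one.2 ⟨p, hp.pos, hCp _ (Subgroup.mem_zpowers _)⟩
  have hdisc : ∀ (H : Subgroup (A ⧸ P)) (t : TopologicalSpace ↥H),
          @IsTopologicalGroup ↥H t _ → @T2Space ↥H t → t = ⊥ := by
    intro H t hG hT
    have hfin : {x : H | (x : A ⧸ P) ∈ Subgroup.zpowers ((z : A) : A ⧸ P)}.Finite :=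
      hCfin.preimage Subtype.val_injective.injOn
    have hcl : IsClosed {x : H | x ^ p ≠ 1} := by
      have e : {x : H | x ^ p ≠ 1} = (fun x : H => x ^ p) ⁻¹'
          ({x : H | (x : A ⧸ P) ∈ Subgroup.zpowers ((z : A) : A ⧸ P)} \ {1}) := by
        ext x
        constructor
        · intro hx
          refine ⟨?_, hx⟩
          change (x : A ⧸ P) ^ p ∈ Subgroup.zpowers ((z : A) : A ⧸ P)
          rcases hpw (x : A ⧸ P) with h1 | h1
          · exact absurd (Subtype.ext (hCp _ h1)) hx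
          · exact h1.1
        · intro hx
          exact hx.2
      rw [e]
      exact ((hfin.subset Set.sdiff_subset).isClosed).preimage (continuous_pow p)
    have hop : IsOpen {x : H | x ^ p = 1} := by
      have e : {x : H | x ^ p = 1} = {x : H | x ^ p ≠ 1}ᶜ := by
        ext x; simp
      rw [e]
      exact hcl.isOpen_compl
    have hUfin : {x : H | x ^ p = 1}.Finite := by
      refine hfin.subset ?_
      intro x hx
      rcases hpw (x : A ⧸ P) with h1 | h1
      · exact h1
      · exact absurd (congrArg Subtype.val (show x ^ p = 1 from hx)) h1.2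
    have h1 : IsOpen ({1} : Set H) := by
      have e : ({1} : Set H) = {x : H | x ^ p = 1} \ ({x : H | x ^ p = 1} \ {1}) := by
        ext x
        constructor
        · rintro rfl
          exact ⟨one_pow p, fun h => h.2 rfl⟩
        · rintro ⟨h1, h2⟩
          by_contra h3
          exact h2 ⟨h1, h3⟩
      rw [e]
      exact hop.sdiff (hUfin.subset Set.sdiff_subset).isClosed
    exact (discreteTopology_of_isOpen_singleton_one h1).eq_bot
  -- the quotient
  have hψ : ∀ x ∈ P, φ x = 1 := by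
    intro x hx
    obtain ⟨j, rfl⟩ := Subgroup.mem_zpowers_iff.1 hx
    have : φ z = 1 := by
      rw [← MonoidHom.mem_ker, hker]
      exact Subgroup.mem_zpowers z
    rw [map_zpow, map_pow, this, one_pow, one_zpow]
  let ψ : (⊤ : Subgroup (A ⧸ P)) →* FreeGroup ℕ ⧸ powSub (FreeGroup ℕ) p :=
    (QuotientGroup.lift P φ hψ).comp (⊤ : Subgroup (A ⧸ P)).subtype
  have hψs : Function.Surjective ψ := by
    intro y
    obtain ⟨a, ha⟩ := hφ y
    exact ⟨⟨(a : A ⧸ P), trivial⟩, ha⟩
  let e : (⊤ : Subgroup (A ⧸ P)) ⧸ ψ.ker ≃* FreeGroup ℕ ⧸ powSub (FreeGroup ℕ) p :=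
    QuotientGroup.quotientKerEquivOfSurjective ψ hψs
  let Θ : (⊤ : Subgroup (A ⧸ P)) ⧸ ψ.ker →* (ℕ → FreeGroup ℕ ⧸ powSub (FreeGroup ℕ) p) :=
    (emb p).comp e.toMonoidHom
  have hΘ : Function.Injective Θ := (emb_inj p).comp e.injective
  let _ : TopologicalSpace (FreeGroup ℕ ⧸ powSub (FreeGroup ℕ) p) := ⊥
  have _ : DiscreteTopology (FreeGroup ℕ ⧸ powSub (FreeGroup ℕ) p) := ⟨rfl⟩
  have hbot := hall (A ⧸ P) hdisc ⊤ ψ.ker (TopologicalSpace.induced Θ inferInstance)
    (topologicalGroup_induced Θ)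
    (@T2Space.of_injective_continuous _ _ (TopologicalSpace.induced Θ inferInstance) _ _ Θ hΘ
      continuous_induced_dom)
  -- the generators tend to one
  let x : ℕ → (⊤ : Subgroup (A ⧸ P)) ⧸ ψ.ker := fun m =>
    e.symm (FreeGroup.of m : FreeGroup ℕ)
  have hxΘ : ∀ m n, n ≤ m → Θ (x m) n = 1 := by
    intro m n hnm
    change retr p n (e (e.symm _)) = 1
    rw [MulEquiv.apply_symm_apply]
    exact retr_of_le p n m hnm
  have hlim : Tendsto (fun m => Θ (x m)) atTop (𝓝 (Θ 1)) := by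
    rw [tendsto_pi_nhds]
    intro n
    rw [map_one]
    refine tendsto_nhds_of_eventually_eq ?_
    filter_upwards [eventually_ge_atTop n] with m hm
    exact hxΘ m n hm
  have hlim2 : ∀ t : TopologicalSpace ((⊤ : Subgroup (A ⧸ P)) ⧸ ψ.ker),
      TopologicalSpace.induced Θ inferInstance = t → Tendsto x atTop (@nhds _ t 1) := by
    rintro t rfl
    rw [nhds_induced, tendsto_comap_iff]
    exact hlim
  have h3 := hlim2 ⊥ hbot
  have hpure : @nhds ((⊤ : Subgroup (A ⧸ P)) ⧸ ψ.ker) ⊥ 1 = pure 1 :=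
    congrFun (@nhds_discrete _ ⊥ (@DiscreteTopology.mk _ ⊥ rfl)) 1
  rw [hpure, tendsto_pure] at h3
  obtain ⟨m, hm⟩ := h3.exists
  have h4 : (FreeGroup.of m : FreeGroup ℕ ⧸ powSub (FreeGroup ℕ) p) = 1 := by
    have := congrArg e hm
    rw [map_one] at this
    change e (e.symm _) = 1 at this
    rw [MulEquiv.apply_symm_apply] at this
    exact this
  apply hcomm m (m + 1) (by omega)
  rw [h4, one_mul, mul_one]

end Pool.Agent.TH54.BU
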