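import Pool.Agent.TH54.BU.BurnDef
import Pool.Agent.TH54.HM

/-!
# A locally compact hereditarily minimal group with proper nontrivial centre, from the Burnside
statement (helper647)
-/

set_option autoImplicit false
set_option linter.style.haveILetI false

namespace Pool.Agent.TH54.BU

open Topology Filter Pool.Agent.TH54

section app

variable {p : ℕ} [hp : Fact p.Prime] {A : Type} [Group A] (z : A)

/-- the central subgroup along which the product is divided -/
noncomputable def hmN (p : ℕ) [Fact p.Prime] (z : A) : Subgroup (A × Multiplicative ℤ_[p]) :=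
  Subgroup.zpowers (z, Multiplicative.ofAdd (-1 : ℤ_[p]))

theorem mem_hmN {z : A} {x : A × Multiplicative ℤ_[p]} :
    x ∈ hmN p z ↔ ∃ k : ℤ, x.1 = z ^ k ∧ Multiplicative.toAdd x.2 = -(k : ℤ_[p]) := by
  constructor
  · rintro ⟨k, hk⟩
    refine ⟨k, ?_, ?_⟩
    · rw [← hk]; rfl
    · rw [← hk]
      show Multiplicative.toAdd ((Multiplicative.ofAdd (-1 : ℤ_[p])) ^ k) = _
      rw [toAdd_zpow, toAdd_ofAdd, zsmul_eq_mul, mul_neg, mul_one]
  · rintro ⟨k, h1, h2⟩
    refine ⟨k, ?_⟩
    refine Prod.ext ?_ ?_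
    · exact h1.symm
    · show (Multiplicative.ofAdd (-1 : ℤ_[p])) ^ k = x.2
      apply Multiplicative.toAdd.injective
      rw [toAdd_zpow, toAdd_ofAdd, zsmul_eq_mul, mul_neg, mul_one, h2]

theorem hmN_normal {z : A} (hz : ∀ a, a * z = z * a) : (hmN p z).Normal := by
  constructor
  intro x hx g
  have hc : ∀ k : ℤ, g.1 * z ^ k = z ^ k * g.1 := by
    intro k
    exact ((show Commute g.1 z from hz g.1).zpow_right k).eq
  rw [mem_hmN] at hx ⊢
  obtain ⟨k, h1, h2⟩ := hx
  refine ⟨k, ?_, ?_⟩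
  · simp only [Prod.fst_mul, Prod.fst_inv]
    rw [h1, hc, mul_inv_cancel_right]
  · simp only [Prod.snd_mul, Prod.snd_inv]
    rw [mul_comm g.2, mul_inv_cancel_right, h2]

theorem zpow_inj_of {z : A} (hz : ¬ IsOfFinOrder z) {a b : ℤ} (h : z ^ a = z ^ b) : a = b :=
  injective_zpow_iff_not_isOfFinOrder.2 hz h

theorem hmN_closed [TopologicalSpace A] [DiscreteTopology A] {z : A} (hz : ¬ IsOfFinOrder z) :
    IsClosed (hmN p z : Set (A × Multiplicative ℤ_[p])) := by
  rw [← isOpen_compl_iff, isOpen_prod_iff]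
  intro a t hat
  by_cases h : ∃ k : ℤ, a = z ^ k
  · obtain ⟨k, hk⟩ := h
    refine ⟨{a}, {s | Multiplicative.toAdd s ≠ -(k : ℤ_[p])}, isOpen_discrete _, ?_, rfl, ?_, ?_⟩
    · have : Continuous (fun s : Multiplicative ℤ_[p] => Multiplicative.toAdd s) :=
        continuous_toAdd
      exact isOpen_ne.preimage this
    · intro h2
      exact hat (mem_hmN.2 ⟨k, hk, h2⟩)
    · rintro ⟨b, s⟩ ⟨hb, hs⟩ hmem
      simp only [Set.mem_singleton_iff] at hb
      subst hb
      obtain ⟨k', h1, h2⟩ := mem_hmN.1 hmem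
      simp only at h1 h2
      have : k = k' := zpow_inj_of hz (hk ▸ h1)
      subst this
      exact hs h2
  · refine ⟨{a}, Set.univ, isOpen_discrete _, isOpen_univ, rfl, trivial, ?_⟩
    rintro ⟨b, s⟩ ⟨hb, -⟩ hmem
    simp only [Set.mem_singleton_iff] at hb
    subst hb
    obtain ⟨k', h1, -⟩ := mem_hmN.1 hmem
    exact h ⟨k', h1⟩

end app

theorem app_S02071 {p : ℕ} (hp : p.Prime) (h : Burn p) :
    ∃ (G : Type) (_ : Group G) (tG : TopologicalSpace G),
      IsTopologicalGroup G ∧ T2Space G ∧ LocallyCompactSpace G ∧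
      ¬ DiscreteTopology G ∧
      Subgroup.center G ≠ ⊥ ∧ Subgroup.center G ≠ ⊤ ∧
      ∀ H : Subgroup G, ∀ τ : TopologicalSpace H,
        @IsTopologicalGroup H τ _ → @T2Space H τ →
        TopologicalSpace.induced (Subtype.val : H → G) tG ≤ τ →
        τ = TopologicalSpace.induced (Subtype.val : H → G) tG := by
  haveI : Fact p.Prime := ⟨hp⟩
  obtain ⟨A, hA, z, φ, hφ, hker, hz, hzo, hpow, hgen⟩ := h (Fin 2)
  letI : TopologicalSpace A := ⊥
  haveI : DiscreteTopology A := ⟨rfl⟩
  haveI hN : (hmN p z).Normal := hmN_normal hz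
  haveI hcl : IsClosed (hmN p z : Set (A × Multiplicative ℤ_[p])) := hmN_closed hzo
  let M := (A × Multiplicative ℤ_[p]) ⧸ hmN p z
  let ι : Multiplicative ℤ_[p] →* M :=
    (QuotientGroup.mk' (hmN p z)).comp (MonoidHom.inr A (Multiplicative ℤ_[p]))
  have hι0 : ∀ t, ι t = ((1, t) : A × Multiplicative ℤ_[p]) := fun t => rfl
  have hinj : Function.Injective ι := by
    intro s t hst
    rw [hι0, hι0, QuotientGroup.eq] at hst
    obtain ⟨k, h1, h2⟩ := mem_hmN.1 hst
    simp only [Prod.fst_mul, Prod.fst_inv, inv_one, mul_one, Prod.snd_mul, Prod.snd_inv] at h1 h2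
    have hk : k = 0 := zpow_inj_of hzo (by rw [zpow_zero]; exact h1.symm)
    subst hk
    rw [Int.cast_zero, neg_zero] at h2
    have h3 : s⁻¹ * t = 1 := Multiplicative.toAdd.injective h2
    exact inv_mul_eq_one.1 h3
  have hcont : Continuous ι := by
    have h1 : Continuous fun t : Multiplicative ℤ_[p] => ((1 : A), t) := by fun_prop
    exact continuous_quotient_mk'.comp h1
  have hopen : IsOpenMap ι := by
    have h1 : IsOpenMap fun t : Multiplicative ℤ_[p] => ((1 : A), t) := by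
      intro U hU
      have : (fun t : Multiplicative ℤ_[p] => ((1 : A), t)) '' U = {(1 : A)} ×ˢ U := by
        ext ⟨a, t⟩
        simp only [Set.mem_image, Prod.mk.injEq, Set.mem_prod, Set.mem_singleton_iff]
        constructor
        · rintro ⟨s, hs, rfl, rfl⟩
          exact ⟨rfl, hs⟩
        · rintro ⟨rfl, ht⟩
          exact ⟨t, ht, rfl, rfl⟩
      rw [this]
      exact (isOpen_discrete _).prod hU
    exact (QuotientGroup.isOpenMap_coe).comp h1
  have hι : IsOpenEmbedding ι := IsOpenEmbedding.of_continuous_injective_isOpenMap hcont hinj hopen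
  have hc : ∀ (s : Multiplicative ℤ_[p]) (x : M), ι s * x = x * ι s := by
    intro s x
    obtain ⟨⟨a, t⟩, rfl⟩ := QuotientGroup.mk_surjective x
    rw [hι0, ← QuotientGroup.mk_mul, ← QuotientGroup.mk_mul, Prod.mk_mul_mk, Prod.mk_mul_mk,
      one_mul, mul_one, mul_comm]
  have hzk : ∀ a : A, ∃ k : ℤ, a ^ p = z ^ k := by
    intro a
    by_cases ha : a ∈ Subgroup.zpowers z
    · obtain ⟨i, hi⟩ := ha
      exact ⟨i * p, by rw [← hi, zpow_mul, zpow_natCast]⟩
    · obtain ⟨k, hk, -⟩ := hpow a ha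
      exact ⟨k, hk⟩
  have htf : ∀ x : M, IsOfFinOrder x → x = 1 := by
    intro x hx
    obtain ⟨⟨a, t⟩, rfl⟩ := QuotientGroup.mk_surjective x
    obtain ⟨m, hm, hxm⟩ := isOfFinOrder_iff_pow_eq_one.1 hx
    rw [← QuotientGroup.mk_pow, QuotientGroup.eq_one_iff] at hxm
    obtain ⟨k, h1, h2⟩ := mem_hmN.1 hxm
    rw [Prod.pow_mk] at h1 h2
    simp only at h1 h2
    rw [toAdd_pow, nsmul_eq_mul] at h2
    rw [QuotientGroup.eq_one_iff]
    have hm0 : (m : ℤ_[p]) ≠ 0 := by exact_mod_cast hm.ne'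
    by_cases ha : a ∈ Subgroup.zpowers z
    · obtain ⟨i, hi⟩ := ha
      simp only at hi
      have h3 : z ^ (i * m) = z ^ k := by
        rw [← h1, ← hi, zpow_mul, zpow_natCast]
      have h4 : i * m = k := zpow_inj_of hzo h3
      refine mem_hmN.2 ⟨i, hi.symm, ?_⟩
      simp only
      apply mul_left_cancel₀ hm0
      rw [h2, ← h4]
      push_cast
      ring
    · exfalso
      obtain ⟨j, hj, hpj⟩ := hpow a ha
      have h3 : z ^ (j * m) = z ^ (k * p) := by
        rw [zpow_mul, ← hj, zpow_mul, ← h1, zpow_natCast, zpow_natCast, ← pow_mul, ← pow_mul,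
          mul_comm]
      have h4 : j * m = k * p := zpow_inj_of hzo h3
      have hpp : Prime (p : ℤ) := Nat.prime_iff_prime_int.1 hp
      have h5 : (p : ℤ) ∣ m := by
        rcases hpp.dvd_or_dvd (show (p : ℤ) ∣ j * m from ⟨k, by rw [h4, mul_comm]⟩) with h | h
        · exact absurd h hpj
        · exact h
      obtain ⟨m', hm'⟩ := h5
      have hp0 : (p : ℤ) ≠ 0 := by exact_mod_cast hp.ne_zero
      have h6 : k = j * m' := by
        apply mul_right_cancel₀ hp0
        rw [← h4, hm']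
        ring
      have hm'0 : (m' : ℤ_[p]) ≠ 0 := by
        intro h0
        apply hm0
        have : ((m : ℤ) : ℤ_[p]) = ((p * m' : ℤ) : ℤ_[p]) := by rw [hm']
        rw [Int.cast_natCast] at this
        rw [this, Int.cast_mul, h0, mul_zero]
      have h7 : (p : ℤ_[p]) * Multiplicative.toAdd t = -(j : ℤ_[p]) := by
        apply mul_left_cancel₀ hm'0
        have e1 : (m : ℤ_[p]) = (p : ℤ_[p]) * (m' : ℤ_[p]) := by
          have : ((m : ℤ) : ℤ_[p]) = ((p * m' : ℤ) : ℤ_[p]) := by rw [hm']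
          rw [Int.cast_natCast] at this
          rw [this]
          push_cast
          ring
        rw [e1, h6] at h2
        push_cast at h2
        linear_combination h2
      apply hpj
      have h8 : ‖((j : ℤ) : ℤ_[p])‖ < 1 := by
        rw [← norm_neg, ← h7, norm_mul, PadicInt.norm_p]
        have h9 := PadicInt.norm_le_one (Multiplicative.toAdd t)
        have h10 : ((p : ℝ))⁻¹ < 1 := inv_lt_one_of_one_lt₀ (by exact_mod_cast hp.one_lt)
        have h11 : (0 : ℝ) ≤ ((p : ℝ))⁻¹ := by positivity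
        nlinarith [norm_nonneg (Multiplicative.toAdd t)]
      exact PadicInt.norm_int_lt_one_iff_dvd j |>.1 h8
  have hxp : ∀ x : M, x ^ p ∈ ι.range := by
    intro x
    obtain ⟨⟨a, t⟩, rfl⟩ := QuotientGroup.mk_surjective x
    obtain ⟨k, hk⟩ := hzk a
    refine ⟨t ^ p * Multiplicative.ofAdd (k : ℤ_[p]), ?_⟩
    rw [hι0, ← QuotientGroup.mk_pow, QuotientGroup.eq, Prod.pow_mk, hk]
    refine mem_hmN.2 ⟨k, ?_, ?_⟩
    · simp
    · simp only [Prod.snd_mul, Prod.snd_inv]
      rw [mul_inv_rev, inv_mul_cancel_right, toAdd_inv, toAdd_ofAdd]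
  have hHM : HereditarilyMinimal M := hereditarilyMinimal_of ι hι hc htf hp.pos hxp
  haveI hcompZ : CompactSpace (Multiplicative ℤ_[p]) := inferInstanceAs (CompactSpace ℤ_[p])
  have hlc : LocallyCompactSpace M := by
    have hK : IsCompact (Set.range ι) := isCompact_range hcont
    exact hK.locallyCompactSpace_of_mem_nhds_of_group
      (hι.isOpen_range.mem_nhds ⟨1, map_one ι⟩)
  have hnd : ¬ DiscreteTopology M := by
    intro hd
    have h2 : DiscreteTopology (Multiplicative ℤ_[p]) := hι.isEmbedding.discreteTopology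
    have h3 : Finite (Multiplicative ℤ_[p]) := finite_of_compact_of_discrete
    have h4 : Infinite (Multiplicative ℤ_[p]) := inferInstanceAs (Infinite ℤ_[p])
    exact h4.false
  refine ⟨M, inferInstance, inferInstance, inferInstance, inferInstance, hlc, hnd, ?_, ?_, ?_⟩
  · intro hbot
    have h1 : ι (Multiplicative.ofAdd 1) ∈ Subgroup.center M := by
      rw [Subgroup.mem_center_iff]
      intro x
      exact (hc _ x).symm
    rw [hbot, Subgroup.mem_bot, ← map_one ι] at h1
    have h2 := hinj h1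
    have h3 : (1 : ℤ_[p]) = 0 := congrArg Multiplicative.toAdd h2
    exact one_ne_zero h3
  · intro htop
    obtain ⟨a, ha⟩ := hφ ((FreeGroup.of (0 : Fin 2) : FreeGroup (Fin 2)) :
      FreeGroup (Fin 2) ⧸ powSub (FreeGroup (Fin 2)) p)
    obtain ⟨b, hb⟩ := hφ ((FreeGroup.of (1 : Fin 2) : FreeGroup (Fin 2)) :
      FreeGroup (Fin 2) ⧸ powSub (FreeGroup (Fin 2)) p)
    have h1 : ((b, 1) : A × Multiplicative ℤ_[p]) ∈ (⊤ : Subgroup _) := trivial
    have h2 : (((a, 1) : A × Multiplicative ℤ_[p]) : M) ∈ Subgroup.center M := by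
      rw [htop]; trivial
    have h3 := Subgroup.mem_center_iff.1 h2 (((b, 1) : A × Multiplicative ℤ_[p]) : M)
    rw [← QuotientGroup.mk_mul, ← QuotientGroup.mk_mul, QuotientGroup.eq] at h3
    obtain ⟨k, h4, -⟩ := mem_hmN.1 h3
    simp only [Prod.mk_mul_mk, Prod.fst_mul, Prod.fst_inv] at h4
    have h5 : (b * a)⁻¹ * (a * b) ∈ φ.ker := by
      rw [hker, h4]
      exact ⟨k, rfl⟩
    rw [MonoidHom.mem_ker, map_mul, map_inv, inv_mul_eq_one, map_mul, map_mul, ha, hb] at h5
    exact hgen 0 1 (by decide) h5.symm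
  · intro H σ h1 h2 h3
    exact hHM H σ h3 h1 h2

end Pool.Agent.TH54.BU
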