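import Pool.Agent.TH54.BU.BurnDef

/-!
# A congruence class of the free Burnside monoid that is not regular

If the free Burnside group of exponent `p` on two generators is infinite, then the congruence class
of the word `(a b) ^ p` in the free monoid modulo `x = x ^ (1 + p)` is not regular (helper544 for
helper54).
-/

set_option autoImplicit false

namespace Pool.Agent.TH54.BU.AppReg

/-- `x` is a factor of `c` -/
def Fac {S : Type*} [Monoid S] (x c : S) : Prop := ∃ u v : S, c = u * x * v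

section

variable {S : Type*} [Monoid S] {p : ℕ}

theorem fac_self (x : S) : Fac x x := ⟨1, 1, by simp⟩

theorem fac_trans {x y z : S} (h : Fac x y) (h' : Fac y z) : Fac x z := by
  obtain ⟨u, v, rfl⟩ := h
  obtain ⟨u', v', rfl⟩ := h'
  exact ⟨u' * u, v * v', by simp only [mul_assoc]⟩

/-- in a monoid with `y ^ (p + 1) = y` a common multiple of `x` and `y` is a multiple of `x y` -/
theorem fac_mul (hp : 0 < p) (hS : ∀ y : S, y ^ (p + 1) = y) {x y c : S} (hx : Fac x c)
    (hy : Fac y c) : Fac (x * y) c := by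
  obtain ⟨q, rfl⟩ : ∃ q, p = q + 1 := ⟨p - 1, by omega⟩
  obtain ⟨u, v, hx⟩ := hx
  obtain ⟨u', v', hy⟩ := hy
  have h1 : Fac (x * y) (y * v' * u * x) := by
    refine ⟨y * v' * u, v' * u * (x * (y * v' * u)) ^ q * x, ?_⟩
    have h2 : (y * v' * u * x) ^ (q + 1 + 1) =
        (y * v' * u) * (x * (y * v' * u)) ^ (q + 1) * x := by
      rw [← mul_pow_mul (y * v' * u) x (q + 1), mul_assoc (_ ^ _), ← pow_succ]
    rw [← hS (y * v' * u * x), h2, pow_succ' (x * (y * v' * u)) q]
    simp only [mul_assoc]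
  have h2 : Fac (x * y) (c * c) := by
    refine fac_trans h1 ⟨u', v, ?_⟩
    calc c * c = (u' * y * v') * (u * x * v) := by rw [← hx, ← hy]
      _ = _ := by simp only [mul_assoc]
  refine fac_trans h2 ⟨1, c ^ q, ?_⟩
  rw [one_mul, ← pow_two, ← pow_add, show 2 + q = q + 1 + 1 by omega, hS c]

/-- an element of `e S e` of which `e` is a multiple is a unit of `e S e` -/
theorem pow_eq_of_fac (hp : 0 < p) (hS : ∀ y : S, y ^ (p + 1) = y) {e g : S}
    (he : e * e = e) (h1 : e * g = g) (h2 : g * e = g) (h : Fac g e) : g ^ p = e := by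
  obtain ⟨u, v, huv⟩ := h
  obtain ⟨q, rfl⟩ : ∃ q, p = q + 1 := ⟨p - 1, by omega⟩
  have hh0 : g ^ (q + 1) * g ^ (q + 1) = g ^ (q + 1) := by
    rw [← pow_add, show q + 1 + (q + 1) = (q + 1 + 1) + q by omega, pow_add, hS g, ← pow_succ']
  have heh : e * g ^ (q + 1) = g ^ (q + 1) := by rw [pow_succ', ← mul_assoc, h1]
  have hhe : g ^ (q + 1) * e = g ^ (q + 1) := by rw [pow_succ, mul_assoc, h2]
  have hg : g = g * g ^ (q + 1) := by rw [← pow_succ', hS g]
  set h := g ^ (q + 1) with hh
  -- `e = (e u g h) (h v e)`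
  have e1 : (e * u * g * h) * (v * e) = e := by
    calc (e * u * g * h) * (v * e) = e * (u * (g * h) * v) * e := by simp only [mul_assoc]
      _ = e := by rw [← hg, ← huv, he, he]
  obtain ⟨U, hU⟩ : ∃ U, U = e * u * g * h := ⟨_, rfl⟩
  rw [← hU] at e1
  have hUh : U * h = U := by rw [hU, mul_assoc _ h h, hh0]
  have e2 : U ^ (q + 1) = e := by
    have h3 : U ^ (q + 1) * h = U ^ (q + 1) := by rw [pow_succ, mul_assoc, hUh]
    calc U ^ (q + 1) = U ^ (q + 1) * h * e := by rw [mul_assoc, hhe, h3]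
      _ = U ^ (q + 1) * e := by rw [h3]
      _ = U ^ (q + 1) * (U * (v * e)) := by rw [e1]
      _ = U ^ (q + 1 + 1) * (v * e) := by rw [pow_succ U (q + 1), mul_assoc]
      _ = e := by rw [hS U, e1]
  have h3 : U ^ (q + 1) * h = U ^ (q + 1) := by rw [pow_succ, mul_assoc, hUh]
  rw [e2, heh] at h3
  exact h3

end

/-- the congruence `x = x ^ (1 + p)` -/
abbrev con (p : ℕ) : Con (FreeMonoid (Fin 2)) :=
  conGen (fun a b : FreeMonoid (Fin 2) => ∃ x : FreeMonoid (Fin 2), a = x ^ 1 ∧ b = x ^ (1 + p))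

/-- the free Burnside group -/
abbrev Bq (p : ℕ) := FreeGroup (Fin 2) ⧸ powSub (FreeGroup (Fin 2)) p

theorem Bq_pow (p : ℕ) (g : Bq p) : g ^ p = 1 := by
  induction g using QuotientGroup.induction_on with
  | H g =>
    rw [← QuotientGroup.mk_pow, QuotientGroup.eq_one_iff]
    exact Subgroup.subset_normalClosure ⟨g, rfl⟩

/-- the homomorphism from the free monoid to the free Burnside group -/
def F (p : ℕ) : FreeMonoid (Fin 2) →* Bq p :=
  FreeMonoid.lift fun i => ((FreeGroup.of i : FreeGroup (Fin 2)) : Bq p)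

theorem F_con (p : ℕ) {x y : FreeMonoid (Fin 2)} (h : con p x y) : F p x = F p y := by
  have h1 : con p ≤ Con.ker (F p) := by
    rw [con, Con.conGen_le]
    rintro a b ⟨x, rfl, rfl⟩
    rw [Con.ker_rel, map_pow, pow_add, Bq_pow, mul_one, pow_one]
  exact h1 h

theorem F_surj {p : ℕ} (hp : 0 < p) : Function.Surjective (F p) := by
  intro g
  rw [← Set.mem_range, ← MonoidHom.coe_mrange, SetLike.mem_coe]
  induction g using QuotientGroup.induction_on with
  | H g =>
    induction g using FreeGroup.induction_on with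
    | C1 => exact one_mem _
    | of i => exact ⟨FreeMonoid.of i, by simp [F]⟩
    | inv_of i ih =>
      have h : ((FreeGroup.of i : FreeGroup (Fin 2)) : Bq p) ^ (p - 1) =
          (((FreeGroup.of i)⁻¹ : FreeGroup (Fin 2)) : Bq p) := by
        rw [QuotientGroup.mk_inv, eq_inv_iff_mul_eq_one, ← pow_succ,
          Nat.sub_add_cancel hp, Bq_pow]
      have h2 := pow_mem ih (p - 1)
      exact h ▸ h2
    | mul x y hx hy => 
      rw [QuotientGroup.mk_mul]
      exact mul_mem hx hy

theorem quot_pow (p : ℕ) (y : (con p).Quotient) : y ^ (p + 1) = y := by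
  induction y using Con.induction_on with
  | H x =>
    change (((x ^ (p + 1) : FreeMonoid (Fin 2)) : (con p).Quotient)) = (x : (con p).Quotient)
    rw [Con.eq]
    apply Con.symm
    have := (ConGen.Rel.of (r := fun a b : FreeMonoid (Fin 2) =>
      ∃ x : FreeMonoid (Fin 2), a = x ^ 1 ∧ b = x ^ (1 + p)) x (x ^ (p + 1))
        ⟨x, (pow_one x).symm, by rw [add_comm]⟩)
    exact this

/-- the word `(a b) ^ p` -/
def w (p : ℕ) : FreeMonoid (Fin 2) := (FreeMonoid.of 0 * FreeMonoid.of 1) ^ p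

/-- the class of a word -/
abbrev cl (p : ℕ) (x : FreeMonoid (Fin 2)) : (con p).Quotient := x

theorem cl_mul (p : ℕ) (x y : FreeMonoid (Fin 2)) : cl p (x * y) = cl p x * cl p y := rfl

theorem cl_pow (p : ℕ) (x : FreeMonoid (Fin 2)) (n : ℕ) : cl p (x ^ n) = cl p x ^ n := rfl

theorem w_idem {p : ℕ} (hp : 0 < p) : cl p (w p) * cl p (w p) = cl p (w p) := by
  obtain ⟨q, rfl⟩ : ∃ q, p = q + 1 := ⟨p - 1, by omega⟩
  rw [w, cl_pow, ← pow_add, show q + 1 + (q + 1) = (q + 1 + 1) + q by omega, pow_add, quot_pow,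
    ← pow_succ']

/-- every word is a factor of the class of `(a b) ^ p` -/
theorem fac_w {p : ℕ} (hp : 0 < p) (t : FreeMonoid (Fin 2)) : Fac (cl p t) (cl p (w p)) := by
  obtain ⟨q, rfl⟩ : ∃ q, p = q + 1 := ⟨p - 1, by omega⟩
  induction t using FreeMonoid.inductionOn' with
  | one => exact ⟨1, cl (q + 1) (w (q + 1)), by simp [cl]⟩
  | of_mul x t ih =>
    rw [cl_mul]
    refine fac_mul hp (quot_pow _) ?_ ih
    have h : w (q + 1) = (FreeMonoid.of 0 * FreeMonoid.of 1) *
      (FreeMonoid.of 0 * FreeMonoid.of 1) ^ q := pow_succ' _ _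
    fin_cases x
    · exact ⟨1, cl (q + 1) (FreeMonoid.of 1 * (FreeMonoid.of 0 * FreeMonoid.of 1) ^ q), by
        rw [one_mul, ← cl_mul, h]; simp only [mul_assoc]; rfl⟩
    · exact ⟨cl (q + 1) (FreeMonoid.of 0), cl (q + 1) ((FreeMonoid.of 0 * FreeMonoid.of 1) ^ q), by
        rw [← cl_mul, ← cl_mul, h]; rfl⟩

/-- `(w u w) ^ p` is congruent to `w` -/
theorem wuw_pow {p : ℕ} (hp : 0 < p) (u : FreeMonoid (Fin 2)) :
    con p ((w p * u * w p) ^ p) (w p) := by
  rw [← Con.eq]
  have he := w_idem hp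
  refine pow_eq_of_fac (e := cl p (w p)) (g := cl p (w p * u * w p)) hp (quot_pow p) he ?_ ?_ ?_
  · rw [cl_mul, cl_mul, ← mul_assoc, ← mul_assoc, he]
  · rw [cl_mul, cl_mul, mul_assoc, he]
  · exact fac_mul hp (quot_pow p) (fac_mul hp (quot_pow p) (fac_self _) (fac_w hp u)) (fac_self _)

end Pool.Agent.TH54.BU.AppReg

namespace Pool.Agent.TH54.BU

open AppReg

theorem app_S14780 {p : ℕ} (hp : 1 < p)
    (h : Infinite (FreeGroup (Fin 2) ⧸ powSub (FreeGroup (Fin 2)) p)) :
    ¬ (∀ (A : Type) [Fintype A] (n m : ℕ), 0 < n → 0 < m →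
      ∀ w : FreeMonoid A,
        ∃ (σ : Type) (_ : Fintype σ) (M : DFA A σ),
          M.accepts =
            {v : List A |
              conGen (fun a b : FreeMonoid A => ∃ x : FreeMonoid A, a = x ^ n ∧ b = x ^ (n + m))
                (FreeMonoid.ofList v) w}) := by
  intro hreg
  have hp0 : 0 < p := by omega
  obtain ⟨σ, hσ, M, hM⟩ := hreg (Fin 2) 1 p one_pos hp0 (w p)
  classical
  choose u hu using F_surj (p := p) hp0
  obtain ⟨g, g', hne, hgg⟩ := Finite.exists_ne_map_eq_of_infinite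
    (fun g : Bq p => fun s : σ => M.evalFrom s (FreeMonoid.toList (w p * u g * w p)))
  have hF : ∀ g : Bq p, F p (w p * u g * w p) = g := by
    intro g
    have hw : F p (w p) = 1 := by rw [w, map_pow, Bq_pow]
    rw [map_mul, map_mul, hw, hu, one_mul, mul_one]
  have hmem : ∀ x y : FreeMonoid (Fin 2),
      (fun s : σ => M.evalFrom s (FreeMonoid.toList x)) =
        (fun s : σ => M.evalFrom s (FreeMonoid.toList y)) →
      ∀ z, con p (x * z) (w p) → con p (y * z) (w p) := by
    intro x y hxy z hz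
    have h1 : FreeMonoid.toList (x * z) ∈ M.accepts := by
      rw [hM]
      exact hz
    have h2 : FreeMonoid.toList (y * z) ∈ M.accepts := by
      rw [DFA.mem_accepts, DFA.eval, FreeMonoid.toList_mul, DFA.evalFrom_of_append] at h1 ⊢
      rw [← congrFun hxy M.start]
      exact h1
    rw [hM] at h2
    exact h2
  have h1 := hmem _ _ hgg ((w p * u g * w p) ^ (p - 1)) (by
    rw [← pow_succ', Nat.sub_add_cancel hp0]
    exact wuw_pow hp0 (u g))
  have h2 := F_con p h1
  have h3 := F_con p (wuw_pow hp0 (u g))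
  have h4 : (w p * u g * w p) ^ p = (w p * u g * w p) * (w p * u g * w p) ^ (p - 1) := by
    rw [← pow_succ', Nat.sub_add_cancel hp0]
  rw [← h3, h4, map_mul, map_mul (F p) (w p * u g * w p), hF, hF] at h2
  exact hne (mul_right_cancel h2).symm

end Pool.Agent.TH54.BU
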