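import Pool.Agent.TH54.BU.Surv

/-!
# BU2-BDD/FIN (job 2014, helper230 for helper54): elements of bounded length which become torsion
are short; finite balls in the quotient
-/

set_option autoImplicit false

namespace Pool.Agent.TH54.BU

namespace LS

variable {G : Type*} [Group G] {H : GH G} {c θ T : ℕ} (L : LS H c θ T)

/-- an element whose powers have small angles survives -/
theorem bf_surv2 {n : ℕ} {M : Subgroup G} (F : L.Fil n M) {E : GH G} {Θ : ℕ}
    (C : L.Cone E Θ) (hn : T * (2 * c + 1) + 24 * L.thr ≤ n) {u : G}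
    (hu : ∀ m : ℕ, m ≤ H.len (u ^ m))
    (hang : ∀ (i : L.ι) (w : G) (m : ℕ), |L.s i w 1 (u ^ m)| + T * Θ + 12 * L.thr < n)
    (N : ℕ) (hN : 0 < N) : u ^ N ∉ M := by
  intro hM
  have h := L.cone_min F C hn (p := 1) (q := u ^ N) (fun i w => hang i w N) (M.inv_mem hM)
  rw [inv_mul_cancel, E.d_self] at h
  have h1 : E.d 1 (u ^ N) = 0 := by omega
  have h2 := E.eq_of_d h1
  have h3 := hu N
  rw [← h2, H.len_one] at h3
  omega

theorem bf_kappa_zpow (i : L.ι) (a : ℤ) : L.κ i (L.x i ^ a) = a := by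
  have h := L.shift i a 1
  rw [mul_one, L.az_kappa_one, zero_add] at h
  exact h

/-- different lines have different generators -/
theorem bf_inj : Function.Injective L.x := by
  intro i j hij
  by_contra hne
  have h := L.ov i j 1 (fun h => absurd h hne) ((T * θ + 1 : ℕ) : ℤ) 0
  rw [one_mul, one_mul, ← hij, L.bf_kappa_zpow, L.bf_kappa_zpow, sub_zero, zpow_natCast] at h
  have h1 := L.lin i (T * θ + 1)
  have h2 : T * H.len (L.x i ^ (T * θ + 1)) ≤ T * θ := Nat.mul_le_mul_left _ h
  omega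

end LS

/-- elements of bounded length which become torsion are short -/
theorem Setup.bdd {G : Type} [Group G] {H : GH G} {c θ T : ℕ} {L : LS H c θ T}
    {K B p L1 Θ n : ℕ} {E : GH G} {M : Subgroup G} [M.Normal] {Q : GH (G ⧸ M)}
    (S : Setup L K B p L1 Θ n E M Q) {R : ℕ}
    (hn : T * (R + θ + 100 * (H.D + c + 1)) + T * Θ + T * (2 * c + 1) + 24 * L.thr + 1 ≤ n)
    {g : G} (hg : ¬ IsOfFinOrder g) (hl : H.len g ≤ R)
    (ht : IsOfFinOrder (g : G ⧸ M)) : L.Short g := by
  by_contra hns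
  obtain ⟨u, -, hmin⟩ := cl_min (fun _ : G => True) (fun u => H.len (u⁻¹ * g * u)) ⟨1, trivial⟩
  set z := u⁻¹ * g * u with hz
  have hgz : g = u * z * u⁻¹ := by rw [hz]; group
  have hzC : H.CMin z := by
    intro v
    have := hmin (u * v) trivial
    rwa [show (u * v)⁻¹ * g * (u * v) = v⁻¹ * z * v by rw [hz]; group] at this
  have hzR : H.len z ≤ R := by
    have := hmin 1 trivial
    simp only [inv_one, one_mul, mul_one] at this
    omega
  have hzf : ¬ IsOfFinOrder z := by
    intro h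
    apply hg
    rw [hgz]
    have := (MulAut.conj u).toMonoidHom.isOfFinOrder h
    simpa using this
  have hzs : ¬ L.Short z := by
    rintro ⟨i, v, k, hv⟩
    apply hns
    refine ⟨i, u * v, k, ?_⟩
    rw [hgz, hv]
    group
  have hlen : 4 * H.D + 4 ≤ H.len z := by
    by_contra hcon
    have h1 := S.hL1
    exact hzs (S.short z hzf (by omega))
  -- finite order modulo `M`
  obtain ⟨N, hN, h1⟩ := (isOfFinOrder_iff_pow_eq_one).1 ht
  rw [← QuotientGroup.mk_pow, QuotientGroup.eq_one_iff] at h1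
  have h2 : z ^ N ∈ M := by
    have h3 := S.fil.normal.conj_mem _ h1 u⁻¹
    have h4 : z ^ N = u⁻¹ * g ^ N * u⁻¹⁻¹ := by
      have : z = u⁻¹ * g * u⁻¹⁻¹ := by rw [hz, inv_inv]
      rw [this, conj_pow]
    rwa [h4]
  refine L.bf_surv2 S.fil S.cone (by omega) (u := z) ?_ ?_ N hN h2
  · intro m
    have h3 := H.surv_sup_pow (H.sup_of_cmin hzC hlen).1 m
    have h4 : m * (2 * H.D + 1) ≤ m * H.len z := Nat.mul_le_mul_left _ (by omega)
    have h5 : m * (2 * H.D + 1) = m * (2 * H.D) + m := by ring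
    omega
  · intro i w m
    have h3 := L.ovz hzC hlen hzs i w 0 m
    rw [zpow_zero, zpow_natCast] at h3
    have h4 := L.wf_lin_z i (L.s i w 1 (z ^ m))
    have h5 : T * H.len (L.x i ^ L.s i w 1 (z ^ m)) ≤ T * (R + θ + 100 * (H.D + c + 1)) := by
      refine Nat.mul_le_mul_left _ ?_
      have h6 : L.D i w 1 (z ^ m) = H.len (L.x i ^ L.s i w 1 (z ^ m)) := rfl
      omega
    have h7 : (L.s i w 1 (z ^ m)).natAbs + T * Θ + 12 * L.thr < n := by
      omega
    rw [Int.abs_eq_natAbs]
    exact_mod_cast h7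

open scoped Pointwise in
/-- balls in the quotient are finite -/
theorem Setup.fin {G : Type} [Group G] {H : GH G} {c θ T : ℕ} {L : LS H c θ T}
    {K B p L1 Θ n : ℕ} {E : GH G} {M : Subgroup G} [M.Normal] {Q : GH (G ⧸ M)}
    (S : Setup L K B p L1 Θ n E M Q) (hn : 0 < n) (hf : ∀ R : ℕ, {g : G | H.len g ≤ R}.Finite)
    (R : ℕ) : {q : G ⧸ M | Q.len q ≤ R}.Finite := by
  -- finitely many lines
  have hfin : Finite L.ι := by
    have : (Set.range L.x).Finite := by
      refine (hf L1).subset ?_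
      rintro _ ⟨i, rfl⟩
      exact S.xlen i
    have h2 : Finite (Set.range L.x) := this
    exact Finite.of_injective (fun i => (⟨L.x i, i, rfl⟩ : Set.range L.x)) (by
      intro i j hij
      exact L.bf_inj (congrArg Subtype.val hij))
  -- the unit ball
  have h1 : ((fun g : G => (g : G ⧸ M)) '' {g : G | E.len g ≤ 1}).Finite := by
    have hA : ((fun g : G => (g : G ⧸ M)) '' {g : G | H.len g ≤ 1}).Finite := (hf 1).image _
    have hB : (Set.range (fun a : L.ι × Fin n => ((L.x a.1 ^ (a.2 : ℕ) : G) : G ⧸ M))).Finite :=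
      Set.finite_range _
    refine (hA.union hB).subset ?_
    rintro _ ⟨g, hg, rfl⟩
    rcases (S.cone.le_one g).1 hg with h | ⟨i, k, hk⟩
    · exact Or.inl ⟨g, h, rfl⟩
    · right
      have hn' : (n : ℤ) ≠ 0 := by exact_mod_cast hn.ne'
      have hr0 : 0 ≤ k % n := Int.emod_nonneg _ hn'
      have hr1 : k % n < n := Int.emod_lt_of_pos _ (by exact_mod_cast hn)
      refine ⟨(i, ⟨(k % n).toNat, by omega⟩), ?_⟩
      show ((L.x i ^ (k % n).toNat : G) : G ⧸ M) = (g : G ⧸ M)
      rw [QuotientGroup.eq, hk, ← zpow_natCast, Int.toNat_of_nonneg hr0, ← zpow_neg, ← zpow_add]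
      have h3 := S.fil.rot i 1 (k / n)
      unfold LS.rt at h3
      rw [one_mul, inv_one, mul_one] at h3
      have h4 : -(k % n) + k = n * (k / n) := by
        have := Int.mul_ediv_add_emod k n
        omega
      rwa [h4]
  have h2 : ∀ R : ℕ, ((fun g : G => (g : G ⧸ M)) '' {g : G | E.len g ≤ R}).Finite := by
    intro R
    induction R with
    | zero =>
      refine (Set.finite_singleton (1 : G ⧸ M)).subset ?_
      rintro _ ⟨g, hg, rfl⟩
      have hg0 : E.len g = 0 := by
        have : E.len g ≤ 0 := hg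
        omega
      rw [E.eq_one g hg0]
      rfl
    | succ R ih =>
      have h3 : (((fun g : G => (g : G ⧸ M)) '' {g : G | E.len g ≤ R}) *
          ((fun g : G => (g : G ⧸ M)) '' {g : G | E.len g ≤ 1})).Finite := ih.mul h1
      refine (ih.union h3).subset ?_
      rintro _ ⟨g, hg, rfl⟩
      have hg1 : E.len g ≤ R + 1 := hg
      rcases Nat.lt_or_ge R (E.len g) with h4 | h4
      · right
        obtain ⟨h, h5, h6⟩ := E.step g R (by omega)
        refine Set.mem_mul.2 ⟨(h : G ⧸ M), ⟨h, ?_, rfl⟩, ((h⁻¹ * g : G) : G ⧸ M),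
          ⟨h⁻¹ * g, ?_, rfl⟩, ?_⟩
        · exact h5.le
        · show E.len (h⁻¹ * g) ≤ 1
          omega
        · rw [← QuotientGroup.mk_mul, mul_inv_cancel_left]
      · left
        exact ⟨g, h4, rfl⟩
  refine (h2 R).subset ?_
  intro q hq
  obtain ⟨g, hg1, hg2⟩ := S.lift q
  refine ⟨g, ?_, hg1⟩
  show E.len g ≤ R
  rw [hg2]
  exact hq

end Pool.Agent.TH54.BU
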