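import Pool.Agent.TH54.BU.Defs

/-!
# A quasi-morphism on the centralizer of an element with quasi-geodesic powers
-/

set_option autoImplicit false

namespace Pool.Agent.TH54.BU

open Filter

variable {G : Type*} [Group G]

/-- the relative Busemann cocycle at time `J` -/
def GH.sJ (H : GH G) (x : G) (J : ℕ) (a : G) : ℤ := (H.len (x ^ J * a) : ℤ) - H.len (x ^ J)

theorem GH.sJ_le (H : GH G) (x : G) (J : ℕ) (a : G) : |H.sJ x J a| ≤ H.len a := by
  unfold GH.sJ
  rw [abs_le]
  have h1 := H.len_mul (x ^ J) a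
  have h2 := H.len_mul (x ^ J * a) a⁻¹
  rw [mul_inv_cancel_right, H.len_inv] at h2
  constructor <;> omega

theorem GH.exists_lim (H : GH G) (x a : G) :
    ∃ n : ℤ, ∀ᶠ J in (hyperfilter ℕ : Filter ℕ), H.sJ x J a = n := by
  have hfin : (Set.Icc (-(H.len a : ℤ)) (H.len a)).Finite := Set.finite_Icc _ _
  have hmem : Set.Icc (-(H.len a : ℤ)) (H.len a) ∈ Ultrafilter.map (fun J => H.sJ x J a)
      (hyperfilter ℕ) := by
    rw [Ultrafilter.mem_map]
    apply Filter.mem_of_superset Filter.univ_mem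
    intro J _
    have := H.sJ_le x J a
    rw [abs_le] at this
    exact ⟨this.1, this.2⟩
  obtain ⟨n, -, hn⟩ := Ultrafilter.eq_pure_of_finite_mem hfin hmem
  refine ⟨n, ?_⟩
  have h1 : ({n} : Set ℤ) ∈ Ultrafilter.map (fun J => H.sJ x J a) (hyperfilter ℕ) := by
    rw [hn]; simp
  rw [Ultrafilter.mem_map] at h1
  exact h1

theorem GH.pow_large (H : GH G) {T : ℕ} {x : G} (hS : H.Stab T) (hx : ¬ IsOfFinOrder x) (B : ℕ) :
    ∀ᶠ J in atTop, B ≤ H.len (x ^ J) := by
  filter_upwards [eventually_ge_atTop (T * B)] with J hJ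
  have h1 := hS x hx 1
  have hT : 0 < T := by
    rcases Nat.eq_zero_or_pos T with h | h
    · subst h; omega
    · exact h
  have h2 := hS x hx J
  exact Nat.le_of_mul_le_mul_left (hJ.trans h2) hT

theorem GH.exists_qm (H : GH G) {c0 T : ℕ} {x : G} (hs : H.Sup c0 x) (hS : H.Stab T)
    (hx : ¬ IsOfFinOrder x) :
    ∃ f : G → ℤ, (∀ a, |f a| ≤ H.len a) ∧
      (∀ a, a * x = x * a → (H.len a : ℤ) ≤ |f a| + (c0 + 3 * H.D)) ∧
      ∀ a b, a * x = x * a → b * x = x * b → |f (a * b) - f a - f b| ≤ H.D := by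
  choose f hf using H.exists_lim x
  have hlarge : ∀ B : ℕ, ∀ᶠ J in (hyperfilter ℕ : Filter ℕ), B ≤ H.len (x ^ J) := fun B =>
    (H.pow_large hS hx B).filter_mono Nat.hyperfilter_le_atTop
  have hne : (hyperfilter ℕ : Filter ℕ).NeBot := inferInstance
  refine ⟨f, ?_, ?_, ?_⟩
  · intro a
    obtain ⟨J, hJ⟩ := (hf a).exists
    rw [← hJ]
    exact H.sJ_le x J a
  · intro a ha
    obtain ⟨J, hJ, hJ2⟩ := ((hf a).and (hlarge (2 * H.len a + c0 + 5 * H.D + 1))).exists
    rw [← hJ]
    have hcom : ∀ n : ℕ, a * x ^ n = x ^ n * a := fun n => (Commute.pow_right (show Commute a x from ha) n)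
    -- points: p = x^{-J}, q = x^J, 1, a
    set p : G := (x ^ J)⁻¹ with hp
    set q : G := x ^ J with hq
    have e1 : H.d p 1 = H.len q := by unfold GH.d; simp [hp]
    have e2 : H.d 1 q = H.len q := H.d_one q
    have e3 : H.d p q = H.len (x ^ (J + J)) := by
      unfold GH.d; rw [hp, hq, inv_inv, ← pow_add]
    have e4 : H.d p a = H.len (q * a) := by unfold GH.d; simp [hp]
    have hcomq : a * q = q * a := hcom J
    have e5 : H.d (a * p) a = H.len q := by
      have := H.d_mul a p 1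
      rw [mul_one] at this
      rw [this, e1]
    have e6 : H.d a (a * q) = H.len q := by
      have := H.d_mul a 1 q
      rw [mul_one] at this
      rw [this, e2]
    have e7 : H.d (a * p) (a * q) = H.d p q := H.d_mul a p q
    have e8 : H.d (a * q) q = H.len a := by
      rw [hcomq]; unfold GH.d
      rw [show (q * a)⁻¹ * q = a⁻¹ by group, H.len_inv]
    have hcomp : a * p = p * a := by
      rw [hp]; exact (Commute.inv_right (show Commute a q from hcomq))
    have e9 : H.d (a * p) p = H.len a := by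
      rw [hcomp]; unfold GH.d
      rw [show (p * a)⁻¹ * p = a⁻¹ by group, H.len_inv]
    have hsup := hs J J
    have e10 : H.d 1 a = H.len a := H.d_one a
    -- four point inequalities
    -- transport 1: from (a*p, a*q; a) to (p, a*q; a)
    have t1 := H.fp (a * p) (a * q) a p
    have t2 := H.fp p (a * q) a q
    have t3 := H.fp 1 a p q
    have c1 := H.d_comm a p
    have c2 := H.d_comm (a * q) p
    have c3 := H.d_comm (a * p) p
    have c4 := H.d_comm a q
    have c5 := H.d_comm (a * q) q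
    have c6 := H.d_comm a (a * q)
    have c7 := H.d_comm a (a * p)
    have c8 := H.d_comm 1 p
    have c9 := H.d_comm a 1
    have k1 := H.d_tri p (a * p) a
    have k2 := H.d_tri (a * p) p a
    have k3 := H.d_tri q (a * q) a
    have k4 := H.d_tri (a * q) q a
    have k5 := H.d_tri p (a * q) q
    have k6 := H.d_tri p q (a * q)
    unfold GH.sJ
    rw [← hq] at *
    have := abs_le.1 (le_refl |(H.len (q * a) : ℤ) - H.len q|)
    omega
  · intro a b ha hb
    obtain ⟨J, hJa, hJb, hJab, hJ2⟩ := ((hf a).and ((hf b).and ((hf (a * b)).and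
      (hlarge (2 * H.len a + 2 * H.len b + H.D + 1))))).exists
    rw [← hJa, ← hJb, ← hJab]
    have hcomq : a * x ^ J = x ^ J * a := (Commute.pow_right (show Commute a x from ha) J)
    unfold GH.sJ
    set q : G := x ^ J with hq
    -- u = a⁻¹ q⁻¹, v = q⁻¹
    have f1 := H.fp (a⁻¹ * q⁻¹) b q⁻¹ 1
    have f2 := H.fp (a⁻¹ * q⁻¹) 1 q⁻¹ b
    have e1 : H.d (a⁻¹ * q⁻¹) b = H.len (q * (a * b)) := by
      unfold GH.d; congr 1; group
    have e2 : H.d (a⁻¹ * q⁻¹) 1 = H.len (q * a) := by
      unfold GH.d; congr 1; group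
    have e3 : H.d q⁻¹ 1 = H.len q := by
      unfold GH.d; congr 1; group
    have e4 : H.d q⁻¹ b = H.len (q * b) := by
      unfold GH.d; congr 1; group
    have e5 : H.d (a⁻¹ * q⁻¹) q⁻¹ = H.len a := by
      unfold GH.d
      rw [show (a⁻¹ * q⁻¹)⁻¹ * q⁻¹ = q * a * q⁻¹ by group, ← hcomq]
      congr 1; group
    have e6 : H.d b 1 = H.len b := H.d_one' b
    have e7 := H.d_comm b 1
    have e8 := H.d_comm b q⁻¹
    have e9 := H.d_comm 1 q⁻¹
    have k1 := H.len_mul (q * (a * b)) (a * b)⁻¹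
    have k2 := H.len_mul (q * a) a⁻¹
    have k3 := H.len_mul (q * b) b⁻¹
    have k4 := H.len_mul a b
    rw [mul_inv_cancel_right, H.len_inv] at k1 k2 k3
    rw [abs_le]
    constructor <;> omega

end Pool.Agent.TH54.BU
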