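import Mathlib

/-!
# Uniform large exponent Burnside theory: definitions (helper54)

`GH G` is a geodesic integer valued length on a group `G` (balls may be infinite) with the four
point inequality with error `D`.
-/

set_option autoImplicit false

namespace Pool.Agent.TH54.BU

/-- a discrete geodesic metric -/
structure DM {V : Type*} (d : V → V → ℕ) : Prop where
  self : ∀ u, d u u = 0
  eq : ∀ u v, d u v = 0 → u = v
  comm : ∀ u v, d u v = d v u
  tri : ∀ u v w, d u w ≤ d u v + d v w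
  btw : ∀ u v k, k ≤ d u v → ∃ p, d u p = k ∧ d p v + k = d u v

/-- the four point inequality -/
def Four {V : Type*} (d : V → V → ℕ) (D : ℕ) : Prop :=
  ∀ u v w z, d u v + d w z ≤ max (d u w + d v z) (d u z + d v w) + D

/-- a hyperbolic geodesic length on a group -/
structure GH (G : Type*) [Group G] where
  len : G → ℕ
  D : ℕ
  len_one : len 1 = 0
  eq_one : ∀ g, len g = 0 → g = 1
  len_inv : ∀ g, len g⁻¹ = len g
  len_mul : ∀ g h, len (g * h) ≤ len g + len h
  fp' : ∀ u v w z : G, len (u⁻¹ * v) + len (w⁻¹ * z) ≤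
      max (len (u⁻¹ * w) + len (v⁻¹ * z)) (len (u⁻¹ * z) + len (v⁻¹ * w)) + D
  step : ∀ g k, k ≤ len g → ∃ h, len h = k ∧ len (h⁻¹ * g) + k = len g

variable {G : Type*} [Group G]

namespace GH

variable (H : GH G)

/-- the left invariant distance -/
def d (u v : G) : ℕ := H.len (u⁻¹ * v)

theorem d_self (u : G) : H.d u u = 0 := by simp [d, H.len_one]

theorem d_comm (u v : G) : H.d u v = H.d v u := by
  unfold d
  rw [← H.len_inv]
  congr 1
  group

theorem d_tri (u v w : G) : H.d u w ≤ H.d u v + H.d v w := by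
  unfold d
  have := H.len_mul (u⁻¹ * v) (v⁻¹ * w)
  rwa [show u⁻¹ * v * (v⁻¹ * w) = u⁻¹ * w by group] at this

theorem d_mul (g u v : G) : H.d (g * u) (g * v) = H.d u v := by
  unfold d
  congr 1
  group

theorem eq_of_d {u v : G} (h : H.d u v = 0) : u = v := by
  have := H.eq_one _ h
  exact inv_mul_eq_one.1 this

theorem d_one (g : G) : H.d 1 g = H.len g := by simp [d]

theorem d_one' (g : G) : H.d g 1 = H.len g := by rw [d_comm, d_one]

/-- the four point inequality -/
theorem fp (u v w z : G) : H.d u v + H.d w z ≤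
    max (H.d u w + H.d v z) (H.d u z + H.d v w) + H.D := H.fp' u v w z

/-- points on geodesics -/
theorem between (u v : G) (k : ℕ) (hk : k ≤ H.d u v) :
    ∃ p, H.d u p = k ∧ H.d p v + k = H.d u v := by
  obtain ⟨h, h1, h2⟩ := H.step (u⁻¹ * v) k hk
  refine ⟨u * h, ?_, ?_⟩
  · unfold d
    rw [show u⁻¹ * (u * h) = h by group, h1]
  · unfold d
    rw [show (u * h)⁻¹ * v = h⁻¹ * (u⁻¹ * v) by group, h2]

theorem dm : DM H.d where
  self := H.d_self
  eq := fun _ _ h => H.eq_of_d h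
  comm := H.d_comm
  tri := H.d_tri
  btw := H.between

theorem four : Four H.d H.D := H.fp

/-- elements of infinite order have stable length at least `1 / T` -/
def Stab (T : ℕ) : Prop := ∀ g : G, ¬ IsOfFinOrder g → ∀ m : ℕ, m ≤ T * H.len (g ^ m)

/-- the elements which move both `1` and `q` by at most `K` -/
def SD (K : ℕ) (q : G) : Set G := {g | H.len g ≤ K ∧ H.len (q⁻¹ * g * q) ≤ K}

/-- the elements with small displacement at both ends of a long segment commute and have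
infinite order -/
def Acy (K B : ℕ) : Prop := ∀ q : G, B ≤ H.len q → ∀ g ∈ H.SD K q,
  (IsOfFinOrder g → g = 1) ∧ ∀ h ∈ H.SD K q, g * h = h * g

/-- the elements with small displacement at both ends of a long segment have infinite order, and
they commute or there are at most `N` of them -/
def Mix (K B N : ℕ) : Prop := ∀ q : G, B ≤ H.len q →
  (∀ g ∈ H.SD K q, IsOfFinOrder g → g = 1) ∧
    ((∀ g ∈ H.SD K q, ∀ h ∈ H.SD K q, g * h = h * g) ∨
      ((H.SD K q).Finite ∧ (H.SD K q).ncard ≤ N))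

/-- the powers of `x` form a quasi-geodesic with additive error `c` -/
def Sup (c : ℕ) (x : G) : Prop :=
  ∀ a b : ℕ, H.len (x ^ a) + H.len (x ^ b) ≤ H.len (x ^ (a + b)) + c

/-- `z` has minimal length in its conjugacy class -/
def CMin (z : G) : Prop := ∀ u : G, H.len z ≤ H.len (u⁻¹ * z * u)

/-- a geodesic path (with vertices `γ 0`, …, `γ n`) -/
def Geod (γ : ℕ → G) (n : ℕ) : Prop := (∀ i, i < n → H.d (γ i) (γ (i + 1)) ≤ 1) ∧
  H.d (γ 0) (γ n) = n

end GH

/-- torsion elements have order dividing `p` -/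
def Tor (G : Type*) [Group G] (p : ℕ) : Prop := ∀ g : G, IsOfFinOrder g → g ^ p = 1

/-- `x` has infinite order and generates its own centralizer -/
def Prim (x : G) : Prop := ¬ IsOfFinOrder x ∧ ∀ a : G, a * x = x * a → a ∈ Subgroup.zpowers x

/-- a system of lines: `κ i g` is the coordinate of a point of `⟨x i⟩` nearest to `g`. The lines
are the cosets `u⟨x i⟩`. -/
structure LS (H : GH G) (c θ T : ℕ) where
  ι : Type
  x : ι → G
  κ : ι → G → ℤ
  shift : ∀ (i : ι) (j : ℤ) (g : G), κ i (x i ^ j * g) = κ i g + j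
  near : ∀ (i : ι) (g : G) (k : ℤ), H.d g (x i ^ κ i g) ≤ H.d g (x i ^ k)
  proj : ∀ (i : ι) (g h : G), c < H.len (x i ^ (κ i g - κ i h)) →
    H.d g (x i ^ κ i g) + H.len (x i ^ (κ i g - κ i h)) + H.d h (x i ^ κ i h) ≤ H.d g h + c
  sup : ∀ (i : ι), H.Sup c (x i)
  xlen : ∀ (i : ι), H.len (x i) ≤ c
  qc : ∀ (i : ι) (a b : ℤ) (p : G), H.d (x i ^ a) p + H.d p (x i ^ b) = H.d (x i ^ a) (x i ^ b) →
    ∃ k : ℤ, H.d p (x i ^ k) ≤ c
  lin : ∀ (i : ι) (a : ℕ), a ≤ T * H.len (x i ^ a)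
  ov : ∀ (i j : ι) (u : G), (i = j → u ∉ Subgroup.zpowers (x i)) → ∀ a b : ℤ,
    H.len (x i ^ (κ i (u * x j ^ a) - κ i (u * x j ^ b))) ≤ θ

namespace LS

variable {H : GH G} {c θ T : ℕ} (L : LS H c θ T)

/-- the signed displacement from `p` to `q` along the line `u⟨x i⟩`, in periods -/
def s (i : L.ι) (u p q : G) : ℤ := L.κ i (u⁻¹ * q) - L.κ i (u⁻¹ * p)

/-- the distance of the projections of `p` and `q` to the line `u⟨x i⟩` -/
def D (i : L.ι) (u p q : G) : ℕ := H.len (L.x i ^ L.s i u p q)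

/-- `p` lies on the line `u⟨x i⟩` -/
def On (i : L.ι) (u p : G) : Prop := u⁻¹ * p ∈ Subgroup.zpowers (L.x i)

/-- the projection to the line -/
def pr (i : L.ι) (u p : G) : G := u * L.x i ^ L.κ i (u⁻¹ * p)

/-- the translation by `k` periods along the line `u⟨x i⟩` -/
def rt (i : L.ι) (u : G) (k : ℤ) : G := u * L.x i ^ k * u⁻¹

/-- `z` is conjugate to a power of an `x i` -/
def Short (z : G) : Prop := ∃ (i : L.ι) (u : G) (k : ℤ), z = u * L.x i ^ k * u⁻¹

/-- threshold (in periods) for the windmill argument -/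
def thr (_ : LS H c θ T) : ℕ := T * (2 * c + θ + 1)

/-- the data of a large power quotient -/
structure Fil (n : ℕ) (M : Subgroup G) : Prop where
  normal : M.Normal
  rot : ∀ (i : L.ι) (u : G) (k : ℤ), L.rt i u (n * k) ∈ M
  gr : ∀ m ∈ M, m ≠ 1 → ∀ p : G, ∃ (i : L.ι) (u : G), (n : ℤ) ≤ |L.s i u p (m * p)| + 12 * L.thr

/-- `E` is the cone metric of the system of lines, with the constant `Θ` -/
structure Cone (E : GH G) (Θ : ℕ) : Prop where
  le_one : ∀ g, E.len g ≤ 1 ↔ (H.len g ≤ 1 ∨ ∃ (i : L.ι) (k : ℤ), g = L.x i ^ k)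
  le : ∀ g, E.len g ≤ H.len g
  e2 : ∀ (i : L.ι) (u : G) (γ : ℕ → G) (n : ℕ), E.Geod γ n → Θ ≤ L.D i u (γ 0) (γ n) →
    ∃ k < n, L.On i u (γ k) ∧ L.On i u (γ (k + 1))
  e3 : ∀ (A : ℕ) (p q : G), (∀ (i : L.ι) (u : G), L.D i u p q ≤ A) →
    H.d p q ≤ (A + 2 * Θ + 1) * E.d p q

end LS

/-- the data of one step: `G` with the length `H` and the lines `L`, the cone metric `E`, the
quotient `G ⧸ M` by the normal closure of the `n`-th powers and the quotient length `Q` of `E` -/
structure Setup {G : Type} [Group G] {H : GH G} {c θ T : ℕ} (L : LS H c θ T) (K B p L1 Θ n : ℕ)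
    (E : GH G) (M : Subgroup G) [M.Normal] (Q : GH (G ⧸ M)) : Prop where
  hK : 100 * H.D + 100 ≤ K
  stab : H.Stab T
  hT : 1 ≤ T
  acy : H.Acy K B
  odd : Odd p
  tor : Tor G p
  prim : ∀ i, Prim (L.x i)
  xlen : ∀ i, H.len (L.x i) ≤ L1
  hL1 : 44 * H.D + 44 ≤ L1
  short : ∀ z, ¬ IsOfFinOrder z → H.len z + 40 * H.D + 40 ≤ L1 → L.Short z
  fil : L.Fil n M
  cone : L.Cone E Θ
  le : ∀ g : G, Q.len (g : G ⧸ M) ≤ E.len g
  lift : ∀ q : G ⧸ M, ∃ g : G, (g : G ⧸ M) = q ∧ E.len g = Q.len q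
  hQD : Q.D = 2 * E.D + 2

end Pool.Agent.TH54.BU
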