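import Pool.Agent.TH54.BU.Defs

/-!
# The quotient of the cone metric is hyperbolic (job BU-QUO)
-/

set_option autoImplicit false

namespace Pool.Agent.TH54.BU

variable {G : Type*} [Group G]

namespace GH

variable (E : GH G) (M : Subgroup G)

/-- the quotient length -/
noncomputable def qoLen (q : G ⧸ M) : ℕ := sInf {n | ∃ g : G, (g : G ⧸ M) = q ∧ E.len g = n}

theorem qoLen_le (g : G) : E.qoLen M (g : G ⧸ M) ≤ E.len g := Nat.sInf_le ⟨g, rfl, rfl⟩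

theorem qoLen_rep (q : G ⧸ M) : ∃ g : G, (g : G ⧸ M) = q ∧ E.len g = E.qoLen M q := by
  have hne : {n | ∃ g : G, (g : G ⧸ M) = q ∧ E.len g = n}.Nonempty := by
    obtain ⟨g, hg⟩ := QuotientGroup.mk_surjective q
    exact ⟨_, g, hg, rfl⟩
  exact Nat.sInf_mem hne

variable [hM : M.Normal]

theorem qoLen_one : E.qoLen M 1 = 0 := by
  have := E.qoLen_le M 1
  rw [E.len_one] at this
  exact Nat.le_zero.1 this

theorem qoLen_eq_one (q : G ⧸ M) (h : E.qoLen M q = 0) : q = 1 := by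
  obtain ⟨g, hg, hl⟩ := E.qoLen_rep M q
  rw [h] at hl
  rw [← hg, E.eq_one g hl]
  rfl

theorem qoLen_inv (q : G ⧸ M) : E.qoLen M q⁻¹ = E.qoLen M q := by
  have key : ∀ q : G ⧸ M, E.qoLen M q⁻¹ ≤ E.qoLen M q := by
    intro q
    obtain ⟨g, hg, hl⟩ := E.qoLen_rep M q
    have := E.qoLen_le M g⁻¹
    rw [E.len_inv, hl] at this
    rw [← hg]
    rw [← hg] at this
    exact this
  refine le_antisymm (key q) ?_
  have := key q⁻¹
  rwa [inv_inv] at this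

theorem qoLen_mul (q q' : G ⧸ M) : E.qoLen M (q * q') ≤ E.qoLen M q + E.qoLen M q' := by
  obtain ⟨g, hg, hl⟩ := E.qoLen_rep M q
  obtain ⟨g', hg', hl'⟩ := E.qoLen_rep M q'
  have h1 := E.qoLen_le M (g * g')
  have h2 := E.len_mul g g'
  have h3 : ((g * g' : G) : G ⧸ M) = q * q' := by
    rw [← hg, ← hg']
    rfl
  rw [h3] at h1
  omega

theorem qoLen_step (q : G ⧸ M) (k : ℕ) (hk : k ≤ E.qoLen M q) :
    ∃ p, E.qoLen M p = k ∧ E.qoLen M (p⁻¹ * q) + k = E.qoLen M q := by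
  obtain ⟨g, hg, hl⟩ := E.qoLen_rep M q
  obtain ⟨h, h1, h2⟩ := E.step g k (by omega)
  have h3 := E.qoLen_le M h
  have h4 := E.qoLen_le M (h⁻¹ * g)
  have h5 : ((h⁻¹ * g : G) : G ⧸ M) = (h : G ⧸ M)⁻¹ * q := by
    rw [← hg]
    rfl
  rw [h5] at h4
  have h6 := E.qoLen_mul M (h : G ⧸ M) ((h : G ⧸ M)⁻¹ * q)
  rw [mul_inv_cancel_left] at h6
  exact ⟨h, by omega, by omega⟩

/-- the quotient distance of images -/
theorem qoLen_d (a b : G) : E.qoLen M ((a : G ⧸ M)⁻¹ * (b : G ⧸ M)) ≤ E.d a b :=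
  E.qoLen_le M (a⁻¹ * b)

/-- lifting a point at the minimal distance -/
theorem qoLen_lift (u : G) (q : G ⧸ M) : ∃ v : G, (v : G ⧸ M) = q ∧
    E.d u v = E.qoLen M ((u : G ⧸ M)⁻¹ * q) := by
  obtain ⟨g, hg, hl⟩ := E.qoLen_rep M ((u : G ⧸ M)⁻¹ * q)
  refine ⟨u * g, ?_, ?_⟩
  · have : ((u * g : G) : G ⧸ M) = (u : G ⧸ M) * (g : G ⧸ M) := rfl
    rw [this, hg, mul_inv_cancel_left]
  · unfold d
    rw [inv_mul_cancel_left, hl]

omit hM in
theorem qo_coe_mul [hM : M.Normal] {m : G} (hm : m ∈ M) (u : G) : ((m * u : G) : G ⧸ M) = u := by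
  apply QuotientGroup.eq.2
  have := hM.conj_mem _ (M.inv_mem hm) u⁻¹
  rw [inv_inv] at this
  rwa [mul_inv_rev]

omit hM in
theorem qo_of_coe_eq [hM : M.Normal] {u v : G} (h : (u : G ⧸ M) = v) : ∃ m ∈ M, v = m * u := by
  have h1 := QuotientGroup.eq.1 h
  refine ⟨v * u⁻¹, ?_, by group⟩
  have := hM.conj_mem _ h1 u
  rwa [show u * (u⁻¹ * v) * u⁻¹ = v * u⁻¹ by group] at this

end GH

namespace GH

/-- geodesic paths exist -/
theorem qo_geod (E : GH G) : ∀ (n : ℕ) (p q : G), E.d p q = n →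
    ∃ γ : ℕ → G, γ 0 = p ∧ γ n = q ∧ ∀ i, i < n → E.d (γ i) (γ (i + 1)) ≤ 1 := by
  intro n
  induction n with
  | zero =>
    intro p q h
    exact ⟨fun _ => p, rfl, E.eq_of_d h, fun i hi => absurd hi (Nat.not_lt_zero i)⟩
  | succ n ih =>
    intro p q h
    obtain ⟨p1, h1, h2⟩ := E.between p q 1 (by omega)
    obtain ⟨γ, g0, gn, gs⟩ := ih p1 q (by omega)
    refine ⟨fun k => match k with | 0 => p | k + 1 => γ k, rfl, gn, ?_⟩
    intro i hi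
    cases i with
    | zero =>
      change E.d p (γ 0) ≤ 1
      rw [g0]
      exact h1.le
    | succ i => exact gs i (by omega)

theorem qo_path (E : GH G) {γ : ℕ → G} {n : ℕ} (h : ∀ i, i < n → E.d (γ i) (γ (i + 1)) ≤ 1) :
    ∀ a k : ℕ, a + k ≤ n → E.d (γ a) (γ (a + k)) ≤ k := by
  intro a k
  induction k with
  | zero => intro _; rw [add_zero, E.d_self]
  | succ k ih =>
    intro hk
    have h1 := ih (by omega)
    have h2 := h (a + k) (by omega)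
    have h3 := E.d_tri (γ a) (γ (a + k)) (γ (a + k + 1))
    rw [← add_assoc]
    omega

end GH

namespace LS

variable {H : GH G} {c θ T : ℕ} (L : LS H c θ T)

theorem qo_rot {E : GH G} {Θ : ℕ} (C : L.Cone E Θ) {i : L.ι} {u p q : G}
    (h : Θ ≤ L.D i u p q) (l : ℤ) : E.d p (L.rt i u l * q) ≤ E.d p q := by
  obtain ⟨γ, g0, gn, gs⟩ := E.qo_geod (E.d p q) p q rfl
  obtain ⟨k, hk, ⟨a, ha⟩, ⟨b, hb⟩⟩ := C.e2 i u γ (E.d p q) ⟨gs, by rw [g0, gn]⟩ (by rw [g0, gn]; exact h)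
  have h1 := E.qo_path gs 0 k (by omega)
  rw [zero_add, g0] at h1
  have h2 := E.qo_path gs (k + 1) (E.d p q - (k + 1)) (by omega)
  rw [show k + 1 + (E.d p q - (k + 1)) = E.d p q by omega, gn] at h2
  have ha' : L.x i ^ a = u⁻¹ * γ k := ha
  have hb' : L.x i ^ b = u⁻¹ * γ (k + 1) := hb
  have h3 : E.d (γ k) (L.rt i u l * γ (k + 1)) ≤ 1 := by
    unfold GH.d
    refine (C.le_one _).2 (Or.inr ⟨i, -a + l + b, ?_⟩)
    have e1 : γ k = u * L.x i ^ a := by rw [ha']; group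
    have e2 : γ (k + 1) = u * L.x i ^ b := by rw [hb']; group
    rw [e1, e2, zpow_add, zpow_add, zpow_neg]
    unfold rt
    group
  have h4 : E.d (L.rt i u l * γ (k + 1)) (L.rt i u l * q) ≤ E.d p q - (k + 1) := by
    rw [E.d_mul]; exact h2
  have t1 := E.d_tri p (γ k) (L.rt i u l * q)
  have t2 := E.d_tri (γ k) (L.rt i u l * γ (k + 1)) (L.rt i u l * q)
  omega

theorem qo_lin (i : L.ι) (s : ℤ) : |s| ≤ (T : ℤ) * H.len (L.x i ^ s) := by
  have h1 := L.lin i s.natAbs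
  have h2 : H.len (L.x i ^ s) = H.len (L.x i ^ s.natAbs) := by
    rcases Int.natAbs_eq s with h | h
    · conv_lhs => rw [h, zpow_natCast]
    · conv_lhs => rw [h, zpow_neg, zpow_natCast, H.len_inv]
  rw [h2, ← Int.natCast_natAbs]
  exact_mod_cast h1

/-- the statement of `LS.close` for `n` and `M` -/
def QoClose (n : ℕ) (M : Subgroup G) : Prop := ∀ (A k : ℕ)
    (_ : k * A + 12 * L.thr ≤ n) (_ : 24 * L.thr + T * (2 * c + 1) ≤ n)
    (Rel : ℕ → G → G → Prop)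
    (_ : ∀ j < k, ∀ m ∈ M, ∀ a b, Rel j a b → Rel j (m * a) (m * b))
    (_ : ∀ j < k, ∀ a b, Rel j a b → ∀ (i : L.ι) (u : G), (A : ℤ) ≤ |L.s i u a b| →
      ∀ l : ℤ, Rel j a (L.rt i u (n * l) * b))
    (P : ℕ → G) (_ : ∀ j < k, Rel j (P j) (P (j + 1))) (_ : ∃ m ∈ M, P k = m * P 0),
    ∃ P' : ℕ → G, (∀ j < k, Rel j (P' j) (P' (j + 1))) ∧ P' k = P' 0 ∧
      ∀ j ≤ k, ∃ m ∈ M, P' j = m * P j

theorem qo_four {n : ℕ} {M : Subgroup G} [hM : M.Normal] (F : L.QoClose n M) {E : GH G} {Θ : ℕ}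
    (C : L.Cone E Θ) (hn : 24 * L.thr + T * (2 * c + 1) + 4 * (T * Θ + 1) ≤ n) (u p v z : G ⧸ M) :
    E.qoLen M (u⁻¹ * v) + E.qoLen M (z⁻¹ * p) ≤
      max (E.qoLen M (u⁻¹ * z) + E.qoLen M (v⁻¹ * p)) (E.qoLen M (u⁻¹ * p) + E.qoLen M (v⁻¹ * z)) + E.D := by
  obtain ⟨P0, h0⟩ := QuotientGroup.mk_surjective u
  obtain ⟨P1, h1, d1⟩ := E.qoLen_lift M P0 p
  obtain ⟨P2, h2, d2⟩ := E.qoLen_lift M P1 v
  obtain ⟨P3, h3, d3⟩ := E.qoLen_lift M P2 z
  obtain ⟨P4, h4, d4⟩ := E.qoLen_lift M P3 u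
  have h0' : (P0 : G ⧸ M) = u := h0
  obtain ⟨m, hm, hm4⟩ := GH.qo_of_coe_eq M (h0'.trans h4.symm)
  rw [h0'] at d1
  rw [h1] at d2
  rw [h2] at d3
  rw [h3] at d4
  let P : ℕ → G := fun j => match j with
    | 0 => P0
    | 1 => P1
    | 2 => P2
    | 3 => P3
    | _ => P4
  let l : ℕ → ℕ := fun j => match j with
    | 0 => E.qoLen M (u⁻¹ * p)
    | 1 => E.qoLen M (p⁻¹ * v)
    | 2 => E.qoLen M (v⁻¹ * z)
    | _ => E.qoLen M (z⁻¹ * u)
  obtain ⟨P', hR, hc, hP'⟩ := F (T * Θ + 1) 4 (by omega) (by omega)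
    (fun j a b => E.d a b ≤ l j)
    (fun j _ m _ a b h => by rw [E.d_mul]; exact h)
    (fun j _ a b h i u' hs l' => by
      refine (L.qo_rot C ?_ _).trans h
      have q1 := L.qo_lin i (L.s i u' a b)
      have q2 : ((T * Θ + 1 : ℕ) : ℤ) ≤ (T : ℤ) * L.D i u' a b := hs.trans q1
      have q3 : T * Θ + 1 ≤ T * L.D i u' a b := by exact_mod_cast q2
      by_contra h5
      push Not at h5
      have q4 : T * L.D i u' a b ≤ T * Θ := Nat.mul_le_mul_left T h5.le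
      omega)
    P (fun j hj => by
      rcases (by omega : j = 0 ∨ j = 1 ∨ j = 2 ∨ j = 3) with rfl | rfl | rfl | rfl
      · exact d1.le
      · exact d2.le
      · exact d3.le
      · exact d4.le)
    ⟨m, hm, hm4⟩
  have e : ∀ j ≤ 4, (P' j : G ⧸ M) = (P j : G ⧸ M) := by
    intro j hj
    obtain ⟨m', hm', h⟩ := hP' j hj
    rw [h]
    exact GH.qo_coe_mul M hm' _
  have r0 : E.d (P' 0) (P' 1) ≤ E.qoLen M (u⁻¹ * p) := hR 0 (by norm_num)
  have r1 : E.d (P' 1) (P' 2) ≤ E.qoLen M (p⁻¹ * v) := hR 1 (by norm_num)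
  have r2 : E.d (P' 2) (P' 3) ≤ E.qoLen M (v⁻¹ * z) := hR 2 (by norm_num)
  have r3 : E.d (P' 3) (P' 4) ≤ E.qoLen M (z⁻¹ * u) := hR 3 (by norm_num)
  rw [hc] at r3
  have f := E.fp (P' 0) (P' 2) (P' 3) (P' 1)
  have g1 := E.qoLen_d M (P' 0) (P' 2)
  have g2 := E.qoLen_d M (P' 3) (P' 1)
  rw [e 0 (by norm_num), e 2 (by norm_num)] at g1
  rw [e 3 (by norm_num), e 1 (by norm_num)] at g2
  have a0 : (P 0 : G ⧸ M) = u := h0'
  have a1 : (P 1 : G ⧸ M) = p := h1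
  have a2 : (P 2 : G ⧸ M) = v := h2
  have a3 : (P 3 : G ⧸ M) = z := h3
  rw [a0, a2] at g1
  rw [a3, a1] at g2
  have c1 : E.qoLen M (z⁻¹ * u) = E.qoLen M (u⁻¹ * z) := by
    rw [← E.qoLen_inv]; congr 1; group
  have c2 : E.qoLen M (p⁻¹ * v) = E.qoLen M (v⁻¹ * p) := by
    rw [← E.qoLen_inv]; congr 1; group
  have c3 := E.d_comm (P' 0) (P' 3)
  have c4 := E.d_comm (P' 1) (P' 2)
  omega

theorem qo_exists {n : ℕ} {M : Subgroup G} [M.Normal] (F : L.QoClose n M) {E : GH G} {Θ : ℕ}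
    (C : L.Cone E Θ)
    (hn : 24 * L.thr + T * (2 * c + 1) + 4 * (T * Θ + 1) ≤ n) :
    ∃ Q : GH (G ⧸ M), Q.D = 2 * E.D + 2 ∧ (∀ g : G, Q.len (g : G ⧸ M) ≤ E.len g) ∧
      ∀ q : G ⧸ M, ∃ g : G, (g : G ⧸ M) = q ∧ E.len g = Q.len q := by
  refine ⟨{ len := E.qoLen M
            D := 2 * E.D + 2
            len_one := E.qoLen_one M
            eq_one := E.qoLen_eq_one M
            len_inv := E.qoLen_inv M
            len_mul := E.qoLen_mul M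
            fp' := fun u v w z => ?_
            step := E.qoLen_step M }, rfl, fun g => E.qoLen_le M g, fun q => E.qoLen_rep M q⟩
  have h := L.qo_four F C hn u z v w
  omega

end LS

end Pool.Agent.TH54.BU
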